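import Pool.Agent.LibZT69.Defs
import Pool.Agent.LibZD69.B2

set_option autoImplicit false

namespace Pool.Agent.LibZT69

open Pool.Agent.LibZD69

open Pool.Agent.LibNZ69

private theorem B3_mem {A : Finset ℕ} (hA : ∀ x ∈ A, 1 ≤ x) {n : ℕ} {w : List ℕ}
    (hw : w ∈ wd (Pool.Agent.LibNW69.letters A) n) : w.length = n ∧ ∀ x ∈ w, 1 ≤ x := by
  rw [Pool.Agent.LibNW69.mem_wd_letters] at hw
  exact ⟨hw.1, fun x hx => hA x (hw.2 x hx)⟩

/-- the telescoping majorant -/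
private noncomputable def B3_F (w : List ℕ) : ℝ :=
  1 / ((kk w : ℝ) * ((kk w : ℝ) + ((con w).2 : ℝ)))

private theorem B3_tel (K K' : ℝ) (hK : 0 < K) (hK' : 0 ≤ K') (m : ℕ) :
    ∑ x ∈ Finset.Icc 1 m, 1 / (((x : ℝ) * K + K') * ((x : ℝ) * K + K' + K)) =
      1 / K * (1 / (K + K') - 1 / (((m : ℝ) + 1) * K + K')) := by
  induction m with
  | zero => simp
  | succ m ih =>
    rw [Finset.sum_Icc_succ_top (by omega), ih]
    have h1 : (0 : ℝ) < ((m : ℝ) + 1) * K + K' := by positivity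
    have h2 : (0 : ℝ) < ((m : ℝ) + 1 + 1) * K + K' := by positivity
    have h3 : (0 : ℝ) < ((m : ℝ) + 1) * K + K' + K := by positivity
    have h4 : (0 : ℝ) < K + K' := by positivity
    push_cast
    have h5 : ((m : ℝ) + 1) * K + K' + K = ((m : ℝ) + 1 + 1) * K + K' := by ring
    rw [h5]
    field_simp
    ring

private theorem B3_step (A : Finset ℕ) (hA : ∀ x ∈ A, 1 ≤ x) (w : List ℕ)
    (hw : ∀ x ∈ w, 1 ≤ x) : ∑ x ∈ A, B3_F (x :: w) ≤ B3_F w := by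
  have hK : (0 : ℝ) < (kk w : ℝ) := by exact_mod_cast kk_pos w hw
  have hK' : (0 : ℝ) ≤ ((con w).2 : ℝ) := Nat.cast_nonneg _
  obtain ⟨m, hm⟩ : ∃ m, A ⊆ Finset.Icc 1 m :=
    ⟨A.sup id, fun x hx => Finset.mem_Icc.2 ⟨hA x hx, Finset.le_sup (f := id) hx⟩⟩
  have hF : ∀ x : ℕ, B3_F (x :: w) =
      1 / (((x : ℝ) * (kk w : ℝ) + ((con w).2 : ℝ)) *
        ((x : ℝ) * (kk w : ℝ) + ((con w).2 : ℝ) + (kk w : ℝ))) := by
    intro x
    unfold B3_F
    rw [con_cons_snd, kk_cons]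
    push_cast
    rfl
  calc ∑ x ∈ A, B3_F (x :: w) ≤ ∑ x ∈ Finset.Icc 1 m, B3_F (x :: w) := by
        refine Finset.sum_le_sum_of_subset_of_nonneg hm fun x _ _ => ?_
        rw [hF x]
        positivity
    _ = 1 / (kk w : ℝ) * (1 / ((kk w : ℝ) + ((con w).2 : ℝ)) -
          1 / (((m : ℝ) + 1) * (kk w : ℝ) + ((con w).2 : ℝ))) := by
        rw [← B3_tel _ _ hK hK' m]
        exact Finset.sum_congr rfl fun x _ => hF x
    _ ≤ 1 / (kk w : ℝ) * (1 / ((kk w : ℝ) + ((con w).2 : ℝ))) := by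
        refine mul_le_mul_of_nonneg_left ?_ (by positivity)
        have : (0 : ℝ) ≤ 1 / (((m : ℝ) + 1) * (kk w : ℝ) + ((con w).2 : ℝ)) := by positivity
        linarith
    _ = B3_F w := by
        unfold B3_F
        rw [one_div_mul_one_div]

private theorem B3_sum (A : Finset ℕ) (hA : ∀ x ∈ A, 1 ≤ x) (n : ℕ) :
    ∑ w ∈ wd (Pool.Agent.LibNW69.letters A) n, B3_F w ≤ 1 := by
  induction n with
  | zero =>
    rw [wl_zero, Finset.sum_singleton]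
    unfold B3_F
    simp [kk, con]
  | succ n ih =>
    rw [wl_sum_succ, Finset.sum_comm]
    refine le_trans (Finset.sum_le_sum fun w hw => ?_) ih
    exact B3_step A hA w (B3_mem hA hw).2

/-- Row B3a (SHORT/MEDIUM). `∑_{|w| = n} 1 / (K (K + K')) ≤ 1` with `K = kk w`, `K' = (con w).2`, by
induction: `∑_{x ≥ 1} 1 / ((x K + K') ((x+1) K + K')) ≤ 1 / (K (K + K'))` telescopes; and
`K (K + K') ≤ 2 K²`. -/
theorem ZZ_two_le (A : Finset ℕ) (hA : ∀ x ∈ A, 1 ≤ x) (n : ℕ) : ZZ A 2 n ≤ 2 := by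
  have h1 : ZZ A 2 n ≤ ∑ w ∈ wd (Pool.Agent.LibNW69.letters A) n, 2 * B3_F w := by
    unfold ZZ
    refine Finset.sum_le_sum fun w hw => ?_
    have hw' := (B3_mem hA hw).2
    have hK : (0 : ℝ) < (kk w : ℝ) := by exact_mod_cast kk_pos w hw'
    have hK' : ((con w).2 : ℝ) ≤ (kk w : ℝ) := by exact_mod_cast con_snd_le w hw'
    have hK0 : (0 : ℝ) ≤ ((con w).2 : ℝ) := Nat.cast_nonneg _
    have e1 : (kk w : ℝ) ^ (-(2 : ℝ)) = 1 / ((kk w : ℝ) * (kk w : ℝ)) := by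
      rw [Real.rpow_neg hK.le, Real.rpow_two, one_div, sq]
    rw [e1]
    unfold B3_F
    rw [mul_one_div, div_le_div_iff₀ (by positivity) (by positivity)]
    nlinarith [mul_pos hK hK]
  rw [← Finset.mul_sum] at h1
  have h2 := B3_sum A hA n
  linarith

/-- Row B3b (SHORT). If `2 < s` then `ZZ A s n ≤ n^(-(s-2)) ZZ A 2 n` (`length_le_kk`) tends to `0`. -/
theorem bowen_le_two (A : Finset ℕ) (hA : ∀ x ∈ A, 1 ≤ x) (s : ℝ) (h : ∀ n, 1 ≤ ZZ A s n) :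
    s ≤ 2 := by
  by_contra hs
  push Not at hs
  have hpos : 0 < s - 2 := by linarith
  obtain ⟨n, hn⟩ := (((tendsto_rpow_atTop hpos).comp tendsto_natCast_atTop_atTop).eventually
    (Filter.eventually_gt_atTop (2 : ℝ))).exists
  simp only [Function.comp] at hn
  have hn0 : 0 < n := by
    rcases Nat.eq_zero_or_pos n with h0 | h0
    · subst h0
      rw [Nat.cast_zero, Real.zero_rpow hpos.ne'] at hn
      linarith
    · exact h0
  have hnr : (0 : ℝ) < (n : ℝ) := by exact_mod_cast hn0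
  have hnp : (0 : ℝ) < (n : ℝ) ^ (s - 2) := Real.rpow_pos_of_pos hnr _
  have h1 : ZZ A s n ≤ ((n : ℝ) ^ (s - 2))⁻¹ * ZZ A 2 n := by
    unfold ZZ
    rw [Finset.mul_sum]
    refine Finset.sum_le_sum fun w hw => ?_
    obtain ⟨hl, hw'⟩ := B3_mem hA hw
    have hK : (0 : ℝ) < (kk w : ℝ) := by exact_mod_cast kk_pos w hw'
    have hKn : (n : ℝ) ≤ (kk w : ℝ) := by
      have := length_le_kk w hw'
      rw [hl] at this
      exact_mod_cast this
    have e1 : (kk w : ℝ) ^ (-s) = ((kk w : ℝ) ^ (s - 2))⁻¹ * (kk w : ℝ) ^ (-(2 : ℝ)) := by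
      rw [← Real.rpow_neg hK.le, ← Real.rpow_add hK]
      congr 1
      ring
    rw [e1]
    refine mul_le_mul_of_nonneg_right ?_ (Real.rpow_nonneg hK.le _)
    exact inv_anti₀ hnp (Real.rpow_le_rpow hnr.le hKn hpos.le)
  have h2 := ZZ_two_le A hA n
  have h3 := h n
  have h4 : ((n : ℝ) ^ (s - 2))⁻¹ * ZZ A 2 n ≤ ((n : ℝ) ^ (s - 2))⁻¹ * 2 :=
    mul_le_mul_of_nonneg_left h2 (by positivity)
  have h5 : ((n : ℝ) ^ (s - 2))⁻¹ * 2 < 1 := by
    rw [inv_mul_lt_iff₀ hnp]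
    linarith
  linarith

/-- Row B3c (SHORT). `exists_bowen`; `σ ≤ s` because `1 ≤ ZZ A σ n` for all `n`: otherwise
`ZZ A σ (k n) ≤ (ZZ A σ n)^k → 0`, against `hc`. `2^s ≤ 4`. -/
theorem exists_PB (A : Finset ℕ) (a : ℕ) (h1 : 1 ∈ A) (h2 : 2 ∈ A) (hA : ∀ x ∈ A, 1 ≤ x ∧ x < a)
    (ha : 4 ≤ a) (σ c : ℝ) (hσ : 1 < σ) (hc0 : 0 < c) (hc : ∀ l, c ≤ ZZ A σ l) :
    ∃ s : ℝ, PB A a s := by
  have hA' : ∀ x ∈ A, 1 ≤ x := fun x hx => (hA x hx).1
  obtain ⟨s, hs0, hlo, hhi, hmax⟩ := exists_bowen A hA' ⟨1, h1⟩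
  have hs2 : s ≤ 2 := bowen_le_two A hA' s hlo
  have hσ0 : 0 ≤ σ := by linarith
  have hnn : ∀ n, 0 ≤ ZZ A σ n := fun n =>
    Finset.sum_nonneg fun w _ => Real.rpow_nonneg (Nat.cast_nonneg _) _
  have hσs : σ ≤ s := by
    refine hmax σ fun n => ?_
    by_contra hlt
    push Not at hlt
    have hpow : ∀ k : ℕ, ZZ A σ (k * n) ≤ (ZZ A σ n) ^ k := by
      intro k
      induction k with
      | zero =>
        rw [Nat.zero_mul, pow_zero]
        unfold ZZ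
        rw [wl_zero, Finset.sum_singleton]
        simp [kk, con]
      | succ k ih =>
        rw [Nat.succ_mul, pow_succ]
        exact le_trans (ZZ_add_le A hA' σ hσ0 _ _) (mul_le_mul_of_nonneg_right ih (hnn n))
    obtain ⟨k, hk⟩ := exists_pow_lt_of_lt_one hc0 hlt
    have := hc (k * n)
    linarith [hpow k]
  refine ⟨s, ⟨h1, h2, hA, ha, by linarith, hs2, hlo, fun n => le_trans (hhi n) ?_⟩⟩
  calc (2 : ℝ) ^ s ≤ (2 : ℝ) ^ (2 : ℝ) := Real.rpow_le_rpow_of_exponent_le (by norm_num) hs2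
    _ = 4 := by norm_num

end Pool.Agent.LibZT69
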