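import Pool.Agent.LibZT69.Defs
import Pool.Agent.LibZT69.B4

set_option autoImplicit false

namespace Pool.Agent.LibZT69

open Pool.Agent.LibZD69

open Pool.Agent.LibNZ69

private lemma C1_kk_pos (w : List ℕ) (h : ∀ x ∈ w, 1 ≤ x) : 1 ≤ kk w := by
  induction w with
  | nil => simp [kk, con]
  | cons x l ih =>
    have h1 : 1 ≤ x := h x (by simp)
    have h2 : 1 ≤ kk l := ih (fun y hy => h y (by simp [hy]))
    have h3 : kk (x :: l) = x * kk l + (con l).2 := rfl
    rw [h3]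
    have h4 := Nat.mul_le_mul h1 h2
    omega

private lemma C1_inc (a : ℕ → ℝ) (h0 : ∀ k, 0 ≤ a k) (h : ∀ k, 2 * a k ≤ a (k + 1)) (n : ℕ) :
    ∑ k ∈ Finset.range n, a k ≤ a n := by
  induction n with
  | zero => simpa using h0 0
  | succ n ih => rw [Finset.sum_range_succ]; linarith [h n]

private lemma C1_dec (b : ℕ → ℝ) (h0 : ∀ k, 0 ≤ b k) (h : ∀ k, 2 * b (k + 1) ≤ b k) (m n : ℕ)
    (hmn : m ≤ n) : ∑ k ∈ Finset.Ico m n, b k ≤ 2 * b m := by
  have h3 : ∑ k ∈ Finset.Ico m n, b k + 2 * b n ≤ 2 * b m := by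
    induction n, hmn using Nat.le_induction with
    | base => simp
    | succ n hn ih => rw [Finset.sum_Ico_succ_top hn]; linarith [h n]
  linarith [h0 n]

private lemma C1_sq (s : ℝ) (h1 : 1 < s) (h2 : s ≤ 2) (α β : ℝ) (ha : 0 < α) (hb : 0 < β)
    (t : ℝ) (ht : 0 ≤ t) (h : t ^ 2 ≤ 2 * (α * β)) : t ^ s ≤ 2 * (α * β) ^ (s / 2) := by
  have e1 : t ^ s = (t ^ 2) ^ (s / 2) := by
    rw [← Real.rpow_natCast, ← Real.rpow_mul ht]
    congr 1
    push_cast
    ring
  rw [e1]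
  have e2 : (t ^ 2) ^ (s / 2) ≤ (2 * (α * β)) ^ (s / 2) :=
    Real.rpow_le_rpow (by positivity) h (by linarith)
  have e3 : (2 * (α * β)) ^ (s / 2) = (2 : ℝ) ^ (s / 2) * (α * β) ^ (s / 2) :=
    Real.mul_rpow (by norm_num) (by positivity)
  have e4 : (2 : ℝ) ^ (s / 2) ≤ 2 := by
    calc (2 : ℝ) ^ (s / 2) ≤ (2 : ℝ) ^ (1 : ℝ) :=
          Real.rpow_le_rpow_of_exponent_le (by norm_num) (by linarith)
      _ = 2 := Real.rpow_one 2
  have e5 : (0 : ℝ) ≤ (α * β) ^ (s / 2) := by positivity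
  calc (t ^ 2) ^ (s / 2) ≤ (2 : ℝ) ^ (s / 2) * (α * β) ^ (s / 2) := by rw [← e3]; exact e2
    _ ≤ 2 * (α * β) ^ (s / 2) := mul_le_mul_of_nonneg_right e4 e5

private lemma C1_geo (s : ℝ) (h1 : 1 < s) (h2 : s ≤ 2) (α β : ℝ) (ha : 0 < α) (hb : 0 < β)
    (n : ℕ) :
    ∑ k ∈ Finset.range n, (min (2 * α / 2 ^ k) (β * 2 ^ k)) ^ s ≤ 12 * (α * β) ^ (s / 2) := by
  have hE : (0 : ℝ) ≤ (α * β) ^ (s / 2) := by positivity
  have h2s : (2 : ℝ) ≤ (2 : ℝ) ^ s := by
    calc (2 : ℝ) = (2 : ℝ) ^ (1 : ℝ) := (Real.rpow_one 2).symm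
      _ ≤ (2 : ℝ) ^ s := Real.rpow_le_rpow_of_exponent_le (by norm_num) (by linarith)
  have h2s' : (2 : ℝ) ^ s ≤ 4 := by
    calc (2 : ℝ) ^ s ≤ (2 : ℝ) ^ (2 : ℝ) :=
          Real.rpow_le_rpow_of_exponent_le (by norm_num) h2
      _ = 4 := by norm_num
  have hv : ∀ k : ℕ, (β * 2 ^ (k + 1)) ^ s = (2 : ℝ) ^ s * (β * 2 ^ k) ^ s := by
    intro k
    rw [← Real.mul_rpow (by norm_num) (by positivity)]
    congr 1
    ring
  have hu : ∀ k : ℕ, (2 * α / 2 ^ k) ^ s = (2 : ℝ) ^ s * (2 * α / 2 ^ (k + 1)) ^ s := by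
    intro k
    rw [← Real.mul_rpow (by norm_num) (by positivity)]
    congr 1
    rw [pow_succ]
    field_simp
  have huv : ∀ k : ℕ, (2 * α / 2 ^ k) * (β * 2 ^ k) = 2 * (α * β) := by
    intro k
    field_simp
  have hex : ∃ m : ℕ, 2 * α / 2 ^ m < β * 2 ^ m := by
    obtain ⟨m, hm⟩ := pow_unbounded_of_one_lt (2 * α / β) (by norm_num : (1 : ℝ) < 4)
    refine ⟨m, ?_⟩
    rw [div_lt_iff₀ (by positivity)]
    rw [div_lt_iff₀ hb] at hm
    have e4 : (4 : ℝ) ^ m = 2 ^ m * 2 ^ m := by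
      rw [← mul_pow]; norm_num
    rw [e4] at hm
    linarith
  classical
  have hspec := Nat.find_spec hex
  have hmin : ∀ k, k < Nat.find hex → β * 2 ^ k ≤ 2 * α / 2 ^ k := by
    intro k hk
    have := Nat.find_min hex hk
    exact not_lt.mp this
  set n0 := Nat.find hex with hn0
  have hsum1 : ∑ k ∈ Finset.range n0, (min (2 * α / 2 ^ k) (β * 2 ^ k)) ^ s ≤
      8 * (α * β) ^ (s / 2) := by
    have e1 : ∑ k ∈ Finset.range n0, (min (2 * α / 2 ^ k) (β * 2 ^ k)) ^ s ≤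
        ∑ k ∈ Finset.range n0, (β * 2 ^ k) ^ s := by
      apply Finset.sum_le_sum
      intro k hk
      exact Real.rpow_le_rpow (by positivity) (min_le_right _ _) (by linarith)
    rcases Nat.eq_zero_or_pos n0 with h0 | h0
    · rw [h0]
      simp only [Finset.range_zero, Finset.sum_empty]
      positivity
    · have e2 : ∑ k ∈ Finset.range n0, (β * 2 ^ k) ^ s ≤ (β * 2 ^ n0) ^ s :=
        C1_inc (fun k => (β * 2 ^ k) ^ s) (fun k => by positivity)
          (fun k => by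
            simp only [hv k]
            exact mul_le_mul_of_nonneg_right h2s (by positivity)) n0
      obtain ⟨m, hm⟩ : ∃ m, n0 = m + 1 := ⟨n0 - 1, by omega⟩
      have e3 : (β * 2 ^ n0) ^ s = (2 : ℝ) ^ s * (β * 2 ^ m) ^ s := by rw [hm]; exact hv m
      have e4 : (β * 2 ^ m) ^ s ≤ 2 * (α * β) ^ (s / 2) := by
        apply C1_sq s h1 h2 α β ha hb _ (by positivity)
        have e5 := hmin m (by omega)
        have e6 := huv m
        have e7 : (0 : ℝ) < β * 2 ^ m := by positivity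
        nlinarith
      have e8 : (0 : ℝ) ≤ (β * 2 ^ m) ^ s := by positivity
      calc ∑ k ∈ Finset.range n0, (min (2 * α / 2 ^ k) (β * 2 ^ k)) ^ s
          ≤ (2 : ℝ) ^ s * (β * 2 ^ m) ^ s := by rw [← e3]; exact le_trans e1 e2
        _ ≤ 4 * (2 * (α * β) ^ (s / 2)) :=
            mul_le_mul h2s' e4 e8 (by norm_num)
        _ = 8 * (α * β) ^ (s / 2) := by ring
  have hsum2 : ∀ n1, n0 ≤ n1 →
      ∑ k ∈ Finset.Ico n0 n1, (min (2 * α / 2 ^ k) (β * 2 ^ k)) ^ s ≤ 4 * (α * β) ^ (s / 2) := by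
    intro n1 hn1
    have e1 : ∑ k ∈ Finset.Ico n0 n1, (min (2 * α / 2 ^ k) (β * 2 ^ k)) ^ s ≤
        ∑ k ∈ Finset.Ico n0 n1, (2 * α / 2 ^ k) ^ s := by
      apply Finset.sum_le_sum
      intro k hk
      exact Real.rpow_le_rpow (by positivity) (min_le_left _ _) (by linarith)
    have e2 : ∑ k ∈ Finset.Ico n0 n1, (2 * α / 2 ^ k) ^ s ≤ 2 * (2 * α / 2 ^ n0) ^ s :=
      C1_dec (fun k => (2 * α / 2 ^ k) ^ s) (fun k => by positivity)
        (fun k => by
          simp only [hu k]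
          exact mul_le_mul_of_nonneg_right h2s (by positivity)) n0 n1 hn1
    have e3 : (2 * α / 2 ^ n0) ^ s ≤ 2 * (α * β) ^ (s / 2) := by
      apply C1_sq s h1 h2 α β ha hb _ (by positivity)
      have e6 := huv n0
      have e7 : (0 : ℝ) < 2 * α / 2 ^ n0 := by positivity
      nlinarith
    linarith
  have hmx : ∑ k ∈ Finset.range n, (min (2 * α / 2 ^ k) (β * 2 ^ k)) ^ s ≤
      ∑ k ∈ Finset.range (max n n0), (min (2 * α / 2 ^ k) (β * 2 ^ k)) ^ s := by
    apply Finset.sum_le_sum_of_subset_of_nonneg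
    · intro k hk
      simp only [Finset.mem_range] at hk ⊢
      exact lt_of_lt_of_le hk (le_max_left _ _)
    · intro k _ _
      exact Real.rpow_nonneg (by positivity) _
  have hsp := Finset.sum_range_add_sum_Ico
    (fun k => (min (2 * α / 2 ^ k) (β * 2 ^ k)) ^ s) (le_max_right n n0)
  have h5 := hsum2 (max n n0) (le_max_right n n0)
  linarith

/-- Row C1 (MEDIUM). Sum over a chain of nested words. All the words of `𝒬` are suffixes of the
longest one. By `card_suffix_le` (with `P = 2^k`) at most 3 of them have `2^(k-1) < kk ≤ 2^k`; for such a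
word `min (α/kk) (β kk) ≤ min (2 α 2^(-k)) (β 2^k)`, and
`min u v ^ s = (u v)^(s/2) min (u/v) (v/u)^(s/2)` with `u v = 2 α β`, `u / v = (2 α/β) 4^(-k)`: the sum over
`k` of `min (x 4^(-k)) (4^k / x)^(s/2)` is at most `2 / (1 - 4^(-3/4))`. -/
theorem chain_sum (s : ℝ) (h1 : 1 < s) (h2 : s ≤ 2) : ∃ C : ℝ, 1 ≤ C ∧
    ∀ Q : Finset (List ℕ), (∀ q ∈ Q, ∀ q' ∈ Q, q <:+ q' ∨ q' <:+ q) →
      (∀ q ∈ Q, ∀ x ∈ q, 1 ≤ x) → ∀ α β : ℝ, 0 ≤ α → 0 ≤ β →
        ∑ q ∈ Q, (min (α / kk q) (β * kk q)) ^ s ≤ C * (α * β) ^ (s / 2) := by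
  refine ⟨36, by norm_num, ?_⟩
  intro Q hQ hx α β hα hβ
  have hs0 : s ≠ 0 := by linarith
  rcases hα.eq_or_lt with ha | ha
  · have e : ∑ q ∈ Q, (min (α / kk q) (β * kk q)) ^ s = 0 := by
      apply Finset.sum_eq_zero
      intro q _
      have e1 : min (α / kk q) (β * kk q) = 0 := by
        rw [← ha, zero_div]
        exact min_eq_left (by positivity)
      rw [e1]
      exact Real.zero_rpow hs0
    rw [e]
    positivity
  rcases hβ.eq_or_lt with hb | hb
  · have e : ∑ q ∈ Q, (min (α / kk q) (β * kk q)) ^ s = 0 := by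
      apply Finset.sum_eq_zero
      intro q _
      have e1 : min (α / kk q) (β * kk q) = 0 := by
        rw [← hb, zero_mul]
        exact min_eq_right (by positivity)
      rw [e1]
      exact Real.zero_rpow hs0
    rw [e]
    positivity
  rcases Q.eq_empty_or_nonempty with hQe | hQne
  · rw [hQe, Finset.sum_empty]
    positivity
  obtain ⟨z, hz, hzmax⟩ := Finset.exists_max_image Q List.length hQne
  have hsuf : ∀ q ∈ Q, q <:+ z := by
    intro q hq
    rcases hQ q hq z hz with h | h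
    · exact h
    · have h3 := h.eq_of_length_le (hzmax q hq)
      rw [h3]
  classical
  have hmaps : ∀ q ∈ Q, Nat.clog 2 (kk q) ∈
      Finset.range (Q.sup (fun q => Nat.clog 2 (kk q)) + 1) := by
    intro q hq
    rw [Finset.mem_range]
    have := Finset.le_sup (f := fun q => Nat.clog 2 (kk q)) hq
    omega
  rw [← Finset.sum_fiberwise_of_maps_to hmaps (fun q => (min (α / kk q) (β * kk q)) ^ s)]
  have hin : ∀ k : ℕ, ∑ q ∈ Q with Nat.clog 2 (kk q) = k, (min (α / kk q) (β * kk q)) ^ s ≤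
      3 * (min (2 * α / 2 ^ k) (β * 2 ^ k)) ^ s := by
    intro k
    have hcard : (Q.filter (fun q => Nat.clog 2 (kk q) = k)).card ≤ 3 := by
      refine le_trans (Finset.card_le_card ?_) (card_suffix_le z (hx z hz) (2 ^ k))
      intro q hq
      rw [Finset.mem_filter] at hq
      obtain ⟨hq1, hq2⟩ := hq
      have hkp := C1_kk_pos q (hx q hq1)
      rw [Finset.mem_filter, List.mem_toFinset, List.mem_tails]
      refine ⟨hsuf q hq1, ?_, ?_⟩
      · rcases Nat.eq_zero_or_pos k with h0 | h0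
        · rw [h0]; omega
        · have h3 : 2 ^ (k - 1) < kk q := by
            rw [← Nat.lt_clog_iff_pow_lt (by norm_num)]
            omega
          have h4 : 2 ^ k = 2 * 2 ^ (k - 1) := by
            rw [← pow_succ']
            congr 1
            omega
          rw [h4]
          omega
      · rw [← hq2]
        exact Nat.le_pow_clog (by norm_num) _
    have hterm : ∀ q ∈ Q.filter (fun q => Nat.clog 2 (kk q) = k),
        (min (α / kk q) (β * kk q)) ^ s ≤ (min (2 * α / 2 ^ k) (β * 2 ^ k)) ^ s := by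
      intro q hq
      rw [Finset.mem_filter] at hq
      obtain ⟨hq1, hq2⟩ := hq
      have hkp := C1_kk_pos q (hx q hq1)
      have hkR : (0 : ℝ) < (kk q : ℝ) := by exact_mod_cast hkp
      have hup : (kk q : ℝ) ≤ 2 ^ k := by
        have h3 : kk q ≤ 2 ^ k := by
          rw [← hq2]
          exact Nat.le_pow_clog (by norm_num) _
        exact_mod_cast h3
      have hlo : (2 : ℝ) ^ k ≤ 2 * (kk q : ℝ) := by
        have h3 : 2 ^ k ≤ 2 * kk q := by
          rcases Nat.eq_zero_or_pos k with h0 | h0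
          · rw [h0]; omega
          · have h3 : 2 ^ (k - 1) < kk q := by
              rw [← Nat.lt_clog_iff_pow_lt (by norm_num)]
              omega
            have h4 : 2 ^ k = 2 * 2 ^ (k - 1) := by
              rw [← pow_succ']
              congr 1
              omega
            rw [h4]
            omega
        exact_mod_cast h3
      apply Real.rpow_le_rpow (by positivity) _ (by linarith)
      apply min_le_min
      · rw [div_le_div_iff₀ hkR (by positivity)]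
        nlinarith
      · exact mul_le_mul_of_nonneg_left hup hb.le
    have hnn : (0 : ℝ) ≤ (min (2 * α / 2 ^ k) (β * 2 ^ k)) ^ s :=
      Real.rpow_nonneg (by positivity) _
    calc ∑ q ∈ Q with Nat.clog 2 (kk q) = k, (min (α / kk q) (β * kk q)) ^ s
        ≤ (Q.filter (fun q => Nat.clog 2 (kk q) = k)).card •
            (min (2 * α / 2 ^ k) (β * 2 ^ k)) ^ s := Finset.sum_le_card_nsmul _ _ _ hterm
      _ = ((Q.filter (fun q => Nat.clog 2 (kk q) = k)).card : ℝ) *
            (min (2 * α / 2 ^ k) (β * 2 ^ k)) ^ s := nsmul_eq_mul _ _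
      _ ≤ 3 * (min (2 * α / 2 ^ k) (β * 2 ^ k)) ^ s :=
          mul_le_mul_of_nonneg_right (by exact_mod_cast hcard) hnn
  calc _ ≤ ∑ k ∈ Finset.range (Q.sup (fun q => Nat.clog 2 (kk q)) + 1),
        3 * (min (2 * α / 2 ^ k) (β * 2 ^ k)) ^ s := Finset.sum_le_sum (fun k _ => hin k)
    _ = 3 * ∑ k ∈ Finset.range (Q.sup (fun q => Nat.clog 2 (kk q)) + 1),
        (min (2 * α / 2 ^ k) (β * 2 ^ k)) ^ s := by rw [Finset.mul_sum]
    _ ≤ 3 * (12 * (α * β) ^ (s / 2)) :=
        mul_le_mul_of_nonneg_left (C1_geo s h1 h2 α β ha hb _) (by norm_num)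
    _ = 36 * (α * β) ^ (s / 2) := by ring

end Pool.Agent.LibZT69
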