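import Pool.Agent.LibZT69.Defs
import Pool.Agent.LibZD69.B1
import Pool.Agent.LibNW69.SEP

set_option autoImplicit false

namespace Pool.Agent.LibZT69

open Pool.Agent.LibNZ69 Pool.Agent.LibZD69

private theorem C12_low (r t y : ℝ) (hr : 0 < r) (ht : 0 < t) (h : t ^ 50 ≤ r ^ 53)
    (hy : r ≤ y) : t ≤ y ^ (53 / 50 : ℝ) := by
  have h2 : (t ^ 50) ^ (1 / 50 : ℝ) ≤ (r ^ 53) ^ (1 / 50 : ℝ) :=
    Real.rpow_le_rpow (by positivity) h (by norm_num)
  have h3 : (t ^ 50) ^ (1 / 50 : ℝ) = t := by
    rw [← Real.rpow_natCast, ← Real.rpow_mul ht.le]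
    norm_num
  have h4 : (r ^ 53) ^ (1 / 50 : ℝ) = r ^ (53 / 50 : ℝ) := by
    rw [← Real.rpow_natCast, ← Real.rpow_mul hr.le]
    norm_num
  rw [h3, h4] at h2
  exact h2.trans (Real.rpow_le_rpow hr.le hy (by norm_num))

private theorem C12_piece (x u v r1 r2 t1 t2 : ℝ) (hu : u ≤ x) (hv : x ≤ v)
    (hu0 : 0 ≤ u) (hr1 : 0 < r1) (hr2 : 0 < r2) (ht1 : 0 < t1) (ht2 : 0 < t2)
    (h1 : t1 ^ 50 ≤ r1 ^ 53) (h2 : t2 ^ 50 ≤ r2 ^ 53)
    (m1 : 27 ≤ 50 * r1) (m2 : 50 * r2 ≤ 27)
    (b1 : r1 * (77 + 50 * v) ≤ 50 + 27 * v) (b2 : r2 * (127 + 50 * u) ≤ 50 + 27 * u)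
    (hs : 1 ≤ t1 + t2) :
    1 ≤ ((50 + 27 * x) / (77 + 50 * x)) ^ (53 / 50 : ℝ) +
      ((50 + 27 * x) / (127 + 50 * x)) ^ (53 / 50 : ℝ) := by
  have k1 : r1 ≤ (50 + 27 * x) / (77 + 50 * x) := by
    rw [le_div_iff₀ (by linarith)]; nlinarith
  have k2 : r2 ≤ (50 + 27 * x) / (127 + 50 * x) := by
    rw [le_div_iff₀ (by linarith)]; nlinarith
  have e1 := C12_low r1 t1 _ hr1 ht1 h1 k1
  have e2 := C12_low r2 t2 _ hr2 ht2 h2 k2
  linarith

private theorem C12_all (x : ℝ) (h1 : 9 / 25 ≤ x) (h2 : x ≤ 37 / 50) :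
    1 ≤ ((50 + 27 * x) / (77 + 50 * x)) ^ (53 / 50 : ℝ) +
      ((50 + 27 * x) / (127 + 50 * x)) ^ (53 / 50 : ℝ) := by
  rcases le_or_gt x (451/1200) with c0 | c0
  · exact C12_piece x (9/25) (451/1200) (62789/100000) (20593/50000) (1221/2000) (781/2000)
      (by linarith) (by linarith)
      (by norm_num) (by norm_num) (by norm_num) (by norm_num) (by norm_num) (by norm_num)
      (by norm_num) (by norm_num) (by norm_num) (by norm_num) (by norm_num) (by norm_num)
  rcases le_or_gt x (47/120) with c1 | c1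
  · exact C12_piece x (451/1200) (47/120) (62717/100000) (8251/20000) (3049/5000) (489/1250)
      (by linarith) (by linarith)
      (by norm_num) (by norm_num) (by norm_num) (by norm_num) (by norm_num) (by norm_num)
      (by norm_num) (by norm_num) (by norm_num) (by norm_num) (by norm_num) (by norm_num)
  rcases le_or_gt x (163/400) with c2 | c2
  · exact C12_piece x (47/120) (163/400) (31323/50000) (10331/25000) (6091/10000) (1959/5000)
      (by linarith) (by linarith)
      (by norm_num) (by norm_num) (by norm_num) (by norm_num) (by norm_num) (by norm_num)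
      (by norm_num) (by norm_num) (by norm_num) (by norm_num) (by norm_num) (by norm_num)
  rcases le_or_gt x (127/300) with c3 | c3
  · exact C12_piece x (163/400) (127/300) (62577/100000) (2587/6250) (1521/2500) (157/400)
      (by linarith) (by linarith)
      (by norm_num) (by norm_num) (by norm_num) (by norm_num) (by norm_num) (by norm_num)
      (by norm_num) (by norm_num) (by norm_num) (by norm_num) (by norm_num) (by norm_num)
  rcases le_or_gt x (527/1200) with c4 | c4
  · exact C12_piece x (127/300) (527/1200) (15627/25000) (2073/5000) (6077/10000) (983/2500)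
      (by linarith) (by linarith)
      (by norm_num) (by norm_num) (by norm_num) (by norm_num) (by norm_num) (by norm_num)
      (by norm_num) (by norm_num) (by norm_num) (by norm_num) (by norm_num) (by norm_num)
  rcases le_or_gt x (91/200) with c5 | c5
  · exact C12_piece x (527/1200) (91/200) (62441/100000) (20763/50000) (607/1000) (3939/10000)
      (by linarith) (by linarith)
      (by norm_num) (by norm_num) (by norm_num) (by norm_num) (by norm_num) (by norm_num)
      (by norm_num) (by norm_num) (by norm_num) (by norm_num) (by norm_num) (by norm_num)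
  rcases le_or_gt x (113/240) with c6 | c6
  · exact C12_piece x (91/200) (113/240) (31187/50000) (5199/12500) (6063/10000) (789/2000)
      (by linarith) (by linarith)
      (by norm_num) (by norm_num) (by norm_num) (by norm_num) (by norm_num) (by norm_num)
      (by norm_num) (by norm_num) (by norm_num) (by norm_num) (by norm_num) (by norm_num)
  rcases le_or_gt x (73/150) with c7 | c7
  · exact C12_piece x (113/240) (73/150) (62309/100000) (41657/100000) (757/1250) (247/625)
      (by linarith) (by linarith)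
      (by norm_num) (by norm_num) (by norm_num) (by norm_num) (by norm_num) (by norm_num)
      (by norm_num) (by norm_num) (by norm_num) (by norm_num) (by norm_num) (by norm_num)
  rcases le_or_gt x (201/400) with c8 | c8
  · exact C12_piece x (73/150) (201/400) (15561/25000) (20861/50000) (6049/10000) (3959/10000)
      (by linarith) (by linarith)
      (by norm_num) (by norm_num) (by norm_num) (by norm_num) (by norm_num) (by norm_num)
      (by norm_num) (by norm_num) (by norm_num) (by norm_num) (by norm_num) (by norm_num)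
  rcases le_or_gt x (311/600) with c9 | c9
  · exact C12_piece x (201/400) (311/600) (62181/100000) (20893/50000) (6043/10000) (793/2000)
      (by linarith) (by linarith)
      (by norm_num) (by norm_num) (by norm_num) (by norm_num) (by norm_num) (by norm_num)
      (by norm_num) (by norm_num) (by norm_num) (by norm_num) (by norm_num) (by norm_num)
  rcases le_or_gt x (641/1200) with c10 | c10
  · exact C12_piece x (311/600) (641/1200) (31059/50000) (41849/100000) (1509/2500) (3971/10000)
      (by linarith) (by linarith)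
      (by norm_num) (by norm_num) (by norm_num) (by norm_num) (by norm_num) (by norm_num)
      (by norm_num) (by norm_num) (by norm_num) (by norm_num) (by norm_num) (by norm_num)
  rcases le_or_gt x (11/20) with c11 | c11
  · exact C12_piece x (641/1200) (11/20) (62057/100000) (5239/12500) (603/1000) (1989/5000)
      (by linarith) (by linarith)
      (by norm_num) (by norm_num) (by norm_num) (by norm_num) (by norm_num) (by norm_num)
      (by norm_num) (by norm_num) (by norm_num) (by norm_num) (by norm_num) (by norm_num)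
  rcases le_or_gt x (679/1200) with c12 | c12
  · exact C12_piece x (11/20) (679/1200) (15499/25000) (20987/50000) (753/1250) (249/625)
      (by linarith) (by linarith)
      (by norm_num) (by norm_num) (by norm_num) (by norm_num) (by norm_num) (by norm_num)
      (by norm_num) (by norm_num) (by norm_num) (by norm_num) (by norm_num) (by norm_num)
  rcases le_or_gt x (349/600) with c13 | c13
  · exact C12_piece x (679/1200) (349/600) (61937/100000) (8407/20000) (3009/5000) (399/1000)
      (by linarith) (by linarith)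
      (by norm_num) (by norm_num) (by norm_num) (by norm_num) (by norm_num) (by norm_num)
      (by norm_num) (by norm_num) (by norm_num) (by norm_num) (by norm_num) (by norm_num)
  rcases le_or_gt x (239/400) with c14 | c14
  · exact C12_piece x (349/600) (239/400) (30939/50000) (2631/6250) (1503/2500) (999/2500)
      (by linarith) (by linarith)
      (by norm_num) (by norm_num) (by norm_num) (by norm_num) (by norm_num) (by norm_num)
      (by norm_num) (by norm_num) (by norm_num) (by norm_num) (by norm_num) (by norm_num)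
  rcases le_or_gt x (46/75) with c15 | c15
  · exact C12_piece x (239/400) (46/75) (3091/5000) (10539/25000) (3003/5000) (2001/5000)
      (by linarith) (by linarith)
      (by norm_num) (by norm_num) (by norm_num) (by norm_num) (by norm_num) (by norm_num)
      (by norm_num) (by norm_num) (by norm_num) (by norm_num) (by norm_num) (by norm_num)
  rcases le_or_gt x (151/240) with c16 | c16
  · exact C12_piece x (46/75) (151/240) (61763/100000) (8443/20000) (3/5) (501/1250)
      (by linarith) (by linarith)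
      (by norm_num) (by norm_num) (by norm_num) (by norm_num) (by norm_num) (by norm_num)
      (by norm_num) (by norm_num) (by norm_num) (by norm_num) (by norm_num) (by norm_num)
  rcases le_or_gt x (129/200) with c17 | c17
  · exact C12_piece x (151/240) (129/200) (61707/100000) (21137/50000) (2997/5000) (2007/5000)
      (by linarith) (by linarith)
      (by norm_num) (by norm_num) (by norm_num) (by norm_num) (by norm_num) (by norm_num)
      (by norm_num) (by norm_num) (by norm_num) (by norm_num) (by norm_num) (by norm_num)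
  rcases le_or_gt x (793/1200) with c18 | c18
  · exact C12_piece x (129/200) (793/1200) (61651/100000) (10583/25000) (1497/2500) (201/500)
      (by linarith) (by linarith)
      (by norm_num) (by norm_num) (by norm_num) (by norm_num) (by norm_num) (by norm_num)
      (by norm_num) (by norm_num) (by norm_num) (by norm_num) (by norm_num) (by norm_num)
  rcases le_or_gt x (203/300) with c19 | c19
  · exact C12_piece x (793/1200) (203/300) (15399/25000) (4239/10000) (5983/10000) (2013/5000)
      (by linarith) (by linarith)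
      (by norm_num) (by norm_num) (by norm_num) (by norm_num) (by norm_num) (by norm_num)
      (by norm_num) (by norm_num) (by norm_num) (by norm_num) (by norm_num) (by norm_num)
  rcases le_or_gt x (277/400) with c20 | c20
  · exact C12_piece x (203/300) (277/400) (61543/100000) (42447/100000) (5977/10000) (4031/10000)
      (by linarith) (by linarith)
      (by norm_num) (by norm_num) (by norm_num) (by norm_num) (by norm_num) (by norm_num)
      (by norm_num) (by norm_num) (by norm_num) (by norm_num) (by norm_num) (by norm_num)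
  rcases le_or_gt x (17/24) with c21 | c21
  · exact C12_piece x (277/400) (17/24) (61489/100000) (5313/12500) (1493/2500) (4037/10000)
      (by linarith) (by linarith)
      (by norm_num) (by norm_num) (by norm_num) (by norm_num) (by norm_num) (by norm_num)
      (by norm_num) (by norm_num) (by norm_num) (by norm_num) (by norm_num) (by norm_num)
  rcases le_or_gt x (869/1200) with c22 | c22
  · exact C12_piece x (17/24) (869/1200) (61437/100000) (266/625) (2983/5000) (4043/10000)
      (by linarith) (by linarith)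
      (by norm_num) (by norm_num) (by norm_num) (by norm_num) (by norm_num) (by norm_num)
      (by norm_num) (by norm_num) (by norm_num) (by norm_num) (by norm_num) (by norm_num)
  exact C12_piece x (869/1200) (37/50) (12277/20000) (8523/20000) (5961/10000) (253/625)
      (by linarith) (by linarith)
      (by norm_num) (by norm_num) (by norm_num) (by norm_num) (by norm_num) (by norm_num)
      (by norm_num) (by norm_num) (by norm_num) (by norm_num) (by norm_num) (by norm_num)

/-- Row C12a (MEDIUM, numerical; compare `cert4_ineq` in `LibZD69/I4.lean`, finished). With `β = 27/50`, `σ = 53/50`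
and `x ∈ [9/25, 37/50]`: `(1 + β x)^(-σ) ≤ (1 + x + β)^(-σ) + (2 + x + β)^(-σ)`. Equivalent to
`ρ₁^σ + ρ₂^σ ≥ 1`, `ρ_k = (1 + β x) / (k + x + β)`; `ρ₁` is decreasing, `ρ₂` increasing; minimum about `1.00147`. Cut
`[9/25, 37/50]` into 24 equal intervals: the piecewise bound `ρ₁(v)^σ + ρ₂(u)^σ` is `≥ 1.00087` on each; rational
lower bounds `t ≤ ρ^(53/50)` follow from `t^50 ≤ ρ^53` (norm_num). -/
theorem cert12_ineq (x : ℝ) (h1 : 9 / 25 ≤ x) (h2 : x ≤ 37 / 50) :
    (1 + 27 / 50 * x) ^ (-(53 / 50) : ℝ) ≤ (1 + x + 27 / 50) ^ (-(53 / 50) : ℝ) +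
      (2 + x + 27 / 50) ^ (-(53 / 50) : ℝ) := by
  have h := C12_all x h1 h2
  have hp : 0 < 1 + 27 / 50 * x := by linarith
  have key : ∀ c d : ℝ, 0 < c → d = c + x + 27 / 50 → d ^ (-(53 / 50) : ℝ) =
      (1 + 27 / 50 * x) ^ (-(53 / 50) : ℝ) *
        ((50 + 27 * x) / (50 * c + 27 + 50 * x)) ^ (53 / 50 : ℝ) := by
    intro c d hc hd
    have hc' : 0 < d := by rw [hd]; linarith
    have h3 : (50 + 27 * x) / (50 * c + 27 + 50 * x) = (1 + 27 / 50 * x) / d := by
      rw [hd, div_eq_div_iff (by linarith) (by linarith)]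
      ring
    rw [h3, Real.div_rpow hp.le hc'.le, Real.rpow_neg hp.le, Real.rpow_neg hc'.le]
    have h4 : (1 + 27 / 50 * x) ^ (53 / 50 : ℝ) ≠ 0 := (Real.rpow_pos_of_pos hp _).ne'
    field_simp
  have e1 := key 1 (1 + x + 27 / 50) (by norm_num) rfl
  have e2 := key 2 (2 + x + 27 / 50) (by norm_num) rfl
  have g1 : (50 : ℝ) * 1 + 27 + 50 * x = 77 + 50 * x := by ring
  have g2 : (50 : ℝ) * 2 + 27 + 50 * x = 127 + 50 * x := by ring
  rw [g1] at e1
  rw [g2] at e2
  rw [e1, e2, ← mul_add]
  exact le_mul_of_one_le_right (Real.rpow_nonneg hp.le _) h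

private noncomputable def C12_phi (X : ℤ × ℤ) : ℝ :=
  ((X.2 : ℝ) + 27 / 50 * X.1) ^ (-(53 / 50) : ℝ)

private def C12_good (X : ℤ × ℤ) : Prop :=
  0 < X.2 ∧ 9 * X.2 ≤ 25 * X.1 ∧ 50 * X.1 ≤ 37 * X.2

private theorem C12_step (X : ℤ × ℤ) (h : C12_good X) :
    C12_phi X ≤ C12_phi (gl 1 X) + C12_phi (gl 2 X) := by
  obtain ⟨h0, h1, h2⟩ := h
  have y0 : (0 : ℝ) < X.2 := by exact_mod_cast h0
  have y1 : 9 * (X.2 : ℝ) ≤ 25 * X.1 := by exact_mod_cast h1
  have y2 : 50 * (X.1 : ℝ) ≤ 37 * X.2 := by exact_mod_cast h2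
  have hx1 : 9 / 25 ≤ (X.1 : ℝ) / X.2 := by
    rw [le_div_iff₀ y0]; linarith
  have hx2 : (X.1 : ℝ) / X.2 ≤ 37 / 50 := by
    rw [div_le_iff₀ y0]; linarith
  have hc := cert12_ineq _ hx1 hx2
  have hm : ∀ c : ℝ, 0 < c → ∀ t : ℝ, t = X.2 * c →
      t ^ (-(53 / 50) : ℝ) = (X.2 : ℝ) ^ (-(53 / 50) : ℝ) * c ^ (-(53 / 50) : ℝ) := by
    intro c hc t ht
    rw [ht, Real.mul_rpow y0.le hc.le]
  have hxp : 0 < (X.1 : ℝ) / X.2 := by linarith
  have e0 : C12_phi X = (X.2 : ℝ) ^ (-(53 / 50) : ℝ) *
      (1 + 27 / 50 * ((X.1 : ℝ) / X.2)) ^ (-(53 / 50) : ℝ) := by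
    refine hm _ (by linarith) _ ?_
    field_simp
  have e1 : C12_phi (gl 1 X) = (X.2 : ℝ) ^ (-(53 / 50) : ℝ) *
      (1 + (X.1 : ℝ) / X.2 + 27 / 50) ^ (-(53 / 50) : ℝ) := by
    refine hm _ (by linarith) _ ?_
    simp only [gl]; push_cast; field_simp; ring
  have e2 : C12_phi (gl 2 X) = (X.2 : ℝ) ^ (-(53 / 50) : ℝ) *
      (2 + (X.1 : ℝ) / X.2 + 27 / 50) ^ (-(53 / 50) : ℝ) := by
    refine hm _ (by linarith) _ ?_
    simp only [gl]; push_cast; field_simp; ring
  rw [e0, e1, e2, ← mul_add]
  exact mul_le_mul_of_nonneg_left hc (Real.rpow_nonneg y0.le _)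

private theorem C12_sum (l : ℕ) (f : List ℕ → ℝ) :
    ∑ w ∈ wd (Pool.Agent.LibNW69.letters {1, 2}) (l + 1), f w =
      ∑ w ∈ wd (Pool.Agent.LibNW69.letters {1, 2}) l, (f (1 :: w) + f (2 :: w)) := by
  rw [wl_sum_succ, Finset.sum_comm]
  refine Finset.sum_congr rfl fun w _ => ?_
  rw [Finset.sum_insert (by decide), Finset.sum_singleton]

private theorem C12_dig (l : ℕ) (w : List ℕ)
    (hw : w ∈ wd (Pool.Agent.LibNW69.letters {1, 2}) l) : ∀ x ∈ w, 1 ≤ x ∧ x < 3 := by
  intro x hx
  have h := ((Pool.Agent.LibNW69.mem_wd_letters _ _ _).1 hw).2 x hx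
  fin_cases h <;> norm_num

private theorem C12_gl (x : ℕ) (h1 : 1 ≤ x) (h2 : x < 3) (X : ℤ × ℤ) (h : C12_good X) :
    C12_good (gl x X) := by
  obtain ⟨h0, h3, h4⟩ := h
  have hx : x = 1 ∨ x = 2 := by omega
  rcases hx with rfl | rfl
  · refine ⟨?_, ?_, ?_⟩ <;> simp only [gl] <;> push_cast <;> linarith
  · refine ⟨?_, ?_, ?_⟩ <;> simp only [gl] <;> push_cast <;> linarith

private theorem C12_act (w : List ℕ) (hw : ∀ x ∈ w, 1 ≤ x ∧ x < 3) (X : ℤ × ℤ)
    (h : C12_good X) : C12_good (act w X) := by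
  induction w with
  | nil => simpa [act] using h
  | cons x w ih =>
    have a1 := hw x List.mem_cons_self
    have a2 := ih fun y hy => hw y (List.mem_cons_of_mem _ hy)
    exact C12_gl x a1.1 a1.2 _ a2

private theorem C12_ind (l : ℕ) (X : ℤ × ℤ) (h : C12_good X) :
    C12_phi X ≤ ∑ w ∈ wd (Pool.Agent.LibNW69.letters {1, 2}) l, C12_phi (act w X) := by
  induction l with
  | zero => simp [wd, act]
  | succ l ih =>
    rw [C12_sum l (fun w => C12_phi (act w X))]
    refine ih.trans (Finset.sum_le_sum fun w hw => ?_)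
    exact C12_step _ (C12_act w (C12_dig l w hw) X h)

private theorem C12_pos (w : List ℕ) (hw : ∀ x ∈ w, 1 ≤ x) :
    2 * (kk w : ℤ) ≤ (act w (1, 2)).2 ∧ 2 * ((con w).2 : ℤ) ≤ (act w (1, 2)).1 := by
  induction w with
  | nil => simp [act, kk, con]
  | cons x w ih =>
    obtain ⟨a1, a2⟩ := ih fun y hy => hw y (List.mem_cons_of_mem _ hy)
    have hx : (0 : ℤ) ≤ x := Int.natCast_nonneg x
    rw [kk_cons, con_cons_snd]
    simp only [act, gl]
    push_cast
    refine ⟨?_, a1⟩
    nlinarith

/-- Row C12b (MEDIUM; compare `cert4` in `LibZD69/I4.lean`, finished). `Φ(x₁, x₂) = (x₂ + 27/50 x₁)^(-53/50)`; for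
vectors with ratio `x₁ / x₂ ∈ [9/25, 37/50]` (invariant under `gl 1`, `gl 2`: `1/(1 + 9/25) < 37/50`,
`1/(2 + 37/50) > 9/25`) `Φ(X) ≤ Φ(gl 1 X) + Φ(gl 2 X)`. So `∑_w Φ(act w (1,2)) ≥ Φ(1,2)` by induction, and
`Φ(act w (1,2)) ≤ (2 kk w)^(-53/50)`. -/
theorem cert12 : ∃ c : ℝ, 0 < c ∧ ∀ l : ℕ, c ≤ ZZ {1, 2} (53 / 50) l := by
  refine ⟨(100 / 127 : ℝ) ^ (53 / 50 : ℝ), by positivity, fun l => ?_⟩
  have h1 := C12_ind l (1, 2) (by refine ⟨?_, ?_, ?_⟩ <;> norm_num)
  have h2 : ∀ w ∈ wd (Pool.Agent.LibNW69.letters {1, 2}) l,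
      C12_phi (act w (1, 2)) ≤ (2 : ℝ) ^ (-(53 / 50) : ℝ) * (kk w : ℝ) ^ (-(53 / 50) : ℝ) := by
    intro w hw
    have hw1 : ∀ x ∈ w, 1 ≤ x := fun x hx => (C12_dig l w hw x hx).1
    obtain ⟨a1, a2⟩ := C12_pos w hw1
    have b1 : 2 * (kk w : ℝ) ≤ ((act w (1, 2)).2 : ℝ) := by exact_mod_cast a1
    have b2 : 2 * ((con w).2 : ℝ) ≤ ((act w (1, 2)).1 : ℝ) := by exact_mod_cast a2
    have b3 : (0 : ℝ) ≤ ((con w).2 : ℝ) := Nat.cast_nonneg _
    have b4 : (1 : ℝ) ≤ (kk w : ℝ) := by exact_mod_cast kk_pos w hw1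
    rw [← Real.mul_rpow (by norm_num) (by linarith)]
    unfold C12_phi
    exact Real.rpow_le_rpow_of_nonpos (by linarith) (by linarith) (by norm_num)
  have h3 : C12_phi (1, 2) = (127 / 50 : ℝ) ^ (-(53 / 50) : ℝ) := by
    unfold C12_phi
    norm_num
  have h4 : (127 / 50 : ℝ) ^ (-(53 / 50) : ℝ) ≤
      (2 : ℝ) ^ (-(53 / 50) : ℝ) * ZZ {1, 2} (53 / 50) l := by
    rw [← h3]
    refine h1.trans ?_
    unfold ZZ
    rw [Finset.mul_sum]
    exact Finset.sum_le_sum h2
  have h5 : (100 / 127 : ℝ) ^ (53 / 50 : ℝ) * (2 : ℝ) ^ (-(53 / 50) : ℝ) =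
      (127 / 50 : ℝ) ^ (-(53 / 50) : ℝ) := by
    rw [Real.rpow_neg (by norm_num), Real.rpow_neg (by norm_num), ← Real.inv_rpow (by norm_num),
      ← Real.inv_rpow (by norm_num), ← Real.mul_rpow (by norm_num) (by norm_num)]
    norm_num
  have h6 : (0 : ℝ) < (2 : ℝ) ^ (-(53 / 50) : ℝ) := by positivity
  refine le_of_mul_le_mul_right ?_ h6
  rw [h5, mul_comm (ZZ _ _ _)]
  exact h4

end Pool.Agent.LibZT69
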