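import Pool.Agent.LibZT69.Defs
import Pool.Agent.LibZT69.C1
import Pool.Agent.LibZD69.A3
import Pool.Agent.LibNZ69.U

set_option autoImplicit false

namespace Pool.Agent.LibZT69

open Pool.Agent.LibZD69

open Pool.Agent.LibNZ69

lemma C2_nm_nonneg (y : ℤ × ℤ) : 0 ≤ nm y := le_trans (abs_nonneg _) (le_max_left _ _)

lemma C2_nm_pos (y : ℤ × ℤ) (h : y ≠ 0) : 1 ≤ nm y := by
  by_contra hcon
  push Not at hcon
  have h0 : nm y = 0 := le_antisymm (by omega) (C2_nm_nonneg y)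
  apply h
  have h1 : |y.1| ≤ 0 := h0 ▸ le_max_left _ _
  have h2 : |y.2| ≤ 0 := h0 ▸ le_max_right _ _
  ext
  · exact abs_nonpos_iff.1 h1
  · exact abs_nonpos_iff.1 h2

lemma C2_same (y : ℤ × ℤ) (h : (0 ≤ y.1 ∧ 0 ≤ y.2) ∨ (y.1 ≤ 0 ∧ y.2 ≤ 0)) : ¬ neg y := by
  rintro ⟨h1, -⟩
  rcases h with ⟨h2, h3⟩ | ⟨h2, h3⟩
  · have := mul_nonneg h2 h3
    linarith
  · have := mul_nonneg_of_nonpos_of_nonpos h2 h3
    linarith

lemma C2_back (y : ℤ × ℤ) (b : List ℕ) (hd : ∀ a ∈ b, 1 ≤ a) (h : neg (act b y)) :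
    neg y := by
  by_contra hcon
  by_cases hb : b = []
  · subst hb
    exact hcon h
  · exact C2_same _ (same_sign_of_not_neg y hcon b hb hd) h

/-- the basic inequality for a vector which is not in the cone -/
lemma C2_key (a : ℕ) (ha : 1 ≤ a) (p : List ℕ) (hp : ∀ x ∈ p, 1 ≤ x ∧ x < a) (y : ℤ × ℤ)
    (hy : ¬ neg y) : (kk p : ℤ) * nm y ≤ 2 * (a : ℤ) ^ 3 * nm (act p y) := by
  have haZ : (1 : ℤ) ≤ a := by exact_mod_cast ha
  rcases List.eq_nil_or_concat p with h | ⟨p', b, h⟩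
  · subst h
    have h0 := C2_nm_nonneg y
    have h1 : (1 : ℤ) ≤ (a : ℤ) ^ 3 := one_le_pow₀ haZ
    rw [kk_nil]
    show ((1 : ℕ) : ℤ) * nm y ≤ 2 * (a : ℤ) ^ 3 * nm y
    push_cast
    nlinarith
  · subst h
    rw [List.concat_eq_append] at hp ⊢
    have hb : 1 ≤ b ∧ b < a := hp b (by simp)
    have hp' : ∀ x ∈ p', 1 ≤ x ∧ x < a := fun x hx => hp x (by simp [hx])
    have hs := same_sign_of_not_neg y hy [b] (by simp) (by simpa using hb.1)
    have h1 := (act_same_sign a ha p' hp' (act [b] y) hs).1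
    have h2 := (nm_gl a b hb.1 hb.2 y).1
    have h3 := kk_append_le p' [b] (fun x hx => (hp' x hx).1) (by simpa using hb.1)
    have h4 : kk [b] = b := by
      rw [kk_cons, kk_nil]
      simp [con]
    rw [h4] at h3
    have h3' : (kk (p' ++ [b]) : ℤ) ≤ 2 * ((kk p' : ℤ) * b) := by exact_mod_cast h3
    have hbZ : (b : ℤ) ≤ a := by exact_mod_cast hb.2.le
    have hb0 : (0 : ℤ) ≤ b := by positivity
    have hk0 : (0 : ℤ) ≤ (kk p' : ℤ) := by positivity
    rw [act_append]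
    have h5 : gl b y = act [b] y := rfl
    rw [h5] at h2
    set u := nm (act [b] y) with hu
    set v := nm (act p' (act [b] y)) with hv
    have hu0 : 0 ≤ u := C2_nm_nonneg _
    have hv0 : 0 ≤ v := C2_nm_nonneg _
    have hy0 := C2_nm_nonneg y
    calc (kk (p' ++ [b]) : ℤ) * nm y ≤ (2 * ((kk p' : ℤ) * b)) * (a * u) :=
          mul_le_mul h3' h2 hy0 (by positivity)
      _ = 2 * b * a * ((kk p' : ℤ) * u) := by ring
      _ ≤ 2 * b * a * (a * v) := mul_le_mul_of_nonneg_left h1 (by positivity)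
      _ = b * (2 * (a : ℤ) ^ 2 * v) := by ring
      _ ≤ a * (2 * (a : ℤ) ^ 2 * v) := mul_le_mul_of_nonneg_right hbZ (by positivity)
      _ = 2 * (a : ℤ) ^ 3 * v := by ring

/-- the longest suffix in the cone -/
lemma C2_decomp (x : ℤ × ℤ) (hx : neg x) (p : List ℕ) :
    neg (act p x) ∨ ∃ p' b q, p = p' ++ b :: q ∧ neg (act q x) ∧ ¬ neg (act (b :: q) x) := by
  induction p with
  | nil => exact Or.inl hx
  | cons c p ih =>
    rcases ih with h | ⟨p', b, q, h1, h2, h3⟩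
    · by_cases hc : neg (act (c :: p) x)
      · exact Or.inl hc
      · exact Or.inr ⟨[], c, p, rfl, h, hc⟩
    · exact Or.inr ⟨c :: p', b, q, by rw [h1]; rfl, h2, h3⟩

private lemma C2_suffix (x : ℤ × ℤ) (q q' : List ℕ) (hq : ∀ y ∈ q, 1 ≤ y) (hq' : ∀ y ∈ q', 1 ≤ y)
    (h : neg (act q x)) (h' : neg (act q' x)) (hl : q.length ≤ q'.length) : q <:+ q' := by
  have hsplit : q' = q'.take (q'.length - q.length) ++ q'.drop (q'.length - q.length) :=
    (List.take_append_drop _ _).symm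
  set r := q'.take (q'.length - q.length) with hr
  set t := q'.drop (q'.length - q.length) with ht
  have hlen : q.length = t.length := by
    rw [ht, List.length_drop]
    omega
  have h1 : neg (act t x) := by
    rw [hsplit, act_append] at h'
    exact C2_back _ r (fun y hy => hq' y (by rw [hsplit]; exact List.mem_append_left _ hy)) h'
  have h2 : q = t := neg_unique x q t hlen hq
    (fun y hy => hq' y (by rw [hsplit]; exact List.mem_append_right _ hy)) h h1
  rw [h2]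
  exact ⟨r, hsplit.symm⟩

private lemma C2_min_rpow (u v s : ℝ) (hu : 0 ≤ u) (hv : 0 ≤ v) (hs : 0 ≤ s) :
    (min u v) ^ s ≤ (u * v) ^ (s / 2) := by
  have hm : 0 ≤ min u v := le_min hu hv
  have h1 : (min u v) ^ s = (min u v * min u v) ^ (s / 2) := by
    rw [Real.mul_rpow hm hm, ← Real.rpow_add_of_nonneg hm (by linarith) (by linarith), add_halves]
  rw [h1]
  exact Real.rpow_le_rpow (mul_nonneg hm hm)
    (mul_le_mul (min_le_left _ _) (min_le_right _ _) hm hu) (by linarith)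

/-- counting the words with a real bound -/
private lemma C2_count {A : Finset ℕ} {a : ℕ} {s : ℝ} (hp : PB A a s) (C : ℝ) (hC : 1 ≤ C)
    (h : ∀ P : ℕ, ((wP A P).card : ℝ) ≤ C * (P : ℝ) ^ s) (R : ℝ) (hR : 0 ≤ R) :
    ((wP A ⌊R⌋₊).card : ℝ) ≤ C * R ^ s := by
  refine (h _).trans ?_
  have h1 : ((⌊R⌋₊ : ℕ) : ℝ) ^ s ≤ R ^ s :=
    Real.rpow_le_rpow (by positivity) (Nat.floor_le hR) (by linarith [hp.s1])
  nlinarith

/-- Row C2 (MEDIUM). The number of the words `p` with `kk p ≤ P` and `nm (act p x) ≤ Y`.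
Suffixes `q` with `neg (act q x)`: if `¬ neg (act q x)` then no longer suffix is in `neg`
(`same_sign_of_not_neg`: its coordinates have one weak sign); for each length there is at most one
such `q` (`neg_unique`), so they form a chain `𝒬` (depending on `x` only; take those with `kk q ≤ P`).
For each `p` in the set:
* no suffix is in `neg` (`¬ neg x`): `p = p' ++ [b]` or `p = []`; by `nm_gl`, `same_sign_of_not_neg` and
  `act_same_sign`: `kk p * nm x ≤ 4 a^3 Y` say; so `kk p ≤ min P (4 a^3 Y / nm x)`, number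
  `≤ C min(…)^s ≤ C' (P Y / nm x)^(s/2)` (`card_wP`).
* otherwise let `q ∈ 𝒬` be the longest suffix in `neg`: `p = q`, or `p = p'' ++ [b] ++ q` with
  `act (b :: q) x ∉ neg`, so as before `kk p'' * nm (act (b :: q) x) ≤ 4 a^3 Y`, and
  `nm x ≤ 2 kk (b :: q) nm (act (b :: q) x)` (`nm_le_act`), `kk (b :: q) ≤ a kk q`, so
  `kk p'' ≤ min (P / kk q) (8 a^4 Y kk q / nm x)`; if `p = q` then `1 ≤ min(…)` by `nm_le_act`. So for
  each `q` the number of the `p` is at most `(1 + a C) min(…)^s`, and it is `0` if `min(…) < 1`.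
  Sum over `q ∈ 𝒬`: `chain_sum` with `α = P`, `β = 8 a^4 Y / nm x`. -/
theorem countP {A : Finset ℕ} {a : ℕ} {s : ℝ} (hp : PB A a s) :
    ∃ C : ℝ, 1 ≤ C ∧ ∀ (P : ℕ) (x : ℤ × ℤ), x ≠ 0 → ∀ Y : ℝ, 0 ≤ Y →
      (((wP A P).filter (fun w => (nm (act w x) : ℝ) ≤ Y)).card : ℝ) ≤
        C * ((P : ℝ) * Y / nm x) ^ (s / 2) := by
  classical
  obtain ⟨C0, hC0, hcard⟩ := card_wP hp
  obtain ⟨C1, hC1, hchain⟩ := chain_sum s hp.s1 hp.s2
  have hs0 : 0 ≤ s := by linarith [hp.s1]
  have ha1 : 1 ≤ a := le_trans (by norm_num) hp.a4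
  have haR : (1 : ℝ) ≤ a := by exact_mod_cast ha1
  have hdig1 : ∀ x ∈ A, 1 ≤ x := fun x hx => (hp.dig x hx).1
  have hAcard : (A.card : ℝ) ≤ a := by
    have : A ⊆ Finset.range a := fun x hx => Finset.mem_range.2 (hp.dig x hx).2
    have := Finset.card_le_card this
    rw [Finset.card_range] at this
    exact_mod_cast this
  set D : ℝ := (4 * (a : ℝ) ^ 4) ^ (s / 2) with hD
  have hD1 : 1 ≤ D := by
    rw [hD]
    refine Real.one_le_rpow ?_ (by linarith)
    have : (1 : ℝ) ≤ (a : ℝ) ^ 4 := one_le_pow₀ haR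
    linarith
  set E : ℝ := (1 + a * C0) * C1 with hE
  have hE1 : C0 ≤ E := by
    rw [hE]
    nlinarith [mul_nonneg (show (0:ℝ) ≤ a by positivity) (show (0:ℝ) ≤ C0 by linarith)]
  have hE1' : 1 ≤ E := hC0.trans hE1
  refine ⟨E * D, by nlinarith, ?_⟩
  intro P x hx Y hY
  have hnx : (1 : ℝ) ≤ (nm x : ℝ) := by exact_mod_cast C2_nm_pos x hx
  have hnx0 : (0 : ℝ) < (nm x : ℝ) := by linarith
  set β : ℝ := 4 * (a : ℝ) ^ 4 * Y / nm x with hβ
  have hβ0 : 0 ≤ β := by positivity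
  have hPβ : ((P : ℝ) * β) ^ (s / 2) = D * ((P : ℝ) * Y / nm x) ^ (s / 2) := by
    rw [hD, ← Real.mul_rpow (by positivity) (by positivity)]
    congr 1
    rw [hβ]
    ring
  rw [mul_assoc, ← hPβ]
  by_cases hneg : neg x
  · -- the chain of suffixes
    set 𝒬 : Finset (List ℕ) := (wP A P).filter (fun q => neg (act q x)) with h𝒬
    have hmem𝒬 : ∀ q, q ∈ 𝒬 ↔ (WA A q ∧ kk q ≤ P) ∧ neg (act q x) := by
      intro q
      rw [h𝒬, Finset.mem_filter, mem_wP hdig1]
    set R : List ℕ → ℝ := fun q => min ((P : ℝ) / kk q) (β * kk q) with hR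
    have hR0 : ∀ q, 0 ≤ R q := fun q => le_min (by positivity) (by positivity)
    set Fq : List ℕ → Finset (List ℕ) := fun q =>
      (({q} : Finset (List ℕ)).filter (fun w => (nm (act w x) : ℝ) ≤ Y ∧ kk w ≤ P)) ∪
        Finset.image₂ (fun b p => p ++ b :: q) A (wP A ⌊R q⌋₊) with hFq
    have hsub : (wP A P).filter (fun w => (nm (act w x) : ℝ) ≤ Y) ⊆ 𝒬.biUnion Fq := by
      intro p hpm
      rw [Finset.mem_filter, mem_wP hdig1] at hpm
      obtain ⟨⟨hpA, hpP⟩, hpY⟩ := hpm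
      rw [Finset.mem_biUnion]
      rcases C2_decomp x hneg p with h | ⟨p', b, q, h1, h2, h3⟩
      · refine ⟨p, (hmem𝒬 p).2 ⟨⟨hpA, hpP⟩, h⟩, ?_⟩
        rw [hFq]
        exact Finset.mem_union_left _ (Finset.mem_filter.2 ⟨Finset.mem_singleton_self _, hpY, hpP⟩)
      · subst h1
        have hA' := (WA_append p' (b :: q)).1 hpA
        have hp'A : WA A p' := hA'.1
        have hbqA : WA A (b :: q) := hA'.2
        have hbA : b ∈ A := hbqA b (by simp)
        have hqA : WA A q := fun y hy => hbqA y (List.mem_cons_of_mem _ hy)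
        have hbq1 : ∀ y ∈ b :: q, 1 ≤ y := fun y hy => hdig1 y (hbqA y hy)
        have hkk1 : kk p' * kk (b :: q) ≤ P := (kk_append_ge p' (b :: q)).trans hpP
        have hkk2 : kk q ≤ kk (b :: q) := kk_le_cons b q hbq1
        have hkk3 : kk p' * kk q ≤ P := (Nat.mul_le_mul_left _ hkk2).trans hkk1
        have hkp1 : 1 ≤ kk p' := kk_pos p' (fun y hy => hdig1 y (hp'A y hy))
        have hkq1 : 1 ≤ kk q := kk_pos q (fun y hy => hdig1 y (hqA y hy))
        have hqP : kk q ≤ P := le_trans (by nlinarith) hkk3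
        have hkb : kk (b :: q) ≤ a * kk q :=
          (kk_cons_le b q (fun y hy => hdig1 y (hqA y hy))).trans
            (Nat.mul_le_mul_right _ (hp.dig b hbA).2)
        refine ⟨q, (hmem𝒬 q).2 ⟨⟨hqA, hqP⟩, h2⟩, ?_⟩
        rw [hFq]
        refine Finset.mem_union_right _ (Finset.mem_image₂.2 ⟨b, hbA, p', ?_, rfl⟩)
        rw [mem_wP hdig1]
        refine ⟨hp'A, Nat.le_floor ?_⟩
        have hq0 : (0 : ℝ) < (kk q : ℝ) := by exact_mod_cast hkq1
        refine le_min ?_ ?_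
        · rw [le_div_iff₀ hq0]
          exact_mod_cast hkk3
        · have hkey := C2_key a ha1 p' (fun y hy => hp.dig y (hp'A y hy)) (act (b :: q) x) h3
          rw [← act_append] at hkey
          have hkey' : (kk p' : ℝ) * (nm (act (b :: q) x) : ℝ) ≤ 2 * (a : ℝ) ^ 3 * Y := by
            have : (kk p' : ℝ) * (nm (act (b :: q) x) : ℝ) ≤
                2 * (a : ℝ) ^ 3 * (nm (act (p' ++ b :: q) x) : ℝ) := by exact_mod_cast hkey
            exact this.trans (mul_le_mul_of_nonneg_left hpY (by positivity))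
          have hnle : (nm x : ℝ) ≤ 2 * (kk (b :: q) : ℝ) * (nm (act (b :: q) x) : ℝ) := by
            exact_mod_cast nm_le_act (b :: q) hbq1 x
          have hkb' : (kk (b :: q) : ℝ) ≤ a * kk q := by exact_mod_cast hkb
          have hn0 : (0 : ℝ) ≤ (nm (act (b :: q) x) : ℝ) := by exact_mod_cast C2_nm_nonneg _
          have hfin : (kk p' : ℝ) * nm x ≤ 4 * (a : ℝ) ^ 4 * Y * kk q := by
            calc (kk p' : ℝ) * nm x
                ≤ kk p' * (2 * (kk (b :: q) : ℝ) * (nm (act (b :: q) x) : ℝ)) :=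
                  mul_le_mul_of_nonneg_left hnle (by positivity)
              _ = 2 * (kk (b :: q) : ℝ) * ((kk p' : ℝ) * (nm (act (b :: q) x) : ℝ)) := by ring
              _ ≤ 2 * (a * kk q) * (2 * (a : ℝ) ^ 3 * Y) := by
                  refine mul_le_mul (by linarith) hkey' (by positivity) (by positivity)
              _ = 4 * (a : ℝ) ^ 4 * Y * kk q := by ring
          rw [hβ, div_mul_eq_mul_div, le_div_iff₀ hnx0]
          exact hfin
    have hcq : ∀ q ∈ 𝒬, ((Fq q).card : ℝ) ≤ (1 + a * C0) * (R q) ^ s := by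
      intro q hq
      obtain ⟨⟨hqA, hqP⟩, hqn⟩ := (hmem𝒬 q).1 hq
      have hq1 : ∀ y ∈ q, 1 ≤ y := fun y hy => hdig1 y (hqA y hy)
      have hkq1 : 1 ≤ kk q := kk_pos q hq1
      have hq0 : (0 : ℝ) < (kk q : ℝ) := by exact_mod_cast hkq1
      have h1 : ((({q} : Finset (List ℕ)).filter
          (fun w => (nm (act w x) : ℝ) ≤ Y ∧ kk w ≤ P)).card : ℝ) ≤ (R q) ^ s := by
        by_cases hc : (nm (act q x) : ℝ) ≤ Y ∧ kk q ≤ P
        · have hcard1 : (({q} : Finset (List ℕ)).filter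
              (fun w => (nm (act w x) : ℝ) ≤ Y ∧ kk w ≤ P)).card ≤ 1 :=
            (Finset.card_filter_le _ _).trans (by simp)
          have hcard1' : ((({q} : Finset (List ℕ)).filter
              (fun w => (nm (act w x) : ℝ) ≤ Y ∧ kk w ≤ P)).card : ℝ) ≤ 1 := by
            exact_mod_cast hcard1
          refine hcard1'.trans (Real.one_le_rpow (le_min ?_ ?_) hs0)
          · rw [le_div_iff₀ hq0, one_mul]
            exact_mod_cast hqP
          · have hnle : (nm x : ℝ) ≤ 2 * (kk q : ℝ) * (nm (act q x) : ℝ) := by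
              exact_mod_cast nm_le_act q hq1 x
            have h5 : (nm x : ℝ) ≤ 4 * (a : ℝ) ^ 4 * Y * kk q := by
              have h6 : (1 : ℝ) ≤ (a : ℝ) ^ 4 := one_le_pow₀ haR
              calc (nm x : ℝ) ≤ 2 * (kk q : ℝ) * (nm (act q x) : ℝ) := hnle
                _ ≤ 2 * (kk q : ℝ) * Y := mul_le_mul_of_nonneg_left hc.1 (by positivity)
                _ = 2 * 1 * (Y * kk q) := by ring
                _ ≤ 4 * (a : ℝ) ^ 4 * (Y * kk q) :=
                    mul_le_mul_of_nonneg_right (by linarith) (by positivity)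
                _ = 4 * (a : ℝ) ^ 4 * Y * kk q := by ring
            rw [hβ, div_mul_eq_mul_div, le_div_iff₀ hnx0, one_mul]
            exact h5
        · have h0 : (({q} : Finset (List ℕ)).filter
              (fun w => (nm (act w x) : ℝ) ≤ Y ∧ kk w ≤ P)) = ∅ := by
            rw [Finset.filter_eq_empty_iff]
            intro w hw
            rw [Finset.mem_singleton] at hw
            rw [hw]
            exact hc
          rw [h0, Finset.card_empty, Nat.cast_zero]
          exact Real.rpow_nonneg (hR0 q) _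
      have h2 : ((Finset.image₂ (fun b p => p ++ b :: q) A (wP A ⌊R q⌋₊)).card : ℝ) ≤
          a * (C0 * (R q) ^ s) := by
        have h3 : ((Finset.image₂ (fun b p => p ++ b :: q) A (wP A ⌊R q⌋₊)).card : ℝ) ≤
            (A.card : ℝ) * ((wP A ⌊R q⌋₊).card : ℝ) := by
          have h3' : (Finset.image₂ (fun b p => p ++ b :: q) A (wP A ⌊R q⌋₊)).card ≤
              A.card * (wP A ⌊R q⌋₊).card := Finset.card_image₂_le (fun b p => p ++ b :: q) A _
          exact_mod_cast h3'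
        refine h3.trans (mul_le_mul hAcard (C2_count hp C0 hC0 hcard (R q) (hR0 q))
          (by positivity) (by positivity))
      have h4 : ((Fq q).card : ℝ) ≤ ((({q} : Finset (List ℕ)).filter
          (fun w => (nm (act w x) : ℝ) ≤ Y ∧ kk w ≤ P)).card : ℝ) +
          ((Finset.image₂ (fun b p => p ++ b :: q) A (wP A ⌊R q⌋₊)).card : ℝ) := by
        rw [hFq]
        exact_mod_cast Finset.card_union_le _ _
      calc ((Fq q).card : ℝ) ≤ (R q) ^ s + a * (C0 * (R q) ^ s) := h4.trans (add_le_add h1 h2)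
        _ = (1 + a * C0) * (R q) ^ s := by ring
    have hchainQ : ∀ q ∈ 𝒬, ∀ q' ∈ 𝒬, q <:+ q' ∨ q' <:+ q := by
      intro q hq q' hq'
      obtain ⟨⟨hqA, -⟩, hqn⟩ := (hmem𝒬 q).1 hq
      obtain ⟨⟨hqA', -⟩, hqn'⟩ := (hmem𝒬 q').1 hq'
      rcases le_total q.length q'.length with hl | hl
      · exact Or.inl (C2_suffix x q q' (fun y hy => hdig1 y (hqA y hy))
          (fun y hy => hdig1 y (hqA' y hy)) hqn hqn' hl)
      · exact Or.inr (C2_suffix x q' q (fun y hy => hdig1 y (hqA' y hy))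
          (fun y hy => hdig1 y (hqA y hy)) hqn' hqn hl)
    have hsum := hchain 𝒬 hchainQ
      (fun q hq y hy => hdig1 y (((hmem𝒬 q).1 hq).1.1 y hy)) (P : ℝ) β (by positivity) hβ0
    calc (((wP A P).filter (fun w => (nm (act w x) : ℝ) ≤ Y)).card : ℝ)
        ≤ ((𝒬.biUnion Fq).card : ℝ) := by exact_mod_cast Finset.card_le_card hsub
      _ ≤ ((∑ q ∈ 𝒬, (Fq q).card : ℕ) : ℝ) := by exact_mod_cast Finset.card_biUnion_le
      _ = ∑ q ∈ 𝒬, ((Fq q).card : ℝ) := by push_cast; rfl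
      _ ≤ ∑ q ∈ 𝒬, (1 + a * C0) * (R q) ^ s := Finset.sum_le_sum hcq
      _ = (1 + a * C0) * ∑ q ∈ 𝒬, (R q) ^ s := by rw [Finset.mul_sum]
      _ ≤ (1 + a * C0) * (C1 * ((P : ℝ) * β) ^ (s / 2)) :=
          mul_le_mul_of_nonneg_left hsum (by positivity)
      _ = E * ((P : ℝ) * β) ^ (s / 2) := by rw [hE]; ring
  · -- no suffix in the cone
    have hsub : (wP A P).filter (fun w => (nm (act w x) : ℝ) ≤ Y) ⊆
        wP A ⌊min (P : ℝ) β⌋₊ := by
      intro p hpm
      rw [Finset.mem_filter, mem_wP hdig1] at hpm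
      obtain ⟨⟨hpA, hpP⟩, hpY⟩ := hpm
      rw [mem_wP hdig1]
      refine ⟨hpA, Nat.le_floor (le_min (by exact_mod_cast hpP) ?_)⟩
      have hkey := C2_key a ha1 p (fun y hy => hp.dig y (hpA y hy)) x hneg
      have hkey' : (kk p : ℝ) * (nm x : ℝ) ≤ 2 * (a : ℝ) ^ 3 * Y := by
        have : (kk p : ℝ) * (nm x : ℝ) ≤ 2 * (a : ℝ) ^ 3 * (nm (act p x) : ℝ) := by
          exact_mod_cast hkey
        exact this.trans (mul_le_mul_of_nonneg_left hpY (by positivity))
      rw [hβ, le_div_iff₀ hnx0]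
      refine hkey'.trans (mul_le_mul_of_nonneg_right ?_ hY)
      have h3 : (0 : ℝ) ≤ (a : ℝ) ^ 3 := by positivity
      have h4 : (a : ℝ) ^ 4 = (a : ℝ) ^ 3 * a := by ring
      rw [h4]
      nlinarith
    have h1 : ((wP A ⌊min (P : ℝ) β⌋₊).card : ℝ) ≤ C0 * (min (P : ℝ) β) ^ s :=
      C2_count hp C0 hC0 hcard _ (le_min (by positivity) hβ0)
    have h2 : (min (P : ℝ) β) ^ s ≤ ((P : ℝ) * β) ^ (s / 2) :=
      C2_min_rpow _ _ s (by positivity) hβ0 hs0
    have h3 : (0 : ℝ) ≤ ((P : ℝ) * β) ^ (s / 2) := Real.rpow_nonneg (by positivity) _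
    calc (((wP A P).filter (fun w => (nm (act w x) : ℝ) ≤ Y)).card : ℝ)
        ≤ ((wP A ⌊min (P : ℝ) β⌋₊).card : ℝ) := by exact_mod_cast Finset.card_le_card hsub
      _ ≤ C0 * (min (P : ℝ) β) ^ s := h1
      _ ≤ C0 * ((P : ℝ) * β) ^ (s / 2) := mul_le_mul_of_nonneg_left h2 (by linarith)
      _ ≤ E * ((P : ℝ) * β) ^ (s / 2) := mul_le_mul_of_nonneg_right hE1 h3

end Pool.Agent.LibZT69
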