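import Pool.Agent.LibZT69.Defs
import Pool.Agent.LibZD69.D1
import Pool.Agent.LibZT69.C6
import Pool.Agent.LibNZ69.G5

set_option autoImplicit false

namespace Pool.Agent.LibZT69

open Pool.Agent.LibZD69

open Pool.Agent.LibNZ69

/-- the numerical estimate at the end -/
private theorem D3_num (s Z Q K q' : ℝ) (hs0 : 0 ≤ s) (hs2 : s ≤ 2) (hQ : 1 ≤ Q) (hK : 1 ≤ K)
    (hq : Q ≤ q') :
    1 + (18 * Z ^ 2 / K / q') ^ (s / 2) ≤ 18 * (1 + (Z ^ 2 / (Q * K)) ^ (s / 2)) := by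
  have hK0 : 0 < K := by linarith
  have hQ0 : 0 < Q := by linarith
  have hq0 : 0 < q' := by linarith
  set X : ℝ := Z ^ 2 / (Q * K) with hX
  have hX0 : 0 ≤ X := by positivity
  have h1 : 18 * Z ^ 2 / K / q' ≤ 18 * X := by
    rw [hX, div_div, ← mul_div_assoc]
    apply div_le_div_of_nonneg_left (by positivity) (by positivity)
    rw [mul_comm Q K]
    exact mul_le_mul_of_nonneg_left hq hK0.le
  have h2 : (18 * Z ^ 2 / K / q') ^ (s / 2) ≤ 18 * X ^ (s / 2) := by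
    refine (Real.rpow_le_rpow (by positivity) h1 (by linarith)).trans ?_
    rw [Real.mul_rpow (by norm_num) hX0]
    refine mul_le_mul_of_nonneg_right ?_ (by positivity)
    calc (18 : ℝ) ^ (s / 2) ≤ (18 : ℝ) ^ (1 : ℝ) :=
          Real.rpow_le_rpow_of_exponent_le (by norm_num) (by linarith)
      _ = 18 := Real.rpow_one _
  have h3 : 0 ≤ X ^ (s / 2) := by positivity
  linarith

open scoped Classical in
/-- Row D3 (MEDIUM). Compare `LibNZ69/G6.lean` (finished). For fixed `k, q, α, v, q', z` the number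
of the pairs `(k', w')` with `Rel`. The set `T` of the `w'` that occur satisfies the hypotheses of
`countS` with modulus `q'` and `Y = 18 Z² / max 1 K₁` (`rel_wdgz`, `vec_bounds`), and for each `w'`
there are at most `4 C₀ + 1` values `k'` (`rel_samez` with `Z ≤ C₀ kk w' ≤ C₀ nm (vec w')`, `card_near`).
Finally `q' ≥ Q`. -/
theorem countTz {A : Finset ℕ} {a : ℕ} {s : ℝ} (hp : PB A a s) (C₀ : ℕ) :
    ∃ C : ℝ, 1 ≤ C ∧ ∀ (M H Z Q K₁ K₂ k q : ℕ) (α : ℤ) (v : ℤ × ℤ) (q' : ℕ) (z : ℤ × ℤ),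
      1 ≤ q → 1 ≤ Q → H ≤ Z → ∀ R : Finset ℕ, (∀ k ∈ R, k < M) → ∀ af : ℕ → ℤ,
      (∀ k' ∈ R, Fz M Q K₁ K₂ k' q' (af k')) →
        (((R ×ˢ Wz A Z C₀).filter
          (fun p => Rel M H k q α v p.1 q' (af p.1) (vec p.2) z)).card : ℝ) ≤
          C * (1 + ((Z : ℝ) ^ 2 / (Q * max 1 (K₁ : ℝ))) ^ (s / 2)) := by
  obtain ⟨C₁, hC₁, hS⟩ := countS hp C₀
  have hA : ∀ x ∈ A, 1 ≤ x := fun x hx => (hp.dig x hx).1
  have hs0 : 0 ≤ s := by linarith [hp.s1]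
  refine ⟨C₁ * 18 * (4 * C₀ + 1), ?_, ?_⟩
  · have h1 : (1 : ℝ) ≤ 4 * C₀ + 1 := by
      have : (0 : ℝ) ≤ (C₀ : ℝ) := Nat.cast_nonneg _
      linarith
    nlinarith
  intro M H Z Q K₁ K₂ k q α v q' z hq hQ hH R hR af hf
  have hC₁0 : 0 ≤ C₁ := by linarith
  rcases R.eq_empty_or_nonempty with h0 | ⟨k0, hk0⟩
  · subst h0
    rw [Finset.empty_product, Finset.filter_empty, Finset.card_empty, Nat.cast_zero]
    positivity
  have hqQ : Q ≤ q' := (hf k0 hk0).qlo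
  have hq1 : 1 ≤ q' := hQ.trans hqQ
  set P : Finset (ℕ × List ℕ) :=
    (R ×ˢ Wz A Z C₀).filter (fun p => Rel M H k q α v p.1 q' (af p.1) (vec p.2) z) with hP
  have hmem : ∀ p ∈ P, p.1 ∈ R ∧ p.2 ∈ Wz A Z C₀ ∧
      Rel M H k q α v p.1 q' (af p.1) (vec p.2) z := by
    intro p hp
    rw [hP, Finset.mem_filter, Finset.mem_product] at hp
    exact ⟨hp.1.1, hp.1.2, hp.2⟩
  set T : Finset (List ℕ) := P.image Prod.snd with hT
  have hTm : ∀ w ∈ T, w ∈ Wz A Z C₀ ∧ ∃ k' ∈ R, Rel M H k q α v k' q' (af k') (vec w) z := by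
    intro w hw
    rw [hT, Finset.mem_image] at hw
    obtain ⟨p, hp, rfl⟩ := hw
    obtain ⟨h1, h2, h3⟩ := hmem p hp
    exact ⟨h2, p.1, h1, h3⟩
  have hW : ∀ w ∈ Wz A Z C₀, nm (vec w) ≤ 3 * Z ∧ (Z : ℤ) ≤ C₀ * nm (vec w) := by
    intro w hw
    obtain ⟨h1, h2, h3⟩ := (mem_Wz hA Z C₀ w).1 hw
    obtain ⟨b1, b2, b3, b4, b5⟩ := vec_bounds w (fun x hx => hA x (h1 x hx))
    have h2' : (kk w : ℤ) ≤ Z := by exact_mod_cast h2
    have h3' : (Z : ℤ) ≤ C₀ * kk w := by exact_mod_cast h3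
    have hk0 : (0 : ℤ) ≤ (kk w : ℤ) := Int.natCast_nonneg _
    have hC0 : (0 : ℤ) ≤ (C₀ : ℤ) := Int.natCast_nonneg _
    rw [b3]
    refine ⟨by linarith, h3'.trans ?_⟩
    exact mul_le_mul_of_nonneg_left (by linarith) hC0
  have hfib : ∀ w ∈ T, (P.filter (fun p => p.2 = w)).card ≤ 4 * C₀ + 1 := by
    intro w hw
    have hww := (hTm w hw).1
    have e1 : ((P.filter (fun p => p.2 = w)).image Prod.fst).card =
        (P.filter (fun p => p.2 = w)).card := by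
      refine Finset.card_image_of_injOn ?_
      intro p hp p' hp' hpp
      have h1 := (Finset.mem_filter.1 (Finset.mem_coe.1 hp)).2
      have h2 := (Finset.mem_filter.1 (Finset.mem_coe.1 hp')).2
      exact Prod.ext hpp (h1.trans h2.symm)
    rw [← e1]
    have hK : ∀ x ∈ (P.filter (fun p => p.2 = w)).image Prod.fst, x ∈ R ∧
        Rel M H k q α v x q' (af x) (vec w) z := by
      intro x hx
      obtain ⟨p, hp, rfl⟩ := Finset.mem_image.1 hx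
      obtain ⟨hp1, hp2⟩ := Finset.mem_filter.1 hp
      obtain ⟨h1, -, h3⟩ := hmem p hp1
      rw [hp2] at h3
      exact ⟨h1, h3⟩
    have hc := card_near M (2 * C₀) _ (fun x hx => hR x (hK x hx).1) fun x hx y hy => ?_
    · omega
    obtain ⟨c, hc⟩ := rel_samez hq hq1 (hK x hx).2 (hK y hy).2 Z C₀ (cop_vec w) hH (hW w hww).2
    refine ⟨c, hc.trans ?_⟩
    push_cast
    exact le_rfl
  have hcard : P.card ≤ T.card * (4 * C₀ + 1) := by
    rw [Finset.card_eq_sum_card_image Prod.snd P, ← smul_eq_mul]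
    exact Finset.sum_le_card_nsmul _ _ _ hfib
  have hm1 : (1 : ℝ) ≤ max 1 (K₁ : ℝ) := le_max_left _ _
  have hTc := hS Z q' hq1 (18 * (Z : ℝ) ^ 2 / max 1 (K₁ : ℝ)) (by positivity) T
    (fun w hw => (hTm w hw).1) (fun w hw w' hw' => ?_) (fun w hw w' hw' => ?_)
  · have e2 : (P.card : ℝ) ≤ (T.card : ℝ) * (4 * C₀ + 1) := by exact_mod_cast hcard
    have hnum := D3_num s Z Q (max 1 (K₁ : ℝ)) q' hs0 hp.s2 (by exact_mod_cast hQ) hm1
      (by exact_mod_cast hqQ)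
    calc (P.card : ℝ) ≤ (T.card : ℝ) * (4 * C₀ + 1) := e2
      _ ≤ (C₁ * (1 + (18 * (Z : ℝ) ^ 2 / max 1 (K₁ : ℝ) / q') ^ (s / 2))) * (4 * C₀ + 1) :=
          mul_le_mul_of_nonneg_right hTc (by positivity)
      _ ≤ (C₁ * (18 * (1 + ((Z : ℝ) ^ 2 / (Q * max 1 (K₁ : ℝ))) ^ (s / 2)))) * (4 * C₀ + 1) :=
          mul_le_mul_of_nonneg_right (mul_le_mul_of_nonneg_left hnum hC₁0) (by positivity)
      _ = C₁ * 18 * (4 * C₀ + 1) * (1 + ((Z : ℝ) ^ 2 / (Q * max 1 (K₁ : ℝ))) ^ (s / 2)) := by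
          ring
  · obtain ⟨hw1, k1, hk1, r1⟩ := hTm w hw
    obtain ⟨hw2, k2, hk2, r2⟩ := hTm w' hw'
    exact (rel_wdgz hq r1 r2 Q K₁ K₂ Z hQ (hf k1 hk1) (hf k2 hk2) hH (hW w hw1).1
      (hW w' hw2).1).1
  · obtain ⟨hw1, k1, hk1, r1⟩ := hTm w hw
    obtain ⟨hw2, k2, hk2, r2⟩ := hTm w' hw'
    have h := (rel_wdgz hq r1 r2 Q K₁ K₂ Z hQ (hf k1 hk1) (hf k2 hk2) hH (hW w hw1).1
      (hW w' hw2).1).2
    rw [le_div_iff₀ (by linarith)]
    have h' : ((|wdg (vec w) (vec w')| * max 1 (K₁ : ℤ) : ℤ) : ℝ) ≤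
        ((18 * (Z : ℤ) ^ 2 : ℤ) : ℝ) := by exact_mod_cast h
    push_cast at h'
    exact h'

end Pool.Agent.LibZT69
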