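import Pool.Agent.LibZD69.Defs

set_option autoImplicit false

namespace Pool.Agent.LibZT69

open Pool.Agent.LibNZ69 Pool.Agent.LibZD69

/-- the standing assumption: alphabet `A ∋ 1, 2`, letters `< a`, exact exponent `s > 1` -/
structure PB (A : Finset ℕ) (a : ℕ) (s : ℝ) : Prop where
  one : 1 ∈ A
  two : 2 ∈ A
  dig : ∀ x ∈ A, 1 ≤ x ∧ x < a
  a4 : 4 ≤ a
  s1 : 1 < s
  s2 : s ≤ 2
  lo : ∀ n, 1 ≤ ZZ A s n
  hi : ∀ n, ZZ A s n ≤ 4

/-- `k`-fold convolution of a function on the natural numbers -/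
noncomputable def pv (g : ℕ → ℝ) : ℕ → ℕ → ℝ
  | 0, n => if n = 0 then 1 else 0
  | k + 1, n => ∑ x ∈ Finset.range (n + 1), g x * pv g k (n - x)

open scoped Classical in
/-- `k`-fold convolution modulo `M` of a periodic function -/
noncomputable def cv (M : ℕ) (g : ℤ → ℝ) : ℕ → ℤ → ℝ
  | 0, n => if (M : ℤ) ∣ n then 1 else 0
  | k + 1, n => ∑ x ∈ Finset.range M, g x * cv M g k (n - x)

/-- the transform modulo `M` -/
noncomputable def tr (M : ℕ) (g : ℤ → ℝ) (ξ : ℤ) : ℂ :=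
  ∑ x ∈ Finset.range M, (g x : ℂ) * ch M (ξ * x)

open scoped Classical in
/-- the weight `φ(x) / x` on `[w, 2 w)` -/
noncomputable def fw (w x : ℕ) : ℝ := if w ≤ x ∧ x < 2 * w then (x.totient : ℝ) / x else 0

end Pool.Agent.LibZT69
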