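import Pool.Agent.LibZT69.Defs
import Pool.Agent.LibZD69.E1
import Pool.Agent.LibZT69.B6
import Pool.Agent.LibZD69.E2
import Pool.Agent.LibNZ69.D

set_option autoImplicit false

namespace Pool.Agent.LibZT69

open Pool.Agent.LibZD69

open Pool.Agent.LibNZ69

/-- Row E6a (MEDIUM). Shift of a set of frequencies by `m`, `|m| ≤ m₁`. For `k ∈ R` let `k' ∈ [0, M)`,
`k - m = k' + c M`; then `q k' - (a - q c) M = (q k - a M) - q m`. The map `k ↦ k'` is injective on `R`;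
put `R'` = image. (`M > 0`; natural subtraction in `K₁ - m₁`.) -/
theorem shift (M Q K₁ K₂ m₁ : ℕ) (hM : 0 < M) (R : Finset ℕ) (hR : ∀ k ∈ R, k < M)
    (qf : ℕ → ℕ) (af : ℕ → ℤ) (hf : ∀ k ∈ R, Fz M Q K₁ K₂ k (qf k) (af k)) (m : ℤ)
    (hm : |m| ≤ m₁) :
    ∃ (R' : Finset ℕ) (qf' : ℕ → ℕ) (af' : ℕ → ℤ), (∀ k ∈ R', k < M) ∧
      (∀ k ∈ R', Fz M Q (K₁ - m₁) (K₂ + m₁) k (qf' k) (af' k)) ∧
      ∀ G : ℤ → ℝ, (∀ x, G (x + M) = G x) → ∑ k ∈ R, G (k - m) = ∑ k ∈ R', G k := by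
  classical
  have hM' : (0 : ℤ) < (M : ℤ) := by exact_mod_cast hM
  have hM0 : (M : ℤ) ≠ 0 := hM'.ne'
  obtain ⟨f, hf0⟩ : ∃ f : ℕ → ℕ, f = fun k : ℕ => (((k : ℤ) - m) % (M : ℤ)).toNat := ⟨_, rfl⟩
  obtain ⟨g, hg0⟩ : ∃ g : ℕ → ℕ, g = fun x : ℕ => (((x : ℤ) + m) % (M : ℤ)).toNat := ⟨_, rfl⟩
  have hfz : ∀ k : ℕ, ((f k : ℕ) : ℤ) = ((k : ℤ) - m) % (M : ℤ) := by
    intro k
    rw [hf0]
    exact Int.toNat_of_nonneg (Int.emod_nonneg _ hM0)
  have hgz : ∀ k : ℕ, ((g k : ℕ) : ℤ) = ((k : ℤ) + m) % (M : ℤ) := by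
    intro k
    rw [hg0]
    exact Int.toNat_of_nonneg (Int.emod_nonneg _ hM0)
  have hgf : ∀ k : ℕ, k < M → g (f k) = k := by
    intro k hk
    have h1 : ((g (f k) : ℕ) : ℤ) = (k : ℤ) := by
      rw [hgz, hfz, Int.emod_add_emod, sub_add_cancel]
      exact Int.emod_eq_of_lt (Int.natCast_nonneg k) (by exact_mod_cast hk)
    exact_mod_cast h1
  have hc : ∀ k : ℕ, ((k : ℤ) - m) = (f k : ℤ) + ((((k : ℤ) - m) / (M : ℤ)) : ℤ) * M := by
    intro k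
    rw [hfz]
    have h1 := Int.emod_add_mul_ediv ((k : ℤ) - m) (M : ℤ)
    linarith
  refine ⟨R.image f, fun x => qf (g x),
    fun x => af (g x) - (qf (g x) : ℤ) * (((g x : ℤ) - m) / (M : ℤ)), ?_, ?_, ?_⟩
  · intro x hx
    obtain ⟨k, hk, rfl⟩ := Finset.mem_image.1 hx
    have h1 : ((f k : ℕ) : ℤ) < (M : ℤ) := by
      rw [hfz]
      exact Int.emod_lt_of_pos _ hM'
    exact_mod_cast h1
  · intro x hx
    obtain ⟨k, hk, rfl⟩ := Finset.mem_image.1 hx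
    have hkg := hgf k (hR k hk)
    have hF := hf k hk
    simp only [hkg]
    obtain ⟨c, hc0⟩ : ∃ c : ℤ, c = ((k : ℤ) - m) / (M : ℤ) := ⟨_, rfl⟩
    have hck := hc k
    rw [← hc0] at hck
    rw [← hc0]
    have hq0 : (0 : ℤ) ≤ (qf k : ℤ) := Int.natCast_nonneg _
    have hrem : (qf k : ℤ) * (f k : ℤ) - (af k - (qf k : ℤ) * c) * M =
        ((qf k : ℤ) * k - af k * M) - (qf k : ℤ) * m := by
      have h1 : (f k : ℤ) = (k : ℤ) - m - c * M := by linarith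
      rw [h1]
      ring
    have hqm : |(qf k : ℤ) * m| ≤ (m₁ : ℤ) * qf k := by
      rw [abs_mul, abs_of_nonneg hq0, mul_comm]
      exact mul_le_mul_of_nonneg_right hm hq0
    refine ⟨?_, hF.qlo, hF.qhi, ?_, ?_⟩
    · have h1 : af k - (qf k : ℤ) * c = af k + (qf k : ℤ) * (-c) := by ring
      rw [h1]
      exact hF.cop.add_mul_left_left (-c)
    · rw [hrem]
      calc |((qf k : ℤ) * k - af k * M) - (qf k : ℤ) * m|
          ≤ |(qf k : ℤ) * k - af k * M| + |(qf k : ℤ) * m| := abs_sub _ _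
        _ ≤ (K₂ : ℤ) * qf k + (m₁ : ℤ) * qf k := add_le_add hF.rhi hqm
        _ = ((K₂ + m₁ : ℕ) : ℤ) * qf k := by push_cast; ring
    · rw [hrem]
      by_cases hle : m₁ ≤ K₁
      · have h1 : ((K₁ - m₁ : ℕ) : ℤ) = (K₁ : ℤ) - m₁ := by push_cast [hle]; ring
        rw [h1]
        have h2 := abs_sub_abs_le_abs_sub ((qf k : ℤ) * k - af k * M) ((qf k : ℤ) * m)
        have h3 := hF.rlo
        nlinarith
      · have h1 : K₁ - m₁ = 0 := by omega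
        rw [h1]
        simp
  · intro G hG
    have hper : ∀ (n : ℤ) (x : ℤ), G (x + n * M) = G x := by
      intro n x
      have h1 : Function.Periodic G ((M : ℤ)) := hG
      have h2 := h1.int_mul n x
      simpa using h2
    have hinj : Set.InjOn f (R : Set ℕ) := by
      intro k hk k' hk' he
      have h1 := hgf k (hR k hk)
      have h2 := hgf k' (hR k' hk')
      rw [← h1, ← h2, he]
    rw [Finset.sum_image hinj]
    refine Finset.sum_congr rfl fun k _ => ?_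
    conv_lhs => rw [hc k]
    exact hper _ _

/-- Row E6b (SHORT/MEDIUM). The number of the frequencies: for each `q ∈ [Q, 2Q)` and each `k < M`
with `|q k - α M| ≤ K₂ q`, `K₂ ≤ M`, one has `-q ≤ α ≤ 2 q`, and for given `(q, α)` the `k` lie in an
interval of length `2 K₂`: `#R ≤ Q (6 Q + 1) (2 K₂ + 1) ≤ 21 Q² K₂`. -/
theorem card_freq (M Q K₁ K₂ : ℕ) (hQ : 1 ≤ Q) (hK : 1 ≤ K₂) (hKM : K₂ ≤ M) (R : Finset ℕ)
    (hR : ∀ k ∈ R, k < M) (hf : ∀ k ∈ R, ∃ (q : ℕ) (α : ℤ), Fz M Q K₁ K₂ k q α) :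
    R.card ≤ 21 * Q ^ 2 * K₂ := by
  classical
  rcases Nat.eq_zero_or_pos M with hM | hM
  · have h1 : R = ∅ := by
      refine Finset.eq_empty_of_forall_notMem fun k hk => ?_
      have := hR k hk
      omega
    rw [h1]
    simp
  have hM' : (0 : ℤ) < (M : ℤ) := by exact_mod_cast hM
  obtain ⟨I, hI⟩ : ∃ I : Finset (ℕ × ℤ),
      I = Finset.Ico Q (2 * Q) ×ˢ Finset.Icc (-(2 * (Q : ℤ))) (4 * (Q : ℤ)) := ⟨_, rfl⟩
  obtain ⟨T, hT⟩ : ∃ T : ℕ × ℤ → Finset ℕ,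
      T = fun p : ℕ × ℤ => R.filter (fun k : ℕ => |(p.1 : ℤ) * k - p.2 * M| ≤ (K₂ : ℤ) * p.1) := ⟨_, rfl⟩
  have hsub : R ⊆ I.biUnion T := by
    intro k hk
    obtain ⟨q, α, hF⟩ := hf k hk
    have hkM : (k : ℤ) < M := by exact_mod_cast hR k hk
    have hk0 : (0 : ℤ) ≤ (k : ℤ) := Int.natCast_nonneg k
    have hqlo : (Q : ℤ) ≤ q := by exact_mod_cast hF.qlo
    have hqhi : (q : ℤ) < 2 * (Q : ℤ) := by exact_mod_cast hF.qhi
    have hQ' : (1 : ℤ) ≤ (Q : ℤ) := by exact_mod_cast hQ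
    have hq0 : (0 : ℤ) < (q : ℤ) := by linarith
    have hKM' : (K₂ : ℤ) ≤ M := by exact_mod_cast hKM
    have hr := abs_le.1 hF.rhi
    have hKq : (K₂ : ℤ) * q ≤ M * q := mul_le_mul_of_nonneg_right hKM' hq0.le
    have h1 : -(q : ℤ) ≤ α := by
      by_contra hcon
      have h2 : α + 1 ≤ -(q : ℤ) := by omega
      have h3 : (α + 1) * M ≤ -(q : ℤ) * M := mul_le_mul_of_nonneg_right h2 hM'.le
      have h4 : 0 ≤ (q : ℤ) * k := by positivity
      nlinarith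
    have h2 : α ≤ 2 * (q : ℤ) := by
      by_contra hcon
      have h2 : 2 * (q : ℤ) + 1 ≤ α := by omega
      have h3 : (2 * (q : ℤ) + 1) * M ≤ α * M := mul_le_mul_of_nonneg_right h2 hM'.le
      have h4 : (q : ℤ) * k ≤ q * M := mul_le_mul_of_nonneg_left hkM.le hq0.le
      nlinarith
    refine Finset.mem_biUnion.2 ⟨(q, α), ?_, ?_⟩
    · rw [hI, Finset.mem_product, Finset.mem_Ico, Finset.mem_Icc]
      refine ⟨⟨hF.qlo, hF.qhi⟩, ?_, ?_⟩
      · show -(2 * (Q : ℤ)) ≤ α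
        linarith
      · show α ≤ 4 * (Q : ℤ)
        linarith
    · rw [hT]
      exact Finset.mem_filter.2 ⟨hk, hF.rhi⟩
  have hcard : ∀ p ∈ I, (T p).card ≤ 2 * K₂ + 1 := by
    intro p hp
    have hp1 : 1 ≤ p.1 := by
      rw [hI, Finset.mem_product, Finset.mem_Ico] at hp
      exact le_trans hQ hp.1.1
    have hp1' : (0 : ℤ) < (p.1 : ℤ) := by exact_mod_cast hp1
    rcases (T p).eq_empty_or_nonempty with he | hne
    · rw [he]
      simp
    · obtain ⟨k₀, hk₀, hmin⟩ := Finset.exists_min_image (T p) id hne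
      have hk₀' : |(p.1 : ℤ) * k₀ - p.2 * M| ≤ (K₂ : ℤ) * p.1 := by
        rw [hT] at hk₀
        exact (Finset.mem_filter.1 hk₀).2
      have hsub2 : T p ⊆ Finset.Icc k₀ (k₀ + 2 * K₂) := by
        intro k hk
        have hk' : |(p.1 : ℤ) * k - p.2 * M| ≤ (K₂ : ℤ) * p.1 := by
          rw [hT] at hk
          exact (Finset.mem_filter.1 hk).2
        refine Finset.mem_Icc.2 ⟨hmin k hk, ?_⟩
        have h1 := (abs_le.1 hk').2
        have h2 := (abs_le.1 hk₀').1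
        have h3 : (p.1 : ℤ) * ((k : ℤ) - k₀) ≤ (p.1 : ℤ) * (2 * K₂) := by linarith
        have h4 : (k : ℤ) - k₀ ≤ 2 * K₂ := le_of_mul_le_mul_left h3 hp1'
        have h5 : (k : ℤ) ≤ ((k₀ + 2 * K₂ : ℕ) : ℤ) := by push_cast; linarith
        exact_mod_cast h5
      refine (Finset.card_le_card hsub2).trans ?_
      rw [Nat.card_Icc]
      omega
  have hIc : I.card = Q * (6 * Q + 1) := by
    rw [hI, Finset.card_product, Nat.card_Ico, Int.card_Icc]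
    have h1 : (4 * (Q : ℤ) + 1 - -(2 * (Q : ℤ))).toNat = 6 * Q + 1 := by omega
    have h2 : 2 * Q - Q = Q := by omega
    rw [h1, h2]
  calc R.card ≤ (I.biUnion T).card := Finset.card_le_card hsub
    _ ≤ I.card * (2 * K₂ + 1) := Finset.card_biUnion_le_card_mul _ _ _ hcard
    _ = Q * (6 * Q + 1) * (2 * K₂ + 1) := by rw [hIc]
    _ ≤ Q * (7 * Q) * (3 * K₂) :=
        Nat.mul_le_mul (Nat.mul_le_mul le_rfl (by omega)) (by omega)
    _ = 21 * Q ^ 2 * K₂ := by ring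

/-- Row E6c (SHORT). Trivial bound: number of the pairs (`card_Cut_le`, `card_wP`,
`L · M / (20 a L) ≤ M`). -/
theorem gh_le {A : Finset ℕ} {a : ℕ} {s : ℝ} (hp : PB A a s) :
    ∃ C : ℝ, 1 ≤ C ∧ ∀ (M L C₀ : ℕ) (k : ℤ), 1 ≤ L → ‖gh A a M L C₀ k‖ ≤ C * (M : ℝ) ^ s := by
  obtain ⟨C₁, hC₁, h₁⟩ := card_Cut_le hp
  obtain ⟨C₂, hC₂, h₂⟩ := card_wP hp
  have hs : 0 ≤ s := by linarith [hp.s1]
  refine ⟨C₁ * C₂, by nlinarith, fun M L C₀ k hL => ?_⟩
  have hn : ‖gh A a M L C₀ k‖ ≤ ((Cut A a L).card : ℝ) * ((Wz A (M / (20 * (a * L))) C₀).card : ℝ) := by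
    unfold gh
    refine (norm_sum_le _ _).trans ?_
    refine (Finset.sum_le_card_nsmul _ _ ((Wz A (M / (20 * (a * L))) C₀).card : ℝ) ?_).trans ?_
    · intro v _
      refine (norm_sum_le _ _).trans ?_
      simp only [norm_ch]
      simp
    · rw [nsmul_eq_mul]
  have hW : ((Wz A (M / (20 * (a * L))) C₀).card : ℝ) ≤ C₂ * ((M / (20 * (a * L)) : ℕ) : ℝ) ^ s := by
    refine le_trans ?_ (h₂ _)
    exact_mod_cast Finset.card_le_card (Finset.filter_subset _ _)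
  have hprod : (L : ℝ) ^ s * ((M / (20 * (a * L)) : ℕ) : ℝ) ^ s ≤ (M : ℝ) ^ s := by
    rw [← Real.mul_rpow (Nat.cast_nonneg _) (Nat.cast_nonneg _)]
    refine Real.rpow_le_rpow (by positivity) ?_ hs
    have h3 : L * (M / (20 * (a * L))) ≤ M := by
      have h4 : L ≤ 20 * (a * L) := by
        have := hp.a4
        nlinarith
      exact (Nat.mul_le_mul_right _ h4).trans (Nat.mul_div_le _ _)
    exact_mod_cast h3
  calc ‖gh A a M L C₀ k‖ ≤ ((Cut A a L).card : ℝ) * ((Wz A (M / (20 * (a * L))) C₀).card : ℝ) := hn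
    _ ≤ (C₁ * (L : ℝ) ^ s) * (C₂ * ((M / (20 * (a * L)) : ℕ) : ℝ) ^ s) :=
        mul_le_mul (h₁ L) hW (Nat.cast_nonneg _) (by positivity)
    _ = C₁ * C₂ * ((L : ℝ) ^ s * ((M / (20 * (a * L)) : ℕ) : ℝ) ^ s) := by ring
    _ ≤ C₁ * C₂ * (M : ℝ) ^ s := mul_le_mul_of_nonneg_left hprod (by positivity)

theorem gh_periodic (A : Finset ℕ) (a M L C₀ : ℕ) (hM : 0 < M) (k : ℤ) :
    gh A a M L C₀ (k + M) = gh A a M L C₀ k := by
  unfold gh
  refine Finset.sum_congr rfl fun v _ => Finset.sum_congr rfl fun w _ => ?_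
  rw [show (k + (M : ℤ)) * dt (vec v) (vec w) = k * dt (vec v) (vec w) + M * dt (vec v) (vec w) by
    ring]
  exact ch_periodic M hM _ _

/-- `‖fh k‖ ≤ #(wP A N) ≤ C M^s` -/
theorem fh_le {A : Finset ℕ} {a : ℕ} {s : ℝ} (hp : PB A a s) :
    ∃ C : ℝ, 1 ≤ C ∧ ∀ (r b : ℕ) (k : ℤ), ‖fh A a r b k‖ ≤ C * ((MM a r b : ℕ) : ℝ) ^ s := by
  obtain ⟨C₂, hC₂, h₂⟩ := card_wP hp
  have hs : 0 ≤ s := by linarith [hp.s1]
  refine ⟨C₂, hC₂, fun r b k => ?_⟩
  have hn : ‖fh A a r b k‖ ≤ ((wP A (NN r b)).card : ℝ) := by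
    unfold fh
    refine (norm_sum_le _ _).trans ?_
    refine (Finset.sum_le_card_nsmul _ _ (1 : ℝ) ?_).trans ?_
    · intro z _
      rw [norm_mul, norm_ch, mul_one, Complex.norm_real, Real.norm_eq_abs,
        abs_of_nonneg (Ph_nonneg _ _ _)]
      exact Ph_le_one _ _ _
    · rw [nsmul_eq_mul, mul_one]
  refine hn.trans ((h₂ _).trans ?_)
  refine mul_le_mul_of_nonneg_left ?_ (by linarith)
  refine Real.rpow_le_rpow (Nat.cast_nonneg _) ?_ hs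
  have h3 : NN r b ≤ MM a r b := by
    unfold NN MM
    have h4 : 4 ≤ 20 * a := by
      have := hp.a4
      omega
    exact Nat.mul_le_mul_right _ (Nat.mul_le_mul_right _ h4)
  exact_mod_cast h3

theorem fz_of_fr {M i j k q : ℕ} {α : ℤ} (h : Fr M 2 i j k q α) :
    Fz M (2 ^ i) (if j = 0 then 0 else 2 ^ j) (2 ^ (j + 1)) k q α := by
  refine ⟨h.cop, h.qlo, ?_, ?_, ?_⟩
  · have h1 := h.qhi
    rw [pow_succ] at h1
    linarith
  · have h1 := h.rhi.le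
    push_cast
    exact_mod_cast h1
  · by_cases hj : j = 0
    · simp [hj]
    · rw [if_neg hj]
      rcases h.rlo with h1 | h1
      · exact absurd h1 hj
      · push_cast
        exact_mod_cast h1

end Pool.Agent.LibZT69
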