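import Pool.Agent.LibZT69.Defs
import Pool.Agent.LibZT69.B5
import Pool.Agent.LibZT69.B6

set_option autoImplicit false

namespace Pool.Agent.LibZT69

open Pool.Agent.LibZD69

open Pool.Agent.LibNZ69

/-- an element of `𝒞` occurs in `z` directly before the suffix of scale `X` -/
def occ (A : Finset ℕ) (a : ℕ) (F : Finset (List ℕ)) (X : ℕ) (z : List ℕ) : Prop :=
  ∃ y c x, z = y ++ (c ++ x) ∧ c ∈ F ∧ x ∈ Cut A a X

open scoped Classical in
/-- the words of scale `B^(t+1)` without an occurrence at the earlier scales -/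
noncomputable def fresh (A : Finset ℕ) (a : ℕ) (F : Finset (List ℕ)) (B t : ℕ) :
    Finset (List ℕ) :=
  (Cut A a (B ^ (t + 1))).filter (fun x => ∀ t' < t, ¬ occ A a F (B ^ (t' + 1)) x)

private theorem G7_one {A : Finset ℕ} {a : ℕ} {s : ℝ} (hp : PB A a s) {C1 C2 : ℝ}
    (hC1 : 1 ≤ C1) (hC2 : 1 ≤ C2)
    (h1 : ∀ P : ℕ, ((wP A P).card : ℝ) ≤ C1 * (P : ℝ) ^ s)
    (h2 : ∀ L : ℕ, ((Cut A a L).card : ℝ) ≤ C2 * (L : ℝ) ^ s)
    (F : Finset (List ℕ)) (τ₁ : ℕ) (hτ : 1 ≤ τ₁)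
    (hF : ∀ c ∈ F, WA A c ∧ τ₁ ≤ kk c) (L L' : ℕ) (hL'1 : 1 ≤ L')
    [DecidablePred (occ A a F L')] :
    (((Cut A a L).filter (fun x => occ A a F L' x)).card : ℝ) * (τ₁ : ℝ) ^ s ≤
      C1 * C2 * (a : ℝ) ^ s * F.card * (L : ℝ) ^ s := by
  have hs0 : 0 < s := by linarith [hp.s1]
  have hA1 : ∀ x ∈ A, 1 ≤ x := fun x hx => (hp.dig x hx).1
  set P := a * L / (τ₁ * L') with hP
  have hsub : (Cut A a L).filter (fun x => occ A a F L' x) ⊆
      (Cut A a L' ×ˢ (F ×ˢ wP A P)).image (fun p => p.2.2 ++ (p.2.1 ++ p.1)) := by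
    intro x hx
    rw [Finset.mem_filter] at hx
    obtain ⟨hx1, y, c, x', hxe, hcF, hx'⟩ := hx
    rw [Finset.mem_image]
    refine ⟨(x', c, y), ?_, hxe.symm⟩
    rw [Finset.mem_product, Finset.mem_product]
    refine ⟨hx', hcF, ?_⟩
    obtain ⟨hw, _, hk, _⟩ := Cut_bounds hp.dig hx1
    obtain ⟨_, hk', _, _⟩ := Cut_bounds hp.dig hx'
    rw [hxe, WA_append] at hw
    rw [mem_wP hA1]
    refine ⟨hw.1, ?_⟩
    rw [hP, Nat.le_div_iff_mul_le (by positivity)]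
    have e1 := kk_append_ge y (c ++ x')
    have e2 := kk_append_ge c x'
    rw [hxe] at hk
    calc kk y * (τ₁ * L') ≤ kk y * (kk c * kk x') :=
          Nat.mul_le_mul_left _ (Nat.mul_le_mul (hF c hcF).2 hk')
      _ ≤ kk y * kk (c ++ x') := Nat.mul_le_mul_left _ e2
      _ ≤ kk (y ++ (c ++ x')) := e1
      _ ≤ a * L := hk
  have hcard : (((Cut A a L).filter (fun x => occ A a F L' x)).card : ℝ) ≤
      ((Cut A a L').card : ℝ) * ((F.card : ℝ) * ((wP A P).card : ℝ)) := by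
    have h3 := (Finset.card_le_card hsub).trans Finset.card_image_le
    rw [Finset.card_product, Finset.card_product] at h3
    exact_mod_cast h3
  have hτs : 0 ≤ (τ₁ : ℝ) ^ s := by positivity
  have hL's : 0 ≤ (L' : ℝ) ^ s := by positivity
  have hPs : 0 ≤ (P : ℝ) ^ s := by positivity
  have hPm : (P : ℝ) ^ s * ((τ₁ : ℝ) ^ s * (L' : ℝ) ^ s) ≤ (a : ℝ) ^ s * (L : ℝ) ^ s := by
    have h4 : P * (τ₁ * L') ≤ a * L := Nat.div_mul_le_self _ _
    have h5 : (P : ℝ) * ((τ₁ : ℝ) * (L' : ℝ)) ≤ (a : ℝ) * (L : ℝ) := by exact_mod_cast h4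
    rw [← Real.mul_rpow (by positivity) (by positivity),
      ← Real.mul_rpow (by positivity) (by positivity),
      ← Real.mul_rpow (by positivity) (by positivity)]
    exact Real.rpow_le_rpow (by positivity) h5 hs0.le
  calc (((Cut A a L).filter (fun x => occ A a F L' x)).card : ℝ) * (τ₁ : ℝ) ^ s
      ≤ (((Cut A a L').card : ℝ) * ((F.card : ℝ) * ((wP A P).card : ℝ))) * (τ₁ : ℝ) ^ s :=
        mul_le_mul_of_nonneg_right hcard hτs
    _ ≤ ((C2 * (L' : ℝ) ^ s) * ((F.card : ℝ) * (C1 * (P : ℝ) ^ s))) * (τ₁ : ℝ) ^ s := by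
        refine mul_le_mul_of_nonneg_right ?_ hτs
        refine mul_le_mul (h2 L') ?_ (by positivity) (by positivity)
        exact mul_le_mul_of_nonneg_left (h1 P) (by positivity)
    _ = C1 * C2 * F.card * ((P : ℝ) ^ s * ((τ₁ : ℝ) ^ s * (L' : ℝ) ^ s)) := by ring
    _ ≤ C1 * C2 * F.card * ((a : ℝ) ^ s * (L : ℝ) ^ s) :=
        mul_le_mul_of_nonneg_left hPm (by positivity)
    _ = C1 * C2 * (a : ℝ) ^ s * F.card * (L : ℝ) ^ s := by ring

private theorem G7_lt {A : Finset ℕ} {a : ℕ} (hA : ∀ x ∈ A, 1 ≤ x ∧ x < a)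
    (F : Finset (List ℕ)) (τ₂ B : ℕ) (hB : 4 * (a * τ₂) ≤ B) (hB2 : 2 ≤ B) (hτ : 1 ≤ τ₂)
    (hF : ∀ c ∈ F, WA A c ∧ kk c ≤ τ₂) (t t' : ℕ) (y y' c c' x x' : List ℕ)
    (hc : c ∈ F)
    (hx : x ∈ fresh A a F B t) (hx' : x' ∈ fresh A a F B t')
    (h : y ++ (c ++ x) = y' ++ (c' ++ x')) (htt : t < t') : False := by
  classical
  unfold fresh at hx hx'
  rw [Finset.mem_filter] at hx hx'
  obtain ⟨hw, hk1, hk2, _⟩ := Cut_bounds hA hx.1
  obtain ⟨hw', hk1', _, _⟩ := Cut_bounds hA hx'.1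
  have hxpos : 1 ≤ B ^ (t + 1) := Nat.one_le_pow _ _ (by omega)
  have hBt : 2 ≤ B ^ (t + 1) := le_trans hB2 (Nat.le_self_pow (by omega) B)
  have hne : x ≠ [] := by
    rintro rfl
    rw [kk_nil] at hk1
    omega
  have ha : 1 ≤ a := by
    obtain ⟨d, l, rfl⟩ := List.exists_cons_of_ne_nil hne
    have := hA d (hw d (by simp))
    omega
  have hcx : ∀ z ∈ c ++ x, 1 ≤ z := by
    intro z hz
    rw [List.mem_append] at hz
    rcases hz with hz | hz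
    · exact (hA z ((hF c hc).1 z hz)).1
    · exact (hA z (hw z hz)).1
  have e1 : kk (c ++ x) ≤ 2 * (kk c * kk x) :=
    kk_append_le c x (fun z hz => hcx z (List.mem_append_left _ hz))
      (fun z hz => hcx z (List.mem_append_right _ hz))
  have e2 : kk (c ++ x) ≤ 2 * (τ₂ * (a * B ^ (t + 1))) :=
    e1.trans (Nat.mul_le_mul_left _ (Nat.mul_le_mul (hF c hc).2 hk2))
  have e3 : B ^ (t + 2) ≤ B ^ (t' + 1) := Nat.pow_le_pow_right (by omega) (by omega)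
  have e4 : 4 * (a * τ₂) * B ^ (t + 1) ≤ B ^ (t + 2) := by
    calc 4 * (a * τ₂) * B ^ (t + 1) ≤ B * B ^ (t + 1) := Nat.mul_le_mul_right _ hB
      _ = B ^ (t + 2) := by ring
  have e5 : 1 ≤ a * τ₂ * B ^ (t + 1) := by
    have : 1 ≤ a * τ₂ := Nat.mul_pos ha hτ
    exact Nat.mul_pos this hxpos
  have e6 : kk (c ++ x) < kk x' := by
    have e7 : 4 * (a * τ₂) * B ^ (t + 1) = 4 * (a * τ₂ * B ^ (t + 1)) := by ring
    have e8 : 2 * (τ₂ * (a * B ^ (t + 1))) = 2 * (a * τ₂ * B ^ (t + 1)) := by ring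
    omega
  have s1 : (c ++ x) <:+ y ++ (c ++ x) := List.suffix_append _ _
  have s2 : x' <:+ y ++ (c ++ x) := by
    rw [h, ← List.append_assoc]
    exact List.suffix_append _ _
  rcases List.suffix_or_suffix_of_suffix s1 s2 with hs | hs
  · obtain ⟨u, hu⟩ := hs
    exact hx'.2 t htt ⟨u, c, x, hu.symm, hc, hx.1⟩
  · obtain ⟨u, hu⟩ := hs
    have := kk_suffix_le u x' (by rw [hu]; exact hcx)
    rw [hu] at this
    omega

/-- Row G7a (MEDIUM). At least half of the cut set is fresh: for `t' < t` the number of the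
`x ∈ Cut A a (B^(t+1))` with an occurrence at `t'`, `x = y ++ (c ++ x')`, is at most the sum over `x'`, `c` of
the number of the `y` with `kk y ≤ a B^(t+1) / (τ₁ B^(t'+1))`, that is
`≤ C B^((t'+1)s) #F C (a B^(t+1) / (τ₁ B^(t'+1)))^s ≤ C' #F τ₁^(-s) #(Cut A a (B^(t+1)))`
(`card_wP`, `card_Cut_le`, `card_Cut_ge`). Sum over `t' < t ≤ t₁`. -/
theorem fresh_half {A : Finset ℕ} {a : ℕ} {s : ℝ} (hp : PB A a s) :
    ∃ C : ℝ, 1 ≤ C ∧ ∀ (F : Finset (List ℕ)) (τ₁ B t₁ : ℕ), 1 ≤ τ₁ → 2 ≤ B →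
      (∀ c ∈ F, WA A c ∧ τ₁ ≤ kk c) → C * (t₁ * F.card) ≤ (τ₁ : ℝ) ^ s →
      ∀ t < t₁, ((Cut A a (B ^ (t + 1))).card : ℝ) ≤ 2 * ((fresh A a F B t).card : ℝ) := by
  classical
  obtain ⟨C1, hC1, h1⟩ := card_wP hp
  obtain ⟨C2, hC2, h2⟩ := card_Cut_le hp
  have hs0 : 0 < s := by linarith [hp.s1]
  have ha1 : (1 : ℝ) ≤ (a : ℝ) := by
    have := hp.a4
    exact_mod_cast (by omega : 1 ≤ a)
  have has : 1 ≤ (a : ℝ) ^ s := Real.one_le_rpow ha1 hs0.le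
  refine ⟨8 * (C1 * C2 * (a : ℝ) ^ s), ?_, ?_⟩
  · have h3 : 1 ≤ C1 * C2 := by nlinarith
    nlinarith
  intro F τ₁ B t₁ hτ hB hF hmain t ht
  set K : ℝ := C1 * C2 * (a : ℝ) ^ s * F.card with hK
  have hK0 : 0 ≤ K := by positivity
  set N := (Cut A a (B ^ (t + 1))) with hN
  have hBt : 2 ≤ B ^ (t + 1) := le_trans hB (Nat.le_self_pow (by omega) B)
  have hge := card_Cut_ge hp (B ^ (t + 1)) hBt
  have hτp : 0 < (τ₁ : ℝ) ^ s := Real.rpow_pos_of_pos (by exact_mod_cast hτ) s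
  have hsplit := Finset.card_filter_add_card_filter_not (s := N)
    (fun x => ∀ t' < t, ¬ occ A a F (B ^ (t' + 1)) x)
  have hsub : N.filter (fun x => ¬ ∀ t' < t, ¬ occ A a F (B ^ (t' + 1)) x) ⊆
      (Finset.range t).biUnion (fun t' => N.filter (fun x => occ A a F (B ^ (t' + 1)) x)) := by
    intro x hx
    rw [Finset.mem_filter] at hx
    obtain ⟨hx1, hx2⟩ := hx
    push Not at hx2
    obtain ⟨t', ht', ho⟩ := hx2
    rw [Finset.mem_biUnion]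
    exact ⟨t', Finset.mem_range.2 ht', Finset.mem_filter.2 ⟨hx1, ho⟩⟩
  have hc1 : ((N.filter (fun x => ¬ ∀ t' < t, ¬ occ A a F (B ^ (t' + 1)) x)).card : ℝ) ≤
      ∑ t' ∈ Finset.range t, ((N.filter (fun x => occ A a F (B ^ (t' + 1)) x)).card : ℝ) := by
    have := (Finset.card_le_card hsub).trans Finset.card_biUnion_le
    exact_mod_cast this
  have hc2 : ((N.filter (fun x => ¬ ∀ t' < t, ¬ occ A a F (B ^ (t' + 1)) x)).card : ℝ) *
      (τ₁ : ℝ) ^ s ≤ t * (K * ((B ^ (t + 1) : ℕ) : ℝ) ^ s) := by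
    calc _ ≤ (∑ t' ∈ Finset.range t,
          ((N.filter (fun x => occ A a F (B ^ (t' + 1)) x)).card : ℝ)) * (τ₁ : ℝ) ^ s :=
          mul_le_mul_of_nonneg_right hc1 hτp.le
      _ = ∑ t' ∈ Finset.range t,
          ((N.filter (fun x => occ A a F (B ^ (t' + 1)) x)).card : ℝ) * (τ₁ : ℝ) ^ s := by
          rw [Finset.sum_mul]
      _ ≤ ∑ _t' ∈ Finset.range t, (K * ((B ^ (t + 1) : ℕ) : ℝ) ^ s) :=
          Finset.sum_le_sum fun t' _ => G7_one hp hC1 hC2 h1 h2 F τ₁ hτ hF (B ^ (t + 1)) (B ^ (t' + 1))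
          (Nat.one_le_pow _ _ (by omega))
      _ = _ := by rw [Finset.sum_const, Finset.card_range, nsmul_eq_mul]
  have hc3 : (t : ℝ) * (K * ((B ^ (t + 1) : ℕ) : ℝ) ^ s) ≤
      ((τ₁ : ℝ) ^ s / 2) * (N.card : ℝ) := by
    have htt : (t : ℝ) ≤ t₁ := by exact_mod_cast ht.le
    have h4 : (t : ℝ) * (K * ((B ^ (t + 1) : ℕ) : ℝ) ^ s) ≤ (t₁ : ℝ) * (K * (4 * (N.card : ℝ))) :=
      mul_le_mul htt (mul_le_mul_of_nonneg_left hge hK0) (by positivity) (by positivity)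
    have h5 : 8 * (t₁ : ℝ) * K ≤ (τ₁ : ℝ) ^ s := by
      calc 8 * (t₁ : ℝ) * K = 8 * (C1 * C2 * (a : ℝ) ^ s) * (t₁ * F.card) := by rw [hK]; ring
        _ ≤ _ := hmain
    have h6 : 0 ≤ (N.card : ℝ) := by positivity
    have h7 := mul_le_mul_of_nonneg_right h5 h6
    nlinarith
  have hc4 : ((N.filter (fun x => ¬ ∀ t' < t, ¬ occ A a F (B ^ (t' + 1)) x)).card : ℝ) ≤
      (N.card : ℝ) / 2 := by
    have h8 := hc2.trans hc3
    have h9 : ((N.filter (fun x => ¬ ∀ t' < t, ¬ occ A a F (B ^ (t' + 1)) x)).card : ℝ) *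
      (τ₁ : ℝ) ^ s ≤ ((N.card : ℝ) / 2) * (τ₁ : ℝ) ^ s := by nlinarith
    exact le_of_mul_le_mul_right h9 hτp
  have hf : fresh A a F B t = N.filter (fun x => ∀ t' < t, ¬ occ A a F (B ^ (t' + 1)) x) := by
    unfold fresh
    rw [hN]
  rw [hf]
  have hs' : ((N.filter (fun x => ∀ t' < t, ¬ occ A a F (B ^ (t' + 1)) x)).card : ℝ) +
      ((N.filter (fun x => ¬ ∀ t' < t, ¬ occ A a F (B ^ (t' + 1)) x)).card : ℝ) =
      (N.card : ℝ) := by exact_mod_cast hsplit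
  linarith

/-- Row G7b (SHORT/MEDIUM). Uniqueness of the place. If `t < t'` then
`kk (c ++ x) ≤ 2 kk c kk x ≤ 2 τ₂ a B^(t+1) < B^(t'+1) ≤ kk x'`, so (both are suffixes of one word) `c ++ x` is
a suffix of `x'`, i.e. `occ A a F (B^(t+1)) x'`, a contradiction to `x' ∈ fresh t'`. For `t = t'` use
`cut_unique`. -/
theorem fresh_unique {A : Finset ℕ} {a : ℕ} (hA : ∀ x ∈ A, 1 ≤ x ∧ x < a)
    (F : Finset (List ℕ)) (τ₂ B : ℕ) (hB : 4 * (a * τ₂) ≤ B) (hB2 : 2 ≤ B) (hτ : 1 ≤ τ₂)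
    (hF : ∀ c ∈ F, WA A c ∧ kk c ≤ τ₂) (t t' : ℕ) (y y' c c' x x' : List ℕ)
    (hy : WA A y) (hy' : WA A y')
    (hc : c ∈ F) (hc' : c' ∈ F) (hx : x ∈ fresh A a F B t) (hx' : x' ∈ fresh A a F B t')
    (h : y ++ (c ++ x) = y' ++ (c' ++ x')) : t = t' ∧ x = x' ∧ y ++ c = y' ++ c' := by
  classical
  rcases lt_trichotomy t t' with htt | htt | htt
  · exact (G7_lt hA F τ₂ B hB hB2 hτ hF t t' y y' c c' x x' hc hx hx' h htt).elim
  · subst htt
    have h1 : x ∈ Cut A a (B ^ (t + 1)) := by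
      unfold fresh at hx
      exact (Finset.mem_filter.1 hx).1
    have h2 : x' ∈ Cut A a (B ^ (t + 1)) := by
      unfold fresh at hx'
      exact (Finset.mem_filter.1 hx').1
    have h3 : (y ++ c) ++ x = (y' ++ c') ++ x' := by
      rw [List.append_assoc, List.append_assoc]
      exact h
    obtain ⟨h4, h5⟩ := cut_unique hA h1 h2 h3
    exact ⟨rfl, h5, h4⟩
  · exact (G7_lt hA F τ₂ B hB hB2 hτ hF t' t y' y c' c x' x hc' hx' hx h.symm htt).elim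

end Pool.Agent.LibZT69
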