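import Pool.Agent.LibZT69.Defs
import Pool.Agent.LibZD69.F1
import Pool.Agent.LibZD69.E2
import Pool.Agent.LibZT69.G9
import Pool.Agent.LibZD69.H1

set_option autoImplicit false

namespace Pool.Agent.LibZT69

open Pool.Agent.LibZD69

open Pool.Agent.LibNZ69

/-- exchange of the sums: a lower bound for the average from a set of words -/
private theorem I1_swap {A : Finset ℕ} (a r b q₀ H₀ : ℕ) (x : ℤ) (S : Finset (List ℕ))
    (hS : S ⊆ wP A (NN r b)) (v : ℝ)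
    (hh : ∀ z ∈ S, v ≤ Ph r (4 * b) (nz z) ∧
      ∃ h ∈ Finset.Icc (-(H₀ : ℤ)) H₀, nz z = x - q₀ * h) :
    v * S.card / (2 * (H₀ : ℝ) + 1) ≤ GG A a r b q₀ H₀ x := by
  unfold GG
  apply div_le_div_of_nonneg_right _ (by positivity)
  unfold FF
  rw [Finset.sum_comm]
  have hnn : ∀ z : List ℕ, ∀ h : ℤ, 0 ≤ (if ((MM a r b : ℕ) : ℤ) ∣ nz z - (x - q₀ * h) then
      Ph r (4 * b) (nz z) else 0) := by
    intro z h
    split_ifs
    · exact Ph_nonneg _ _ _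
    · exact le_rfl
  calc v * S.card = ∑ z ∈ S, v := by rw [Finset.sum_const, nsmul_eq_mul]; ring
    _ ≤ ∑ z ∈ S, ∑ h ∈ Finset.Icc (-(H₀ : ℤ)) H₀,
        (if ((MM a r b : ℕ) : ℤ) ∣ nz z - (x - q₀ * h) then Ph r (4 * b) (nz z) else 0) := by
        apply Finset.sum_le_sum
        intro z hz
        obtain ⟨h1, h, h2, h3⟩ := hh z hz
        refine le_trans ?_ (Finset.single_le_sum (fun h _ => hnn z h) h2)
        rw [if_pos (by rw [h3]; simp)]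
        exact h1
    _ ≤ _ := Finset.sum_le_sum_of_subset_of_nonneg hS
        (fun z _ _ => Finset.sum_nonneg (fun h _ => hnn z h))

/-- the facts about one word counted by `local_lower` -/
private theorem I1_word (r b T q₀ M H₀ x : ℕ) (hr : 3 ≤ r) (hT : 2 * (5 + r) ≤ T)
    (hb : 1 ≤ b) (hq : 1 ≤ q₀) (hM : x ≤ M) (hH : H₀ = M / (T * q₀))
    (hx1 : (5 + r) * b ≤ x) (hx2 : x < 2 * ((5 + r) * b)) (z : List ℕ)
    (h1 : |((nz z : ℤ) : ℝ) - x| ≤ 1 / (T : ℝ) * x) (h2 : (q₀ : ℤ) ∣ nz z - (x : ℤ)) :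
    ((1 : ℝ) / 4) ^ r ≤ Ph r (4 * b) (nz z) ∧
      ∃ h ∈ Finset.Icc (-(H₀ : ℤ)) H₀, nz z = x - q₀ * h := by
  have hT1 : 1 ≤ T := by omega
  have hT' : (0 : ℝ) < T := by exact_mod_cast hT1
  -- the integral form of the distance
  have h3 : |nz z - (x : ℤ)| * T ≤ x := by
    have h4 : |((nz z : ℤ) : ℝ) - x| * T ≤ x := by
      calc |((nz z : ℤ) : ℝ) - x| * T ≤ (1 / (T : ℝ) * x) * T :=
            mul_le_mul_of_nonneg_right h1 hT'.le
        _ = x := by field_simp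
    exact_mod_cast h4
  have h5 : |nz z - (x : ℤ)| ≤ b := by
    by_contra hcon
    push Not at hcon
    have h6 : (b : ℤ) * T < |nz z - (x : ℤ)| * T := by
      apply mul_lt_mul_of_pos_right hcon
      exact_mod_cast hT1
    have h7 : (b : ℤ) * (2 * (5 + r)) ≤ (b : ℤ) * T := by
      apply mul_le_mul_of_nonneg_left _ (by positivity)
      exact_mod_cast hT
    have h8 : (x : ℤ) < 2 * ((5 + r) * b) := by exact_mod_cast hx2
    nlinarith
  have h9 := abs_le.1 h5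
  have hx1' : ((5 : ℤ) + r) * b ≤ x := by exact_mod_cast hx1
  have hx2' : (x : ℤ) < 2 * ((5 + r) * b) := by exact_mod_cast hx2
  have hr' : (3 : ℤ) ≤ r := by exact_mod_cast hr
  have hb' : (1 : ℤ) ≤ b := by exact_mod_cast hb
  refine ⟨Ph_middle r b hb (nz z) (by nlinarith [h9.1]) (by nlinarith [h9.2]), ?_⟩
  obtain ⟨d, hd⟩ := h2
  have hdH : |d| ≤ (H₀ : ℤ) := by
    have h10 : |d| * (T * q₀) ≤ M := by
      have h11 : |nz z - (x : ℤ)| = q₀ * |d| := by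
        rw [hd, abs_mul, Nat.abs_cast]
      rw [h11] at h3
      have : (x : ℤ) ≤ M := by exact_mod_cast hM
      nlinarith
    have h12 : d.natAbs * (T * q₀) ≤ M := by
      have : ((d.natAbs * (T * q₀) : ℕ) : ℤ) ≤ (M : ℤ) := by
        push_cast
        exact h10
      exact_mod_cast this
    have h13 : d.natAbs ≤ H₀ := by
      rw [hH, Nat.le_div_iff_mul_le (by positivity)]
      exact h12
    have : ((d.natAbs : ℕ) : ℤ) ≤ (H₀ : ℤ) := by exact_mod_cast h13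
    rwa [Int.natCast_natAbs] at this
  have hdd := abs_le.1 hdH
  refine ⟨-d, Finset.mem_Icc.2 ⟨by linarith [hdd.2], by linarith [hdd.1]⟩, ?_⟩
  linarith

/-- the final computation -/
private theorem I1_final (v c s E Mx x φ T q₀ H S G : ℝ) (hv : 0 < v) (hc : 0 < c) (hs : 0 ≤ s)
    (hE : 0 < E) (hM : 0 < Mx) (hx : 0 < x) (hφ : 0 ≤ φ) (hT : 0 < T) (hq : 0 < q₀)
    (hH : 0 ≤ H) (h1 : Mx ≤ E * x) (h2 : 2 * H + 1 ≤ 3 * (Mx / (T * q₀)))
    (h3 : c * (1 / T) * x ^ s * φ / q₀ ≤ S) (h4 : v * S / (2 * H + 1) ≤ G) :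
    v * c / (3 * E ^ s) * Mx ^ (s - 1) * φ ≤ G := by
  have hEs : 0 < E ^ s := Real.rpow_pos_of_pos hE s
  have hxs : 0 < x ^ s := Real.rpow_pos_of_pos hx s
  have hMs : Mx ^ s ≤ E ^ s * x ^ s := by
    rw [← Real.mul_rpow hE.le hx.le]
    exact Real.rpow_le_rpow hM.le h1 hs
  have hMs1 : Mx ^ (s - 1) = Mx ^ s / Mx := by
    rw [Real.rpow_sub hM, Real.rpow_one]
  refine le_trans ?_ h4
  have hS : 0 ≤ S := le_trans (by positivity) h3
  calc v * c / (3 * E ^ s) * Mx ^ (s - 1) * φ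
      = v * c * φ / (3 * E ^ s * Mx) * Mx ^ s := by rw [hMs1]; field_simp
    _ ≤ v * c * φ / (3 * E ^ s * Mx) * (E ^ s * x ^ s) :=
        mul_le_mul_of_nonneg_left hMs (by positivity)
    _ = v * (c * (1 / T) * x ^ s * φ / q₀) / (3 * (Mx / (T * q₀))) := by field_simp
    _ ≤ v * S / (3 * (Mx / (T * q₀))) := by
        apply div_le_div_of_nonneg_right _ (by positivity)
        exact mul_le_mul_of_nonneg_left h3 hv.le
    _ ≤ v * S / (2 * H + 1) := by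
        apply div_le_div_of_nonneg_left (by positivity) (by positivity) h2

/-- Row I1a (MEDIUM). Lower bound for the average. `M = MM a r b`, `(5+r) b ≤ x < 2 (5+r) b`,
`r ≥ 3`, `q₀ H₀ ≤ b`-ish (`b` large, `κ' = 2^(-3 t₀)`): all the `x - q₀ h`, `|h| ≤ H₀` (here
`q₀ H₀ ≤ M 2^(-3 t₀)`; assume `t₀ ≥ t₁(a, r)` so that this is `≤ b`) lie in `[(4+r) b, (8+3r) b)`, where
`Ph ≥ 4^(-r)` (`Ph_middle`), and in `[0, M)`, so `FF (x - q₀ h) ≥ 4^(-r) #{z : nz z = x - q₀ h}`; sum over `h`: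
`GG x ≥ 4^(-r) / (2 H₀ + 1) · #{z : |nz z - x| ≤ q₀ H₀, q₀ ∣ nz z - x}`, and `local_lower` with
`κ = 2^(-3 t₀)`: since `q₀ H₀ ≥ M 2^(-3 t₀) - q₀ ≥ κ x` (as `M ≥ 2 x`), the number is
`≥ c κ x^s (φ(x)/x) / q₀`, and `2 H₀ + 1 ≤ 3 M κ / q₀` for `b` large. So
`GG x ≥ c' M^(s-1) φ(x)/x` (`x ≥ b`, `M = 20 a (r+3) b`). -/
theorem GG_lower {A : Finset ℕ} {a : ℕ} {s : ℝ} (hp : PB A a s) (r : ℕ) (hr : 3 ≤ r) :
    ∃ c : ℝ, 0 < c ∧ ∃ t₁ : ℕ, ∀ t₀ : ℕ, t₁ ≤ t₀ → ∃ b₀ : ℕ, ∀ b M q₀ H₀ : ℕ, b₀ ≤ b →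
      M = MM a r b → q₀ = (2 ^ t₀).factorial → H₀ = M / (2 ^ (5 * t₀) * q₀) →
      ∀ x : ℕ, (5 + r) * b ≤ x → x < 2 * ((5 + r) * b) →
        c * (M : ℝ) ^ (s - 1) * ((x.totient : ℝ) / x) ≤ GG A a r b q₀ H₀ x := by
  have hA1 : ∀ x ∈ A, 1 ≤ x := fun x hx => (hp.dig x hx).1
  have hs0 : 0 ≤ s := by have := hp.s1; linarith
  have ha4 := hp.a4
  obtain ⟨c, hc, hloc⟩ := local_lower hp
  obtain ⟨E, hE⟩ : ∃ E : ℝ, E = 20 * (a : ℝ) * (r + 3) := ⟨_, rfl⟩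
  have hEpos : 0 < E := by
    have : (0 : ℝ) < a := by exact_mod_cast (by omega : 0 < a)
    rw [hE]; positivity
  refine ⟨(1 / 4) ^ r * c / (3 * E ^ s), by
    have := Real.rpow_pos_of_pos hEpos s
    positivity, r + 4, ?_⟩
  intro t₀ ht₀
  obtain ⟨T, hTdef⟩ : ∃ T : ℕ, T = 2 ^ (5 * t₀) := ⟨_, rfl⟩
  have hT : 2 * (5 + r) ≤ T := by
    have h1 : 2 ^ (r + 4) ≤ 2 ^ (5 * t₀) := Nat.pow_le_pow_right (by omega) (by omega)
    have h2 : r < 2 ^ r := Nat.lt_two_pow_self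
    rw [hTdef]
    calc 2 * (5 + r) ≤ 2 ^ r * 16 := by omega
      _ = 2 ^ (r + 4) := by rw [pow_add]; norm_num
      _ ≤ _ := h1
  have hT1 : 1 ≤ T := by omega
  have hT' : (1 : ℝ) ≤ T := by exact_mod_cast hT1
  have hq₁ : 1 ≤ (2 ^ t₀).factorial := Nat.factorial_pos _
  obtain ⟨n₀, hn₀⟩ := hloc (2 ^ t₀).factorial hq₁ (1 / (T : ℝ)) (by positivity)
    (by rw [div_le_one (by positivity)]; exact hT')
  refine ⟨max n₀ (T * (2 ^ t₀).factorial) + 1, ?_⟩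
  intro b M q₀ H₀ hb hM hq₀ hH₀ x hx1 hx2
  rw [← hq₀] at hn₀ hb hq₁
  rw [← hTdef] at hH₀
  have hb1 : 1 ≤ b := by omega
  have hbn : n₀ ≤ b := by have := le_max_left n₀ (T * q₀); omega
  have hbT : T * q₀ ≤ b := by have := le_max_right n₀ (T * q₀); omega
  have hxb : b ≤ x := by nlinarith
  have hMx : x ≤ M := by
    rw [hM]; unfold MM
    have h1 : 4 * ((r + 3) * b) ≤ a * ((r + 3) * b) := Nat.mul_le_mul_right _ ha4
    nlinarith
  have hMb : (M : ℝ) = E * b := by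
    rw [hM, hE]; unfold MM; push_cast; ring
  have hbM : b ≤ M := hxb.trans hMx
  have hS := hn₀ x (hbn.trans hxb)
  have hsw := I1_swap (A := A) a r b q₀ H₀ (x : ℤ) ((wP A x).filter
    (fun z => |((nz z : ℤ) : ℝ) - x| ≤ 1 / (T : ℝ) * x ∧ (q₀ : ℤ) ∣ nz z - (x : ℤ)))
    ((Finset.filter_subset _ _).trans (wP_mono hA1 (by unfold NN; nlinarith))) ((1 / 4) ^ r)
    (by
      intro z hz
      obtain ⟨_, h1, h2⟩ := Finset.mem_filter.1 hz
      exact I1_word r b T q₀ M H₀ x hr hT hb1 hq₁ hMx hH₀ hx1 hx2 z h1 h2)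
  have hx0 : (0 : ℝ) < x := by exact_mod_cast (by omega : 0 < x)
  have hq' : (0 : ℝ) < q₀ := by exact_mod_cast hq₁
  have hM0 : (0 : ℝ) < M := by exact_mod_cast (by omega : 0 < M)
  refine I1_final ((1 / 4) ^ r) c s E M x ((x.totient : ℝ) / x) T q₀ H₀ _ _ (by positivity) hc hs0
    hEpos hM0 hx0 (by positivity) (by linarith) hq' (Nat.cast_nonneg _) ?_ ?_ hS hsw
  · rw [hMb]
    exact mul_le_mul_of_nonneg_left (by exact_mod_cast hxb) hEpos.le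
  · have h1 : (H₀ : ℝ) ≤ (M : ℝ) / (T * q₀) := by
      rw [hH₀]
      have := @Nat.cast_div_le ℝ _ _ _ M (T * q₀)
      push_cast at this
      exact this
    have h2 : (1 : ℝ) ≤ (M : ℝ) / (T * q₀) := by
      rw [le_div_iff₀ (by positivity), one_mul]
      exact_mod_cast hbT.trans hbM
    linarith

end Pool.Agent.LibZT69
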