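import Pool.Agent.LibZT69.Defs
import Pool.Agent.LibZT69.B3

set_option autoImplicit false

namespace Pool.Agent.LibZT69

open Pool.Agent.LibZD69

open Pool.Agent.LibNZ69

private theorem J0_one_le (A : Finset ℕ) (hA : ∀ x ∈ A, 1 ≤ x) (t c : ℝ) (ht : 0 ≤ t)
    (hc0 : 0 < c) (hc : ∀ l, c ≤ ZZ A t l) (n : ℕ) : 1 ≤ ZZ A t n := by
  have hnn : ∀ n, 0 ≤ ZZ A t n := fun n =>
    Finset.sum_nonneg fun w _ => Real.rpow_nonneg (Nat.cast_nonneg _) _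
  by_contra hlt
  push Not at hlt
  have hpow : ∀ k : ℕ, ZZ A t (k * n) ≤ (ZZ A t n) ^ k := by
    intro k
    induction k with
    | zero =>
      rw [Nat.zero_mul, pow_zero]
      unfold ZZ
      rw [wl_zero, Finset.sum_singleton]
      simp [kk, con]
    | succ k ih =>
      rw [Nat.succ_mul, pow_succ]
      exact le_trans (ZZ_add_le A hA t ht _ _) (mul_le_mul_of_nonneg_right ih (hnn n))
  obtain ⟨k, hk⟩ := exists_pow_lt_of_lt_one hc0 hlt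
  have := hc (k * n)
  linarith [hpow k]

/-- Row J0 (SHORT). `exists_PB` with the maximality of `s`: the same proof (take `s` from
`exists_bowen`; a lower bound `c ≤ ZZ A σ l` for all `l` gives `1 ≤ ZZ A σ n` for all `n`, see the proof of
`exists_PB`, and then `σ ≤ s` by the last property of `exists_bowen`). -/
theorem exists_PB2 (A : Finset ℕ) (a : ℕ) (h1 : 1 ∈ A) (h2 : 2 ∈ A) (hA : ∀ x ∈ A, 1 ≤ x ∧ x < a)
    (ha : 4 ≤ a) (σ c : ℝ) (hσ : 1 < σ) (hc0 : 0 < c) (hc : ∀ l, c ≤ ZZ A σ l) :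
    ∃ s : ℝ, PB A a s ∧ ∀ (t c' : ℝ), 0 < c' → (∀ l, c' ≤ ZZ A t l) → t ≤ s := by
  have hA' : ∀ x ∈ A, 1 ≤ x := fun x hx => (hA x hx).1
  obtain ⟨s, hs0, hlo, hhi, hmax⟩ := exists_bowen A hA' ⟨1, h1⟩
  have hs2 : s ≤ 2 := bowen_le_two A hA' s hlo
  have hmx : ∀ (t c' : ℝ), 0 < c' → (∀ l, c' ≤ ZZ A t l) → t ≤ s := by
    intro t c' hc'0 hc'
    rcases le_or_gt t 0 with ht | ht
    · linarith
    · exact hmax t (J0_one_le A hA' t c' ht.le hc'0 hc')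
  have hσs : σ ≤ s := hmx σ c hc0 hc
  refine ⟨s, ⟨h1, h2, hA, ha, by linarith, hs2, hlo, fun n => le_trans (hhi n) ?_⟩, hmx⟩
  calc (2 : ℝ) ^ s ≤ (2 : ℝ) ^ (2 : ℝ) := Real.rpow_le_rpow_of_exponent_le (by norm_num) hs2
    _ = 4 := by norm_num

end Pool.Agent.LibZT69
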