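import Pool.Agent.LibZT69.L1
import Pool.Agent.LibZT69.E7

set_option autoImplicit false

namespace Pool.Agent.LibZT69

open Pool.Agent.LibNZ69 Pool.Agent.LibZD69

private theorem L2_size (a r b i j d M L K c : ℕ) (hK : K = 3 ^ 32 * 2 ^ 240)
    (hc : c = 20 * a * (r + 3)) (hb : K * c ^ 25 ≤ b) (hb1 : 1 ≤ b) (hM : M = MM a r b)
    (hL : L = 2 ^ (6 + j + d + (3 * i + 1) / 2)) (hd : 16 * d ≤ i + j + 16)
    (h1 : 2 ^ (2 * i + j) ≤ M) (h2 : 2 ^ (2 * (i + j)) ≤ M) : 3 * L ≤ b := by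
  have hMc : M = c * b := by
    rw [hM, hc]
    unfold MM
    ring
  have hL32 : L ^ 32 ≤ 2 ^ 240 * M ^ 25 := by
    have e1 : L ^ 32 = 2 ^ ((6 + j + d + (3 * i + 1) / 2) * 32) := by
      rw [hL, ← pow_mul]
    have e2 : (6 + j + d + (3 * i + 1) / 2) * 32 ≤ 240 + ((2 * i + j) * 16 + 2 * (i + j) * 9) := by
      omega
    have e3 : (2 : ℕ) ^ (240 + ((2 * i + j) * 16 + 2 * (i + j) * 9)) =
        2 ^ 240 * ((2 ^ (2 * i + j)) ^ 16 * (2 ^ (2 * (i + j))) ^ 9) := by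
      rw [pow_add, pow_add, pow_mul 2 (2 * i + j) 16, pow_mul 2 (2 * (i + j)) 9]
    have e4 : (2 ^ (2 * i + j)) ^ 16 * (2 ^ (2 * (i + j))) ^ 9 ≤ M ^ 16 * M ^ 9 :=
      Nat.mul_le_mul (Nat.pow_le_pow_left h1 16) (Nat.pow_le_pow_left h2 9)
    have e5 : M ^ 16 * M ^ 9 = M ^ 25 := by rw [← pow_add]
    rw [e1]
    refine (Nat.pow_le_pow_right (by norm_num) e2).trans ?_
    rw [e3]
    refine Nat.mul_le_mul_left _ ?_
    rw [← e5]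
    exact e4
  have h3 : (3 * L) ^ 32 ≤ b ^ 32 := by
    have e1 : (3 * L) ^ 32 = 3 ^ 32 * L ^ 32 := mul_pow 3 L 32
    have e2 : 3 ^ 32 * (2 ^ 240 * M ^ 25) = K * c ^ 25 * b ^ 25 := by
      rw [hMc, hK, mul_pow c b 25]
      ring
    have e3 : K * c ^ 25 * b ^ 25 ≤ b * b ^ 25 := Nat.mul_le_mul_right _ hb
    have e4 : b * b ^ 25 = b ^ 26 := by rw [pow_succ b 25, mul_comm]
    have e5 : b ^ 26 ≤ b ^ 32 := Nat.pow_le_pow_right hb1 (by norm_num)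
    calc (3 * L) ^ 32 = 3 ^ 32 * L ^ 32 := e1
      _ ≤ 3 ^ 32 * (2 ^ 240 * M ^ 25) := Nat.mul_le_mul_left _ hL32
      _ = K * c ^ 25 * b ^ 25 := e2
      _ ≤ b * b ^ 25 := e3
      _ = b ^ 26 := e4
      _ ≤ b ^ 32 := e5
  exact le_of_pow_le_pow_left₀ (by norm_num) (Nat.zero_le b) h3

/-- Row L2 (SHORT/MEDIUM; compare `classBound` in `LibZD69/E9.lean`, finished, with its private lemma
`E9_size`, which can be copied: `d = ⌊η (i+j)⌋ + 1` satisfies `16 d ≤ i + j + 16`). -/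
theorem classBound {A : Finset ℕ} {a : ℕ} {s : ℝ} (hp : PB A a s) (η : ℝ) (hη : 0 < η)
    (hη1 : η ≤ 1 / 16) (r : ℕ) (hr : 4 ≤ (r : ℝ) * η) :
    ∃ C : ℝ, 1 ≤ C ∧ ∃ b₀ : ℕ, ∀ b i j M : ℕ, b₀ ≤ b → M = MM a r b → 2 ^ (2 * i + j) ≤ M →
      2 ^ (2 * (i + j)) ≤ M → ∀ R : Finset ℕ, (∀ k ∈ R, k < M) →
      ∀ (qf : ℕ → ℕ) (af : ℕ → ℤ), (∀ k ∈ R, Fr M 2 i j k (qf k) (af k)) →
        ∑ k ∈ R, ‖fh A a r b k‖ ^ 2 ≤
          C * (2 : ℝ) ^ ((3 - 2 * s + 4 * η) * ((i : ℝ) + j)) * (M : ℝ) ^ (2 * s) := by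
  have hr1 : 1 ≤ r := by
    rcases Nat.eq_zero_or_pos r with h | h
    · subst h
      norm_num at hr
    · exact h
  obtain ⟨C1, hC1, hcomb⟩ := combine hp r hr1
  obtain ⟨C2, hC2, hbook⟩ := book2 s hp.s1 hp.s2 η hη hη1 r hr
  obtain ⟨K, hK⟩ : ∃ K : ℕ, K = 3 ^ 32 * 2 ^ 240 := ⟨_, rfl⟩
  obtain ⟨c, hc⟩ : ∃ c : ℕ, c = 20 * a * (r + 3) := ⟨_, rfl⟩
  refine ⟨C1 * C2, one_le_mul_of_one_le_of_one_le hC1 hC2, K * c ^ 25 + 1, ?_⟩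
  intro b i j M hb hM h1 h2 R hR qf af hf
  have hn0 : (0 : ℝ) ≤ (i : ℝ) + j := by positivity
  have hx0 : 0 ≤ η * ((i : ℝ) + j) := mul_nonneg hη.le hn0
  obtain ⟨m, hm⟩ : ∃ m : ℕ, m = ⌊η * ((i : ℝ) + j)⌋₊ := ⟨_, rfl⟩
  have hm1 : (m : ℝ) ≤ η * ((i : ℝ) + j) := by
    rw [hm]
    exact Nat.floor_le hx0
  have hm2 : η * ((i : ℝ) + j) ≤ ((m + 1 : ℕ) : ℝ) := by
    rw [hm]
    push_cast
    exact (Nat.lt_floor_add_one _).le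
  have hm3 : ((m + 1 : ℕ) : ℝ) ≤ η * ((i : ℝ) + j) + 1 := by
    push_cast
    linarith
  have hd : 16 * (m + 1) ≤ i + j + 16 := by
    have e1 : (16 * (m : ℝ)) ≤ (i : ℝ) + j := by
      have : η * ((i : ℝ) + j) ≤ 1 / 16 * ((i : ℝ) + j) :=
        mul_le_mul_of_nonneg_right hη1 hn0
      linarith
    have e2 : 16 * m ≤ i + j := by exact_mod_cast e1
    omega
  have hb1 : 1 ≤ b := by omega
  have h3L := L2_size a r b i j (m + 1) M _ K c hK hc (by omega) hb1 hM rfl hd h1 h2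
  obtain ⟨L, hL⟩ : ∃ L : ℕ, L = 2 ^ (6 + j + (m + 1) + (3 * i + 1) / 2) := ⟨_, rfl⟩
  rw [← hL] at h3L
  have h24 : 24 * (a * L) ≤ M := by
    rw [hM]
    unfold MM
    calc 24 * (a * L) = 8 * a * (3 * L) := by ring
      _ ≤ 8 * a * b := Nat.mul_le_mul_left _ h3L
      _ ≤ 20 * a * (r + 3) * b := by
        refine Nat.mul_le_mul_right _ ?_
        nlinarith
  have e1 := hcomb b i j (m + 1) M L hM hL hb1 (by omega) h3L h24 h1 h2 R hR qf af hf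
  have e2 := hbook i j (m + 1) M L hL hm2 hm3 h1 h2
  refine e1.trans ?_
  have e3 := mul_le_mul_of_nonneg_left e2 (show (0 : ℝ) ≤ C1 by linarith)
  refine e3.trans (le_of_eq ?_)
  ring

end Pool.Agent.LibZT69
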