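import Pool.Agent.LibZT69.Defs

set_option autoImplicit false

namespace Pool.Agent.LibZT69

open Pool.Agent.LibNZ69 Pool.Agent.LibZD69

/-- Row N8 (MEDIUM, real exponents; compare `book` in `LibZD69/E8.lean`, finished). `n = i + j`,
`μ = log₂ M ≥ 2 n`, `l = log₂ L = 2 + n + d`, `η n ≤ d ≤ η n + 1`. Exponents of 2 (each `≤ 20 + 2 s μ -
(2 (s-1) - 2 η) n`):
* `L^(2+s) (M/L)^s = L² M^s`: `2 l + s μ ≤ 6 + 2 n + 2 η n + s μ`, `s μ ≥ 2 s n`;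
* `L^(2+s) (M/L)^s (M/L)^s 2^(-n s) = L^(2-s) M^(2s) 2^(-n s)`: `(2-s)(2 + n + d) - n s`;
* second group: `2^(-r j)` times `L² M^s`, and `2^(-r j) L^(2-s) M^(2s) 2^(-i s)`: `-r j + (2-s)(2+n+d) - i s`,
  `r ≥ 2 ≥ s`;
* third: `-r (j+d) ≤ -r η n ≤ -2 n`. -/
theorem book1 (s : ℝ) (h1 : 1 < s) (h2 : s ≤ 2) (η : ℝ) (hη : 0 < η) (hη1 : η ≤ 1 / 16) (r : ℕ)
    (hr : 4 ≤ (r : ℝ) * η) :
    ∃ C : ℝ, 1 ≤ C ∧ ∀ i j d M L : ℕ, L = 2 ^ (2 + i + j + d) →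
      η * ((i : ℝ) + j) ≤ d → (d : ℝ) ≤ η * ((i : ℝ) + j) + 1 → 2 ^ (2 * (i + j)) ≤ M →
        ((L : ℝ) ^ (2 + s) * ((M : ℝ) / L) ^ s * (1 + ((M : ℝ) / L / 2 ^ (i + j)) ^ s) +
            (1 / 2 : ℝ) ^ (r * j) * ((L : ℝ) ^ (2 + s) * ((M : ℝ) / L) ^ s *
              (1 + ((M : ℝ) / L / 2 ^ i) ^ s)) +
            (1 / 2 : ℝ) ^ (r * (j + d)) * (M : ℝ) ^ (2 * s)) ≤
          C * (2 : ℝ) ^ (-((2 * (s - 1) - 2 * η) * ((i : ℝ) + j))) * (M : ℝ) ^ (2 * s) := by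
  refine ⟨320, by norm_num, fun i j d M L hL hd1 hd2 hM => ?_⟩
  have hi : (0 : ℝ) ≤ i := Nat.cast_nonneg i
  have hj : (0 : ℝ) ≤ j := Nat.cast_nonneg j
  have hd : (0 : ℝ) ≤ d := Nat.cast_nonneg d
  have h2 : (0 : ℝ) < 2 := by norm_num
  obtain ⟨n, hn⟩ : ∃ n : ℝ, n = (i : ℝ) + j := ⟨_, rfl⟩
  rw [← hn] at hd1 hd2 ⊢
  have hn0 : 0 ≤ n := by rw [hn]; linarith
  have hM0 : (0 : ℝ) < M := by
    have : 0 < M := lt_of_lt_of_le (by positivity) hM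
    exact_mod_cast this
  have hpn : (2 : ℝ) ^ (i + j) = (2 : ℝ) ^ n := by
    rw [← Real.rpow_natCast, hn]
    push_cast
    rfl
  have hMr : (2 : ℝ) ^ (2 * n) ≤ M := by
    have h3 : ((2 ^ (2 * (i + j)) : ℕ) : ℝ) ≤ M := by exact_mod_cast hM
    have h4 : ((2 ^ (2 * (i + j)) : ℕ) : ℝ) = (2 : ℝ) ^ (2 * n) := by
      rw [Nat.cast_pow, ← Real.rpow_natCast, hn]
      push_cast
      rfl
    rwa [h4] at h3
  obtain ⟨P, hPdef⟩ : ∃ P : ℝ, P = (M : ℝ) ^ s := ⟨_, rfl⟩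
  have hP0 : 0 < P := by rw [hPdef]; positivity
  have hP : (2 : ℝ) ^ (2 * n * s) ≤ P := by
    have h3 := Real.rpow_le_rpow (by positivity) hMr (by linarith : 0 ≤ s)
    rw [← Real.rpow_mul h2.le] at h3
    rw [hPdef]
    exact h3
  have hP2 : (M : ℝ) ^ (2 * s) = P * P := by
    rw [two_mul, Real.rpow_add hM0, hPdef]
  obtain ⟨l, hl⟩ : ∃ l : ℝ, l = 2 + n + d := ⟨_, rfl⟩
  have hLr : (L : ℝ) = (2 : ℝ) ^ l := by
    rw [hL, Nat.cast_pow, ← Real.rpow_natCast, hl, hn]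
    push_cast
    congr 1
    ring
  have hL0 : (0 : ℝ) < L := by rw [hLr]; positivity
  have hML : ((M : ℝ) / L) ^ s = P * (2 : ℝ) ^ (-(l * s)) := by
    rw [Real.div_rpow hM0.le hL0.le, hLr, ← Real.rpow_mul h2.le, Real.rpow_neg h2.le, hPdef]
    rfl
  have hML0 : 0 ≤ (M : ℝ) / L := by positivity
  have hT : (L : ℝ) ^ (2 + s) * ((M : ℝ) / L) ^ s = (2 : ℝ) ^ (2 * l) * P := by
    rw [hML, hLr, ← Real.rpow_mul h2.le]
    have e : (2 : ℝ) ^ (l * (2 + s)) * (P * (2 : ℝ) ^ (-(l * s))) =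
        ((2 : ℝ) ^ (l * (2 + s)) * (2 : ℝ) ^ (-(l * s))) * P := by ring
    rw [e, ← Real.rpow_add h2]
    congr 2
    ring
  have hD : ∀ x : ℝ, ((M : ℝ) / L / (2 : ℝ) ^ x) ^ s = P * (2 : ℝ) ^ (-(l * s) - x * s) := by
    intro x
    rw [Real.div_rpow hML0 (by positivity), hML, ← Real.rpow_mul h2.le, Real.rpow_sub h2]
    ring
  have hpi : (2 : ℝ) ^ i = (2 : ℝ) ^ (i : ℝ) := (Real.rpow_natCast 2 i).symm
  have hh : ∀ m : ℕ, (1 / 2 : ℝ) ^ m = (2 : ℝ) ^ (-(m : ℝ)) := by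
    intro m
    rw [Real.rpow_neg h2.le, Real.rpow_natCast]
    simp
  obtain ⟨B, hB⟩ : ∃ B : ℝ, B = (2 : ℝ) ^ (-((2 * (s - 1) - 2 * η) * n)) := ⟨_, rfl⟩
  have hB0 : 0 < B := by rw [hB]; positivity
  have key : ∀ e : ℝ, e ≤ 6 + -((2 * (s - 1) - 2 * η) * n) → (2 : ℝ) ^ e ≤ 64 * B := by
    intro e he
    refine (Real.rpow_le_rpow_of_exponent_le (by norm_num) he).trans ?_
    rw [Real.rpow_add h2, ← hB]
    apply le_of_eq
    congr 1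
    norm_num
  rw [hpn, hpi, hD, hD, hT, hP2, hh, hh, ← hB]
  -- the first kind of term
  have hη0 := hη.le
  have hr1 : (64 : ℝ) ≤ r := by
    by_contra hc
    push Not at hc
    nlinarith
  have t1 : (2 : ℝ) ^ (2 * l) * P ≤ 64 * B * (P * P) := by
    have h3 : (2 : ℝ) ^ (2 * l - 2 * n * s) ≤ 64 * B := by
      apply key
      rw [hl]
      nlinarith
    have h4 : (2 : ℝ) ^ (2 * l) = (2 : ℝ) ^ (2 * l - 2 * n * s) * (2 : ℝ) ^ (2 * n * s) := by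
      rw [← Real.rpow_add h2]
      congr 1
      ring
    rw [h4]
    have h5 : (2 : ℝ) ^ (2 * l - 2 * n * s) * (2 : ℝ) ^ (2 * n * s) ≤ 64 * B * P :=
      mul_le_mul h3 hP (by positivity) (by positivity)
    calc (2 : ℝ) ^ (2 * l - 2 * n * s) * (2 : ℝ) ^ (2 * n * s) * P ≤ 64 * B * P * P :=
          mul_le_mul_of_nonneg_right h5 hP0.le
      _ = 64 * B * (P * P) := by ring
  have hle1 : (2 : ℝ) ^ (-((r * j : ℕ) : ℝ)) ≤ 1 := by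
    apply Real.rpow_le_one_of_one_le_of_nonpos (by norm_num)
    have : (0 : ℝ) ≤ ((r * j : ℕ) : ℝ) := Nat.cast_nonneg _
    linarith
  have hlb : (2 - s) * l ≤ 3 * (2 - s) + (2 - s) * n + (2 - s) * (η * n) := by
    rw [hl]
    have h3 : (0 : ℝ) ≤ 2 - s := by linarith
    nlinarith
  have hηn : 0 ≤ η * n := by positivity
  have t2 : (2 : ℝ) ^ (2 * l) * P * (P * (2 : ℝ) ^ (-(l * s) - n * s)) ≤ 64 * B * (P * P) := by
    have e : (2 : ℝ) ^ (2 * l) * P * (P * (2 : ℝ) ^ (-(l * s) - n * s)) =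
        (2 : ℝ) ^ (2 * l + (-(l * s) - n * s)) * (P * P) := by
      rw [Real.rpow_add h2]; ring
    rw [e]
    apply mul_le_mul_of_nonneg_right _ (by positivity)
    apply key
    nlinarith
  have t3 : (2 : ℝ) ^ (-((r * j : ℕ) : ℝ)) * ((2 : ℝ) ^ (2 * l) * P) ≤ 64 * B * (P * P) := by
    refine le_trans ?_ t1
    exact mul_le_of_le_one_left (by positivity) hle1
  have t4 : (2 : ℝ) ^ (-((r * j : ℕ) : ℝ)) * ((2 : ℝ) ^ (2 * l) * P *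
      (P * (2 : ℝ) ^ (-(l * s) - (i : ℝ) * s))) ≤ 64 * B * (P * P) := by
    have e : (2 : ℝ) ^ (-((r * j : ℕ) : ℝ)) * ((2 : ℝ) ^ (2 * l) * P *
        (P * (2 : ℝ) ^ (-(l * s) - (i : ℝ) * s))) =
        (2 : ℝ) ^ (-((r * j : ℕ) : ℝ) + (2 * l + (-(l * s) - (i : ℝ) * s))) * (P * P) := by
      rw [Real.rpow_add h2, Real.rpow_add h2 (2 * l)]; ring
    rw [e]
    apply mul_le_mul_of_nonneg_right _ (by positivity)
    apply key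
    push_cast
    have h3 : (s : ℝ) * j ≤ r * j := mul_le_mul_of_nonneg_right (by linarith) hj
    have h4 : (i : ℝ) * s = n * s - j * s := by rw [hn]; ring
    rw [h4]
    nlinarith
  have t5 : (2 : ℝ) ^ (-((r * (j + d) : ℕ) : ℝ)) * (P * P) ≤ 64 * B * (P * P) := by
    apply mul_le_mul_of_nonneg_right _ (by positivity)
    apply key
    push_cast
    have h3 : (r : ℝ) * (η * n) ≤ r * d := mul_le_mul_of_nonneg_left hd1 (by linarith)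
    have h4 : (4 : ℝ) * n ≤ r * η * n := mul_le_mul_of_nonneg_right hr hn0
    have h5 : (0 : ℝ) ≤ r * j := by positivity
    nlinarith
  have efin : (2 : ℝ) ^ (2 * l) * P * (1 + P * (2 : ℝ) ^ (-(l * s) - n * s)) +
      (2 : ℝ) ^ (-((r * j : ℕ) : ℝ)) * ((2 : ℝ) ^ (2 * l) * P *
        (1 + P * (2 : ℝ) ^ (-(l * s) - (i : ℝ) * s))) +
      (2 : ℝ) ^ (-((r * (j + d) : ℕ) : ℝ)) * (P * P) =
      (2 : ℝ) ^ (2 * l) * P + (2 : ℝ) ^ (2 * l) * P * (P * (2 : ℝ) ^ (-(l * s) - n * s)) +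
      (2 : ℝ) ^ (-((r * j : ℕ) : ℝ)) * ((2 : ℝ) ^ (2 * l) * P) +
      (2 : ℝ) ^ (-((r * j : ℕ) : ℝ)) * ((2 : ℝ) ^ (2 * l) * P *
        (P * (2 : ℝ) ^ (-(l * s) - (i : ℝ) * s))) +
      (2 : ℝ) ^ (-((r * (j + d) : ℕ) : ℝ)) * (P * P) := by ring
  rw [efin]
  linarith

end Pool.Agent.LibZT69
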