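import Pool.Agent.LibZT69.N7
import Pool.Agent.LibZT69.N8

set_option autoImplicit false

namespace Pool.Agent.LibZT69

open Pool.Agent.LibNZ69 Pool.Agent.LibZD69

private theorem N9_size (a r b i j d M L K c : ℕ) (hK : K = 3 ^ 32 * 2 ^ 96)
    (hc : c = 20 * a * (r + 3)) (hb : K * c ^ 17 ≤ b) (hb1 : 1 ≤ b) (hM : M = MM a r b)
    (hL : L = 2 ^ (2 + i + j + d)) (hd : 16 * d ≤ i + j + 16)
    (h2 : 2 ^ (2 * (i + j)) ≤ M) : 3 * L ≤ b := by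
  have hMc : M = c * b := by
    rw [hM, hc]
    unfold MM
    ring
  have hL32 : L ^ 32 ≤ 2 ^ 96 * M ^ 17 := by
    have e1 : L ^ 32 = 2 ^ ((2 + i + j + d) * 32) := by
      rw [hL, ← pow_mul]
    have e2 : (2 + i + j + d) * 32 ≤ 96 + (2 * (i + j)) * 17 := by
      omega
    have e3 : (2 : ℕ) ^ (96 + (2 * (i + j)) * 17) = 2 ^ 96 * (2 ^ (2 * (i + j))) ^ 17 := by
      rw [pow_add, pow_mul 2 (2 * (i + j)) 17]
    rw [e1]
    refine (Nat.pow_le_pow_right (by norm_num) e2).trans ?_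
    rw [e3]
    exact Nat.mul_le_mul_left _ (Nat.pow_le_pow_left h2 17)
  have h3 : (3 * L) ^ 32 ≤ b ^ 32 := by
    have e1 : (3 * L) ^ 32 = 3 ^ 32 * L ^ 32 := mul_pow 3 L 32
    have e2 : 3 ^ 32 * (2 ^ 96 * M ^ 17) = K * c ^ 17 * b ^ 17 := by
      rw [hMc, hK, mul_pow c b 17]
      ring
    have e3 : K * c ^ 17 * b ^ 17 ≤ b * b ^ 17 := Nat.mul_le_mul_right _ hb
    have e4 : b * b ^ 17 = b ^ 18 := by rw [pow_succ b 17, mul_comm]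
    have e5 : b ^ 18 ≤ b ^ 32 := Nat.pow_le_pow_right hb1 (by norm_num)
    calc (3 * L) ^ 32 = 3 ^ 32 * L ^ 32 := e1
      _ ≤ 3 ^ 32 * (2 ^ 96 * M ^ 17) := Nat.mul_le_mul_left _ hL32
      _ = K * c ^ 17 * b ^ 17 := e2
      _ ≤ b * b ^ 17 := e3
      _ = b ^ 18 := e4
      _ ≤ b ^ 32 := e5
  exact le_of_pow_le_pow_left₀ (by norm_num) (Nat.zero_le b) h3

/-- Row N9 (SHORT/MEDIUM; compare `classBound` in `LibZD69/E9.lean`). `combine1`, `book1` with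
`d = ⌊η (i+j)⌋ + 1`. The conditions `3 L ≤ b`, `24 a L ≤ M` for `b ≥ b₀`: `L = 2^(2+n+d) ≤ 8 · 2^(n + n/16)`,
`2^(2n) ≤ M = 20 a (r+3) b`, so `L^32 ≤ 8^32 M^17` (or directly with real powers: `L ≤ 8 M^(17/32)`). -/
theorem supBound {A : Finset ℕ} {a : ℕ} {s : ℝ} (hp : PB A a s) (η : ℝ) (hη : 0 < η)
    (hη1 : η ≤ 1 / 16) (r : ℕ) (hr : 4 ≤ (r : ℝ) * η) :
    ∃ C : ℝ, 1 ≤ C ∧ ∃ b₀ : ℕ, ∀ b i j M : ℕ, b₀ ≤ b → M = MM a r b →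
      2 ^ (2 * (i + j)) ≤ M → ∀ (k q : ℕ) (α : ℤ), k < M → Fr M 2 i j k q α →
        ‖fh A a r b k‖ ^ 2 ≤
          C * (2 : ℝ) ^ (-((2 * (s - 1) - 2 * η) * ((i : ℝ) + j))) * (M : ℝ) ^ (2 * s) := by
  have hr1 : 1 ≤ r := by
    rcases Nat.eq_zero_or_pos r with h | h
    · subst h
      norm_num at hr
    · exact h
  obtain ⟨C1, hC1, hcomb⟩ := combine1 hp r hr1
  obtain ⟨C2, hC2, hbook⟩ := book1 s hp.s1 hp.s2 η hη hη1 r hr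
  obtain ⟨K, hK⟩ : ∃ K : ℕ, K = 3 ^ 32 * 2 ^ 96 := ⟨_, rfl⟩
  obtain ⟨c, hc⟩ : ∃ c : ℕ, c = 20 * a * (r + 3) := ⟨_, rfl⟩
  refine ⟨C1 * C2, one_le_mul_of_one_le_of_one_le hC1 hC2, K * c ^ 17 + 1, ?_⟩
  intro b i j M hb hM h2 k q α hk hf
  have hn0 : (0 : ℝ) ≤ (i : ℝ) + j := by positivity
  have hx0 : 0 ≤ η * ((i : ℝ) + j) := mul_nonneg hη.le hn0
  obtain ⟨m, hm⟩ : ∃ m : ℕ, m = ⌊η * ((i : ℝ) + j)⌋₊ := ⟨_, rfl⟩
  have hm1 : (m : ℝ) ≤ η * ((i : ℝ) + j) := by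
    rw [hm]
    exact Nat.floor_le hx0
  have hm2 : η * ((i : ℝ) + j) ≤ ((m + 1 : ℕ) : ℝ) := by
    rw [hm]
    push_cast
    exact (Nat.lt_floor_add_one _).le
  have hm3 : ((m + 1 : ℕ) : ℝ) ≤ η * ((i : ℝ) + j) + 1 := by
    push_cast
    linarith
  have hd : 16 * (m + 1) ≤ i + j + 16 := by
    have e1 : (16 * (m : ℝ)) ≤ (i : ℝ) + j := by
      have : η * ((i : ℝ) + j) ≤ 1 / 16 * ((i : ℝ) + j) :=
        mul_le_mul_of_nonneg_right hη1 hn0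
      linarith
    have e2 : 16 * m ≤ i + j := by exact_mod_cast e1
    omega
  have hb1 : 1 ≤ b := by omega
  have h3L := N9_size a r b i j (m + 1) M _ K c hK hc (by omega) hb1 hM rfl hd h2
  obtain ⟨L, hL⟩ : ∃ L : ℕ, L = 2 ^ (2 + i + j + (m + 1)) := ⟨_, rfl⟩
  rw [← hL] at h3L
  have h24 : 24 * (a * L) ≤ M := by
    rw [hM]
    unfold MM
    calc 24 * (a * L) = 8 * a * (3 * L) := by ring
      _ ≤ 8 * a * b := Nat.mul_le_mul_left _ h3L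
      _ ≤ 20 * a * (r + 3) * b := by
        refine Nat.mul_le_mul_right _ ?_
        nlinarith
  have e1 := hcomb b i j (m + 1) M L hM hL hb1 (by omega) h3L h24 k q α hk hf
  have e2 := hbook i j (m + 1) M L hL hm2 hm3 h2
  refine e1.trans ?_
  have e3 := mul_le_mul_of_nonneg_left e2 (show (0 : ℝ) ≤ C1 by linarith)
  refine e3.trans (le_of_eq ?_)
  ring

end Pool.Agent.LibZT69
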