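import Pool.Agent.LibZT69.L2
import Pool.Agent.LibZT69.N9

set_option autoImplicit false

namespace Pool.Agent.LibZT69

open Pool.Agent.LibNZ69 Pool.Agent.LibZD69

private theorem L3_geom (x : ℝ) (hx0 : 0 ≤ x) (hx1 : x < 1) (P : Finset (ℕ × ℕ)) :
    ∑ p ∈ P, x ^ p.1 * x ^ p.2 ≤ (1 - x)⁻¹ * (1 - x)⁻¹ := by
  obtain ⟨N, hN⟩ : ∃ N : ℕ, ∀ p ∈ P, p.1 < N ∧ p.2 < N := by
    refine ⟨P.sup (fun p => p.1 + p.2) + 1, fun p hp => ?_⟩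
    have h : p.1 + p.2 ≤ P.sup (fun p => p.1 + p.2) :=
      Finset.le_sup (f := fun p : ℕ × ℕ => p.1 + p.2) hp
    constructor <;> omega
  have hsub : P ⊆ Finset.range N ×ˢ Finset.range N := by
    intro p hp
    rw [Finset.mem_product, Finset.mem_range, Finset.mem_range]
    exact hN p hp
  have hg : ∑ k ∈ Finset.range N, x ^ k ≤ (1 - x)⁻¹ := by
    rw [← tsum_geometric_of_lt_one hx0 hx1]
    exact (summable_geometric_of_lt_one hx0 hx1).sum_le_tsum _ (fun k _ => pow_nonneg hx0 k)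
  have hg0 : 0 ≤ ∑ k ∈ Finset.range N, x ^ k := Finset.sum_nonneg fun k _ => pow_nonneg hx0 k
  calc ∑ p ∈ P, x ^ p.1 * x ^ p.2
      ≤ ∑ p ∈ Finset.range N ×ˢ Finset.range N, x ^ p.1 * x ^ p.2 :=
        Finset.sum_le_sum_of_subset_of_nonneg hsub
          (fun p _ _ => mul_nonneg (pow_nonneg hx0 _) (pow_nonneg hx0 _))
    _ = (∑ k ∈ Finset.range N, x ^ k) * (∑ k ∈ Finset.range N, x ^ k) := by
        rw [Finset.sum_product, Finset.sum_mul_sum]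
    _ ≤ (1 - x)⁻¹ * (1 - x)⁻¹ := mul_le_mul hg hg hg0 (hg0.trans hg)

private theorem L3_pow {κ : ℕ} (hκ : 2 ≤ κ) {f B : ℝ} (hf : 0 ≤ f) (hB : f ≤ B) :
    f ^ κ ≤ B ^ (κ - 2) * f ^ 2 := by
  have e : κ - 2 + 2 = κ := by omega
  calc f ^ κ = f ^ (κ - 2) * f ^ 2 := by rw [← pow_add, e]
    _ ≤ B ^ (κ - 2) * f ^ 2 :=
      mul_le_mul_of_nonneg_right (pow_le_pow_left₀ hf hB _) (by positivity)

private theorem L3_sup {C2 n s η M f : ℝ} (hC : 1 ≤ C2) (hf : 0 ≤ f) (hM : 0 ≤ M)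
    (h : f ^ 2 ≤ C2 * (2 : ℝ) ^ (-((2 * (s - 1) - 2 * η) * n)) * M ^ (2 * s)) :
    f ≤ C2 * (2 : ℝ) ^ (-((s - 1 - η) * n)) * M ^ s := by
  have h2 : (2 : ℝ) ^ (-((2 * (s - 1) - 2 * η) * n)) =
      ((2 : ℝ) ^ (-((s - 1 - η) * n))) ^ 2 := by
    rw [← Real.rpow_natCast, ← Real.rpow_mul (by norm_num)]
    congr 1
    push_cast
    ring
  have h3 : M ^ (2 * s) = (M ^ s) ^ 2 := by
    rw [← Real.rpow_natCast, ← Real.rpow_mul hM]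
    congr 1
    push_cast
    ring
  rw [h2, h3] at h
  have hMs : 0 ≤ M ^ s := Real.rpow_nonneg hM s
  have hB : 0 ≤ C2 * (2 : ℝ) ^ (-((s - 1 - η) * n)) * M ^ s := by
    have : 0 ≤ C2 := by linarith
    positivity
  refine (pow_le_pow_iff_left₀ hf hB two_ne_zero).1 (h.trans ?_)
  have h4 : C2 ≤ C2 ^ 2 := by nlinarith
  calc C2 * ((2 : ℝ) ^ (-((s - 1 - η) * n))) ^ 2 * (M ^ s) ^ 2
      ≤ C2 ^ 2 * ((2 : ℝ) ^ (-((s - 1 - η) * n))) ^ 2 * (M ^ s) ^ 2 :=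
        mul_le_mul_of_nonneg_right (mul_le_mul_of_nonneg_right h4 (by positivity)) (by positivity)
    _ = _ := by ring

private theorem L3_comb {κ : ℕ} (hκ : 2 ≤ κ) {s η θ n C1 C2 M : ℝ} (hC1 : 1 ≤ C1)
    (hC2 : 1 ≤ C2) (hM : 0 < M) (hn : 0 ≤ n)
    (hθ : 3 - 2 * s + 4 * η - ((κ : ℝ) - 2) * (s - 1 - η) ≤ -(2 * θ)) :
    (C2 * (2 : ℝ) ^ (-((s - 1 - η) * n)) * M ^ s) ^ (κ - 2) *
        (C1 * (2 : ℝ) ^ ((3 - 2 * s + 4 * η) * n) * M ^ (2 * s)) ≤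
      C1 * C2 ^ κ * (2 : ℝ) ^ (-(2 * θ * n)) * M ^ ((κ : ℝ) * s) := by
  have hk : ((κ - 2 : ℕ) : ℝ) = (κ : ℝ) - 2 := by
    rw [Nat.cast_sub hκ]
    norm_num
  have e1 : ((2 : ℝ) ^ (-((s - 1 - η) * n))) ^ (κ - 2) =
      (2 : ℝ) ^ (-((s - 1 - η) * n) * ((κ : ℝ) - 2)) := by
    rw [← hk, Real.rpow_mul (by norm_num), Real.rpow_natCast]
  have e2 : (M ^ s) ^ (κ - 2) = M ^ (s * ((κ : ℝ) - 2)) := by
    rw [← hk, Real.rpow_mul hM.le, Real.rpow_natCast]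
  have e3 : (2 : ℝ) ^ (-((s - 1 - η) * n) * ((κ : ℝ) - 2)) *
      (2 : ℝ) ^ ((3 - 2 * s + 4 * η) * n) ≤ (2 : ℝ) ^ (-(2 * θ * n)) := by
    rw [← Real.rpow_add (by norm_num)]
    apply Real.rpow_le_rpow_of_exponent_le (by norm_num)
    have h := mul_le_mul_of_nonneg_right hθ hn
    calc -((s - 1 - η) * n) * ((κ : ℝ) - 2) + (3 - 2 * s + 4 * η) * n
        = (3 - 2 * s + 4 * η - ((κ : ℝ) - 2) * (s - 1 - η)) * n := by ring
      _ ≤ -(2 * θ) * n := h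
      _ = -(2 * θ * n) := by ring
  have e4 : M ^ (s * ((κ : ℝ) - 2)) * M ^ (2 * s) = M ^ ((κ : ℝ) * s) := by
    rw [← Real.rpow_add hM]
    congr 1
    ring
  have e5 : C2 ^ (κ - 2) ≤ C2 ^ κ := pow_le_pow_right₀ hC2 (by omega)
  have hC1' : 0 ≤ C1 := by linarith
  have hC2' : 0 ≤ C2 := by linarith
  rw [mul_pow, mul_pow, e1, e2]
  calc C2 ^ (κ - 2) * (2 : ℝ) ^ (-((s - 1 - η) * n) * ((κ : ℝ) - 2)) *
          M ^ (s * ((κ : ℝ) - 2)) * (C1 * (2 : ℝ) ^ ((3 - 2 * s + 4 * η) * n) * M ^ (2 * s))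
      = C1 * C2 ^ (κ - 2) * ((2 : ℝ) ^ (-((s - 1 - η) * n) * ((κ : ℝ) - 2)) *
          (2 : ℝ) ^ ((3 - 2 * s + 4 * η) * n)) *
          (M ^ (s * ((κ : ℝ) - 2)) * M ^ (2 * s)) := by ring
    _ ≤ C1 * C2 ^ κ * (2 : ℝ) ^ (-(2 * θ * n)) * M ^ ((κ : ℝ) * s) := by
        rw [e4]
        refine mul_le_mul_of_nonneg_right ?_ (by positivity)
        exact mul_le_mul (mul_le_mul_of_nonneg_left e5 hC1') e3 (by positivity) (by positivity)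

/-- Row L3 (MEDIUM; compare `tail` in `LibZD69/E9.lean`, finished: sum over the classes). Choose
`η = min (1/16) ((κ (s-1) - 1) / (4 κ + 16))`, `r₀ ≥ 4/η`. In one class `(i, j)`, `n = i + j`:
`∑ ‖fh‖^κ ≤ (max ‖fh‖)^(κ-2) ∑ ‖fh‖²`, by `supBound` `‖fh‖ ≤ (C 2^(-(2(s-1)-2η) n) M^(2s))^(1/2)`, so the class sum is
`≤ C' M^(κ s) 2^(-(κ-2)(s-1-η) n + (3-2s+4η) n)`, and the exponent is
`-(κ (s-1) - 1) + (κ-2) η + 4 η ≤ -(κ(s-1) - 1)/2 =: -2θ`. Sum over the classes with `n ≥ t₀` (as in `tail`):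
`≤ C 2^(-θ t₀)`. -/
theorem tailPow {A : Finset ℕ} {a : ℕ} {s : ℝ} (hp : PB A a s) (κ : ℕ) (hκ : 2 ≤ κ)
    (hκs : 1 < (κ : ℝ) * (s - 1)) :
    ∃ r₀ : ℕ, ∀ r : ℕ, r₀ ≤ r → ∃ C : ℝ, 1 ≤ C ∧ ∃ θ : ℝ, 0 < θ ∧ ∃ b₀ : ℕ, ∀ b M : ℕ, b₀ ≤ b →
      M = MM a r b → ∀ t₀ : ℕ, ∀ R : Finset ℕ, (∀ k ∈ R, k < M) →
      (∀ k ∈ R, ∃ (i j q : ℕ) (α : ℤ), Fr M 2 i j k q α ∧
        2 ^ (2 * i + j) ≤ M ∧ 2 ^ (2 * (i + j)) ≤ M ∧ t₀ ≤ i + j) →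
        ∑ k ∈ R, ‖fh A a r b k‖ ^ κ ≤
          C * (2 : ℝ) ^ (-(θ * (t₀ : ℝ))) * (M : ℝ) ^ ((κ : ℝ) * s) := by
  classical
  have hs1 := hp.s1
  have hs2 := hp.s2
  have hκ0 : (0 : ℝ) < 4 * (κ : ℝ) + 16 := by positivity
  obtain ⟨η, hηd⟩ : ∃ η : ℝ, η = min (1 / 16) (((κ : ℝ) * (s - 1) - 1) / (4 * κ + 16)) :=
    ⟨_, rfl⟩
  have hη : 0 < η := by
    rw [hηd]
    exact lt_min (by norm_num) (div_pos (by linarith) hκ0)
  have hη1 : η ≤ 1 / 16 := by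
    rw [hηd]
    exact min_le_left _ _
  have hη2 : η * (4 * κ + 16) ≤ (κ : ℝ) * (s - 1) - 1 := by
    rw [← le_div_iff₀ hκ0, hηd]
    exact min_le_right _ _
  obtain ⟨θ, hθd⟩ : ∃ θ : ℝ, θ = ((κ : ℝ) * (s - 1) - 1) / 4 := ⟨_, rfl⟩
  have hθ : 0 < θ := by
    rw [hθd]
    linarith
  have hκ2 : (2 : ℝ) ≤ κ := by exact_mod_cast hκ
  have hexp : 3 - 2 * s + 4 * η - ((κ : ℝ) - 2) * (s - 1 - η) ≤ -(2 * θ) := by
    rw [hθd]
    have h1 : ((κ : ℝ) + 2) * η ≤ ((κ : ℝ) * (s - 1) - 1) / 2 := by nlinarith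
    nlinarith
  refine ⟨⌈4 / η⌉₊, ?_⟩
  intro r hr
  have hrη : 4 ≤ (r : ℝ) * η := by
    have h1 : 4 / η ≤ (r : ℝ) := (Nat.le_ceil _).trans (by exact_mod_cast hr)
    rwa [div_le_iff₀ hη] at h1
  obtain ⟨C1, hC1, b1, hcb⟩ := classBound hp η hη hη1 r hrη
  obtain ⟨C2, hC2, b2, hsb⟩ := supBound hp η hη hη1 r hrη
  obtain ⟨x, hx⟩ : ∃ x : ℝ, x = (2 : ℝ) ^ (-θ) := ⟨_, rfl⟩
  have hx0 : 0 < x := by rw [hx]; positivity
  have hx1 : x < 1 := by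
    rw [hx]
    exact Real.rpow_lt_one_of_one_lt_of_neg (by norm_num) (by linarith)
  have hxn : ∀ n : ℕ, (2 : ℝ) ^ (-(θ * (n : ℝ))) = x ^ n := by
    intro n
    rw [hx, ← Real.rpow_natCast, ← Real.rpow_mul (by norm_num)]
    congr 1
    ring
  have hG1 : 1 ≤ (1 - x)⁻¹ := by
    rw [one_le_inv₀ (by linarith)]
    linarith
  have hCC : 1 ≤ C1 * C2 ^ κ := one_le_mul_of_one_le_of_one_le hC1 (one_le_pow₀ hC2)
  refine ⟨C1 * C2 ^ κ * ((1 - x)⁻¹ * (1 - x)⁻¹), ?_, θ, hθ, max b1 b2 + 1, ?_⟩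
  · exact one_le_mul_of_one_le_of_one_le hCC (one_le_mul_of_one_le_of_one_le hG1 hG1)
  intro b M hb hM t₀ R hR hfr
  choose! fi fj fq fa hF hc1 hc2 ht using hfr
  have hb1 : b1 ≤ b := by
    have := le_max_left b1 b2
    omega
  have hb2 : b2 ≤ b := by
    have := le_max_right b1 b2
    omega
  have hmaps : ∀ k ∈ R, (fi k, fj k) ∈ R.image (fun k => (fi k, fj k)) := fun k hk =>
    Finset.mem_image_of_mem _ hk
  rw [← Finset.sum_fiberwise_of_maps_to hmaps]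
  have hcls : ∀ p ∈ R.image (fun k => (fi k, fj k)),
      ∑ k ∈ R with (fi k, fj k) = p, ‖fh A a r b k‖ ^ κ ≤
        C1 * C2 ^ κ * (x ^ t₀ * (x ^ p.1 * x ^ p.2)) * (M : ℝ) ^ ((κ : ℝ) * s) := by
    intro p hp'
    obtain ⟨k0, hk0, hk0p⟩ := Finset.mem_image.1 hp'
    have hp1 : fi k0 = p.1 := by rw [← hk0p]
    have hp2 : fj k0 = p.2 := by rw [← hk0p]
    have g1 : 2 ^ (2 * p.1 + p.2) ≤ M := by rw [← hp1, ← hp2]; exact hc1 k0 hk0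
    have g2 : 2 ^ (2 * (p.1 + p.2)) ≤ M := by rw [← hp1, ← hp2]; exact hc2 k0 hk0
    have g3 : t₀ ≤ p.1 + p.2 := by rw [← hp1, ← hp2]; exact ht k0 hk0
    have hM0 : (0 : ℝ) < (M : ℝ) := by
      have : 0 < M := lt_of_lt_of_le (by positivity) g2
      exact_mod_cast this
    have hfrp : ∀ k ∈ R.filter (fun k => (fi k, fj k) = p), Fr M 2 p.1 p.2 k (fq k) (fa k) := by
      intro k hk
      rw [Finset.mem_filter] at hk
      have e1 : fi k = p.1 := by rw [← hk.2]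
      have e2 : fj k = p.2 := by rw [← hk.2]
      have := hF k hk.1
      rw [e1, e2] at this
      exact this
    have g4 := hcb b p.1 p.2 M hb1 hM g1 g2 (R.filter (fun k => (fi k, fj k) = p))
      (fun k hk => hR k (Finset.mem_filter.1 hk).1) fq fa hfrp
    have g5 : ∀ k ∈ R.filter (fun k => (fi k, fj k) = p), ‖fh A a r b k‖ ^ κ ≤
        (C2 * (2 : ℝ) ^ (-((s - 1 - η) * ((p.1 : ℝ) + p.2))) * (M : ℝ) ^ s) ^ (κ - 2) *
          ‖fh A a r b k‖ ^ 2 := by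
      intro k hk
      refine L3_pow hκ (norm_nonneg _) (L3_sup hC2 (norm_nonneg _) hM0.le ?_)
      exact hsb b p.1 p.2 M hb2 hM g2 k (fq k) (fa k) (hR k (Finset.mem_filter.1 hk).1)
        (hfrp k hk)
    have hC2' : 0 ≤ C2 := by linarith
    refine (Finset.sum_le_sum g5).trans ?_
    rw [← Finset.mul_sum]
    refine (mul_le_mul_of_nonneg_left g4 (by positivity)).trans ?_
    refine (L3_comb hκ hC1 hC2 hM0 (by positivity) hexp).trans ?_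
    refine mul_le_mul_of_nonneg_right ?_ (by positivity)
    refine mul_le_mul_of_nonneg_left ?_ (by linarith)
    have e1 : (2 : ℝ) ^ (-(2 * θ * ((p.1 : ℝ) + p.2))) =
        x ^ (p.1 + p.2) * (x ^ p.1 * x ^ p.2) := by
      rw [← pow_add, ← hxn, ← Real.rpow_add (by norm_num)]
      congr 1
      push_cast
      ring
    rw [e1]
    refine mul_le_mul_of_nonneg_right ?_ (by positivity)
    exact pow_le_pow_of_le_one hx0.le hx1.le g3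
  refine (Finset.sum_le_sum hcls).trans ?_
  rw [← Finset.sum_mul, ← Finset.mul_sum, ← Finset.mul_sum, hxn]
  refine mul_le_mul_of_nonneg_right ?_ (by positivity)
  have h9 := L3_geom x hx0.le hx1 (R.image (fun k => (fi k, fj k)))
  calc C1 * C2 ^ κ * (x ^ t₀ * ∑ p ∈ R.image (fun k => (fi k, fj k)), x ^ p.1 * x ^ p.2)
      ≤ C1 * C2 ^ κ * (x ^ t₀ * ((1 - x)⁻¹ * (1 - x)⁻¹)) := by
        refine mul_le_mul_of_nonneg_left ?_ (by linarith)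
        exact mul_le_mul_of_nonneg_left h9 (by positivity)
    _ = C1 * C2 ^ κ * ((1 - x)⁻¹ * (1 - x)⁻¹) * x ^ t₀ := by ring

end Pool.Agent.LibZT69
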