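import Pool.Agent.LibZT69.Defs

set_option autoImplicit false

namespace Pool.Agent.LibZT69

open Pool.Agent.LibNZ69 Pool.Agent.LibZD69

private theorem M1_per (M : ℕ) (F : ℤ → ℝ) (k : ℕ) :
    ∀ n : ℤ, cv M F k (n + M) = cv M F k n := by
  induction k with
  | zero =>
    intro n
    simp only [cv]
    have h : ((M : ℤ) ∣ n + M) ↔ ((M : ℤ) ∣ n) := by
      constructor
      · intro h
        have := dvd_sub h (dvd_refl (M : ℤ))
        simpa using this
      · intro h
        exact dvd_add h (dvd_refl _)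
    by_cases hd : (M : ℤ) ∣ n
    · rw [if_pos hd, if_pos (h.2 hd)]
    · rw [if_neg hd, if_neg (fun h' => hd (h.1 h'))]
  | succ k ih =>
    intro n
    simp only [cv]
    refine Finset.sum_congr rfl fun x _ => ?_
    have : n + (M : ℤ) - x = (n - x) + M := by ring
    rw [this, ih]

private theorem M1_aux (M N : ℕ) (hN : 1 ≤ N) (F : ℤ → ℝ) (f : ℕ → ℝ)
    (hf : ∀ x : ℕ, x < M → F x = f x)
    (h0 : ∀ x : ℕ, N ≤ x → x < M → F x = 0) (k : ℕ) :
    k * N ≤ M → ∀ n : ℕ, n < M → cv M F k n = pv f k n ∧ (k * (N - 1) < n → cv M F k n = 0) := by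
  induction k with
  | zero =>
    intro _ n hn
    have h : ((M : ℤ) ∣ (n : ℤ)) ↔ n = 0 := by
      rw [Int.natCast_dvd_natCast]
      constructor
      · intro h
        exact Nat.eq_zero_of_dvd_of_lt h hn
      · intro h
        rw [h]
        exact dvd_zero _
    simp only [cv, pv]
    by_cases hd : n = 0
    · rw [if_pos hd, if_pos (h.2 hd)]
      refine ⟨rfl, fun h' => ?_⟩
      omega
    · rw [if_neg hd, if_neg (fun h' => hd (h.1 h'))]
      exact ⟨rfl, fun _ => rfl⟩
  | succ k ih =>
    intro hk n hn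
    have hk1 : k * N + N ≤ M := by
      have : (k + 1) * N = k * N + N := by ring
      omega
    have hkN : k * (N - 1) ≤ k * N := Nat.mul_le_mul_left k (Nat.sub_le N 1)
    have ih' := ih (by omega)
    have e1 : ∀ x : ℕ, x ≤ n → cv M F k ((n : ℤ) - x) = cv M F k ((n - x : ℕ) : ℤ) := by
      intro x hx
      rw [Nat.cast_sub hx]
    have hz : ∀ x ∈ Finset.range M, x ∉ Finset.range (n + 1) →
        F x * cv M F k ((n : ℤ) - x) = 0 := by
      intro x hx hx'
      rw [Finset.mem_range] at hx hx'
      by_cases hxN : N ≤ x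
      · rw [h0 x hxN hx, zero_mul]
      · have h1 : cv M F k ((n : ℤ) - x) = cv M F k ((n + M - x : ℕ) : ℤ) := by
          rw [← M1_per M F k ((n : ℤ) - x), Nat.cast_sub (by omega), Nat.cast_add]
          congr 1
          ring
        rw [h1, (ih' (n + M - x) (by omega)).2 (by omega), mul_zero]
    have hsub : Finset.range (n + 1) ⊆ Finset.range M := by
      intro x hx
      rw [Finset.mem_range] at hx ⊢
      omega
    have key : cv M F (k + 1) n = ∑ x ∈ Finset.range (n + 1), F x * cv M F k ((n : ℤ) - x) := by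
      show ∑ x ∈ Finset.range M, F x * cv M F k ((n : ℤ) - x) = _
      exact (Finset.sum_subset hsub hz).symm
    refine ⟨?_, ?_⟩
    · rw [key]
      show _ = ∑ x ∈ Finset.range (n + 1), f x * pv f k (n - x)
      refine Finset.sum_congr rfl fun x hx => ?_
      rw [Finset.mem_range] at hx
      rw [hf x (by omega), e1 x (by omega), (ih' (n - x) (by omega)).1]
    · intro hlt
      have hlt' : k * (N - 1) + (N - 1) < n := by
        have : (k + 1) * (N - 1) = k * (N - 1) + (N - 1) := by ring
        omega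
      rw [key]
      refine Finset.sum_eq_zero fun x hx => ?_
      rw [Finset.mem_range] at hx
      by_cases hxN : N ≤ x
      · rw [h0 x hxN (by omega), zero_mul]
      · rw [e1 x (by omega), (ih' (n - x) (by omega)).2 (by omega), mul_zero]

/-- Row M1 (MEDIUM). No wrap-around. `F` vanishes (on `[0, M)`) outside `[0, N)` and is periodic modulo `M`.
Induction on `k` with the statement for all `n < M`, and `cv M F k n = 0` for `k N ≤ n < M` (`k ≥ 1`; for
`k = 0` for `1 ≤ n < M`). Step (`(k+1) N ≤ M`): in `∑_{x < M} F x cv k (n - x)` only `x < N` count; `x ≤ n`: induction;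
`x > n`: `cv` is periodic (induction; `F` is not needed for this), `n - x + M ∈ (M - N, M)` and `k N ≤ M - N`,
so the term is `0`. -/
theorem cv_eq_pv (M N : ℕ) (hN : 1 ≤ N) (F : ℤ → ℝ) (f : ℕ → ℝ) (hf : ∀ x : ℕ, x < M → F x = f x)
    (h0 : ∀ x : ℕ, N ≤ x → x < M → F x = 0) (k : ℕ) (hk : k * N ≤ M) (hM : 1 ≤ M) (n : ℕ)
    (hn : n < M) : cv M F k n = pv f k n := by
  exact (M1_aux M N hN F f hf h0 k hk n hn).1

/-- Row M1b (SHORT). Induction on `k`. -/
theorem pv_mono (f g : ℕ → ℝ) (h0 : ∀ x, 0 ≤ f x) (n : ℕ) (h : ∀ x, x ≤ n → f x ≤ g x) (k : ℕ) :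
    ∀ m, m ≤ n → 0 ≤ pv f k m ∧ pv f k m ≤ pv g k m := by
  induction k with
  | zero =>
    intro m _
    simp only [pv]
    refine ⟨?_, le_refl _⟩
    split_ifs
    · exact zero_le_one
    · exact le_refl _
  | succ k ih =>
    intro m hm
    simp only [pv]
    refine ⟨Finset.sum_nonneg fun x _ => mul_nonneg (h0 x) (ih (m - x) (by omega)).1,
      Finset.sum_le_sum fun x hx => ?_⟩
    rw [Finset.mem_range] at hx
    have h1 := ih (m - x) (by omega)
    exact mul_le_mul (h x (by omega)) h1.2 h1.1 ((h0 x).trans (h x (by omega)))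

/-- Row M1c (SHORT/MEDIUM). Induction on `k`: in the sum for `cv` keep the `x ≤ n`; the other terms are
`≥ 0` (`cv ≥ 0` by induction). `k = 0`: `n = 0` implies `M ∣ n`. -/
theorem pv_le_cv (M : ℕ) (hM : 1 ≤ M) (G : ℤ → ℝ) (f : ℕ → ℝ) (v : ℝ) (hv : 0 ≤ v)
    (hG : ∀ x, 0 ≤ G x) (hf0 : ∀ x, 0 ≤ f x) (h : ∀ x : ℕ, x < M → v * f x ≤ G x) (k : ℕ) (n : ℕ)
    (hn : n < M) : v ^ k * pv f k n ≤ cv M G k n := by
  have hp : ∀ j m, 0 ≤ pv f j m := fun j m =>
    (pv_mono f f hf0 m (fun x _ => le_refl _) j m (le_refl _)).1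
  have hc : ∀ j, ∀ m : ℤ, 0 ≤ cv M G j m := by
    intro j
    induction j with
    | zero =>
      intro m
      simp only [cv]
      split_ifs
      · exact zero_le_one
      · exact le_refl _
    | succ j ih =>
      intro m
      simp only [cv]
      exact Finset.sum_nonneg fun x _ => mul_nonneg (hG _) (ih _)
  induction k generalizing n with
  | zero =>
    simp only [cv, pv, pow_zero, one_mul]
    by_cases hd : n = 0
    · subst hd
      rw [if_pos rfl, if_pos]
      rw [Nat.cast_zero]
      exact dvd_zero _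
    · rw [if_neg hd]
      split_ifs
      · exact zero_le_one
      · exact le_refl _
  | succ k ih =>
    simp only [cv, pv]
    have hsub : Finset.range (n + 1) ⊆ Finset.range M := by
      intro x hx
      rw [Finset.mem_range] at hx ⊢
      omega
    calc v ^ (k + 1) * ∑ x ∈ Finset.range (n + 1), f x * pv f k (n - x)
        = ∑ x ∈ Finset.range (n + 1), (v * f x) * (v ^ k * pv f k (n - x)) := by
          rw [Finset.mul_sum]
          refine Finset.sum_congr rfl fun x _ => ?_
          ring
      _ ≤ ∑ x ∈ Finset.range (n + 1), G x * cv M G k ((n : ℤ) - x) := by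
          refine Finset.sum_le_sum fun x hx => ?_
          rw [Finset.mem_range] at hx
          have h1 := ih (n - x) (by omega)
          rw [Nat.cast_sub (by omega)] at h1
          exact mul_le_mul (h x (by omega)) h1 (mul_nonneg (pow_nonneg hv k) (hp k (n - x)))
            (hG _)
      _ ≤ ∑ x ∈ Finset.range M, G x * cv M G k ((n : ℤ) - x) :=
          Finset.sum_le_sum_of_subset_of_nonneg hsub
            fun x _ _ => mul_nonneg (hG _) (hc k _)

end Pool.Agent.LibZT69
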