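import Pool.Agent.LibZT69.Defs
import Pool.Agent.LibZD69.H1

set_option autoImplicit false

namespace Pool.Agent.LibZT69

open Pool.Agent.LibNZ69 Pool.Agent.LibZD69

private theorem M2_fw_nonneg (w x : ℕ) : 0 ≤ fw w x := by
  unfold fw
  split_ifs
  · positivity
  · exact le_rfl

private theorem M2_fw_eq (w x : ℕ) (h : w ≤ x ∧ x < 2 * w) : fw w x = (x.totient : ℝ) / x := by
  unfold fw
  rw [if_pos h]

private theorem M2_pv_nonneg (g : ℕ → ℝ) (hg : ∀ x, 0 ≤ g x) (k : ℕ) : ∀ n : ℕ, 0 ≤ pv g k n := by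
  induction k with
  | zero =>
    intro n
    unfold pv
    split_ifs <;> norm_num
  | succ k ih =>
    intro n
    unfold pv
    exact Finset.sum_nonneg fun x _ => mul_nonneg (hg x) (ih _)

private theorem M2_pv_one (g : ℕ → ℝ) (n : ℕ) : pv g 1 n = g n := by
  show ∑ x ∈ Finset.range (n + 1), g x * pv g 0 (n - x) = g n
  rw [Finset.sum_eq_single n]
  · simp [pv]
  · intro x hx hne
    have h1 : x < n + 1 := Finset.mem_range.1 hx
    have h2 : n - x ≠ 0 := by omega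
    simp [pv, h2]
  · intro h
    exact absurd (Finset.mem_range.2 (Nat.lt_succ_self n)) h

private theorem M2_bad (κ₁ η : ℝ)
    (hκ : ∀ N : ℕ, (((Finset.range (N + 1)).filter
      (fun n : ℕ => 1 ≤ n ∧ ((n.totient : ℝ) / n) < κ₁)).card : ℝ) ≤ η * N)
    (w : ℕ) (hw : 1 ≤ w) (S : Finset ℕ) (f : ℕ → ℕ) (hf : Set.InjOn f S)
    (hS : ∀ x ∈ S, w ≤ f x ∧ f x < 2 * w) :
    ((S.filter (fun x => ¬ κ₁ ≤ fw w (f x))).card : ℝ) ≤ 2 * η * w := by
  classical
  have h1 : (S.filter (fun x => ¬ κ₁ ≤ fw w (f x))).card ≤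
      ((Finset.range (2 * w + 1)).filter
        (fun n : ℕ => 1 ≤ n ∧ ((n.totient : ℝ) / n) < κ₁)).card := by
    refine Finset.card_le_card_of_injOn f ?_ ?_
    · intro x hx
      have hx' := Finset.mem_filter.1 hx
      have h2 := hS x hx'.1
      refine Finset.mem_coe.2 (Finset.mem_filter.2 ⟨Finset.mem_range.2 (by omega), by omega, ?_⟩)
      rw [← M2_fw_eq w (f x) h2]
      exact not_le.1 hx'.2
    · intro x hx y hy hxy
      exact hf (Finset.mem_filter.1 hx).1 (Finset.mem_filter.1 hy).1 hxy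
  have h2 := hκ (2 * w)
  have h3 : ((S.filter (fun x => ¬ κ₁ ≤ fw w (f x))).card : ℝ) ≤
      (((Finset.range (2 * w + 1)).filter
        (fun n : ℕ => 1 ≤ n ∧ ((n.totient : ℝ) / n) < κ₁)).card : ℝ) := by
    exact_mod_cast h1
  push_cast at h2
  linarith

private theorem M2_split (S : Finset ℕ) (p q : ℕ → Prop) [DecidablePred p] [DecidablePred q] :
    (S.card : ℝ) ≤ (S.filter (fun x => p x ∧ q x)).card + (S.filter fun x => ¬ p x).card +
      (S.filter fun x => ¬ q x).card := by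
  classical
  have h1 : S ⊆ (S.filter (fun x => p x ∧ q x)) ∪ (S.filter fun x => ¬ p x) ∪
      (S.filter fun x => ¬ q x) := by
    intro x hx
    simp only [Finset.mem_union, Finset.mem_filter]
    by_cases hp : p x
    · by_cases hq : q x
      · exact Or.inl (Or.inl ⟨hx, hp, hq⟩)
      · exact Or.inr ⟨hx, hq⟩
    · exact Or.inl (Or.inr ⟨hx, hp⟩)
  have h2 := Finset.card_le_card h1
  have h3 := Finset.card_union_le
    ((S.filter (fun x => p x ∧ q x)) ∪ (S.filter fun x => ¬ p x)) (S.filter fun x => ¬ q x)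
  have h4 := Finset.card_union_le (S.filter (fun x => p x ∧ q x)) (S.filter fun x => ¬ p x)
  have h5 : S.card ≤ (S.filter (fun x => p x ∧ q x)).card + (S.filter fun x => ¬ p x).card +
      (S.filter fun x => ¬ q x).card := by omega
  exact_mod_cast h5

private theorem M2_sum (n : ℕ) (G : Finset ℕ) (hG : ∀ x ∈ G, x ≤ n) (F : ℕ → ℝ)
    (hF : ∀ x, 0 ≤ F x) (c b : ℝ) (hc : 0 ≤ c) (h : ∀ x ∈ G, c ≤ F x) (hb : b ≤ (G.card : ℝ)) :
    c * b ≤ ∑ x ∈ Finset.range (n + 1), F x := by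
  have h1 : ∑ x ∈ G, F x ≤ ∑ x ∈ Finset.range (n + 1), F x := by
    refine Finset.sum_le_sum_of_subset_of_nonneg ?_ (fun x _ _ => hF x)
    intro x hx
    exact Finset.mem_range.2 (Nat.lt_succ_of_le (hG x hx))
  have h2 : (G.card : ℝ) * c ≤ ∑ x ∈ G, F x := by
    have := Finset.card_nsmul_le_sum G F c h
    rwa [nsmul_eq_mul] at this
  have h3 : c * b ≤ (G.card : ℝ) * c := by
    rw [mul_comm]
    exact mul_le_mul_of_nonneg_right hb hc
  linarith

/-- Row M2a (MEDIUM). The case `k = 2`. `totient_small` (H1) with `η = min(α - 1, 2 - β) / 8`-ish gives `κ₁ > 0`: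
`#{x ≤ N : φ(x) < κ₁ x} ≤ η N`. `pv (fw w) 2 n = ∑_{x ≤ n} fw w x fw w (n - x)`. For `2 α w ≤ n ≤ 2 β w` the number of
the `x` with `x, n - x ∈ [w, 2w)` is at least `2 min(α - 1, 2 - β) w - 3`, and all but `2 · η · 2 w` of them have both
`fw ≥ κ₁`. So the sum is `≥ κ₁² c w`. -/
theorem pv_fw_two (α β : ℝ) (hα : 1 < α) (hαβ : α ≤ β) (hβ : β < 2) :
    ∃ c : ℝ, 0 < c ∧ ∃ w₀ : ℕ, ∀ w n : ℕ, w₀ ≤ w → 2 * α * w ≤ n → (n : ℝ) ≤ 2 * β * w →
      c * (w : ℝ) ≤ pv (fw w) 2 n := by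
  classical
  obtain ⟨δ, hδ, hδ1, hδ2⟩ : ∃ δ : ℝ, 0 < δ ∧ 2 * δ ≤ α - 1 ∧ 2 * δ ≤ 2 - β := by
    refine ⟨min (α - 1) (2 - β) / 2, ?_, ?_, ?_⟩
    · have : 0 < min (α - 1) (2 - β) := lt_min (by linarith) (by linarith)
      linarith
    · have := min_le_left (α - 1) (2 - β)
      linarith
    · have := min_le_right (α - 1) (2 - β)
      linarith
  obtain ⟨κ₁, hκ0, hκ⟩ := totient_small (δ / 16) (by positivity)
  obtain ⟨w₀, hw₀⟩ := exists_nat_ge (2 / δ)
  refine ⟨κ₁ ^ 2 * (δ / 4), by positivity, w₀ + 1, ?_⟩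
  intro w n hw h1 h2
  have hwR : 2 / δ + 1 ≤ (w : ℝ) := by
    have : ((w₀ + 1 : ℕ) : ℝ) ≤ w := by exact_mod_cast hw
    push_cast at this
    linarith
  have hw1 : (1 : ℝ) ≤ w := by
    have : 0 < 2 / δ := by positivity
    linarith
  have hw1' : 1 ≤ w := by exact_mod_cast hw1
  have hδw : 2 ≤ δ * w := by
    have h3 : δ * (2 / δ) = 2 := by field_simp
    nlinarith
  set h : ℕ := ⌊δ * w⌋₊ with hh
  have hh1 : (h : ℝ) ≤ δ * w := Nat.floor_le (by positivity)
  have hh2 : δ * w < h + 1 := Nat.lt_floor_add_one _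
  set m : ℕ := n / 2 with hm
  have hm1 : 2 * m ≤ n := by omega
  have hm2 : n ≤ 2 * m + 1 := by omega
  have hm1R : 2 * (m : ℝ) ≤ n := by exact_mod_cast hm1
  have hm2R : (n : ℝ) ≤ 2 * m + 1 := by exact_mod_cast hm2
  set S := Finset.Ico m (m + h) with hS
  have hSm : ∀ x ∈ S, (w ≤ x ∧ x < 2 * w) ∧ (w ≤ n - x ∧ n - x < 2 * w) ∧ x ≤ n := by
    intro x hx
    obtain ⟨hx1, hx2⟩ := Finset.mem_Ico.1 hx
    have hx1R : (m : ℝ) ≤ x := by exact_mod_cast hx1
    have hx2R : (x : ℝ) + 1 ≤ m + h := by exact_mod_cast hx2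
    have a1 : (w : ℝ) ≤ x := by nlinarith
    have a2 : (x : ℝ) < 2 * w := by nlinarith
    have a3 : (w : ℝ) + x ≤ n := by nlinarith
    have a4 : (n : ℝ) < 2 * w + x := by nlinarith
    have b1 : w ≤ x := by exact_mod_cast a1
    have b2 : x < 2 * w := by exact_mod_cast a2
    have b3 : w + x ≤ n := by exact_mod_cast a3
    have b4 : n < 2 * w + x := by exact_mod_cast a4
    refine ⟨⟨b1, b2⟩, ⟨by omega, by omega⟩, by omega⟩
  have hcard : (S.card : ℝ) = h := by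
    rw [hS, Nat.card_Ico]
    congr 1
    omega
  have hb1 := M2_bad κ₁ (δ / 16) hκ w hw1' S (fun x => x) (fun x _ y _ hxy => hxy)
    (fun x hx => (hSm x hx).1)
  have hb2 := M2_bad κ₁ (δ / 16) hκ w hw1' S (fun x => n - x)
    (fun x hx y hy hxy => by
      have e1 := (hSm x hx).2.2
      have e2 := (hSm y hy).2.2
      have e3 : n - x = n - y := hxy
      omega)
    (fun x hx => (hSm x hx).2.1)
  have hsp := M2_split S (fun x => κ₁ ≤ fw w x) (fun x => κ₁ ≤ fw w (n - x))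
  rw [hcard] at hsp
  have hgood : δ / 4 * w ≤
      ((S.filter (fun x => κ₁ ≤ fw w x ∧ κ₁ ≤ fw w (n - x))).card : ℝ) := by
    have e1 : ((S.filter (fun x => ¬ κ₁ ≤ fw w x)).card : ℝ) ≤ 2 * (δ / 16) * w := hb1
    have e2 : ((S.filter (fun x => ¬ κ₁ ≤ fw w (n - x))).card : ℝ) ≤ 2 * (δ / 16) * w := hb2
    linarith
  have hfin := M2_sum n (S.filter (fun x => κ₁ ≤ fw w x ∧ κ₁ ≤ fw w (n - x)))
    (fun x hx => (hSm x (Finset.mem_filter.1 hx).1).2.2)
    (fun x => fw w x * pv (fw w) 1 (n - x))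
    (fun x => mul_nonneg (M2_fw_nonneg w x) (M2_pv_nonneg _ (M2_fw_nonneg w) 1 _))
    (κ₁ ^ 2) (δ / 4 * w) (by positivity)
    (fun x hx => by
      have e := (Finset.mem_filter.1 hx).2
      show κ₁ ^ 2 ≤ fw w x * pv (fw w) 1 (n - x)
      rw [M2_pv_one, pow_two]
      exact mul_le_mul e.1 e.2 hκ0.le (M2_fw_nonneg w x))
    hgood
  have e5 : pv (fw w) 2 n = ∑ x ∈ Finset.range (n + 1), fw w x * pv (fw w) 1 (n - x) := rfl
  rw [e5]
  calc κ₁ ^ 2 * (δ / 4) * (w : ℝ) = κ₁ ^ 2 * (δ / 4 * w) := by ring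
    _ ≤ _ := hfin

/-- Row M2b (MEDIUM). Induction on `k ≥ 2` for all `α` (`β` fixed). Step `k → k + 1`: `h` = a small multiple of `w`
(`h ≤ (2 - β) w / 2`, `h ≤ (α - 1) w / 2`), `α' = (1 + α)/2`. For `x ∈ [n/(k+1), n/(k+1) + h]` one has
`x ∈ [w, 2w)`, `α' k w ≤ n - x ≤ β k w`. By `totient_small` at least half of these `x` have `fw w x ≥ κ₁`. All
the terms of `pv` are `≥ 0`. -/
theorem pv_fw (β : ℝ) (hβ : β < 2) (k : ℕ) (hk : 2 ≤ k) : ∀ α : ℝ, 1 < α → α ≤ β →
    ∃ c : ℝ, 0 < c ∧ ∃ w₀ : ℕ, ∀ w n : ℕ, w₀ ≤ w → k * α * w ≤ n → (n : ℝ) ≤ k * β * w →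
      c * (w : ℝ) ^ (k - 1) ≤ pv (fw w) k n := by
  classical
  induction k, hk using Nat.le_induction with
  | base =>
    intro α hα hαβ
    obtain ⟨c, hc, w₀, h⟩ := pv_fw_two α β hα hαβ hβ
    refine ⟨c, hc, w₀, fun w n hw h1 h2 => ?_⟩
    have h3 := h w n hw (by exact_mod_cast h1) (by exact_mod_cast h2)
    simpa using h3
  | succ k hk ih =>
    intro α hα hαβ
    obtain ⟨c', hc', w₀', h'⟩ := ih ((1 + α) / 2) (by linarith) (by linarith)
    obtain ⟨δ, hδ, hδ1, hδ2⟩ : ∃ δ : ℝ, 0 < δ ∧ 2 * δ ≤ α - 1 ∧ 2 * δ ≤ 2 - β := by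
      refine ⟨min (α - 1) (2 - β) / 2, ?_, ?_, ?_⟩
      · have : 0 < min (α - 1) (2 - β) := lt_min (by linarith) (by linarith)
        linarith
      · have := min_le_left (α - 1) (2 - β)
        linarith
      · have := min_le_right (α - 1) (2 - β)
        linarith
    obtain ⟨κ₁, hκ0, hκ⟩ := totient_small (δ / 16) (by positivity)
    obtain ⟨w₀, hw₀⟩ := exists_nat_ge (2 / δ)
    refine ⟨κ₁ * c' * (δ / 4), by positivity, w₀ + 1 + w₀', ?_⟩
    intro w n hw h1 h2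
    have hwR : 2 / δ + 1 ≤ (w : ℝ) := by
      have : ((w₀ + 1 : ℕ) : ℝ) ≤ w := by exact_mod_cast (by omega : w₀ + 1 ≤ w)
      push_cast at this
      linarith
    have hw1 : (1 : ℝ) ≤ w := by
      have : 0 < 2 / δ := by positivity
      linarith
    have hw1' : 1 ≤ w := by exact_mod_cast hw1
    have hδw : 2 ≤ δ * w := by
      have h3 : δ * (2 / δ) = 2 := by field_simp
      nlinarith
    set h : ℕ := ⌊δ * w⌋₊ with hh
    have hh1 : (h : ℝ) ≤ δ * w := Nat.floor_le (by positivity)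
    have hh2 : δ * w < h + 1 := Nat.lt_floor_add_one _
    set m : ℕ := n / (k + 1) + 1 with hm
    have hkR : (2 : ℝ) ≤ k := by exact_mod_cast hk
    have hm1 : n < (k + 1) * m := by
      have := Nat.lt_div_mul_add (a := n) (b := k + 1) (by omega)
      rw [hm]
      calc n < n / (k + 1) * (k + 1) + (k + 1) := this
        _ = (k + 1) * (n / (k + 1) + 1) := by ring
    have hm2 : (k + 1) * m ≤ n + (k + 1) := by
      have := Nat.div_mul_le_self n (k + 1)
      rw [hm]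
      calc (k + 1) * (n / (k + 1) + 1) = n / (k + 1) * (k + 1) + (k + 1) := by ring
        _ ≤ n + (k + 1) := by omega
    have hm1R : (n : ℝ) ≤ (k + 1) * m := by exact_mod_cast hm1.le
    have hm2R : ((k : ℝ) + 1) * m ≤ n + (k + 1) := by exact_mod_cast hm2
    have h1R : ((k : ℝ) + 1) * (α * w) ≤ n := by
      push_cast at h1
      linarith
    have h2R : (n : ℝ) ≤ ((k : ℝ) + 1) * (β * w) := by
      push_cast at h2
      linarith
    have hk1 : (0 : ℝ) < (k : ℝ) + 1 := by linarith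
    -- the real quotient
    obtain ⟨y, hy⟩ : ∃ y : ℝ, (n : ℝ) = (k + 1) * y := ⟨n / (k + 1), by field_simp⟩
    have hy1 : α * w ≤ y := by
      rw [hy] at h1R
      exact le_of_mul_le_mul_left h1R hk1
    have hy2 : y ≤ β * w := by
      rw [hy] at h2R
      exact le_of_mul_le_mul_left h2R hk1
    have hy3 : y ≤ m := by
      rw [hy] at hm1R
      exact le_of_mul_le_mul_left hm1R hk1
    have hy4 : (m : ℝ) ≤ y + 1 := by
      rw [hy] at hm2R
      have : ((k : ℝ) + 1) * m ≤ (k + 1) * (y + 1) := by linarith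
      exact le_of_mul_le_mul_left this hk1
    set S := Finset.Ico m (m + h) with hS
    have hSm : ∀ x ∈ S, (w ≤ x ∧ x < 2 * w) ∧ x ≤ n ∧
        (k : ℝ) * ((1 + α) / 2) * w ≤ ((n - x : ℕ) : ℝ) ∧ ((n - x : ℕ) : ℝ) ≤ k * β * w := by
      intro x hx
      obtain ⟨hx1, hx2⟩ := Finset.mem_Ico.1 hx
      have hx1R : (m : ℝ) ≤ x := by exact_mod_cast hx1
      have hx2R : (x : ℝ) + 1 ≤ m + h := by exact_mod_cast hx2
      have g1 : 2 * δ * w ≤ (α - 1) * w := mul_le_mul_of_nonneg_right hδ1 (by linarith)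
      have g2 : 2 * δ * w ≤ (2 - β) * w := mul_le_mul_of_nonneg_right hδ2 (by linarith)
      have a1 : (w : ℝ) ≤ x := by nlinarith
      have a2 : (x : ℝ) < 2 * w := by nlinarith
      have hky : (k : ℝ) * (α * w) ≤ k * y := mul_le_mul_of_nonneg_left hy1 (by linarith)
      have hky2 : (k : ℝ) * y ≤ k * (β * w) := mul_le_mul_of_nonneg_left hy2 (by linarith)
      have g3 : 2 * ((α - 1) * w) ≤ k * ((α - 1) * w) :=
        mul_le_mul_of_nonneg_right hkR (by nlinarith)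
      have a3 : (k : ℝ) * ((1 + α) / 2) * w + x ≤ n := by
        rw [hy]
        nlinarith
      have a0 : (0 : ℝ) ≤ (k : ℝ) * ((1 + α) / 2) * w := by positivity
      have a4 : (x : ℝ) ≤ n := by linarith
      have b4 : x ≤ n := by exact_mod_cast a4
      have b1 : w ≤ x := by exact_mod_cast a1
      have b2 : x < 2 * w := by exact_mod_cast a2
      have a5 : ((n - x : ℕ) : ℝ) = n - x := by
        rw [Nat.cast_sub b4]
      refine ⟨⟨b1, b2⟩, b4, ?_, ?_⟩
      · rw [a5]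
        linarith
      · rw [a5, hy]
        linarith
    have hcard : (S.card : ℝ) = h := by
      rw [hS, Nat.card_Ico]
      congr 1
      omega
    have hb1 := M2_bad κ₁ (δ / 16) hκ w hw1' S (fun x => x) (fun x _ y _ hxy => hxy)
      (fun x hx => (hSm x hx).1)
    have hsp := M2_split S (fun x => κ₁ ≤ fw w x) (fun _ => True)
    rw [hcard] at hsp
    have hgood : δ / 4 * w ≤ ((S.filter (fun x => κ₁ ≤ fw w x ∧ True)).card : ℝ) := by
      have e1 : ((S.filter (fun x => ¬ κ₁ ≤ fw w x)).card : ℝ) ≤ 2 * (δ / 16) * w := hb1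
      have e2 : ((S.filter (fun _ => ¬ True)).card : ℝ) = 0 := by simp
      linarith
    have hcw : 0 ≤ c' * (w : ℝ) ^ (k - 1) := by positivity
    have hfin := M2_sum n (S.filter (fun x => κ₁ ≤ fw w x ∧ True))
      (fun x hx => (hSm x (Finset.mem_filter.1 hx).1).2.1)
      (fun x => fw w x * pv (fw w) k (n - x))
      (fun x => mul_nonneg (M2_fw_nonneg w x) (M2_pv_nonneg _ (M2_fw_nonneg w) k _))
      (κ₁ * (c' * (w : ℝ) ^ (k - 1))) (δ / 4 * w) (by positivity)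
      (fun x hx => by
        have e := (Finset.mem_filter.1 hx).2
        have e2 := hSm x (Finset.mem_filter.1 hx).1
        have e3 := h' w (n - x) (by omega) e2.2.2.1 e2.2.2.2
        exact mul_le_mul e.1 e3 hcw (M2_fw_nonneg w x))
      hgood
    have e5 : pv (fw w) (k + 1) n =
        ∑ x ∈ Finset.range (n + 1), fw w x * pv (fw w) k (n - x) := rfl
    rw [e5]
    refine le_trans (le_of_eq ?_) hfin
    have e6 : k + 1 - 1 = (k - 1) + 1 := by omega
    rw [e6, pow_succ]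
    ring

end Pool.Agent.LibZT69
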