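import Pool.Agent.LibZT69.I1
import Pool.Agent.LibZT69.M1
import Pool.Agent.LibZT69.M2

set_option autoImplicit false

namespace Pool.Agent.LibZT69

open Pool.Agent.LibNZ69 Pool.Agent.LibZD69

private theorem M3_nonneg {A : Finset ℕ} (a r b q₀ H₀ : ℕ) (x : ℤ) : 0 ≤ GG A a r b q₀ H₀ x := by
  unfold GG
  apply div_nonneg _ (by positivity)
  refine Finset.sum_nonneg fun h _ => ?_
  unfold FF
  refine Finset.sum_nonneg fun z _ => ?_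
  split_ifs
  · exact Ph_nonneg _ _ _
  · exact le_rfl

/-- Row M3 (MEDIUM). `w = (5+r) b`, `4 ∣ b` is not needed. `GG ≥ 0` everywhere (`Ph_nonneg`), and `GG x ≥ c M^(s-1) fw w x`
for `x < M` (`GG_lower`; `2 w ≤ M`). `pv_le_cv` with `v = c M^(s-1)`, `f = fw w`; `pv_fw` with `α = 5/4`, `β = 7/4`:
`cv M GG k n ≥ (c M^(s-1))^k c' w^(k-1)`, and `w ≥ M / (20 a (r+3))`. -/
theorem main_lower {A : Finset ℕ} {a : ℕ} {s : ℝ} (hp : PB A a s) (k : ℕ) (hk : 2 ≤ k)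
    (ha : k ≤ 5 * a) (r : ℕ) (hr : 3 ≤ r) :
    ∃ c : ℝ, 0 < c ∧ ∃ t₁ : ℕ, ∀ t₀ : ℕ, t₁ ≤ t₀ → ∃ b₀ : ℕ, ∀ b M q₀ H₀ : ℕ, b₀ ≤ b →
      M = MM a r b → q₀ = (2 ^ t₀).factorial → H₀ = M / (2 ^ (5 * t₀) * q₀) →
      ∀ n : ℕ, 5 * (k * ((5 + r) * b)) ≤ 4 * n → 4 * n ≤ 7 * (k * ((5 + r) * b)) → n < M →
        c * (M : ℝ) ^ ((k : ℝ) * s - 1) ≤ cv M (GG A a r b q₀ H₀) k n := by
  obtain ⟨c1, hc1, t1, hGL⟩ := GG_lower hp r hr
  obtain ⟨c2, hc2, w0, hpv⟩ := pv_fw (7 / 4) (by norm_num) k hk (5 / 4) (by norm_num) (by norm_num)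
  have ha4 := hp.a4
  have ha0 : (0 : ℝ) < a := by exact_mod_cast (by omega : 0 < a)
  obtain ⟨E, hE⟩ : ∃ E : ℝ, E = 20 * (a : ℝ) * (r + 3) := ⟨_, rfl⟩
  have hEpos : 0 < E := by rw [hE]; positivity
  refine ⟨c1 ^ k * c2 * ((5 + r) / E) ^ (k - 1), by positivity, t1, fun t₀ ht₀ => ?_⟩
  obtain ⟨b0, hb0⟩ := hGL t₀ ht₀
  refine ⟨max b0 w0 + 1, fun b M q₀ H₀ hb hM hq₀ hH₀ n hn1 hn2 hnM => ?_⟩
  have hbb : b0 ≤ b := by have := le_max_left b0 w0; omega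
  have hbw : w0 ≤ b := by have := le_max_right b0 w0; omega
  have hb1 : 1 ≤ b := by omega
  have hb' : (0 : ℝ) < b := by exact_mod_cast hb1
  have hMb : (M : ℝ) = E * b := by
    rw [hM, hE]; unfold MM; push_cast; ring
  have hM0 : (0 : ℝ) < M := by rw [hMb]; positivity
  have hM1 : 1 ≤ M := by exact_mod_cast hM0
  have hlow := hb0 b M q₀ H₀ hbb hM hq₀ hH₀
  have hG : ∀ x : ℤ, 0 ≤ GG A a r b q₀ H₀ x := M3_nonneg a r b q₀ H₀
  have hv : 0 ≤ c1 * (M : ℝ) ^ (s - 1) := mul_nonneg hc1.le (Real.rpow_nonneg hM0.le _)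
  have hf0 : ∀ x, 0 ≤ fw ((5 + r) * b) x := by
    intro x
    unfold fw
    split_ifs
    · positivity
    · exact le_rfl
  have hf : ∀ x : ℕ, x < M → c1 * (M : ℝ) ^ (s - 1) * fw ((5 + r) * b) x ≤
      GG A a r b q₀ H₀ x := by
    intro x _
    unfold fw
    split_ifs with hx
    · exact hlow x hx.1 hx.2
    · rw [mul_zero]
      exact hG x
  have h1 := pv_le_cv M hM1 (GG A a r b q₀ H₀) (fw ((5 + r) * b)) (c1 * (M : ℝ) ^ (s - 1)) hv hG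
    hf0 hf k n hnM
  have hww : w0 ≤ (5 + r) * b := by nlinarith
  have h2 := hpv ((5 + r) * b) n hww
    (by
      have h3 : ((5 * (k * ((5 + r) * b)) : ℕ) : ℝ) ≤ ((4 * n : ℕ) : ℝ) := by exact_mod_cast hn1
      push_cast at h3 ⊢
      linarith)
    (by
      have h3 : ((4 * n : ℕ) : ℝ) ≤ ((7 * (k * ((5 + r) * b)) : ℕ) : ℝ) := by exact_mod_cast hn2
      push_cast at h3 ⊢
      linarith)
  refine le_trans ?_ h1
  refine le_trans (le_of_eq ?_) (mul_le_mul_of_nonneg_left h2 (pow_nonneg hv k))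
  have h4 : (((5 + r) * b : ℕ) : ℝ) = (5 + r) / E * M := by
    rw [hMb]
    push_cast
    field_simp
  have h5 : (M : ℝ) ^ ((k : ℝ) * s - 1) = ((M : ℝ) ^ (s - 1)) ^ k * (M : ℝ) ^ (k - 1) := by
    have h6 : (k : ℝ) * s - 1 = (s - 1) * k + ((k - 1 : ℕ) : ℝ) := by
      rw [Nat.cast_sub (by omega : 1 ≤ k)]
      push_cast
      ring
    rw [h6, Real.rpow_add hM0, Real.rpow_natCast, Real.rpow_mul hM0.le, Real.rpow_natCast]
  rw [h4, h5, mul_pow, mul_pow]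
  ring

end Pool.Agent.LibZT69
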