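import Pool.Agent.LibZT69.C2
import Pool.Agent.LibZD69.A3

set_option autoImplicit false

namespace Pool.Agent.LibZT69

open Pool.Agent.LibNZ69 Pool.Agent.LibZD69

private theorem N1_rev (q : List ℕ) (hq : ∀ x ∈ q, 1 ≤ x) (t : ℤ × ℤ) (h : neg (act q t)) :
    ((|t.2|, |t.1|) : ℤ × ℤ) = act q.reverse (|(act q t).2|, |(act q t).1|) := by
  induction q with
  | nil => rfl
  | cons c q ih =>
    have hc : ∀ x ∈ [c], 1 ≤ x := fun x hx =>
      hq x (List.mem_cons.2 (Or.inl (List.mem_singleton.1 hx)))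
    have hn : neg (act [c] (act q t)) := h
    have hn' : neg (act q t) := C2_back _ [c] hc hn
    have h1 := ih (fun x hx => hq x (List.mem_cons_of_mem c hx)) hn'
    rw [List.reverse_cons, act_append, h1]
    congr 1
    generalize hy : act q t = y at *
    have e1 : (act (c :: q) t).1 = y.2 := by
      show (gl c (act q t)).1 = y.2
      rw [hy]; rfl
    have e2 : (act (c :: q) t).2 = y.1 + c * y.2 := by
      show (gl c (act q t)).2 = y.1 + c * y.2
      rw [hy]; rfl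
    have hneg := h.1
    rw [e1, e2] at *
    have hc0 : (0 : ℤ) ≤ (c : ℤ) := Int.natCast_nonneg _
    show ((|y.2|, |y.1|) : ℤ × ℤ) = (|y.2|, |y.1 + c * y.2| + c * |y.2|)
    congr 1
    rcases mul_neg_iff.1 hneg with ⟨g1, g2⟩ | ⟨g1, g2⟩
    · have g3 : (0 : ℤ) ≤ c * y.2 := mul_nonneg hc0 g1.le
      rw [abs_of_pos g1, abs_of_neg g2, abs_of_nonpos (by linarith)]
      ring
    · have g3 : (c : ℤ) * y.2 ≤ 0 := mul_nonpos_of_nonneg_of_nonpos hc0 g1.le
      rw [abs_of_neg g1, abs_of_pos g2, abs_of_nonneg (by linarith)]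
      ring

private theorem N1_nm_swap (y : ℤ × ℤ) : nm ((|y.2|, |y.1|) : ℤ × ℤ) = nm y := by
  unfold nm
  simp only [abs_abs]
  exact max_comm _ _

/-- Row N1a (SHORT/MEDIUM). If `act q t` is in the contracting cone `neg`, then by induction on `q`
`(|t.2|, |t.1|) = act q.reverse (|y.2|, |y.1|)`, `y = act q t` (one letter `c`, `y = gl c y'`, `neg y`: then
`y' = (y.2 - c y.1, y.1)`, so `|y'.2| = |y.1|`, `|y'.1| = |y.2| + c |y.1|`, i.e. `(|y'.2|, |y'.1|) =
gl c (|y.2|, |y.1|)`, and `neg y'` by `C2_back` with the list `[c]`; `act (rev q' ++ [c]) = act (rev q') ∘ gl c`).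
Then `act_same_sign` (A3) for the word `q.reverse` (`kk_reverse`). -/
theorem neg_expand (a : ℕ) (ha : 1 ≤ a) (q : List ℕ) (hq : ∀ x ∈ q, 1 ≤ x ∧ x < a) (t : ℤ × ℤ)
    (h : neg (act q t)) : (kk q : ℤ) * nm (act q t) ≤ a * nm t := by
  have h1 := N1_rev q (fun x hx => (hq x hx).1) t h
  have h2 := (act_same_sign a ha q.reverse (fun x hx => hq x (List.mem_reverse.1 hx))
    (|(act q t).2|, |(act q t).1|) (Or.inl ⟨abs_nonneg _, abs_nonneg _⟩)).1
  rw [← h1, kk_reverse, N1_nm_swap, N1_nm_swap] at h2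
  exact h2

/-- Row N1b (SHORT/MEDIUM). Bad approximability. If `¬ neg t`: `C2_key` gives
`kk m ≤ kk m * nm t ≤ 2 a^3 nm (act m t)`. If `neg (act m t)`: `neg_expand`. Otherwise (`C2_decomp`)
`m = p' ++ b :: q`, `neg (act q t)`, `¬ neg (act (b :: q) t)`: `kk p' ≤ 2 a^3 nm (act m t)` (`C2_key`),
`kk q ≤ a nm t` (`neg_expand`), `kk (b :: q) ≤ a kk q` (`kk_cons_le`), `kk m ≤ 2 kk p' kk (b :: q)`
(`kk_append_le`). All the vectors are nonzero (`LibNZ69.act_ne_zero`), `nm ≥ 1` (`C2_nm_pos`). -/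
theorem badapprox (a : ℕ) (ha : 1 ≤ a) (m : List ℕ) (hm : ∀ x ∈ m, 1 ≤ x ∧ x < a) (t : ℤ × ℤ)
    (ht : t ≠ 0) : (kk m : ℤ) ≤ 4 * (a : ℤ) ^ 5 * (nm t * nm (act m t)) := by
  have haZ : (1 : ℤ) ≤ (a : ℤ) := by exact_mod_cast ha
  have hT : 1 ≤ nm t := C2_nm_pos t ht
  have hM : 1 ≤ nm (act m t) := C2_nm_pos _ (act_ne_zero m t ht)
  have hTM : nm (act m t) ≤ nm t * nm (act m t) := by nlinarith
  have hTM' : nm t ≤ nm t * nm (act m t) := by nlinarith
  have h35 : (a : ℤ) ^ 3 ≤ (a : ℤ) ^ 5 := pow_le_pow_right₀ haZ (by norm_num)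
  have h15 : (a : ℤ) ≤ (a : ℤ) ^ 5 := le_self_pow₀ haZ (by norm_num)
  have h5 : (1 : ℤ) ≤ (a : ℤ) ^ 5 := one_le_pow₀ haZ
  have hk : (0 : ℤ) ≤ (kk m : ℤ) := Int.natCast_nonneg _
  have hP : 0 ≤ nm t * nm (act m t) := by linarith
  by_cases hneg : neg t
  · rcases C2_decomp t hneg m with h | ⟨p', b, q, hpq, h1, h2⟩
    · have h3 := neg_expand a ha m hm t h
      have h4 : (kk m : ℤ) ≤ (kk m : ℤ) * nm (act m t) := le_mul_of_one_le_right hk hM
      have h6 : (a : ℤ) * nm t ≤ (a : ℤ) ^ 5 * (nm t * nm (act m t)) :=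
        mul_le_mul h15 hTM' (by linarith) (by linarith)
      have h7 : 0 ≤ (a : ℤ) ^ 5 * (nm t * nm (act m t)) := mul_nonneg (by linarith) hP
      linarith
    · have hp' : ∀ x ∈ p', 1 ≤ x ∧ x < a := fun x hx => hm x (by rw [hpq]; simp [hx])
      have hb : 1 ≤ b ∧ b < a := hm b (by rw [hpq]; simp)
      have hq : ∀ x ∈ q, 1 ≤ x ∧ x < a := fun x hx => hm x (by rw [hpq]; simp [hx])
      have hbq : ∀ x ∈ b :: q, 1 ≤ x := by
        intro x hx
        rcases List.mem_cons.1 hx with hx | hx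
        · rw [hx]; exact hb.1
        · exact (hq x hx).1
      have e : act m t = act p' (act (b :: q) t) := by rw [hpq, act_append]
      have h3 := C2_key a ha p' hp' (act (b :: q) t) h2
      rw [← e] at h3
      have hN1 : 1 ≤ nm (act (b :: q) t) := C2_nm_pos _ (act_ne_zero _ t ht)
      have hN2 : 1 ≤ nm (act q t) := C2_nm_pos _ (act_ne_zero _ t ht)
      have hkp : (0 : ℤ) ≤ (kk p' : ℤ) := Int.natCast_nonneg _
      have hkq : (0 : ℤ) ≤ (kk q : ℤ) := Int.natCast_nonneg _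
      have h4 : (kk p' : ℤ) ≤ 2 * (a : ℤ) ^ 3 * nm (act m t) :=
        (le_mul_of_one_le_right hkp hN1).trans h3
      have h5' : (kk q : ℤ) ≤ a * nm t :=
        (le_mul_of_one_le_right hkq hN2).trans (neg_expand a ha q hq t h1)
      have h6 : (kk (b :: q) : ℤ) ≤ a * (a * nm t) := by
        have g1 : (kk (b :: q) : ℤ) ≤ ((b : ℤ) + 1) * kk q := by
          exact_mod_cast kk_cons_le b q (fun x hx => (hq x hx).1)
        have g2 : ((b : ℤ) + 1) ≤ a := by exact_mod_cast hb.2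
        have g3 : ((b : ℤ) + 1) * kk q ≤ a * kk q := mul_le_mul_of_nonneg_right g2 hkq
        have g4 : (a : ℤ) * kk q ≤ a * (a * nm t) := mul_le_mul_of_nonneg_left h5' (by linarith)
        linarith
      have h7 : (kk m : ℤ) ≤ 2 * ((kk p' : ℤ) * kk (b :: q)) := by
        rw [hpq]
        exact_mod_cast kk_append_le p' (b :: q) (fun x hx => (hp' x hx).1) hbq
      have hkb : (0 : ℤ) ≤ (kk (b :: q) : ℤ) := Int.natCast_nonneg _
      have h8 : (kk p' : ℤ) * kk (b :: q) ≤ (2 * (a : ℤ) ^ 3 * nm (act m t)) * (a * (a * nm t)) :=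
        mul_le_mul h4 h6 hkb (by positivity)
      calc (kk m : ℤ) ≤ 2 * ((kk p' : ℤ) * kk (b :: q)) := h7
        _ ≤ 2 * ((2 * (a : ℤ) ^ 3 * nm (act m t)) * (a * (a * nm t))) := by linarith
        _ = 4 * (a : ℤ) ^ 5 * (nm t * nm (act m t)) := by ring
  · have h3 := C2_key a ha m hm t hneg
    have h4 : (kk m : ℤ) ≤ (kk m : ℤ) * nm t := le_mul_of_one_le_right hk hT
    have h6 : (a : ℤ) ^ 3 * nm (act m t) ≤ (a : ℤ) ^ 5 * (nm t * nm (act m t)) :=
      mul_le_mul h35 hTM (by linarith) (by linarith)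
    have h7 : 0 ≤ (a : ℤ) ^ 5 * (nm t * nm (act m t)) := mul_nonneg (by linarith) hP
    nlinarith

end Pool.Agent.LibZT69
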