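import Pool.Agent.LibZD69.D1

set_option autoImplicit false

namespace Pool.Agent.LibZT69

open Pool.Agent.LibNZ69 Pool.Agent.LibZD69

/-- one coordinate -/
private theorem N2_coord {M Q K₁ K₂ k q : ℕ} {α : ℤ} (hf : Fz M Q K₁ K₂ k q α) (hM : 0 < M)
    (hQ : 1 ≤ Q) (Z H : ℕ) (x t ζ : ℤ) (hx : |x| ≤ 3 * Z) (ht : |t| < H)
    (h : (k : ℤ) * x = t + M * ζ) (hq : 2 * Q * (H + 3 * (K₂ * Z)) ≤ M) :
    (q : ℤ) ∣ x ∧ (K₁ : ℤ) * |x| ≤ H := by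
  have hMp : (0 : ℤ) < M := by exact_mod_cast hM
  have hqp : (0 : ℤ) < q := by
    have h5 : 1 ≤ q := hQ.trans hf.qlo
    exact_mod_cast h5
  have hqQ : (q : ℤ) ≤ 2 * Q := by exact_mod_cast hf.qhi.le
  have hH0 : (0 : ℤ) ≤ H := Int.natCast_nonneg H
  have hZ0 : (0 : ℤ) ≤ Z := Int.natCast_nonneg Z
  have hK0 : (0 : ℤ) ≤ K₂ := Int.natCast_nonneg K₂
  have hq' : 2 * (Q : ℤ) * (H + 3 * (K₂ * Z)) ≤ M := by exact_mod_cast hq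
  set ρ : ℤ := (q : ℤ) * k - α * M with hρ
  have e : (M : ℤ) * (α * x - q * ζ) = q * t - ρ * x := by
    rw [hρ]
    linear_combination (q : ℤ) * h
  have b1 : |(q : ℤ) * t| < q * H := by
    rw [abs_mul, abs_of_pos hqp]
    exact mul_lt_mul_of_pos_left ht hqp
  have b2 : |ρ * x| ≤ q * (3 * (K₂ * Z)) := by
    rw [abs_mul]
    calc |ρ| * |x| ≤ ((K₂ : ℤ) * q) * (3 * Z) :=
          mul_le_mul hf.rhi hx (abs_nonneg _) (by positivity)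
      _ = _ := by ring
  have b3 : |(q : ℤ) * t - ρ * x| ≤ |(q : ℤ) * t| + |ρ * x| := abs_sub _ _
  have b4 : (q : ℤ) * (H + 3 * (K₂ * Z)) ≤ 2 * (Q : ℤ) * (H + 3 * (K₂ * Z)) :=
    mul_le_mul_of_nonneg_right hqQ (by positivity)
  have b5 : |(M : ℤ) * (α * x - q * ζ)| < M := by
    rw [e]
    nlinarith
  have b6 : α * x - q * ζ = 0 := by
    rw [abs_mul, abs_of_pos hMp] at b5
    by_contra hne
    have : 1 ≤ |α * x - q * ζ| := Int.one_le_abs hne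
    nlinarith
  have hdvd : (q : ℤ) ∣ α * x := ⟨ζ, by linarith⟩
  refine ⟨hf.cop.symm.dvd_of_dvd_mul_left hdvd, ?_⟩
  have e2 : (q : ℤ) * t = ρ * x := by
    rw [b6, mul_zero] at e
    linarith
  have e3 : |ρ| * |x| = (q : ℤ) * |t| := by
    rw [← abs_mul, ← e2, abs_mul, abs_of_pos hqp]
  have e4 : (K₁ : ℤ) * q * |x| ≤ |ρ| * |x| :=
    mul_le_mul_of_nonneg_right hf.rlo (abs_nonneg _)
  have e5 : (q : ℤ) * ((K₁ : ℤ) * |x|) ≤ q * H := by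
    calc (q : ℤ) * ((K₁ : ℤ) * |x|) = (K₁ : ℤ) * q * |x| := by ring
      _ ≤ |ρ| * |x| := e4
      _ = (q : ℤ) * |t| := e3
      _ ≤ q * H := mul_le_mul_of_nonneg_left ht.le hqp.le
  exact le_of_mul_le_mul_left e5 hqp

/-- Row N2 (MEDIUM). One coordinate at a time: `x = v.1 - v'.1`, `k x = t + M ζ` with `|t| < H`
(`close`), `ρ = q k - α M`, `K₁ q ≤ |ρ| ≤ K₂ q` (`Fz`). `M (α x - q ζ) = q t - ρ x` and
`|q t - ρ x| < q (H + 3 K₂ Z) ≤ M` (`q < 2 Q`), so `α x = q ζ`, `q ∣ x` (`IsCoprime`), and `ρ x = q t`, so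
`K₁ q |x| ≤ q |t| ≤ q H`. -/
theorem close_diff {M Q K₁ K₂ k q : ℕ} {α : ℤ} (hf : Fz M Q K₁ K₂ k q α) (hM : 0 < M)
    (hQ : 1 ≤ Q) (Z H : ℕ) (v v' : ℤ × ℤ) (hv : nm (v - v') ≤ 3 * Z)
    (hc : close M H ((k : ℤ) • v) ((k : ℤ) • v')) (hq : 2 * Q * (H + 3 * (K₂ * Z)) ≤ M) :
    ((q : ℤ) ∣ (v - v').1 ∧ (q : ℤ) ∣ (v - v').2) ∧ (K₁ : ℤ) * nm (v - v') ≤ H := by
  obtain ⟨t, ht, ⟨ζ, h1⟩, ⟨ξ, h2⟩⟩ := hc
  simp only [Prod.smul_fst, Prod.smul_snd, smul_eq_mul] at h1 h2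
  have c1 := N2_coord hf hM hQ Z H (v - v').1 t.1 ζ ((le_max_left _ _).trans hv)
    ((le_max_left _ _).trans_lt ht) (by rw [Prod.fst_sub]; linear_combination h1) hq
  have c2 := N2_coord hf hM hQ Z H (v - v').2 t.2 ξ ((le_max_right _ _).trans hv)
    ((le_max_right _ _).trans_lt ht) (by rw [Prod.snd_sub]; linear_combination h2) hq
  refine ⟨⟨c1.1, c2.1⟩, ?_⟩
  unfold nm
  rcases max_choice |(v - v').1| |(v - v').2| with hm | hm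
  · rw [hm]; exact c1.2
  · rw [hm]; exact c2.2

end Pool.Agent.LibZT69
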