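import Pool.Agent.LibZT69.N1
import Pool.Agent.LibZT69.C6

set_option autoImplicit false

namespace Pool.Agent.LibZT69

open Pool.Agent.LibNZ69 Pool.Agent.LibZD69

/-- Row N3a (MEDIUM). Difference of two words with a common left part `m`: `vec (m ++ t) - vec (m ++ t')
= act m (vec t - vec t')`, divisible by `q` (so `vec t - vec t' = q • τ`: apply `acti m`), of norm
`≤ 6 Z / K`. With `kk t, kk t' ≤ R`: `q nm τ ≤ 3 R` (`vec_bounds`), `K q nm (act m τ) ≤ 6 Z`, and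
`Z ≤ C₀ kk (m ++ t) ≤ 2 C₀ kk m R`. If `τ ≠ 0` then by `badapprox`
`kk m q² K ≤ 4 a^5 (q nm τ) (K q nm (act m τ)) ≤ 4 a^5 · 3 R · 6 · 2 C₀ kk m R = 144 a^5 C₀ kk m R²`. So if
`144 a^5 C₀ R² < q² K` then `τ = 0`, `vec t = vec t'`, `t = t'` (`vec_inj`, `wdg x x = 0`). -/
theorem eq_of_close {a : ℕ} (ha : 4 ≤ a) (C₀ Z q K R : ℕ) (hq : 1 ≤ q) (m t t' : List ℕ)
    (hm : ∀ x ∈ m, 1 ≤ x ∧ x < a) (ht : ∀ x ∈ t, 1 ≤ x ∧ x < a) (ht' : ∀ x ∈ t', 1 ≤ x ∧ x < a)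
    (htR : kk t ≤ R) (htR' : kk t' ≤ R) (hZ : Z ≤ C₀ * kk (m ++ t))
    (hd1 : (q : ℤ) ∣ (vec (m ++ t) - vec (m ++ t')).1)
    (hd2 : (q : ℤ) ∣ (vec (m ++ t) - vec (m ++ t')).2)
    (hn : (K : ℤ) * nm (vec (m ++ t) - vec (m ++ t')) ≤ 6 * Z)
    (hR : 144 * a ^ 5 * C₀ * R ^ 2 < q ^ 2 * K) : t = t' := by
  have hdiff : vec (m ++ t) - vec (m ++ t') = act m (vec t - vec t') := by
    have h1 : vec (m ++ t) = act m (vec t) := act_append m t (1, 2)
    have h2 : vec (m ++ t') = act m (vec t') := act_append m t' (1, 2)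
    rw [h1, h2, sub_eq_add_neg, sub_eq_add_neg, act_add, act_neg]
  rw [hdiff] at hd1 hd2 hn
  obtain ⟨σ, hσ⟩ : ∃ σ : ℤ × ℤ, act m (vec t - vec t') = (q : ℤ) • σ := by
    obtain ⟨u, hu⟩ := hd1
    obtain ⟨v, hv⟩ := hd2
    exact ⟨(u, v), Prod.ext (by rw [hu]; rfl) (by rw [hv]; rfl)⟩
  have hτ : vec t - vec t' = (q : ℤ) • acti m σ := by
    rw [← acti_smul, ← hσ, acti_act]
  set τ : ℤ × ℤ := acti m σ with hτdef
  have hσ2 : act m τ = σ := act_acti m σ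
  have ht1 : ∀ x ∈ t, 1 ≤ x := fun x hx => (ht x hx).1
  have ht1' : ∀ x ∈ t', 1 ≤ x := fun x hx => (ht' x hx).1
  have hm1 : ∀ x ∈ m, 1 ≤ x := fun x hx => (hm x hx).1
  have hqZ : (1 : ℤ) ≤ q := by exact_mod_cast hq
  by_cases h0 : τ = 0
  · have h1 : vec t = vec t' := by
      rw [h0, smul_zero] at hτ
      exact sub_eq_zero.1 hτ
    refine vec_inj a ha t t' ht ht' ?_
    rw [h1]
    unfold wdg
    ring
  · exfalso
    obtain ⟨a1, a2, a3, a4, a5⟩ := vec_bounds t ht1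
    obtain ⟨b1, b2, b3, b4, b5⟩ := vec_bounds t' ht1'
    have hRZ : (kk t : ℤ) ≤ R := by exact_mod_cast htR
    have hRZ' : (kk t' : ℤ) ≤ R := by exact_mod_cast htR'
    have hnm : nm (vec t - vec t') ≤ 3 * (R : ℤ) := by
      have c1 : (vec t).1 ≤ nm (vec t) := (le_abs_self _).trans (abs_fst_le _)
      have c2 : (vec t).2 ≤ nm (vec t) := (le_abs_self _).trans (abs_snd_le _)
      have c3 : (vec t').1 ≤ nm (vec t') := (le_abs_self _).trans (abs_fst_le _)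
      have c4 : (vec t').2 ≤ nm (vec t') := (le_abs_self _).trans (abs_snd_le _)
      unfold nm at *
      simp only [Prod.fst_sub, Prod.snd_sub]
      refine max_le ?_ ?_ <;> rw [abs_le] <;> constructor <;> linarith
    rw [hτ, nm_smul, abs_of_nonneg (by linarith)] at hnm
    rw [hσ, nm_smul, abs_of_nonneg (by linarith)] at hn
    have hbad := badapprox a (by omega) m hm τ h0
    rw [hσ2] at hbad
    have hkm : (1 : ℤ) ≤ kk m := by exact_mod_cast kk_pos m hm1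
    have hKk : (kk (m ++ t) : ℤ) ≤ 2 * kk m * kk t := by
      rw [mul_assoc]
      exact_mod_cast kk_append_le m t hm1 ht1
    have hZ' : (Z : ℤ) ≤ C₀ * kk (m ++ t) := by exact_mod_cast hZ
    have hR' : (144 * (a : ℤ) ^ 5 * C₀ * R ^ 2) < q ^ 2 * K := by exact_mod_cast hR
    have hZ2 : (Z : ℤ) ≤ 2 * C₀ * kk m * R := by
      have e1 : (C₀ : ℤ) * kk (m ++ t) ≤ C₀ * (2 * kk m * R) := by
        refine mul_le_mul_of_nonneg_left (hKk.trans ?_) (by positivity)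
        exact mul_le_mul_of_nonneg_left hRZ (by positivity)
      calc (Z : ℤ) ≤ C₀ * kk (m ++ t) := hZ'
        _ ≤ C₀ * (2 * kk m * R) := e1
        _ = 2 * C₀ * kk m * R := by ring
    have hn0 : 0 ≤ nm τ := nm_nonneg τ
    have hn1 : 0 ≤ nm σ := nm_nonneg σ
    have hfin : (q : ℤ) ^ 2 * K * kk m ≤ 144 * (a : ℤ) ^ 5 * C₀ * R ^ 2 * kk m := by
      calc (q : ℤ) ^ 2 * K * kk m ≤ (q : ℤ) ^ 2 * K * (4 * (a : ℤ) ^ 5 * (nm τ * nm σ)) :=
            mul_le_mul_of_nonneg_left hbad (by positivity)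
        _ = 4 * (a : ℤ) ^ 5 * ((q * nm τ) * (K * (q * nm σ))) := by ring
        _ ≤ 4 * (a : ℤ) ^ 5 * ((3 * R) * (6 * (2 * C₀ * kk m * R))) := by
            refine mul_le_mul_of_nonneg_left ?_ (by positivity)
            refine mul_le_mul hnm (hn.trans (by linarith)) (by positivity) (by positivity)
        _ = 144 * (a : ℤ) ^ 5 * C₀ * R ^ 2 * kk m := by ring
    have := (mul_le_mul_iff_left₀ (by linarith : (0 : ℤ) < kk m)).1 hfin
    linarith

end Pool.Agent.LibZT69
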