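import Pool.Agent.LibZT69.N3
import Pool.Agent.LibZT69.B6

set_option autoImplicit false

namespace Pool.Agent.LibZT69

open Pool.Agent.LibNZ69 Pool.Agent.LibZD69

/-- Row N4 (MEDIUM; compare `countU` in C6.lean, finished, the same structure). Let
`E = 144 a^7 C₀`; if `q² K ≤ 16 E` (small) then `#U ≤ #(wP A Z) ≤ C Z^s` (`u` determines `p ++ u ∈ wP A Z`) and
`q K ≤ 16 E`. Otherwise let `X ≥ 2` be the largest natural number with `E X² < q² K`, so `q² K ≤ 4 E X²`. Words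
`u ∈ U` with `kk u < X`: at most one (`eq_of_close` with `m = p`, `R = X`). The others: `u = m ++ t`,
`t ∈ Cut A a X` (`exists_cut`), `kk t ≤ a X` (`Cut_bounds`): for given `m` the `t` is unique (`eq_of_close` with
the left part `p ++ m`, `R = a X`), and `kk p * kk m * X ≤ kk (p ++ m ++ t) ≤ Z`, so `kk m ≤ Z / (X kk p)`; the
number is at most `C (Z / (X kk p))^s` (`card_wP`), and `X kk p ≥ q K / (2 √(E C₁))` as
`K ≤ C₁ kk p²`, `q² K ≤ 4 E X²`. -/
theorem countQ1 {A : Finset ℕ} {a : ℕ} {s : ℝ} (hp : PB A a s) (C₀ C₁ : ℕ) (hC₀ : 1 ≤ C₀)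
    (hC₁ : 1 ≤ C₁) : ∃ C : ℝ, 1 ≤ C ∧ ∀ Z q K : ℕ, 1 ≤ q → 1 ≤ K → ∀ p : List ℕ, WA A p →
      K ≤ C₁ * kk p ^ 2 → ∀ U : Finset (List ℕ),
      (∀ u ∈ U, WA A u ∧ kk (p ++ u) ≤ Z ∧ Z ≤ C₀ * kk (p ++ u)) →
      (∀ u ∈ U, ∀ u' ∈ U, (q : ℤ) ∣ (vec (p ++ u) - vec (p ++ u')).1 ∧
        (q : ℤ) ∣ (vec (p ++ u) - vec (p ++ u')).2 ∧
        (K : ℤ) * nm (vec (p ++ u) - vec (p ++ u')) ≤ 6 * Z) →
      (U.card : ℝ) ≤ C * (1 + ((Z : ℝ) / (q * K)) ^ s) := by
  classical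
  obtain ⟨C, hC1, hC⟩ := card_wP hp
  have hA : ∀ x ∈ A, 1 ≤ x := fun x hx => (hp.dig x hx).1
  have ha4 := hp.a4
  have hs1 := hp.s1
  have hs0 : 0 ≤ s := by linarith
  have ha0 : 0 < a := by omega
  set E : ℕ := 144 * a ^ 7 * C₀ with hE
  have hE0 : 0 < E := by
    have : 0 < a ^ 7 := Nat.pow_pos ha0
    rw [hE]
    exact Nat.mul_pos (Nat.mul_pos (by norm_num) this) hC₀
  set D : ℕ := 4 * E * C₁ with hD
  have hD0 : 0 < D := by
    rw [hD]
    exact Nat.mul_pos (Nat.mul_pos (by norm_num) hE0) hC₁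
  have hER : (1 : ℝ) ≤ 16 * (E : ℝ) := by
    have : (1 : ℝ) ≤ (E : ℝ) := by exact_mod_cast hE0
    linarith
  have hDR : (1 : ℝ) ≤ (D : ℝ) := by exact_mod_cast hD0
  have hEs : 1 ≤ (16 * (E : ℝ)) ^ s := Real.one_le_rpow hER hs0
  have hDs : 1 ≤ (D : ℝ) ^ s := Real.one_le_rpow hDR hs0
  refine ⟨C * ((16 * (E : ℝ)) ^ s + (D : ℝ) ^ s), by nlinarith, ?_⟩
  intro Z q K hq hK p hpA hKp U hU hUU
  have hq0 : (0 : ℝ) < q := by exact_mod_cast hq
  have hK0 : (0 : ℝ) < K := by exact_mod_cast hK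
  have hqK0 : (0 : ℝ) < (q : ℝ) * K := mul_pos hq0 hK0
  have hT0 : 0 ≤ ((Z : ℝ) / (q * K)) ^ s := Real.rpow_nonneg (by positivity) _
  have hdig : ∀ w : List ℕ, WA A w → ∀ x ∈ w, 1 ≤ x ∧ x < a := fun w hw x hx =>
    hp.dig x (hw x hx)
  have hCEs : 0 ≤ C * (16 * (E : ℝ)) ^ s := by nlinarith
  have hCDs : 0 ≤ C * (D : ℝ) ^ s := by nlinarith
  rcases lt_or_ge (16 * E) (q ^ 2 * K) with hbig | hsmall
  · -- the large case
    set X : ℕ := Nat.sqrt ((q ^ 2 * K - 1) / E) with hX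
    have hX1 : X * X ≤ (q ^ 2 * K - 1) / E := Nat.sqrt_le _
    have hX2 : (q ^ 2 * K - 1) / E < (X + 1) * (X + 1) := Nat.lt_succ_sqrt _
    have hX3 : E * (X * X) < q ^ 2 * K := by
      have h1 : X * X * E ≤ q ^ 2 * K - 1 := (Nat.le_div_iff_mul_le hE0).1 hX1
      have h2 : E * (X * X) = X * X * E := Nat.mul_comm _ _
      omega
    have hX4 : q ^ 2 * K ≤ E * ((X + 1) * (X + 1)) := by
      have h1 : q ^ 2 * K - 1 < (X + 1) * (X + 1) * E := (Nat.div_lt_iff_lt_mul hE0).1 hX2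
      have h2 : E * ((X + 1) * (X + 1)) = (X + 1) * (X + 1) * E := Nat.mul_comm _ _
      omega
    have hX5 : 2 ≤ X := by
      rw [hX, Nat.le_sqrt]
      rw [Nat.le_div_iff_mul_le hE0]
      omega
    have hX6 : q ^ 2 * K ≤ 4 * E * (X * X) := by
      have h1 : (X + 1) * (X + 1) ≤ 4 * (X * X) := by nlinarith
      calc q ^ 2 * K ≤ E * ((X + 1) * (X + 1)) := hX4
        _ ≤ E * (4 * (X * X)) := Nat.mul_le_mul_left _ h1
        _ = 4 * E * (X * X) := by ring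
    have hXpos : 0 < X := by omega
    have hkp : 1 ≤ kk p := kk_pos p (fun x hx => (hdig p hpA x hx).1)
    have hsplit : U.card = (U.filter (fun u => kk u < X)).card +
        (U.filter (fun u => ¬ kk u < X)).card :=
      (Finset.card_filter_add_card_filter_not (s := U) (fun u => kk u < X)).symm
    have hR1 : 144 * a ^ 5 * C₀ * X ^ 2 < q ^ 2 * K := by
      have h1 : a ^ 5 ≤ a ^ 7 := Nat.pow_le_pow_right ha0 (by norm_num)
      calc 144 * a ^ 5 * C₀ * X ^ 2 ≤ 144 * a ^ 7 * C₀ * X ^ 2 := by gcongr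
        _ = E * (X * X) := by rw [hE]; ring
        _ < q ^ 2 * K := hX3
    have hR2 : 144 * a ^ 5 * C₀ * (a * X) ^ 2 < q ^ 2 * K := by
      calc 144 * a ^ 5 * C₀ * (a * X) ^ 2 = E * (X * X) := by rw [hE]; ring
        _ < q ^ 2 * K := hX3
    have hsm : (U.filter (fun u => kk u < X)).card ≤ 1 := by
      rw [Finset.card_le_one]
      intro u hu u' hu'
      rw [Finset.mem_filter] at hu hu'
      obtain ⟨d1, d2, d3⟩ := hUU u hu.1 u' hu'.1
      exact eq_of_close ha4 C₀ Z q K X hq p u u' (hdig p hpA) (hdig u (hU u hu.1).1)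
        (hdig u' (hU u' hu'.1).1) hu.2.le hu'.2.le (hU u hu.1).2.2 d1 d2 d3 hR1
    have hdec : ∀ u : List ℕ, ∃ m t : List ℕ, u ∈ U.filter (fun u => ¬ kk u < X) →
        (u = m ++ t ∧ t ∈ Cut A a X ∧ WA A m) := by
      intro u
      by_cases hu : u ∈ U.filter (fun u => ¬ kk u < X)
      · have hu' := Finset.mem_filter.1 hu
        obtain ⟨m, t, h1, h2, h3⟩ := exists_cut hp.dig hX5 u (hU u hu'.1).1 (not_lt.1 hu'.2)
        exact ⟨m, t, fun _ => ⟨h1, h2, h3⟩⟩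
      · exact ⟨[], [], fun h => absurd h hu⟩
    choose f g hfg using hdec
    have hlarge : (U.filter (fun u => ¬ kk u < X)).card ≤ (wP A (Z / (X * kk p))).card := by
      refine Finset.card_le_card_of_injOn f ?_ ?_
      · intro u hu
        have hu0 : u ∈ U.filter (fun u => ¬ kk u < X) := hu
        obtain ⟨h1, h2, h3⟩ := hfg u hu0
        have hu' := Finset.mem_filter.1 hu0
        have hkt := (Cut_bounds hp.dig h2).2.1
        have hkZ := (hU u hu'.1).2.1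
        rw [h1, ← List.append_assoc] at hkZ
        have h4 := kk_append_ge (p ++ f u) (g u)
        have h5 := kk_append_ge p (f u)
        show f u ∈ ((wP A (Z / (X * kk p)) : Finset (List ℕ)) : Set (List ℕ))
        rw [Finset.mem_coe, mem_wP hA]
        refine ⟨h3, ?_⟩
        rw [Nat.le_div_iff_mul_le (Nat.mul_pos hXpos hkp)]
        calc kk (f u) * (X * kk p) = kk p * kk (f u) * X := by ring
          _ ≤ kk p * kk (f u) * kk (g u) := Nat.mul_le_mul_left _ hkt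
          _ ≤ kk (p ++ f u) * kk (g u) := Nat.mul_le_mul_right _ h5
          _ ≤ kk (p ++ f u ++ g u) := h4
          _ ≤ Z := hkZ
      · intro u hu u' hu' hff
        have hu0 : u ∈ U.filter (fun u => ¬ kk u < X) := hu
        have hu0' : u' ∈ U.filter (fun u => ¬ kk u < X) := hu'
        obtain ⟨h1, h2, h3⟩ := hfg u hu0
        obtain ⟨h1', h2', h3'⟩ := hfg u' hu0'
        have hm := Finset.mem_filter.1 hu0
        have hm' := Finset.mem_filter.1 hu0'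
        obtain ⟨d1, d2, d3⟩ := hUU u hm.1 u' hm'.1
        have e1 : p ++ u = (p ++ f u) ++ g u := by
          conv_lhs => rw [h1]
          rw [List.append_assoc]
        have e2 : p ++ u' = (p ++ f u) ++ g u' := by
          conv_lhs => rw [h1']
          rw [← hff, List.append_assoc]
        have hZ := (hU u hm.1).2.2
        rw [e1] at hZ
        rw [e1, e2] at d1 d2 d3
        have hc := Cut_bounds hp.dig h2
        have hc' := Cut_bounds hp.dig h2'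
        have hpm : WA A (p ++ f u) := (WA_append p (f u)).2 ⟨hpA, h3⟩
        have := eq_of_close ha4 C₀ Z q K (a * X) hq (p ++ f u) (g u) (g u') (hdig _ hpm)
          (hdig _ hc.1) (hdig _ hc'.1) hc.2.2.1 hc'.2.2.1 hZ d1 d2 d3 hR2
        rw [h1, h1', ← hff, this]
    have h2 := hC (Z / (X * kk p))
    have hXk0 : (0 : ℝ) < (X : ℝ) * kk p := by
      have : 0 < X * kk p := Nat.mul_pos hXpos hkp
      exact_mod_cast this
    have hdiv : ((Z / (X * kk p) : ℕ) : ℝ) ≤ (Z : ℝ) / ((X : ℝ) * kk p) := by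
      have := @Nat.cast_div_le ℝ _ _ _ Z (X * kk p)
      rwa [Nat.cast_mul] at this
    -- `q K ≤ D X kk p`
    have hqK : q * K ≤ D * (X * kk p) := by
      have h3 : (q * K) ^ 2 ≤ (D * (X * kk p)) ^ 2 := by
        have h4 : q ^ 2 * K * K ≤ (4 * E * (X * X)) * (C₁ * kk p ^ 2) :=
          Nat.mul_le_mul hX6 hKp
        calc (q * K) ^ 2 = q ^ 2 * K * K := by ring
          _ ≤ (4 * E * (X * X)) * (C₁ * kk p ^ 2) := h4
          _ = D * (X * kk p) ^ 2 := by rw [hD]; ring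
          _ ≤ D * (D * (X * kk p) ^ 2) := Nat.le_mul_of_pos_left _ hD0
          _ = (D * (X * kk p)) ^ 2 := by ring
      exact (Nat.pow_le_pow_iff_left (by norm_num)).1 h3
    have hqKR : (q : ℝ) * K ≤ (D : ℝ) * ((X : ℝ) * kk p) := by exact_mod_cast hqK
    have hle : (Z : ℝ) / ((X : ℝ) * kk p) ≤ (D : ℝ) * ((Z : ℝ) / (q * K)) := by
      rw [div_le_iff₀ hXk0]
      have e1 : (D : ℝ) * ((Z : ℝ) / (q * K)) * ((X : ℝ) * kk p) =
          (Z : ℝ) * (((D : ℝ) * ((X : ℝ) * kk p)) / (q * K)) := by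
        field_simp
      rw [e1]
      have h3 : (1 : ℝ) ≤ ((D : ℝ) * ((X : ℝ) * kk p)) / (q * K) := by
        rw [le_div_iff₀ hqK0, one_mul]
        exact hqKR
      have hZ0 : (0 : ℝ) ≤ Z := Nat.cast_nonneg _
      nlinarith
    have h3 : ((Z / (X * kk p) : ℕ) : ℝ) ^ s ≤ (D : ℝ) ^ s * ((Z : ℝ) / (q * K)) ^ s := by
      rw [← Real.mul_rpow (Nat.cast_nonneg _) (by positivity)]
      exact Real.rpow_le_rpow (Nat.cast_nonneg _) (hdiv.trans hle) hs0
    have h4 : (U.card : ℝ) ≤ 1 + ((wP A (Z / (X * kk p))).card : ℝ) := by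
      have : U.card ≤ 1 + (wP A (Z / (X * kk p))).card := by omega
      exact_mod_cast this
    have h5 : C * ((Z / (X * kk p) : ℕ) : ℝ) ^ s ≤
        C * ((D : ℝ) ^ s * ((Z : ℝ) / (q * K)) ^ s) :=
      mul_le_mul_of_nonneg_left h3 (by linarith)
    have h6 : (U.card : ℝ) ≤ 1 + C * (D : ℝ) ^ s * ((Z : ℝ) / (q * K)) ^ s := by
      rw [mul_assoc]
      linarith
    have h7 : (1 : ℝ) ≤ C * ((16 * (E : ℝ)) ^ s + (D : ℝ) ^ s) := by nlinarith
    have h8 : C * (D : ℝ) ^ s ≤ C * ((16 * (E : ℝ)) ^ s + (D : ℝ) ^ s) := by nlinarith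
    calc (U.card : ℝ) ≤ 1 + C * (D : ℝ) ^ s * ((Z : ℝ) / (q * K)) ^ s := h6
      _ ≤ C * ((16 * (E : ℝ)) ^ s + (D : ℝ) ^ s) +
          C * ((16 * (E : ℝ)) ^ s + (D : ℝ) ^ s) * ((Z : ℝ) / (q * K)) ^ s :=
        add_le_add h7 (mul_le_mul_of_nonneg_right h8 hT0)
      _ = C * ((16 * (E : ℝ)) ^ s + (D : ℝ) ^ s) * (1 + ((Z : ℝ) / (q * K)) ^ s) := by ring
  · -- the small case
    have h1 : U.card ≤ (wP A Z).card := by
      refine Finset.card_le_card_of_injOn (fun u => p ++ u) ?_ ?_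
      · intro u hu
        have hu0 := hU u hu
        show p ++ u ∈ ((wP A Z : Finset (List ℕ)) : Set (List ℕ))
        rw [Finset.mem_coe, mem_wP hA]
        exact ⟨(WA_append p u).2 ⟨hpA, hu0.1⟩, hu0.2.1⟩
      · intro u _ u' _ h
        exact List.append_cancel_left h
    have h1' : (U.card : ℝ) ≤ ((wP A Z).card : ℝ) := by exact_mod_cast h1
    have h2 := hC Z
    have hqK : q * K ≤ 16 * E := by
      have h3 : q * K ≤ q ^ 2 * K := by
        have h4 : q ≤ q ^ 2 := by nlinarith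
        exact Nat.mul_le_mul_right _ h4
      exact h3.trans hsmall
    have hqKR : (q : ℝ) * K ≤ 16 * (E : ℝ) := by exact_mod_cast hqK
    have h3 : (Z : ℝ) ^ s ≤ (16 * (E : ℝ)) ^ s * ((Z : ℝ) / (q * K)) ^ s := by
      have e1 : (Z : ℝ) = ((q : ℝ) * K) * ((Z : ℝ) / (q * K)) := by field_simp
      have e2 : (Z : ℝ) ^ s = ((q : ℝ) * K) ^ s * ((Z : ℝ) / (q * K)) ^ s := by
        conv_lhs => rw [e1]
        exact Real.mul_rpow hqK0.le (by positivity)
      rw [e2]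
      exact mul_le_mul_of_nonneg_right (Real.rpow_le_rpow hqK0.le hqKR hs0) hT0
    have h4 : C * (Z : ℝ) ^ s ≤ C * ((16 * (E : ℝ)) ^ s * ((Z : ℝ) / (q * K)) ^ s) :=
      mul_le_mul_of_nonneg_left h3 (by linarith)
    have h5 : 0 ≤ C * (D : ℝ) ^ s * ((Z : ℝ) / (q * K)) ^ s := mul_nonneg hCDs hT0
    have e : C * ((16 * (E : ℝ)) ^ s + (D : ℝ) ^ s) * (1 + ((Z : ℝ) / (q * K)) ^ s) =
        C * ((16 * (E : ℝ)) ^ s * ((Z : ℝ) / (q * K)) ^ s) + C * (16 * (E : ℝ)) ^ s +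
          C * (D : ℝ) ^ s + C * (D : ℝ) ^ s * ((Z : ℝ) / (q * K)) ^ s := by ring
    rw [e]
    linarith

end Pool.Agent.LibZT69
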