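import Pool.Agent.LibZT69.N4

set_option autoImplicit false

namespace Pool.Agent.LibZT69

open Pool.Agent.LibNZ69 Pool.Agent.LibZD69

private lemma N5_wdg_sub (x y : ℤ × ℤ) : wdg x y = wdg x (y - x) := by
  simp only [wdg, Prod.fst_sub, Prod.snd_sub]
  ring

/-- Row N5 (SHORT/MEDIUM; compare `countS` in C6.lean). If `#T ≤ 1` clear. Otherwise `C6_prefix`: `p`,
`p ++ u, p ++ u' ∈ T`, `u.head? ≠ u'.head?`, and every element of `T` is `p ++ r`; `U` = set of the `r`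
(image under `List.drop p.length`, same cardinality). `sep0`, `wdg_prefix`: `kk u * kk u' ≤ a^4 |wdg (vec w) (vec w')|`
with `w = p ++ u`, `w' = p ++ u'`; `wdg x y = wdg x (y - x)`, so `|wdg| ≤ 2 nm (vec w) nm (vec w' - vec w)`
(`C6_wdg_le`), `K |wdg| ≤ 2 · 3 Z · 6 Z`; `Z ≤ C₀ kk w ≤ 2 C₀ kk p kk u`, the same for `u'`, so
`K Z² ≤ 4 C₀² kk p² a^4 · 36 Z²`, `K ≤ 144 C₀² a^4 kk p²` (`Z ≥ 1` as `kk w ≥ 1`). Then `countQ1`. -/
theorem countQ {A : Finset ℕ} {a : ℕ} {s : ℝ} (hp : PB A a s) (C₀ : ℕ) (hC₀ : 1 ≤ C₀) :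
    ∃ C : ℝ, 1 ≤ C ∧ ∀ Z q K : ℕ, 1 ≤ q → 1 ≤ K → ∀ T : Finset (List ℕ), T ⊆ Wz A Z C₀ →
      (∀ w ∈ T, ∀ w' ∈ T, (q : ℤ) ∣ (vec w - vec w').1 ∧ (q : ℤ) ∣ (vec w - vec w').2 ∧
        (K : ℤ) * nm (vec w - vec w') ≤ 6 * Z) →
      (T.card : ℝ) ≤ C * (1 + ((Z : ℝ) / (q * K)) ^ s) := by
  classical
  have hA : ∀ x ∈ A, 1 ≤ x := fun x hx => (hp.dig x hx).1
  have ha4 := hp.a4
  have ha0 : 0 < a := by omega
  obtain ⟨C, hC1, hC⟩ := countQ1 hp C₀ (144 * C₀ ^ 2 * a ^ 4) hC₀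
    (Nat.one_le_iff_ne_zero.2 (by positivity))
  refine ⟨C, hC1, ?_⟩
  intro Z q K hq hK T hT hdiv
  have hE0 : 0 ≤ ((Z : ℝ) / (q * K)) ^ s := Real.rpow_nonneg (by positivity) _
  have hWz : ∀ w ∈ T, WA A w ∧ kk w ≤ Z ∧ Z ≤ C₀ * kk w := fun w hw =>
    (mem_Wz hA Z C₀ w).1 (hT hw)
  rcases Nat.lt_or_ge 1 T.card with hcard | hcard
  · obtain ⟨p, u, u', hu, hu', hh, hall⟩ := C6_prefix T hcard
    have hWu := (WA_append p u).1 (hWz _ hu).1
    have hWu' := (WA_append p u').1 (hWz _ hu').1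
    have hdig : ∀ w : List ℕ, WA A w → ∀ x ∈ w, 1 ≤ x ∧ x < a := fun w hw x hx =>
      hp.dig x (hw x hx)
    have hdig1 : ∀ w : List ℕ, WA A w → ∀ x ∈ w, 1 ≤ x := fun w hw x hx => hA x (hw x hx)
    have hkp : 1 ≤ kk p := kk_pos p (hdig1 p hWu.1)
    have hZ1 : 1 ≤ Z := le_trans (kk_pos _ (hdig1 _ (hWz _ hu).1)) (hWz _ hu).2.1
    -- lower bounds of the two rests
    have hlow : ∀ r : List ℕ, p ++ r ∈ T → (Z : ℤ) ≤ 2 * C₀ * kk p * kk r := by
      intro r hr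
      have hWr := (WA_append p r).1 (hWz _ hr).1
      have h1 := kk_append_le p r (hdig1 p hWr.1) (hdig1 r hWr.2)
      have h2 := (hWz _ hr).2.2
      have h3 : Z ≤ 2 * C₀ * kk p * kk r := by
        calc Z ≤ C₀ * kk (p ++ r) := h2
          _ ≤ C₀ * (2 * (kk p * kk r)) := Nat.mul_le_mul_left _ h1
          _ = 2 * C₀ * kk p * kk r := by ring
      exact_mod_cast h3
    have hsep := sep0 a ha4 u u' (hdig u hWu.2) (hdig u' hWu'.2) hh
    rw [← wdg_prefix p u u'] at hsep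
    have hZ0 : (0 : ℤ) < Z := by exact_mod_cast hZ1
    -- upper bound of the wedge
    have hup : (K : ℤ) * |wdg (vec (p ++ u)) (vec (p ++ u'))| ≤ 36 * (Z : ℤ) ^ 2 := by
      have h1 := C6_wdg_le (vec (p ++ u)) (vec (p ++ u') - vec (p ++ u))
      rw [← N5_wdg_sub] at h1
      obtain ⟨-, -, e1, -, e2⟩ := vec_bounds (p ++ u) (hdig1 _ (hWz _ hu).1)
      have h2 : nm (vec (p ++ u)) ≤ 3 * (Z : ℤ) := by
        rw [e1]
        have : (kk (p ++ u) : ℤ) ≤ Z := by exact_mod_cast (hWz _ hu).2.1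
        linarith
      have h3 := (hdiv _ hu' _ hu).2.2
      have h4 : 0 ≤ nm (vec (p ++ u') - vec (p ++ u)) :=
        le_trans (abs_nonneg _) (le_max_left _ _)
      have hK0 : (0 : ℤ) ≤ K := by positivity
      calc (K : ℤ) * |wdg (vec (p ++ u)) (vec (p ++ u'))|
          ≤ K * (2 * (nm (vec (p ++ u)) * nm (vec (p ++ u') - vec (p ++ u)))) :=
            mul_le_mul_of_nonneg_left h1 hK0
        _ = 2 * nm (vec (p ++ u)) * (K * nm (vec (p ++ u') - vec (p ++ u))) := by ring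
        _ ≤ 2 * (3 * (Z : ℤ)) * (6 * Z) := by
            apply mul_le_mul (by linarith) h3 (mul_nonneg hK0 h4) (by positivity)
        _ = 36 * (Z : ℤ) ^ 2 := by ring
    have hKp : K ≤ 144 * C₀ ^ 2 * a ^ 4 * kk p ^ 2 := by
      have h1 := hlow u hu
      have h2 := hlow u' hu'
      have h3 : (Z : ℤ) * Z ≤ (2 * C₀ * kk p * kk u) * (2 * C₀ * kk p * kk u') :=
        mul_le_mul h1 h2 hZ0.le (by positivity)
      have h4 : (2 * (C₀ : ℤ) * kk p * kk u) * (2 * C₀ * kk p * kk u') =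
          4 * (C₀ : ℤ) ^ 2 * kk p ^ 2 * ((kk u : ℤ) * kk u') := by ring
      have h5 : 4 * (C₀ : ℤ) ^ 2 * kk p ^ 2 * ((kk u : ℤ) * kk u') ≤
          4 * (C₀ : ℤ) ^ 2 * kk p ^ 2 *
            ((a : ℤ) ^ 4 * |wdg (vec (p ++ u)) (vec (p ++ u'))|) :=
        mul_le_mul_of_nonneg_left hsep (by positivity)
      have h6 : (Z : ℤ) * Z ≤ 4 * (C₀ : ℤ) ^ 2 * kk p ^ 2 *
            ((a : ℤ) ^ 4 * |wdg (vec (p ++ u)) (vec (p ++ u'))|) := by linarith
      have h7 : (K : ℤ) * (Z * Z) ≤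
          (144 * (C₀ : ℤ) ^ 2 * a ^ 4 * kk p ^ 2) * (Z * Z) := by
        calc (K : ℤ) * (Z * Z) ≤ K * (4 * (C₀ : ℤ) ^ 2 * kk p ^ 2 *
            ((a : ℤ) ^ 4 * |wdg (vec (p ++ u)) (vec (p ++ u'))|)) :=
              mul_le_mul_of_nonneg_left h6 (by positivity)
          _ = 4 * (C₀ : ℤ) ^ 2 * kk p ^ 2 * (a : ℤ) ^ 4 *
                (K * |wdg (vec (p ++ u)) (vec (p ++ u'))|) := by ring
          _ ≤ 4 * (C₀ : ℤ) ^ 2 * kk p ^ 2 * (a : ℤ) ^ 4 * (36 * (Z : ℤ) ^ 2) :=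
              mul_le_mul_of_nonneg_left hup (by positivity)
          _ = (144 * (C₀ : ℤ) ^ 2 * a ^ 4 * kk p ^ 2) * (Z * Z) := by ring
      have h8 := le_of_mul_le_mul_right h7 (mul_pos hZ0 hZ0)
      exact_mod_cast h8
    -- the set of the rests
    have hcardU : T.card = (T.image (fun v => v.drop p.length)).card := by
      rw [Finset.card_image_of_injOn]
      intro v hv v' hv' hd
      obtain ⟨r, hr⟩ := hall v hv
      obtain ⟨r', hr'⟩ := hall v' hv'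
      have hd' : v.drop p.length = v'.drop p.length := hd
      rw [hr, hr', List.drop_left, List.drop_left] at hd'
      rw [hr, hr', hd']
    have hmemU : ∀ r ∈ T.image (fun v => v.drop p.length), p ++ r ∈ T := by
      intro r hr
      obtain ⟨v, hv, hvr⟩ := Finset.mem_image.1 hr
      obtain ⟨r', hr'⟩ := hall v hv
      have hvr' : v.drop p.length = r := hvr
      rw [hr', List.drop_left] at hvr'
      rw [← hvr', ← hr']
      exact hv
    rw [hcardU]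
    refine hC Z q K hq hK p hWu.1 hKp _ ?_ ?_
    · intro r hr
      have hr' := hmemU r hr
      exact ⟨((WA_append p r).1 (hWz _ hr').1).2, (hWz _ hr').2⟩
    · intro r hr r' hr'
      exact hdiv _ (hmemU r hr) _ (hmemU r' hr')
  · have h1 : (T.card : ℝ) ≤ 1 := by exact_mod_cast hcard
    nlinarith

end Pool.Agent.LibZT69
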