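import Pool.Agent.LibZT69.N5
import Pool.Agent.LibZT69.N2
import Pool.Agent.LibZT69.D5

set_option autoImplicit false

namespace Pool.Agent.LibZT69

open Pool.Agent.LibNZ69 Pool.Agent.LibZD69

private theorem N6_tri (x y z : ℤ × ℤ) : nm (x - z) ≤ nm (y - x) + nm (y - z) := by
  unfold nm
  have e1 : |(x - z).1| ≤ |(y - x).1| + |(y - z).1| := by
    have : (x - z).1 = (y - z).1 - (y - x).1 := by
      simp only [Prod.fst_sub]
      ring
    rw [this]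
    have := abs_sub (y - z).1 (y - x).1
    linarith
  have e2 : |(x - z).2| ≤ |(y - x).2| + |(y - z).2| := by
    have : (x - z).2 = (y - z).2 - (y - x).2 := by
      simp only [Prod.snd_sub]
      ring
    rw [this]
    have := abs_sub (y - z).2 (y - x).2
    linarith
  refine max_le (e1.trans ?_) (e2.trans ?_)
  · exact add_le_add (le_max_left _ _) (le_max_left _ _)
  · exact add_le_add (le_max_right _ _) (le_max_right _ _)

private theorem N6_box (x y : ℤ × ℤ) (B : ℤ) (h1 : 0 ≤ x.1) (h2 : x.1 ≤ B) (h3 : 0 ≤ x.2)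
    (h4 : x.2 ≤ B) (g1 : 0 ≤ y.1) (g2 : y.1 ≤ B) (g3 : 0 ≤ y.2) (g4 : y.2 ≤ B) :
    nm (x - y) ≤ B := by
  unfold nm
  refine max_le ?_ ?_
  · rw [Prod.fst_sub, abs_le]
    constructor <;> linarith
  · rw [Prod.snd_sub, abs_le]
    constructor <;> linarith

/-- Row N6 (MEDIUM; compare `energy` in D5.lean, finished). `LibNZ69.dual` with `R = {k}`, `V`, `W`, `u`,
box side, `H = M / (24 a L)` as in the proof of `energy`. `Z = M / (20 a L)`. The number of the pairs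
`(w, (k, w'))` with `close` is `∑_w #T_w`, `T_w = {w' ∈ Wz : close (k vec w) (k vec w')}`; for `w' ∈ T_w`
`close_diff` (`nm (vec w - vec w') ≤ 3 Z` by `vec_bounds`; `2 Q (H + 3 K₂ Z) ≤ 2 Q K₂ · (M/(24 a L) + 3 M/(20 a L))
≤ M` as `Q K₂ ≤ L`, `a ≥ 4`): `q ∣ vec w - vec w'`, `K₁ nm ≤ H ≤ Z`. So two elements of `T_w` differ by a vector
divisible by `q` with `max 1 K₁ * nm ≤ 6 Z`: `countQ` with `K = max 1 K₁`, `q ≥ Q`; `#Wz ≤ C Z^s` (`card_wP`). -/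
theorem energy1 {A : Finset ℕ} {a : ℕ} {s : ℝ} (hp : PB A a s) (C₀ : ℕ) (hC₀ : 1 ≤ C₀) :
    ∃ C : ℝ, 1 ≤ C ∧ ∀ M L Q K₁ K₂ : ℕ, 1 ≤ Q → 1 ≤ K₂ → 2 ≤ L → 24 * (a * L) ≤ M →
      Q * K₂ ≤ L → ∀ (k q : ℕ) (α : ℤ), k < M → Fz M Q K₁ K₂ k q α →
        ‖gh A a M L C₀ k‖ ^ 2 ≤
          C * (L : ℝ) ^ (2 + s) * (((M / (20 * (a * L)) : ℕ) : ℝ)) ^ s *
            (1 + ((((M / (20 * (a * L)) : ℕ) : ℝ)) / (Q * max 1 (K₁ : ℝ))) ^ s) := by
  classical
  obtain ⟨C₁, hC₁, h₁⟩ := card_Cut_le hp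
  obtain ⟨C₂, hC₂, h₂⟩ := countQ hp C₀ hC₀
  obtain ⟨C₃, hC₃, h₃⟩ := card_wP hp
  have ha4 : 4 ≤ a := hp.a4
  have hs0 : 0 ≤ s := by linarith [hp.s1]
  have ha1 : (1 : ℝ) ≤ a := by exact_mod_cast (by omega : 1 ≤ a)
  refine ⟨4 * 48 ^ 2 * (a : ℝ) ^ 2 * C₁ * (C₃ * C₂), ?_, ?_⟩
  · have e1 : (1 : ℝ) ≤ (a : ℝ) ^ 2 := one_le_pow₀ ha1
    have e2 : (1 : ℝ) ≤ 4 * 48 ^ 2 * (a : ℝ) ^ 2 := by nlinarith
    have e3 : (1 : ℝ) ≤ 4 * 48 ^ 2 * (a : ℝ) ^ 2 * C₁ := one_le_mul_of_one_le_of_one_le e2 hC₁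
    exact one_le_mul_of_one_le_of_one_le e3 (one_le_mul_of_one_le_of_one_le hC₃ hC₂)
  intro M L Q K₁ K₂ hQ hK₂ hL hM hQL k q α hkM hf
  have ha0 : 0 < a := by omega
  have haL : 0 < a * L := Nat.mul_pos ha0 (by omega)
  have hM0 : 0 < M := by omega
  have hA1 : ∀ x ∈ A, 1 ≤ x := fun x hx => (hp.dig x hx).1
  have hq1 : 1 ≤ q := hQ.trans hf.qlo
  set H : ℕ := M / (24 * (a * L)) with hH
  set Z : ℕ := M / (20 * (a * L)) with hZ
  have hH1 : 1 ≤ H := (Nat.one_le_div_iff (by omega)).2 hM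
  have hHM : H * (24 * (a * L)) ≤ M := by
    rw [hH]
    exact Nat.div_mul_le_self _ _
  have hZM : Z * (20 * (a * L)) ≤ M := by
    rw [hZ]
    exact Nat.div_mul_le_self _ _
  have hHZ : H ≤ Z := by
    rw [hZ, Nat.le_div_iff_mul_le (by omega)]
    exact (Nat.mul_le_mul_left H (by omega)).trans hHM
  have hMH : M ≤ 48 * (a * L) * H := by
    have h1 : M < 24 * (a * L) * (H + 1) := by
      have := Nat.lt_mul_div_succ M (show 0 < 24 * (a * L) by omega)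
      rwa [← hH] at this
    nlinarith
  have hMHR : (M : ℝ) / H ≤ 48 * ((a : ℝ) * L) := by
    have hH0 : (0 : ℝ) < H := by exact_mod_cast hH1
    rw [div_le_iff₀ hH0]
    exact_mod_cast hMH
  have hbig : 2 * Q * (H + 3 * (K₂ * Z)) ≤ M := by
    have x1 : 96 * (L * H) ≤ M := by
      calc 96 * (L * H) = H * (24 * (4 * L)) := by ring
        _ ≤ H * (24 * (a * L)) :=
          Nat.mul_le_mul_left _ (Nat.mul_le_mul_left _ (Nat.mul_le_mul_right _ ha4))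
        _ ≤ M := hHM
    have x2 : 80 * (L * Z) ≤ M := by
      calc 80 * (L * Z) = Z * (20 * (4 * L)) := by ring
        _ ≤ Z * (20 * (a * L)) :=
          Nat.mul_le_mul_left _ (Nat.mul_le_mul_left _ (Nat.mul_le_mul_right _ ha4))
        _ ≤ M := hZM
    have x3 : Q * H ≤ L * H := by
      refine Nat.mul_le_mul_right _ (le_trans ?_ hQL)
      calc Q = Q * 1 := by ring
        _ ≤ Q * K₂ := Nat.mul_le_mul_left _ hK₂
    have x4 : Q * K₂ * Z ≤ L * Z := Nat.mul_le_mul_right _ hQL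
    have x5 : 2 * Q * (H + 3 * (K₂ * Z)) = 2 * (Q * H) + 6 * (Q * K₂ * Z) := by ring
    rw [x5]
    omega
  have hdig : ∀ {w : List ℕ}, WA A w → ∀ x ∈ w, 1 ≤ x ∧ x < a :=
    fun hw x hx => hp.dig x (hw x hx)
  set V : Finset (ℤ × ℤ) := (Cut A a L).image vec with hV
  have hinj : Set.InjOn vec (Cut A a L : Set (List ℕ)) := by
    intro v hv v' hv' he
    rw [Finset.mem_coe] at hv hv'
    refine vec_inj a hp.a4 v v' (hdig (Cut_bounds hp.dig hv).1) (hdig (Cut_bounds hp.dig hv').1) ?_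
    rw [he]
    unfold wdg
    ring
  have hVb : ∀ v ∈ V, 0 ≤ v.1 ∧ v.1 ≤ ((3 * (a * L) : ℕ) : ℤ) ∧ 0 ≤ v.2 ∧
      v.2 ≤ ((3 * (a * L) : ℕ) : ℤ) := by
    intro v hv
    rw [hV, Finset.mem_image] at hv
    obtain ⟨u, hu, rfl⟩ := hv
    obtain ⟨b1, b2, b3, b4⟩ := Cut_bounds hp.dig hu
    obtain ⟨c1, c2, c3, c4, c5⟩ := vec_bounds u (fun x hx => (hdig b1 x hx).1)
    have h3 : (kk u : ℤ) ≤ (a : ℤ) * L := by exact_mod_cast b3
    push_cast
    refine ⟨by linarith, by linarith, by linarith, by linarith⟩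
  have hVc : (V.card : ℝ) ≤ C₁ * (L : ℝ) ^ s := by
    rw [hV, Finset.card_image_of_injOn hinj]
    exact h₁ L
  have hWb : ∀ w ∈ Wz A Z C₀, 0 ≤ (vec w).1 ∧ (vec w).1 ≤ 3 * (Z : ℤ) ∧ 0 ≤ (vec w).2 ∧
      (vec w).2 ≤ 3 * (Z : ℤ) := by
    intro w hw
    rw [mem_Wz hA1] at hw
    obtain ⟨h1, h2, h3, h4, h5⟩ := vec_bounds w (fun x hx => hA1 x (hw.1 x hx))
    have h6 : (kk w : ℤ) ≤ Z := by exact_mod_cast hw.2.1
    refine ⟨by linarith, by linarith, by linarith, by linarith⟩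
  set K : ℕ := max 1 K₁ with hK
  have hK1 : 1 ≤ K := le_max_left _ _
  have hKR : (max 1 (K₁ : ℝ)) = (K : ℝ) := by
    rw [hK]
    push_cast
    rfl
  rw [hKR]
  have hKR0 : (0 : ℝ) < K := by exact_mod_cast hK1
  have hQR0 : (0 : ℝ) < Q := by exact_mod_cast hQ
  set Y : ℝ := (1 + ((Z : ℝ) / (Q * K)) ^ s) with hY
  have hY0 : 0 ≤ Y := by
    rw [hY]
    positivity
  set X : ℝ := (Z : ℝ) ^ s with hX
  have hX0 : 0 ≤ X := by
    rw [hX]
    positivity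
  have hC₂0 : (0 : ℝ) ≤ C₂ := by linarith
  have hC₃0 : (0 : ℝ) ≤ C₃ := by linarith
  have hρ0 : 0 ≤ C₃ * X * (C₂ * Y) := by positivity
  -- the close words
  set T : List ℕ → Finset (List ℕ) := fun w =>
    (Wz A Z C₀).filter (fun w' => close M H ((k : ℤ) • vec w) ((k : ℤ) • vec w')) with hT
  have hTd : ∀ w ∈ Wz A Z C₀, ∀ w' ∈ T w, ((q : ℤ) ∣ (vec w - vec w').1 ∧
      (q : ℤ) ∣ (vec w - vec w').2) ∧ (K : ℤ) * nm (vec w - vec w') ≤ 3 * (Z : ℤ) := by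
    intro w hw w' hw'
    rw [hT, Finset.mem_filter] at hw'
    obtain ⟨a1, a2, a3, a4⟩ := hWb w hw
    obtain ⟨b1, b2, b3, b4⟩ := hWb w' hw'.1
    have hnm : nm (vec w - vec w') ≤ 3 * (Z : ℤ) :=
      N6_box (vec w) (vec w') _ a1 a2 a3 a4 b1 b2 b3 b4
    obtain ⟨c1, c2⟩ := close_diff hf hM0 hQ Z H (vec w) (vec w') hnm hw'.2 hbig
    refine ⟨c1, ?_⟩
    have hHZ' : (H : ℤ) ≤ Z := by exact_mod_cast hHZ
    have hZ0 : (0 : ℤ) ≤ Z := Int.natCast_nonneg _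
    rcases le_total 1 K₁ with h | h
    · have : K = K₁ := by rw [hK, max_eq_right h]
      rw [this]
      linarith
    · have : K = 1 := by rw [hK, max_eq_left h]
      rw [this, Nat.cast_one, one_mul]
      exact hnm
  have hTc : ∀ w ∈ Wz A Z C₀, ((T w).card : ℝ) ≤ C₂ * Y := by
    intro w hw
    have h4 := h₂ Z q K hq1 hK1 (T w) (Finset.filter_subset _ _) (by
      intro x hx y hy
      obtain ⟨⟨x1, x2⟩, x3⟩ := hTd w hw x hx
      obtain ⟨⟨y1, y2⟩, y3⟩ := hTd w hw y hy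
      refine ⟨?_, ?_, ?_⟩
      · have e : (vec x - vec y).1 = (vec w - vec y).1 - (vec w - vec x).1 := by
          simp only [Prod.fst_sub]
          ring
        rw [e]
        exact dvd_sub y1 x1
      · have e : (vec x - vec y).2 = (vec w - vec y).2 - (vec w - vec x).2 := by
          simp only [Prod.snd_sub]
          ring
        rw [e]
        exact dvd_sub y2 x2
      · have e := N6_tri (vec x) (vec w) (vec y)
        have hK0 : (0 : ℤ) ≤ K := Int.natCast_nonneg _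
        have e2 := mul_le_mul_of_nonneg_left e hK0
        rw [mul_add] at e2
        linarith)
    refine h4.trans (mul_le_mul_of_nonneg_left ?_ hC₂0)
    rw [hY]
    have hQq : (Q : ℝ) ≤ q := by exact_mod_cast hf.qlo
    have hle : (Z : ℝ) / (q * K) ≤ (Z : ℝ) / (Q * K) := by
      refine div_le_div_of_nonneg_left (Nat.cast_nonneg _) (by positivity) ?_
      exact mul_le_mul_of_nonneg_right hQq hKR0.le
    have hle2 := Real.rpow_le_rpow (by positivity) hle hs0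
    linarith
  have hcount : ∀ k' ∈ ({k} : Finset ℕ), (((Wz A Z C₀ ×ˢ (({k} : Finset ℕ) ×ˢ Wz A Z C₀)).filter
      (fun p => close M H ((k' : ℤ) • vec p.1) ((p.2.1 : ℤ) • vec p.2.2))).card : ℝ) ≤
        C₃ * X * (C₂ * Y) := by
    intro k' hk'
    rw [Finset.mem_singleton] at hk'
    subst hk'
    have hsub : ((Wz A Z C₀ ×ˢ (({k'} : Finset ℕ) ×ˢ Wz A Z C₀)).filter
        (fun p => close M H ((k' : ℤ) • vec p.1) ((p.2.1 : ℤ) • vec p.2.2))) ⊆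
        (Wz A Z C₀).biUnion (fun w => (T w).image (fun w' => (w, (k', w')))) := by
      rintro ⟨w, k'', w'⟩ hp'
      rw [Finset.mem_filter, Finset.mem_product, Finset.mem_product] at hp'
      obtain ⟨⟨hw, hk', hw'⟩, hcl⟩ := hp'
      simp only at hw hk' hw' hcl
      rw [Finset.mem_singleton] at hk'
      subst hk'
      rw [Finset.mem_biUnion]
      refine ⟨w, hw, ?_⟩
      rw [Finset.mem_image]
      refine ⟨w', ?_, rfl⟩
      rw [hT, Finset.mem_filter]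
      exact ⟨hw', hcl⟩
    have h5 : ((Wz A Z C₀ ×ˢ (({k'} : Finset ℕ) ×ˢ Wz A Z C₀)).filter
        (fun p => close M H ((k' : ℤ) • vec p.1) ((p.2.1 : ℤ) • vec p.2.2))).card ≤
        ∑ w ∈ Wz A Z C₀, (T w).card := by
      refine (Finset.card_le_card hsub).trans ?_
      refine Finset.card_biUnion_le.trans (Finset.sum_le_sum fun w _ => ?_)
      exact Finset.card_image_le
    have h6 : (((Wz A Z C₀ ×ˢ (({k'} : Finset ℕ) ×ˢ Wz A Z C₀)).filter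
        (fun p => close M H ((k' : ℤ) • vec p.1) ((p.2.1 : ℤ) • vec p.2.2))).card : ℝ) ≤
        ∑ w ∈ Wz A Z C₀, ((T w).card : ℝ) := by exact_mod_cast h5
    have hWc : ((Wz A Z C₀).card : ℝ) ≤ C₃ * X := by
      have h7 : Wz A Z C₀ ⊆ wP A Z := by
        intro w hw
        rw [mem_Wz hA1] at hw
        rw [mem_wP hA1]
        exact ⟨hw.1, hw.2.1⟩
      have h8 : ((Wz A Z C₀).card : ℝ) ≤ ((wP A Z).card : ℝ) := by
        exact_mod_cast Finset.card_le_card h7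
      exact h8.trans (h₃ Z)
    calc (((Wz A Z C₀ ×ˢ (({k'} : Finset ℕ) ×ˢ Wz A Z C₀)).filter
        (fun p => close M H ((k' : ℤ) • vec p.1) ((p.2.1 : ℤ) • vec p.2.2))).card : ℝ)
        ≤ ∑ w ∈ Wz A Z C₀, ((T w).card : ℝ) := h6
      _ ≤ ∑ w ∈ Wz A Z C₀, (C₂ * Y) := Finset.sum_le_sum fun w hw => hTc w hw
      _ = ((Wz A Z C₀).card : ℝ) * (C₂ * Y) := by rw [Finset.sum_const, nsmul_eq_mul]
      _ ≤ C₃ * X * (C₂ * Y) := mul_le_mul_of_nonneg_right hWc (by positivity)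
  have hdual := dual M H (3 * (a * L)) hH1 (by omega) (by
    calc 8 * (H * (3 * (a * L))) = H * (24 * (a * L)) := by ring
      _ ≤ M := hHM) (by omega) V hVb (Wz A Z C₀) vec {k} (C₃ * X * (C₂ * Y)) hρ0 hcount
  rw [Finset.sum_singleton] at hdual
  have hsum : gh A a M L C₀ (k : ℤ) =
      ∑ v ∈ V, ∑ w ∈ Wz A Z C₀, ch M ((k : ℤ) * dt v (vec w)) := by
    rw [hV, Finset.sum_image hinj]
    rfl
  have hL0 : (0 : ℝ) < L := by exact_mod_cast (by omega : 0 < L)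
  rw [hsum]
  refine hdual.trans ?_
  have hMH0 : 0 ≤ (M : ℝ) / H := by positivity
  have hC₁0 : 0 ≤ C₁ := by linarith
  have hLs : (L : ℝ) ^ (2 + s) = (L : ℝ) ^ 2 * (L : ℝ) ^ s := by
    rw [Real.rpow_add hL0]
    norm_num
  calc 4 * ((M : ℝ) / H) ^ 2 * V.card * (C₃ * X * (C₂ * Y))
      ≤ 4 * (48 * ((a : ℝ) * L)) ^ 2 * (C₁ * (L : ℝ) ^ s) * (C₃ * X * (C₂ * Y)) := by gcongr
    _ = 4 * 48 ^ 2 * (a : ℝ) ^ 2 * C₁ * (C₃ * C₂) * (L : ℝ) ^ (2 + s) * X * Y := by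
        rw [hLs]
        ring

end Pool.Agent.LibZT69
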