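import Pool.Agent.LibZT69.N6
import Pool.Agent.LibZT69.E7

set_option autoImplicit false

namespace Pool.Agent.LibZT69

open Pool.Agent.LibNZ69 Pool.Agent.LibZD69

private lemma N7_tel (X N : ℕ) (h : X ≤ N) :
    ∑ n ∈ Finset.Ioc X N, (1 / (1 + (n : ℝ))) ^ 2 ≤ 1 / (1 + (X : ℝ)) - 1 / (1 + (N : ℝ)) := by
  induction N, h using Nat.le_induction with
  | base => simp
  | succ n hn ih =>
    rw [Finset.sum_Ioc_succ_top hn]
    have h0 : (0 : ℝ) ≤ n := Nat.cast_nonneg n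
    have h1 : (1 / (1 + ((n + 1 : ℕ) : ℝ))) ^ 2 ≤ 1 / (1 + (n : ℝ)) - 1 / (1 + ((n + 1 : ℕ) : ℝ)) := by
      push_cast
      rw [div_sub_div _ _ (by positivity) (by positivity), div_pow,
        div_le_div_iff₀ (by positivity) (by positivity)]
      nlinarith
    linarith

private lemma N7_sum2 (T : Finset ℤ) (X : ℕ) (hT : ∀ m ∈ T, (X : ℤ) < |m|) :
    ∑ m ∈ T, (1 / (1 + |(m : ℝ)|)) ^ 2 ≤ 2 / (1 + (X : ℝ)) := by
  have h1 : ∑ m ∈ T, (1 / (1 + |(m : ℝ)|)) ^ 2 =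
      ∑ m ∈ T, (fun n : ℕ => (1 / (1 + (n : ℝ))) ^ 2) (Int.natAbs m) := by
    refine Finset.sum_congr rfl fun m _ => ?_
    simp only [Nat.cast_natAbs, Int.cast_abs]
  rw [h1, Finset.sum_comp (fun n : ℕ => (1 / (1 + (n : ℝ))) ^ 2) Int.natAbs]
  have h2 : ∀ n ∈ T.image Int.natAbs,
      (T.filter (fun m => Int.natAbs m = n)).card • (1 / (1 + (n : ℝ))) ^ 2 ≤
        2 * (1 / (1 + (n : ℝ))) ^ 2 := by
    intro n _
    rw [nsmul_eq_mul]
    refine mul_le_mul_of_nonneg_right ?_ (by positivity)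
    have h3 : T.filter (fun m => Int.natAbs m = n) ⊆ {(n : ℤ), -(n : ℤ)} := by
      intro m hm
      rw [Finset.mem_filter] at hm
      simp only [Finset.mem_insert, Finset.mem_singleton]
      omega
    have h4 := (Finset.card_le_card h3).trans Finset.card_le_two
    exact_mod_cast h4
  refine (Finset.sum_le_sum h2).trans ?_
  rw [← Finset.mul_sum]
  obtain ⟨N, hN⟩ : ∃ N : ℕ, X ≤ N ∧ ∀ m ∈ T, Int.natAbs m ≤ N := by
    refine ⟨max X (T.sup Int.natAbs), le_max_left _ _, fun m hm => ?_⟩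
    exact (Finset.le_sup (f := Int.natAbs) hm).trans (le_max_right _ _)
  have h5 : T.image Int.natAbs ⊆ Finset.Ioc X N := by
    intro n hn
    rw [Finset.mem_image] at hn
    obtain ⟨m, hm, rfl⟩ := hn
    rw [Finset.mem_Ioc]
    refine ⟨?_, hN.2 m hm⟩
    have h10 := hT m hm
    rw [Int.abs_eq_natAbs] at h10
    exact_mod_cast h10
  have h6 := Finset.sum_le_sum_of_subset_of_nonneg (f := fun n : ℕ => (1 / (1 + (n : ℝ))) ^ 2) h5
    (fun n _ _ => by positivity)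
  have h7 := N7_tel X N hN.1
  have h8 : (0 : ℝ) ≤ 1 / (1 + (N : ℝ)) := by positivity
  have h9 : (2 : ℝ) / (1 + (X : ℝ)) = 2 * (1 / (1 + (X : ℝ))) := by ring
  rw [h9]
  linarith

private lemma N7_sum (r : ℕ) (hr : 1 ≤ r) (T : Finset ℤ) (X : ℕ) (hT : ∀ m ∈ T, (X : ℤ) < |m|) :
    ∑ m ∈ T, (1 / (1 + |(m : ℝ)|)) ^ (r + 1) ≤ 2 * (1 / (1 + (X : ℝ))) ^ r := by
  have h1 : ∀ m ∈ T, (1 / (1 + |(m : ℝ)|)) ^ (r + 1) ≤
      (1 / (1 + (X : ℝ))) ^ (r - 1) * (1 / (1 + |(m : ℝ)|)) ^ 2 := by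
    intro m hm
    have h2 : r + 1 = (r - 1) + 2 := by omega
    rw [h2, pow_add]
    refine mul_le_mul_of_nonneg_right ?_ (by positivity)
    refine pow_le_pow_left₀ (by positivity) ?_ _
    refine one_div_le_one_div_of_le (by positivity) ?_
    have h3 : ((X : ℤ) : ℝ) < ((|m| : ℤ) : ℝ) := by exact_mod_cast hT m hm
    rw [Int.cast_abs] at h3
    have h4 : ((X : ℤ) : ℝ) = (X : ℝ) := by norm_cast
    linarith
  refine (Finset.sum_le_sum h1).trans ?_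
  rw [← Finset.mul_sum]
  refine (mul_le_mul_of_nonneg_left (N7_sum2 T X hT) (by positivity)).trans ?_
  have h5 : r = (r - 1) + 1 := by omega
  have h6 : (1 / (1 + (X : ℝ))) ^ r = (1 / (1 + (X : ℝ))) ^ (r - 1) * (1 / (1 + (X : ℝ))) := by
    conv_lhs => rw [h5]
    rw [pow_succ]
  rw [h6]
  apply le_of_eq
  ring

private lemma N7_tot (r : ℕ) (hr : 1 ≤ r) (T : Finset ℤ) :
    ∑ m ∈ T, (1 / (1 + |(m : ℝ)|)) ^ (r + 1) ≤ 3 := by
  classical
  have h1 := Finset.sum_filter_add_sum_filter_not T (fun m : ℤ => m = 0)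
    (fun m : ℤ => (1 / (1 + |(m : ℝ)|)) ^ (r + 1))
  have h2 : ∑ m ∈ T.filter (fun m : ℤ => ¬ m = 0), (1 / (1 + |(m : ℝ)|)) ^ (r + 1) ≤ 2 := by
    have h3 := N7_sum r hr (T.filter (fun m : ℤ => ¬ m = 0)) 0 (by
      intro m hm
      rw [Finset.mem_filter] at hm
      have := abs_pos.2 hm.2
      simpa using this)
    simpa using h3
  have h4 : ∑ m ∈ T.filter (fun m : ℤ => m = 0), (1 / (1 + |(m : ℝ)|)) ^ (r + 1) ≤ 1 := by
    have h5 : T.filter (fun m : ℤ => m = 0) ⊆ {0} := by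
      intro m hm
      rw [Finset.mem_filter] at hm
      simpa using hm.2
    have h6 := Finset.sum_le_sum_of_subset_of_nonneg
      (f := fun m : ℤ => (1 / (1 + |(m : ℝ)|)) ^ (r + 1)) h5 (fun m _ _ => by positivity)
    simpa using h6
  linarith

private lemma N7_S {A : Finset ℕ} {a : ℕ} {s : ℝ} (hp : PB A a s) (C₀ : ℕ) (C₂ : ℝ)
    (hC₂ : 1 ≤ C₂)
    (h₂ : ∀ M L Q K₁ K₂ : ℕ, 1 ≤ Q → 1 ≤ K₂ → 2 ≤ L → 24 * (a * L) ≤ M →
      Q * K₂ ≤ L → ∀ (k q : ℕ) (α : ℤ), k < M → Fz M Q K₁ K₂ k q α →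
        ‖gh A a M L C₀ k‖ ^ 2 ≤
          C₂ * (L : ℝ) ^ (2 + s) * (((M / (20 * (a * L)) : ℕ) : ℝ)) ^ s *
            (1 + ((((M / (20 * (a * L)) : ℕ) : ℝ)) / (Q * max 1 (K₁ : ℝ))) ^ s))
    (M L i K₁ K₂ m₁ : ℕ) (hM : 0 < M) (hK : 1 ≤ K₂) (hL : 2 ≤ L) (hLM : 24 * (a * L) ≤ M)
    (hc : 2 ^ i * (K₂ + m₁) ≤ L) (k q : ℕ) (α : ℤ) (hk : k < M)
    (hf : Fz M (2 ^ i) K₁ K₂ k q α) (m : ℤ)
    (hm : |m| ≤ m₁) (D : ℝ) (hD0 : 0 < D)
    (hD : D ≤ (2 : ℝ) ^ i * max 1 (((K₁ - m₁ : ℕ) : ℝ))) :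
    ‖gh A a M L C₀ ((k : ℤ) - m)‖ ^ 2 ≤
      C₂ * ((L : ℝ) ^ (2 + s) * ((M : ℝ) / L) ^ s * (1 + ((M : ℝ) / L / D) ^ s)) := by
  classical
  obtain ⟨R', qf', af', hR', hf', hG⟩ := shift M (2 ^ i) K₁ K₂ m₁ hM {k}
    (fun x hx => by rw [Finset.mem_singleton] at hx; omega) (fun _ => q) (fun _ => α)
    (fun x hx => by rw [Finset.mem_singleton] at hx; subst hx; exact hf) m hm
  have h0 := hG (fun _ => 1) (fun _ => rfl)
  simp only [Finset.sum_const, Finset.card_singleton, nsmul_eq_mul, Nat.cast_one, mul_one] at h0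
  have h0' : R'.card = 1 := by exact_mod_cast h0.symm
  obtain ⟨k', hk'⟩ := Finset.card_eq_one.1 h0'
  have h1 := hG (fun x => ‖gh A a M L C₀ x‖ ^ 2) (fun x => by
    simp only [gh_periodic A a M L C₀ hM x])
  rw [hk', Finset.sum_singleton, Finset.sum_singleton] at h1
  rw [h1]
  have hmem : k' ∈ R' := by rw [hk']; exact Finset.mem_singleton_self _
  have h3 := h₂ M L (2 ^ i) (K₁ - m₁) (K₂ + m₁) Nat.one_le_two_pow (by omega) hL hLM hc k'
    (qf' k') (af' k') (hR' k' hmem) (hf' k' hmem)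
  refine h3.trans ?_
  have hs0 : 0 ≤ s := by linarith [hp.s1]
  have ha : 4 ≤ a := hp.a4
  have hLr : (0 : ℝ) < L := by
    have : 0 < L := by omega
    exact_mod_cast this
  have har : (1 : ℝ) ≤ 20 * (a : ℝ) := by
    have : (4 : ℝ) ≤ a := by exact_mod_cast ha
    linarith
  have hZ : ((M / (20 * (a * L)) : ℕ) : ℝ) ≤ (M : ℝ) / L := by
    refine Nat.cast_div_le.trans ?_
    push_cast
    refine div_le_div_of_nonneg_left (Nat.cast_nonneg M) hLr ?_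
    nlinarith
  have hZ0 : (0 : ℝ) ≤ ((M / (20 * (a * L)) : ℕ) : ℝ) := Nat.cast_nonneg _
  push_cast at hZ hZ0 ⊢
  rw [mul_assoc, mul_assoc, mul_assoc]
  refine mul_le_mul_of_nonneg_left ?_ (by linarith)
  refine mul_le_mul_of_nonneg_left ?_ (Real.rpow_nonneg hLr.le _)
  refine mul_le_mul ?_ ?_ ?_ ?_
  · exact Real.rpow_le_rpow hZ0 hZ hs0
  · refine add_le_add le_rfl (Real.rpow_le_rpow (by positivity) ?_ hs0)
    exact div_le_div₀ (by positivity) hZ hD0 hD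
  · refine add_nonneg zero_le_one (Real.rpow_nonneg (by positivity) _)
  · exact Real.rpow_nonneg (by positivity) _

private lemma N7_cond (i j d K L : ℕ) (hL : L = 2 ^ (2 + i + j + d))
    (hK : K ≤ 2 ^ (j + d + 1)) : 2 ^ i * K ≤ L := by
  calc 2 ^ i * K ≤ 2 ^ i * 2 ^ (j + d + 1) := Nat.mul_le_mul_left _ hK
    _ = 2 ^ (i + (j + d + 1)) := by rw [← pow_add]
    _ ≤ 2 ^ (2 + i + j + d) := Nat.pow_le_pow_right (by norm_num) (by omega)
    _ = L := hL.symm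

/-- Row N7 (MEDIUM; compare `combine` in E7.lean, finished, the same proof with `energy1` for one
frequency in place of `energy`; the private lemmas on `∑ (1 + |m|)^(-(r+1))` can be copied). `M = MM a r b`,
`Q = 2^i`, `K₁ = 2^j` (`0` if `j = 0`), `K₂ = 2^(j+1)` (`fz_of_fr`), `C₀ = 5 a (r+3)`. `transfer`; split the
sum over `m` (for a single `k`: `shift` with `R = {k}`, `G x = ‖gh x‖²`, `gh_periodic`):
(1) `|m| ≤ m₁ = 2^j / 2`: `energy1` with `K₁ - m₁`, `Q max 1 (K₁ - m₁) ≥ 2^(i+j) / 2`, `K₂ + m₁ ≤ 2^(j+d+1)`;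
(2) `2^j / 2 < |m| ≤ 2^(j+d)`: `energy1` with `K₁ = 0`, `K₂ + 2^(j+d) ≤ 2^(j+d+1)`, total weight `≤ C 2^(-r j)`;
(3) `|m| > 2^(j+d)`: `gh_le`, weight `≤ C 2^(-r (j+d))`. Here `Q K₂ ≤ 2^i 2^(j+d+1) ≤ L`. -/
theorem combine1 {A : Finset ℕ} {a : ℕ} {s : ℝ} (hp : PB A a s) (r : ℕ) (hr : 1 ≤ r) :
    ∃ C : ℝ, 1 ≤ C ∧ ∀ b i j d M L : ℕ, M = MM a r b → L = 2 ^ (2 + i + j + d) →
      1 ≤ b → 1 ≤ d → 3 * L ≤ b → 24 * (a * L) ≤ M → ∀ (k q : ℕ) (α : ℤ), k < M →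
      Fr M 2 i j k q α →
        ‖fh A a r b k‖ ^ 2 ≤
          C * ((L : ℝ) ^ (2 + s) * ((M : ℝ) / L) ^ s * (1 + ((M : ℝ) / L / 2 ^ (i + j)) ^ s) +
            (1 / 2 : ℝ) ^ (r * j) * ((L : ℝ) ^ (2 + s) * ((M : ℝ) / L) ^ s *
              (1 + ((M : ℝ) / L / 2 ^ i) ^ s)) +
            (1 / 2 : ℝ) ^ (r * (j + d)) * (M : ℝ) ^ (2 * s)) := by
  obtain ⟨C₁, hC₁, h₁⟩ := transfer hp r hr
  have ha : 4 ≤ a := hp.a4
  obtain ⟨C₂, hC₂, h₂⟩ := energy1 hp (5 * a * (r + 3)) (by nlinarith)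
  obtain ⟨C₃, hC₃, h₃⟩ := gh_le hp
  have hCt : (1 : ℝ) ≤ 12 * C₂ + 2 * 2 ^ r * C₂ + 2 * C₃ ^ 2 := by
    have : (0 : ℝ) ≤ 2 * 2 ^ r * C₂ := by positivity
    nlinarith
  refine ⟨C₁ * (12 * C₂ + 2 * 2 ^ r * C₂ + 2 * C₃ ^ 2), by nlinarith, ?_⟩
  intro b i j d M L hM hL hb hd hLb hLM k q α hk hfr
  have hs0 : 0 ≤ s := by linarith [hp.s1]
  have hL4 : 4 ≤ L := by
    rw [hL]
    calc 4 = 2 ^ 2 := by norm_num
      _ ≤ 2 ^ (2 + i + j + d) := Nat.pow_le_pow_right (by norm_num) (by omega)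
  have hMpos : 2 ≤ M := by
    have h1 : 1 * 4 ≤ a * L := Nat.mul_le_mul (by omega) hL4
    omega
  have hM0 : 0 < M := by omega
  have hMr : (0 : ℝ) < M := by exact_mod_cast hM0
  have hLr : (0 : ℝ) < L := by
    have : 0 < L := by omega
    exact_mod_cast this
  have hfz : Fz M (2 ^ i) (if j = 0 then 0 else 2 ^ j) (2 ^ (j + 1)) k q α := fz_of_fr hfr
  -- the three bounds
  set X : ℝ := (L : ℝ) ^ (2 + s) * ((M : ℝ) / L) ^ s with hX
  have hX0 : 0 ≤ X := by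
    rw [hX]
    exact mul_nonneg (Real.rpow_nonneg hLr.le _) (Real.rpow_nonneg (by positivity) _)
  set u : ℝ := ((M : ℝ) / L / 2 ^ (i + j)) ^ s with hu
  set v : ℝ := ((M : ℝ) / L / 2 ^ i) ^ s with hv
  have hu0 : 0 ≤ u := Real.rpow_nonneg (by positivity) _
  have hv0 : 0 ≤ v := Real.rpow_nonneg (by positivity) _
  have hB1 : ∀ m : ℤ, |m| ≤ ((2 ^ j / 2 : ℕ) : ℤ) →
      ‖gh A a M L (5 * a * (r + 3)) ((k : ℤ) - m)‖ ^ 2 ≤ 4 * C₂ * (X * (1 + u)) := by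
    intro m hm
    have hj2 : 2 ^ (j + 1) + 2 ^ j / 2 ≤ 2 ^ (j + d + 1) := by
      have h1 : 2 ^ (j + 2) ≤ 2 ^ (j + d + 1) := Nat.pow_le_pow_right (by norm_num) (by omega)
      have h2 : 2 ^ (j + 1) = 2 * 2 ^ j := by ring
      have h3 : 2 ^ (j + 2) = 4 * 2 ^ j := by ring
      omega
    have h1 := N7_S hp (5 * a * (r + 3)) C₂ hC₂ h₂ M L i (if j = 0 then 0 else 2 ^ j) (2 ^ (j + 1))
      (2 ^ j / 2) hM0 Nat.one_le_two_pow (by omega) hLM (N7_cond i j d _ L hL hj2) k q α hk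
      hfz m hm ((2 : ℝ) ^ (i + j) / 2) (by positivity) (by
        rw [pow_add, mul_div_assoc]
        refine mul_le_mul_of_nonneg_left ?_ (by positivity)
        by_cases hj : j = 0
        · subst hj
          refine le_trans ?_ (le_max_left _ _)
          norm_num
        · refine le_trans ?_ (le_max_right _ _)
          rw [if_neg hj]
          have h5 : 2 ^ j - 2 ^ j / 2 = 2 ^ (j - 1) := by
            have h6 : 2 ^ j = 2 * 2 ^ (j - 1) := by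
              rw [← pow_succ']
              congr 1
              omega
            omega
          rw [h5]
          have h7 : (2 : ℝ) ^ j = 2 * 2 ^ (j - 1) := by
            rw [← pow_succ']
            congr 1
            omega
          rw [h7]
          push_cast
          apply le_of_eq
          ring)
    refine h1.trans ?_
    rw [← hX]
    have h2 : ((M : ℝ) / L / ((2 : ℝ) ^ (i + j) / 2)) ^ s ≤ 4 * u := by
      have h3 : (M : ℝ) / L / ((2 : ℝ) ^ (i + j) / 2) =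
          2 * ((M : ℝ) / L / 2 ^ (i + j)) := by
        field_simp
      rw [h3, Real.mul_rpow (by norm_num) (by positivity), ← hu]
      refine mul_le_mul_of_nonneg_right ?_ hu0
      calc (2 : ℝ) ^ s ≤ 2 ^ (2 : ℝ) :=
            Real.rpow_le_rpow_of_exponent_le (by norm_num) hp.s2
        _ = 4 := by norm_num
    have h4 : X * (1 + ((M : ℝ) / L / ((2 : ℝ) ^ (i + j) / 2)) ^ s) ≤
        4 * (X * (1 + u)) := by
      calc X * (1 + ((M : ℝ) / L / ((2 : ℝ) ^ (i + j) / 2)) ^ s)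
          ≤ X * (4 * (1 + u)) := mul_le_mul_of_nonneg_left (by linarith) hX0
        _ = 4 * (X * (1 + u)) := by ring
    calc C₂ * (X * (1 + ((M : ℝ) / L / ((2 : ℝ) ^ (i + j) / 2)) ^ s))
        ≤ C₂ * (4 * (X * (1 + u))) := mul_le_mul_of_nonneg_left h4 (by linarith)
      _ = 4 * C₂ * (X * (1 + u)) := by ring
  have hB2 : ∀ m : ℤ, |m| ≤ ((2 ^ (j + d) : ℕ) : ℤ) →
      ‖gh A a M L (5 * a * (r + 3)) ((k : ℤ) - m)‖ ^ 2 ≤ C₂ * (X * (1 + v)) := by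
    intro m hm
    have hj2 : 2 ^ (j + 1) + 2 ^ (j + d) ≤ 2 ^ (j + d + 1) := by
      have h1 : 2 ^ (j + 1) ≤ 2 ^ (j + d) := Nat.pow_le_pow_right (by norm_num) (by omega)
      have h2 : 2 ^ (j + d + 1) = 2 * 2 ^ (j + d) := by ring
      omega
    have h1 := N7_S hp (5 * a * (r + 3)) C₂ hC₂ h₂ M L i (if j = 0 then 0 else 2 ^ j) (2 ^ (j + 1))
      (2 ^ (j + d)) hM0 Nat.one_le_two_pow (by omega) hLM (N7_cond i j d _ L hL hj2) k q α hk
      hfz m hm ((2 : ℝ) ^ i) (by positivity) (by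
        refine le_mul_of_one_le_right (by positivity) (le_max_left _ _))
    exact h1
  have hB3 : ∀ m : ℤ,
      ‖gh A a M L (5 * a * (r + 3)) ((k : ℤ) - m)‖ ^ 2 ≤ C₃ ^ 2 * (M : ℝ) ^ (2 * s) := by
    intro m
    have h2 := h₃ M L (5 * a * (r + 3)) ((k : ℤ) - m) (by omega)
    have h3 := pow_le_pow_left₀ (norm_nonneg _) h2 2
    refine h3.trans (le_of_eq ?_)
    rw [mul_pow]
    congr 1
    rw [mul_comm 2 s, Real.rpow_mul hMr.le]
    norm_cast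
  -- the sum
  have hT : ‖fh A a r b k‖ ^ 2 ≤ C₁ * ∑ m ∈ sym a r b, (1 / (1 + |(m : ℝ)|)) ^ (r + 1) *
      ‖gh A a M L (5 * a * (r + 3)) ((k : ℤ) - m)‖ ^ 2 := by
    have h2 := h₁ b L hb (by omega) hLb (k : ℤ)
    rw [← hM] at h2
    exact h2
  have hW : 0 ≤ (M : ℝ) ^ (2 * s) := Real.rpow_nonneg hMr.le _
  generalize hWd : (M : ℝ) ^ (2 * s) = W at hB3 hW
  have hI : 0 ≤ X * (1 + u) := mul_nonneg hX0 (by linarith)
  have hII : 0 ≤ X * (1 + v) := mul_nonneg hX0 (by linarith)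
  generalize X * (1 + u) = I at hB1 hI
  generalize X * (1 + v) = J at hB2 hII
  clear hWd
  refine hT.trans ?_
  rw [mul_assoc C₁]
  refine mul_le_mul_of_nonneg_left ?_ (by linarith)
  have hP : ∀ m ∈ sym a r b, (1 / (1 + |(m : ℝ)|)) ^ (r + 1) *
      ‖gh A a M L (5 * a * (r + 3)) ((k : ℤ) - m)‖ ^ 2 ≤
      (1 / (1 + |(m : ℝ)|)) ^ (r + 1) * (4 * C₂ * I) +
      (if ((2 ^ j / 2 : ℕ) : ℤ) < |m| then (1 / (1 + |(m : ℝ)|)) ^ (r + 1) * (C₂ * J) else 0) +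
      (if ((2 ^ (j + d) : ℕ) : ℤ) < |m| then
        (1 / (1 + |(m : ℝ)|)) ^ (r + 1) * (C₃ ^ 2 * W) else 0) := by
    intro m _
    have hw : (0 : ℝ) ≤ (1 / (1 + |(m : ℝ)|)) ^ (r + 1) := by positivity
    generalize (1 / (1 + |(m : ℝ)|)) ^ (r + 1) = w at hw
    have e1 : 0 ≤ w * (4 * C₂ * I) := by positivity
    have e2 : 0 ≤ w * (C₂ * J) := by positivity
    have e3 : 0 ≤ w * (C₃ ^ 2 * W) := by positivity
    by_cases c1 : ((2 ^ j / 2 : ℕ) : ℤ) < |m|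
    · by_cases c2 : ((2 ^ (j + d) : ℕ) : ℤ) < |m|
      · rw [if_pos c1, if_pos c2]
        have := mul_le_mul_of_nonneg_left (hB3 m) hw
        linarith
      · rw [if_pos c1, if_neg c2]
        have := mul_le_mul_of_nonneg_left (hB2 m (not_lt.1 c2)) hw
        linarith
    · have h7 := mul_le_mul_of_nonneg_left (hB1 m (not_lt.1 c1)) hw
      rw [if_neg c1]
      have h8 : 0 ≤ (if ((2 ^ (j + d) : ℕ) : ℤ) < |m| then w * (C₃ ^ 2 * W) else 0) := by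
        split_ifs
        · exact e3
        · exact le_rfl
      linarith
  refine (Finset.sum_le_sum hP).trans ?_
  rw [Finset.sum_add_distrib, Finset.sum_add_distrib, ← Finset.sum_filter, ← Finset.sum_filter,
    ← Finset.sum_mul, ← Finset.sum_mul, ← Finset.sum_mul]
  have t1 := N7_tot r hr (sym a r b)
  have t2 := N7_sum r hr ((sym a r b).filter (fun m => ((2 ^ j / 2 : ℕ) : ℤ) < |m|)) (2 ^ j / 2)
    (fun m hm => (Finset.mem_filter.1 hm).2)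
  have t3 := N7_sum r hr ((sym a r b).filter (fun m => ((2 ^ (j + d) : ℕ) : ℤ) < |m|))
    (2 ^ (j + d)) (fun m hm => (Finset.mem_filter.1 hm).2)
  have t2' : (1 / (1 + ((2 ^ j / 2 : ℕ) : ℝ))) ^ r ≤ 2 ^ r * (1 / 2 : ℝ) ^ (r * j) := by
    rw [mul_comm r j, pow_mul, ← mul_pow]
    refine pow_le_pow_left₀ (by positivity) ?_ r
    have h1 : 2 ^ j ≤ 2 * (1 + 2 ^ j / 2) := by omega
    have h2 : (2 : ℝ) ^ j ≤ 2 * (1 + ((2 ^ j / 2 : ℕ) : ℝ)) := by exact_mod_cast h1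
    rw [div_pow, one_pow, mul_one_div, div_le_div_iff₀ (by positivity) (by positivity)]
    linarith
  have t3' : (1 / (1 + ((2 ^ (j + d) : ℕ) : ℝ))) ^ r ≤ (1 / 2 : ℝ) ^ (r * (j + d)) := by
    rw [mul_comm r (j + d), pow_mul]
    refine pow_le_pow_left₀ (by positivity) ?_ r
    rw [div_pow, one_pow]
    refine one_div_le_one_div_of_le (by positivity) ?_
    push_cast
    linarith
  have u1 := mul_le_mul_of_nonneg_right t1 (show 0 ≤ 4 * C₂ * I by positivity)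
  have u2 := mul_le_mul_of_nonneg_right (t2.trans (mul_le_mul_of_nonneg_left t2' zero_le_two))
    (show 0 ≤ C₂ * J by positivity)
  have u3 := mul_le_mul_of_nonneg_right (t3.trans (mul_le_mul_of_nonneg_left t3' zero_le_two))
    (show 0 ≤ C₃ ^ 2 * W by positivity)
  refine (add_le_add (add_le_add u1 u2) u3).trans ?_
  have p1 : 0 ≤ (1 / 2 : ℝ) ^ (r * j) := by positivity
  have p2 : 0 ≤ (1 / 2 : ℝ) ^ (r * (j + d)) := by positivity
  have p3 : (0 : ℝ) ≤ 2 ^ r := by positivity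
  generalize (1 / 2 : ℝ) ^ (r * j) = x at p1
  generalize (1 / 2 : ℝ) ^ (r * (j + d)) = β at p2
  generalize (2 : ℝ) ^ r = γ at p3
  have q1 : 0 ≤ C₂ := by linarith
  have q2 : 0 ≤ C₃ ^ 2 := by positivity
  have w1 : 0 ≤ C₂ * (x * J) := by positivity
  have w2 : 0 ≤ C₂ * (β * W) := by positivity
  have w3 : 0 ≤ γ * C₂ * I := by positivity
  have w4 : 0 ≤ γ * C₂ * (β * W) := by positivity
  have w5 : 0 ≤ C₃ ^ 2 * I := by positivity
  have w6 : 0 ≤ C₃ ^ 2 * (x * J) := by positivity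
  have e0 : (12 * C₂ + 2 * γ * C₂ + 2 * C₃ ^ 2) * (I + x * J + β * W) =
      (3 * (4 * C₂ * I) + 2 * (γ * x) * (C₂ * J) + 2 * β * (C₃ ^ 2 * W)) +
      (12 * (C₂ * (x * J)) + 12 * (C₂ * (β * W)) + 2 * (γ * C₂ * I) +
        2 * (γ * C₂ * (β * W)) + 2 * (C₃ ^ 2 * I) + 2 * (C₃ ^ 2 * (x * J))) := by
    ring
  rw [e0]
  linarith

end Pool.Agent.LibZT69
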