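import Pool.Agent.LibZT69.Defs
import Pool.Agent.LibZD69.F1

set_option autoImplicit false

namespace Pool.Agent.LibZT69

open Pool.Agent.LibNZ69 Pool.Agent.LibZD69

/-- Row Q2a (SHORT). Induction on `k`; `∑_ξ ch M (ξ y) = M [M ∣ y]` (`LibNZ69`, file F0: `ch_orth`). Step:
`∑_x g x (1/M) ∑_ξ (tr ξ)^k ch M (-(ξ (n - x))) = (1/M) ∑_ξ (tr ξ)^k ch M (-(ξ n)) ∑_x g x ch M (ξ x)`. -/
theorem cv_fourier (M : ℕ) (hM : 0 < M) (g : ℤ → ℝ) (k : ℕ) (n : ℤ) :
    (cv M g k n : ℂ) = (1 / (M : ℂ)) *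
      ∑ ξ ∈ Finset.range M, tr M g ξ ^ k * ch M (-((ξ : ℤ) * n)) := by
  have hMC : (M : ℂ) ≠ 0 := by exact_mod_cast hM.ne'
  induction k generalizing n with
  | zero =>
    have h1 : ∑ ξ ∈ Finset.range M, tr M g ξ ^ 0 * ch M (-((ξ : ℤ) * n)) =
        ∑ ξ ∈ Finset.range M, ch M (ξ * (-n)) := by
      refine Finset.sum_congr rfl fun ξ _ => ?_
      rw [pow_zero, one_mul, mul_neg]
    rw [h1, ch_orth M hM, cv]
    by_cases h : (M : ℤ) ∣ n
    · rw [if_pos h, if_pos (by rwa [dvd_neg])]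
      simp
      field_simp
    · rw [if_neg h, if_neg (by rwa [dvd_neg])]
      simp
  | succ k ih =>
    rw [cv]
    push_cast
    have h2 : ∀ x ∈ Finset.range M, (g x : ℂ) * (cv M g k (n - x) : ℂ) =
        (1 / (M : ℂ)) * ∑ ξ ∈ Finset.range M, tr M g ξ ^ k * ch M (-((ξ : ℤ) * n)) *
          ((g x : ℂ) * ch M (ξ * x)) := by
      intro x _
      rw [ih, Finset.mul_sum, Finset.mul_sum, Finset.mul_sum]
      refine Finset.sum_congr rfl fun ξ _ => ?_
      have h3 : ch M (-((ξ : ℤ) * (n - x))) = ch M (-((ξ : ℤ) * n)) * ch M (ξ * x) := by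
        rw [← ch_add]
        congr 1
        ring
      rw [h3]
      ring
    rw [Finset.sum_congr rfl h2, ← Finset.mul_sum, Finset.sum_comm]
    congr 1
    refine Finset.sum_congr rfl fun ξ _ => ?_
    rw [← Finset.mul_sum, pow_succ]
    unfold tr
    ring

private theorem Q2_diff (M : ℕ) (hM : 0 < M) (g g' : ℤ → ℝ) (k : ℕ) (n : ℤ) :
    ((cv M g k n - cv M g' k n : ℝ) : ℂ) = (1 / (M : ℂ)) *
      ∑ ξ ∈ Finset.range M, (tr M g ξ ^ k - tr M g' ξ ^ k) * ch M (-((ξ : ℤ) * n)) := by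
  push_cast
  rw [cv_fourier M hM, cv_fourier M hM, ← mul_sub, ← Finset.sum_sub_distrib]
  congr 1
  refine Finset.sum_congr rfl fun ξ _ => ?_
  ring

/-- Row Q2b (SHORT). -/
theorem cv_diff (M : ℕ) (hM : 0 < M) (g g' : ℤ → ℝ) (k : ℕ) (n : ℤ) :
    |cv M g k n - cv M g' k n| ≤ (1 / (M : ℝ)) *
      ∑ ξ ∈ Finset.range M, ‖tr M g ξ ^ k - tr M g' ξ ^ k‖ := by
  have h1 := congrArg (fun z : ℂ => ‖z‖) (Q2_diff M hM g g' k n)
  simp only [Complex.norm_real, Real.norm_eq_abs] at h1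
  rw [h1, norm_mul, norm_div, norm_one, Complex.norm_natCast]
  refine mul_le_mul_of_nonneg_left ((norm_sum_le _ _).trans ?_) (by positivity)
  refine Finset.sum_le_sum fun ξ _ => ?_
  rw [norm_mul, norm_ch, mul_one]

private theorem Q2_conj (M : ℕ) (x : ℤ) : (starRingEnd ℂ) (ch M x) = ch M (-x) := by
  unfold ch
  rw [← Complex.exp_conj]
  congr 1
  simp only [map_div₀, map_mul, Complex.conj_ofReal, Complex.conj_I, Complex.conj_natCast,
    map_intCast, map_ofNat]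
  push_cast
  ring

private theorem Q2_pars (M : ℕ) (hM : 0 < M) (c : ℕ → ℂ) :
    ∑ x ∈ Finset.range M, ‖∑ k ∈ Finset.range M, c k * ch M (-((k : ℤ) * x))‖ ^ 2 =
      (M : ℝ) * ∑ k ∈ Finset.range M, ‖c k‖ ^ 2 := by
  have key : ∑ x ∈ Finset.range M,
      ((∑ k ∈ Finset.range M, c k * ch M (-((k : ℤ) * x))) *
        (starRingEnd ℂ) (∑ k ∈ Finset.range M, c k * ch M (-((k : ℤ) * x)))) =
      (M : ℂ) * ∑ k ∈ Finset.range M, c k * (starRingEnd ℂ) (c k) := by
    have h1 : ∀ x ∈ Finset.range M,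
        ((∑ k ∈ Finset.range M, c k * ch M (-((k : ℤ) * x))) *
          (starRingEnd ℂ) (∑ k ∈ Finset.range M, c k * ch M (-((k : ℤ) * x)))) =
        ∑ k ∈ Finset.range M, ∑ k' ∈ Finset.range M,
          (c k * (starRingEnd ℂ) (c k')) * ch M (x * ((k' : ℤ) - k)) := by
      intro x _
      rw [map_sum, Finset.sum_mul_sum]
      refine Finset.sum_congr rfl fun k _ => Finset.sum_congr rfl fun k' _ => ?_
      rw [map_mul, Q2_conj]
      have h2 : ch M (x * ((k' : ℤ) - k)) = ch M (-((k : ℤ) * x)) * ch M (-(-((k' : ℤ) * x))) := by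
        rw [← ch_add]
        congr 1
        ring
      rw [h2]
      ring
    rw [Finset.sum_congr rfl h1, Finset.sum_comm]
    rw [Finset.mul_sum]
    refine Finset.sum_congr rfl fun k hk => ?_
    rw [Finset.sum_comm]
    have h3 : ∀ k' ∈ Finset.range M,
        ∑ x ∈ Finset.range M, (c k * (starRingEnd ℂ) (c k')) * ch M (x * ((k' : ℤ) - k)) =
        if k' = k then (M : ℂ) * (c k * (starRingEnd ℂ) (c k)) else 0 := by
      intro k' hk'
      rw [← Finset.mul_sum, ch_orth M hM]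
      by_cases hkk : k' = k
      · subst hkk
        simp
        ring
      · have : ¬ ((M : ℤ) ∣ (k' : ℤ) - k) := by
          intro hd
          apply hkk
          have h4 : ((k' : ℤ) - k) = 0 := by
            apply Int.eq_zero_of_abs_lt_dvd hd
            rw [Finset.mem_range] at hk hk'
            rw [abs_lt]
            constructor <;> omega
          omega
        rw [if_neg this, if_neg hkk, mul_zero]
    rw [Finset.sum_congr rfl h3, Finset.sum_ite_eq' (Finset.range M) k]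
    rw [if_pos hk]
  have e : ∀ z : ℂ, z * (starRingEnd ℂ) z = ((‖z‖ ^ 2 : ℝ) : ℂ) := by
    intro z
    rw [Complex.mul_conj, Complex.normSq_eq_norm_sq]
  simp only [e] at key
  exact_mod_cast key

/-- Row Q2c (SHORT/MEDIUM). Parseval (`F1_pars`, private in `LibZD69/F1.lean`, can be copied). -/
theorem cv_diff_sq (M : ℕ) (hM : 0 < M) (g g' : ℤ → ℝ) (k : ℕ) :
    ∑ n ∈ Finset.range M, (cv M g k n - cv M g' k n) ^ 2 = (1 / (M : ℝ)) *
      ∑ ξ ∈ Finset.range M, ‖tr M g ξ ^ k - tr M g' ξ ^ k‖ ^ 2 := by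
  have hMR : (M : ℝ) ≠ 0 := by exact_mod_cast hM.ne'
  have hsq : ∀ n ∈ Finset.range M, (cv M g k n - cv M g' k n) ^ 2 =
      (1 / (M : ℝ)) ^ 2 * ‖∑ ξ ∈ Finset.range M,
        (tr M g ξ ^ k - tr M g' ξ ^ k) * ch M (-((ξ : ℤ) * n))‖ ^ 2 := by
    intro n _
    have h3 := congrArg (fun z : ℂ => ‖z‖ ^ 2) (Q2_diff M hM g g' k n)
    simp only [Complex.norm_real, Real.norm_eq_abs, sq_abs] at h3
    rw [h3, norm_mul, mul_pow]
    congr 2
    rw [norm_div, norm_one, Complex.norm_natCast]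
  rw [Finset.sum_congr rfl hsq, ← Finset.mul_sum,
    Q2_pars M hM (fun ξ => tr M g ξ ^ k - tr M g' ξ ^ k), ← mul_assoc]
  congr 1
  field_simp

end Pool.Agent.LibZT69
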