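import Pool.Agent.LibZT69.Defs
import Pool.Agent.LibZD69.F1

set_option autoImplicit false

namespace Pool.Agent.LibZT69

open Pool.Agent.LibNZ69 Pool.Agent.LibZD69

private theorem Q3_one (M : ℕ) (hM : 0 < M) (y c ξ : ℤ) (φ : ℝ) :
    ∑ x ∈ Finset.range M, (((if (M : ℤ) ∣ y - (x - c) then φ else 0 : ℝ) : ℂ) * ch M (ξ * x)) =
      (φ : ℂ) * ch M (ξ * (y + c)) := by
  have hMZ : (0 : ℤ) < M := by exact_mod_cast hM
  set x₀ : ℕ := ((y + c) % M).toNat with hx₀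
  have h0 : ((x₀ : ℕ) : ℤ) = (y + c) % M := Int.toNat_of_nonneg (Int.emod_nonneg _ hMZ.ne')
  have hlt : x₀ < M := by
    have := Int.emod_lt_of_pos (y + c) hMZ
    omega
  have hdm := Int.emod_add_mul_ediv (y + c) M
  rw [Finset.sum_eq_single x₀]
  · have hd : (M : ℤ) ∣ y - ((x₀ : ℤ) - c) := by
      refine ⟨(y + c) / M, ?_⟩
      rw [h0]
      linarith
    rw [if_pos hd]
    congr 1
    have e : ξ * (y + c) = ξ * (x₀ : ℤ) + M * (ξ * ((y + c) / M)) := by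
      rw [h0]
      conv_lhs => rw [← hdm]
      ring
    rw [e, ch_periodic M hM]
  · intro x hx hne
    rw [Finset.mem_range] at hx
    rw [if_neg]
    · simp
    · intro hd
      apply hne
      have hd2 : (M : ℤ) ∣ (x : ℤ) - x₀ := by
        have e : (x : ℤ) - x₀ = ((y + c) - x₀) - (y - ((x : ℤ) - c)) := by ring
        rw [e]
        refine dvd_sub ?_ hd
        refine ⟨(y + c) / M, ?_⟩
        rw [h0]
        linarith
      have h4 : ((x : ℤ) - x₀) = 0 := by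
        apply Int.eq_zero_of_abs_lt_dvd hd2
        rw [abs_lt]
        constructor <;> omega
      omega
  · intro h
    exact absurd (Finset.mem_range.mpr hlt) h

private theorem Q3_M {a r b : ℕ} (ha : 1 ≤ a) (hb : 1 ≤ b) : 0 < MM a r b := by
  unfold MM
  positivity

private theorem Q3_shift (A : Finset ℕ) (a r b : ℕ) (ha : 1 ≤ a) (hb : 1 ≤ b) (ξ c : ℤ) :
    ∑ x ∈ Finset.range (MM a r b), ((FF A a r b (x - c) : ℝ) : ℂ) * ch (MM a r b) (ξ * x) =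
      ch (MM a r b) (ξ * c) * fh A a r b ξ := by
  have hM : 0 < MM a r b := Q3_M ha hb
  have h1 : ∀ x ∈ Finset.range (MM a r b),
      ((FF A a r b ((x : ℤ) - c) : ℝ) : ℂ) * ch (MM a r b) (ξ * x) =
      ∑ z ∈ wP A (NN r b), (((if ((MM a r b : ℕ) : ℤ) ∣ nz z - ((x : ℤ) - c) then Ph r (4 * b) (nz z)
        else 0 : ℝ) : ℂ) * ch (MM a r b) (ξ * x)) := by
    intro x _
    unfold FF
    rw [Complex.ofReal_sum, Finset.sum_mul]
  rw [Finset.sum_congr rfl h1, Finset.sum_comm]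
  unfold fh
  rw [Finset.mul_sum]
  refine Finset.sum_congr rfl fun z _ => ?_
  rw [Q3_one (MM a r b) hM (nz z) c ξ (Ph r (4 * b) (nz z)), mul_add, ch_add]
  ring

/-- Row Q3a (SHORT; see the proof of `parseval` in `LibZD69/F1.lean`). `∑_{x < M} [M ∣ nz z - x] ch M (ξ x) =
ch M (ξ nz z)`. -/
theorem tr_FF (A : Finset ℕ) (a r b : ℕ) (ha : 1 ≤ a) (hb : 1 ≤ b) (ξ : ℤ) :
    tr (MM a r b) (FF A a r b) ξ = fh A a r b ξ := by
  unfold tr
  have h := Q3_shift A a r b ha hb ξ 0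
  simp only [sub_zero, mul_zero] at h
  rw [h]
  have h0 : ch (MM a r b) 0 = 1 := by
    unfold ch
    simp
  rw [h0, one_mul]

/-- Row Q3b (SHORT/MEDIUM; see the proof of `parseval` in `LibZD69/F1.lean`). `∑_x F (x - q₀ h) ch M (ξ x) =
ch M (ξ q₀ h) fh ξ`. -/
theorem tr_GG (A : Finset ℕ) (a r b q₀ H₀ : ℕ) (ha : 1 ≤ a) (hb : 1 ≤ b) (ξ : ℤ) :
    tr (MM a r b) (GG A a r b q₀ H₀) ξ = fh A a r b ξ * psi (MM a r b) q₀ H₀ ξ := by
  unfold tr
  have h1 : ∀ x ∈ Finset.range (MM a r b),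
      ((GG A a r b q₀ H₀ (x : ℤ) : ℝ) : ℂ) * ch (MM a r b) (ξ * x) =
      (∑ h ∈ Finset.Icc (-(H₀ : ℤ)) H₀, ((FF A a r b ((x : ℤ) - q₀ * h) : ℝ) : ℂ) *
        ch (MM a r b) (ξ * x)) / (2 * (H₀ : ℂ) + 1) := by
    intro x _
    unfold GG
    push_cast
    rw [← Finset.sum_mul]
    ring
  rw [Finset.sum_congr rfl h1, ← Finset.sum_div, Finset.sum_comm]
  have h2 : ∀ h ∈ Finset.Icc (-(H₀ : ℤ)) H₀,
      ∑ x ∈ Finset.range (MM a r b), ((FF A a r b ((x : ℤ) - q₀ * h) : ℝ) : ℂ) *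
        ch (MM a r b) (ξ * x) = fh A a r b ξ * ch (MM a r b) (ξ * (q₀ * h)) := by
    intro h _
    rw [Q3_shift A a r b ha hb ξ (q₀ * h), mul_comm]
  rw [Finset.sum_congr rfl h2, ← Finset.mul_sum]
  unfold psi
  ring

end Pool.Agent.LibZT69
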