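import Pool.Agent.LibZT69.Q1
import Pool.Agent.LibZT69.Q2
import Pool.Agent.LibZT69.Q3

set_option autoImplicit false

namespace Pool.Agent.LibZT69

open Pool.Agent.LibNZ69 Pool.Agent.LibZD69

private theorem Q4_MM (a r b : ℕ) (ha : 1 ≤ a) (hb : 1 ≤ b) : 0 < MM a r b := by
  unfold MM
  positivity

private theorem Q4_norm (z w : ℂ) (k : ℕ) : ‖z ^ k - (z * w) ^ k‖ = ‖z‖ ^ k * ‖1 - w ^ k‖ := by
  rw [mul_pow, ← norm_pow, ← norm_mul]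
  congr 1
  ring

private theorem Q4_pow (M : ℕ) (hM : 0 < M) (x c : ℝ) :
    (1 / (M : ℝ)) * (c * (M : ℝ) ^ x) = c * (M : ℝ) ^ (x - 1) := by
  have hMR : (0 : ℝ) < (M : ℝ) := by exact_mod_cast hM
  rw [Real.rpow_sub_one hMR.ne']
  field_simp

/-- Row Q4a (SHORT). `cv_diff`, `tr_FF`, `tr_GG`, `errBound` with `κ = k`, `e = 1`. -/
theorem err_all {A : Finset ℕ} {a : ℕ} {s : ℝ} (hp : PB A a s) (k : ℕ) (hk : 2 ≤ k)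
    (hks : 1 < (k : ℝ) * (s - 1)) :
    ∃ r₀ : ℕ, ∀ r : ℕ, r₀ ≤ r → ∃ C : ℝ, 1 ≤ C ∧ ∃ θ : ℝ, 0 < θ ∧ ∃ b₁ : ℕ,
      ∀ t₀ b M q₀ H₀ : ℕ, b₁ ≤ b → M = MM a r b → q₀ = (2 ^ t₀).factorial →
      H₀ = M / (2 ^ (5 * t₀) * q₀) → ∀ n : ℤ,
        |cv M (FF A a r b) k n - cv M (GG A a r b q₀ H₀) k n| ≤
          C * (2 : ℝ) ^ (-(θ * (t₀ : ℝ))) * (M : ℝ) ^ ((k : ℝ) * s - 1) := by
  obtain ⟨r₀, h0⟩ := errBound hp k k 1 hk hks le_rfl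
  refine ⟨r₀, fun r hr => ?_⟩
  obtain ⟨C, hC, θ, hθ, b₁, h1⟩ := h0 r hr
  refine ⟨C, hC, θ, hθ, max b₁ 1, fun t₀ b M q₀ H₀ hb hM hq hH n => ?_⟩
  have hb1 : b₁ ≤ b := (le_max_left _ _).trans hb
  have hb2 : 1 ≤ b := (le_max_right _ _).trans hb
  have ha : 1 ≤ a := le_trans (by norm_num) hp.a4
  have hMp : 0 < M := by rw [hM]; exact Q4_MM a r b ha hb2
  have h2 := h1 t₀ b M q₀ H₀ hb1 hM hq hH
  refine (cv_diff M hMp _ _ k n).trans ?_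
  rw [← Q4_pow M hMp]
  refine mul_le_mul_of_nonneg_left (le_trans (le_of_eq ?_) h2) (by positivity)
  refine Finset.sum_congr rfl fun ξ _ => ?_
  have e1 : tr M (FF A a r b) ξ = fh A a r b ξ := by
    rw [hM]; exact tr_FF A a r b ha hb2 ξ
  have e2 : tr M (GG A a r b q₀ H₀) ξ = fh A a r b ξ * psi M q₀ H₀ ξ := by
    rw [hM]; exact tr_GG A a r b q₀ H₀ ha hb2 ξ
  rw [e1, e2, Q4_norm, pow_one]

/-- Row Q4b (SHORT). `cv_diff_sq`, `tr_FF`, `tr_GG`, `errBound` with `κ = 2 k`, `e = 2`. -/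
theorem err_sq {A : Finset ℕ} {a : ℕ} {s : ℝ} (hp : PB A a s) (k : ℕ) (hk : 2 ≤ k)
    (hks : 1 < 2 * (k : ℝ) * (s - 1)) :
    ∃ r₀ : ℕ, ∀ r : ℕ, r₀ ≤ r → ∃ C : ℝ, 1 ≤ C ∧ ∃ θ : ℝ, 0 < θ ∧ ∃ b₁ : ℕ,
      ∀ t₀ b M q₀ H₀ : ℕ, b₁ ≤ b → M = MM a r b → q₀ = (2 ^ t₀).factorial →
      H₀ = M / (2 ^ (5 * t₀) * q₀) →
        ∑ n ∈ Finset.range M, (cv M (FF A a r b) k n - cv M (GG A a r b q₀ H₀) k n) ^ 2 ≤
          C * (2 : ℝ) ^ (-(θ * (t₀ : ℝ))) * (M : ℝ) ^ (2 * (k : ℝ) * s - 1) := by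
  obtain ⟨r₀, h0⟩ := errBound hp k (2 * k) 2 (by omega) (by push_cast; exact hks) (by norm_num)
  refine ⟨r₀, fun r hr => ?_⟩
  obtain ⟨C, hC, θ, hθ, b₁, h1⟩ := h0 r hr
  refine ⟨C, hC, θ, hθ, max b₁ 1, fun t₀ b M q₀ H₀ hb hM hq hH => ?_⟩
  have hb1 : b₁ ≤ b := (le_max_left _ _).trans hb
  have hb2 : 1 ≤ b := (le_max_right _ _).trans hb
  have ha : 1 ≤ a := le_trans (by norm_num) hp.a4
  have hMp : 0 < M := by rw [hM]; exact Q4_MM a r b ha hb2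
  have h2 := h1 t₀ b M q₀ H₀ hb1 hM hq hH
  push_cast at h2
  rw [cv_diff_sq M hMp, ← Q4_pow M hMp]
  refine mul_le_mul_of_nonneg_left (le_trans (le_of_eq ?_) h2) (by positivity)
  refine Finset.sum_congr rfl fun ξ _ => ?_
  have e1 : tr M (FF A a r b) ξ = fh A a r b ξ := by
    rw [hM]; exact tr_FF A a r b ha hb2 ξ
  have e2 : tr M (GG A a r b q₀ H₀) ξ = fh A a r b ξ * psi M q₀ H₀ ξ := by
    rw [hM]; exact tr_GG A a r b q₀ H₀ ha hb2 ξ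
  rw [e1, e2, Q4_norm, mul_pow, ← pow_mul, mul_comm k 2]

end Pool.Agent.LibZT69
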