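import Pool.Agent.LibZT69.Defs
import Pool.Agent.LibZD69.J3
import Pool.Agent.LibZD69.E2

set_option autoImplicit false

namespace Pool.Agent.LibZT69

open Pool.Agent.LibNZ69 Pool.Agent.LibZD69

/-- the representations of `n` by `k` numerators -/
def rp (A : Finset ℕ) (k n : ℕ) : Set (Fin k → ℕ × ℕ) :=
  {t | (∀ i, (t i).2 ∈ numer A (t i).1) ∧ ∑ i, (t i).1 = n}

/-- Row R1a (SHORT). `(t i).1 ≤ n` and `(t i).2 < (t i).1`. -/
theorem rp_finite (A : Finset ℕ) (k n : ℕ) : (rp A k n).Finite := by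
  refine (Set.Finite.pi fun _ : Fin k => Finset.finite_toSet
    ((Finset.range (n + 1)) ×ˢ (Finset.range (n + 1)))).subset ?_
  intro t ht i _
  have h1 : (t i).1 ≤ n := by
    have h2 := ht.2
    rw [← h2]
    exact Finset.single_le_sum (f := fun i => (t i).1) (fun _ _ => Nat.zero_le _)
      (Finset.mem_univ i)
  have h3 : (t i).2 < (t i).1 := (ht.1 i).2.1
  rw [Finset.mem_coe, Finset.mem_product, Finset.mem_range, Finset.mem_range]
  exact ⟨by omega, by omega⟩

private theorem R1_numer_finite (A : Finset ℕ) (d : ℕ) : (numer A d).Finite :=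
  (Set.finite_lt_nat d).subset fun _ hb => hb.2.1

private theorem R1_step (A : Finset ℕ) (k n : ℕ) :
    ∑ x ∈ Finset.range (n + 1), (numer A x).ncard * (rp A k (n - x)).ncard ≤
      (rp A (k + 1) n).ncard := by
  classical
  have h1 : ∀ x, (numer A x).ncard * (rp A k (n - x)).ncard =
      ((R1_numer_finite A x).toFinset ×ˢ (rp_finite A k (n - x)).toFinset).card := by
    intro x
    rw [Finset.card_product, Set.ncard_eq_toFinset_card _ (R1_numer_finite A x),
      Set.ncard_eq_toFinset_card _ (rp_finite A k (n - x))]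
  rw [Finset.sum_congr rfl fun x _ => h1 x, ← Finset.card_sigma,
    Set.ncard_eq_toFinset_card _ (rp_finite A (k + 1) n)]
  refine Finset.card_le_card_of_injOn
    (fun p : (_ : ℕ) × (ℕ × (Fin k → ℕ × ℕ)) =>
      (Fin.cons (p.1, p.2.1) p.2.2 : Fin (k + 1) → ℕ × ℕ)) ?_ ?_
  · rintro ⟨x, y, t⟩ hp
    rw [Finset.mem_coe, Finset.mem_sigma, Finset.mem_product, Finset.mem_range,
      Set.Finite.mem_toFinset, Set.Finite.mem_toFinset] at hp
    obtain ⟨hx, hy, ht⟩ := hp
    rw [Finset.mem_coe, Set.Finite.mem_toFinset]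
    refine ⟨fun i => ?_, ?_⟩
    · refine Fin.cases ?_ (fun j => ?_) i
      · exact hy
      · exact ht.1 j
    · rw [Fin.sum_univ_succ]
      have h2 : ∑ j : Fin k, (t j).1 = n - x := ht.2
      show x + ∑ j : Fin k, (t j).1 = n
      have h3 : x < n + 1 := hx
      omega
  · rintro ⟨x, y, t⟩ _ ⟨x', y', t'⟩ _ he
    have h2 : (Fin.cons (x, y) t : Fin (k + 1) → ℕ × ℕ) = Fin.cons (x', y') t' := he
    have h3 := Fin.cons_injective2 h2
    have h4 : x = x' := congrArg Prod.fst h3.1
    have h5 : y = y' := congrArg Prod.snd h3.1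
    have h6 : t = t' := h3.2
    rw [h4, h5, h6]

/-- Row R1b (MEDIUM). Induction on `k`: `Fin.cons (x, y) t` with `y ∈ numer A x`, `t ∈ rp A k (n - x)`, `x ≤ n`
is an injection into `rp A (k+1) n` (`Fin.sum_univ_succ`, `Fin.cons_zero`, `Fin.cons_succ`). `rp A 0 n` is
`{default}` for `n = 0`. -/
theorem pv_le_rp (A : Finset ℕ) (k n : ℕ) :
    pv (fun x => ((numer A x).ncard : ℝ)) k n ≤ ((rp A k n).ncard : ℝ) := by
  induction k generalizing n with
  | zero =>
    rw [pv]
    split_ifs with h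
    · subst h
      have h1 : 1 ≤ (rp A 0 0).ncard := by
        rw [Nat.one_le_iff_ne_zero, ← Nat.pos_iff_ne_zero, Set.ncard_pos (rp_finite A 0 0)]
        exact ⟨fun i => i.elim0, fun i => i.elim0, by simp⟩
      exact_mod_cast h1
    · exact Nat.cast_nonneg _
  | succ k ih =>
    rw [pv]
    have h1 : ((∑ x ∈ Finset.range (n + 1), (numer A x).ncard * (rp A k (n - x)).ncard : ℕ) : ℝ) ≤
        ((rp A (k + 1) n).ncard : ℝ) := by exact_mod_cast R1_step A k n
    refine le_trans ?_ h1
    push_cast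
    exact Finset.sum_le_sum fun x _ => mul_le_mul_of_nonneg_left (ih _) (Nat.cast_nonneg _)

end Pool.Agent.LibZT69
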