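import Pool.Agent.LibZT69.R1
import Pool.Agent.LibZT69.M1
import Pool.Agent.LibZD69.A2

set_option autoImplicit false

namespace Pool.Agent.LibZT69

open Pool.Agent.LibNZ69 Pool.Agent.LibZD69

private theorem R2_pos {a r b : ℕ} (ha : 4 ≤ a) (hb : 1 ≤ b) : 9 * NN r b < MM a r b := by
  unfold NN MM
  have hpos : 0 < (r + 3) * b := by positivity
  calc 9 * (4 * (r + 3) * b) < 20 * 4 * (r + 3) * b := by nlinarith
    _ ≤ 20 * a * (r + 3) * b := by gcongr

private theorem R2_eq {A : Finset ℕ} {a : ℕ} (hA : ∀ y ∈ A, 1 ≤ y) (ha : 4 ≤ a) {r b : ℕ}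
    (hb : 1 ≤ b) {x : ℕ} (hx : x < MM a r b) {z : List ℕ} (hz : z ∈ wP A (NN r b))
    (hd : ((MM a r b : ℕ) : ℤ) ∣ nz z - (x : ℤ)) : nz z = (x : ℤ) := by
  have hz' := (mem_wP hA _ _).1 hz
  have hbd := nz_bounds z fun y hy => hA y (hz'.1 y hy)
  have h3 := R2_pos (r := r) ha hb
  have h4 : kk z ≤ NN r b := hz'.2
  have h5 : 9 * kk z < MM a r b := by omega
  have h6 : (9 * (kk z : ℤ)) < (MM a r b : ℕ) := by exact_mod_cast h5
  have h7 : nz z < (MM a r b : ℕ) := lt_of_le_of_lt hbd.2 h6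
  have h8 : 0 ≤ nz z := by
    have h0 : (0 : ℤ) ≤ kk z := by positivity
    linarith [hbd.1]
  obtain ⟨m, hm⟩ := hd
  have hx' : (x : ℤ) < (MM a r b : ℕ) := by exact_mod_cast hx
  have hx0 : (0 : ℤ) ≤ x := by positivity
  have hm1 : m < 1 := by
    by_contra hcon
    push Not at hcon
    have : ((MM a r b : ℕ) : ℤ) * 1 ≤ (MM a r b : ℕ) * m :=
      mul_le_mul_of_nonneg_left hcon (by positivity)
    linarith
  have hm2 : -1 < m := by
    by_contra hcon
    push Not at hcon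
    have : ((MM a r b : ℕ) : ℤ) * m ≤ (MM a r b : ℕ) * (-1) :=
      mul_le_mul_of_nonneg_left hcon (by positivity)
    linarith
  have hm0 : m = 0 := by omega
  rw [hm0, mul_zero] at hm
  linarith

private theorem R2_nonneg (A : Finset ℕ) (a r b : ℕ) (x : ℤ) : 0 ≤ FF A a r b x := by
  unfold FF
  refine Finset.sum_nonneg fun z _ => ?_
  split_ifs
  · exact Ph_nonneg _ _ _
  · exact le_refl _

private theorem R2_le {A : Finset ℕ} {a : ℕ} (hA : ∀ y ∈ A, 1 ≤ y) (h2 : 2 ∈ A) (ha : 4 ≤ a)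
    {r b : ℕ} (hb : 1 ≤ b) {x : ℕ} (hx : x < MM a r b) :
    FF A a r b x ≤ ((numer A x).ncard : ℝ) := by
  classical
  have h1 : FF A a r b x ≤ ∑ z ∈ wP A (NN r b), if nz z = (x : ℤ) then (1 : ℝ) else 0 := by
    unfold FF
    refine Finset.sum_le_sum fun z hz => ?_
    by_cases hd : ((MM a r b : ℕ) : ℤ) ∣ nz z - (x : ℤ)
    · rw [if_pos hd, if_pos (R2_eq hA ha hb hx hz hd)]
      exact Ph_le_one _ _ _
    · rw [if_neg hd]
      split_ifs
      · exact zero_le_one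
      · exact le_refl _
  refine h1.trans ?_
  rw [Finset.sum_ite, Finset.sum_const_zero, add_zero, Finset.sum_const, nsmul_eq_mul, mul_one]
  have h3 := card_le_numer A hA h2 x ((wP A (NN r b)).filter (fun z => nz z = (x : ℤ)))
    (fun z hz => by
      rw [Finset.mem_filter] at hz
      exact ⟨((mem_wP hA _ _).1 hz.1).1, hz.2⟩)
  exact_mod_cast h3

private theorem R2_zero {A : Finset ℕ} {a : ℕ} (hA : ∀ y ∈ A, 1 ≤ y) (ha : 4 ≤ a)
    {r b : ℕ} (hb : 1 ≤ b) {x : ℕ} (hN : NN r b ≤ x) (hx : x < MM a r b) :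
    FF A a r b x = 0 := by
  unfold FF
  refine Finset.sum_eq_zero fun z hz => ?_
  split_ifs with hd
  · have h1 := R2_eq hA ha hb hx hz hd
    by_contra hne
    have h2 := (Ph_support _ _ _ hne).2
    rw [h1] at h2
    have h3 : ((NN r b : ℕ) : ℤ) ≤ x := by exact_mod_cast hN
    unfold NN at h3
    push_cast at h2 h3
    have h4 : (1 : ℤ) ≤ b := by exact_mod_cast hb
    nlinarith
  · rfl

/-- Row R2 (MEDIUM; see `J1_FF_le` in `LibZD69/J1.lean`). `F = FF A a r b`: for `x < M` only the `z` with `nz z = x`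
count (`nz z ≤ 9 kk z ≤ 9 NN < M`, `z ∈ wP A NN`, `nz_bounds`), `0 ≤ Ph ≤ 1`, so `0 ≤ F x ≤ (numer A x).ncard`
(`card_le_numer`), and `F x = 0` if `NN ≤ x < M` (`Ph_support`: `(r+2) 4 b ≤ NN r b`). `k * NN ≤ M` as
`M = 5 a NN`. `cv_eq_pv`, `pv_mono`, `pv_le_rp`. -/
theorem cv_FF_le {A : Finset ℕ} {a : ℕ} {s : ℝ} (hp : PB A a s) (k : ℕ) (ha : k ≤ 5 * a)
    (r b n : ℕ) (hb : 1 ≤ b) (hn : n < MM a r b) :
    cv (MM a r b) (FF A a r b) k n ≤ ((rp A k n).ncard : ℝ) := by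
  have hA : ∀ y ∈ A, 1 ≤ y := fun y hy => (hp.dig y hy).1
  have hN : 1 ≤ NN r b := by
    unfold NN
    have : 0 < 4 * (r + 3) * b := by positivity
    exact this
  have hkN : k * NN r b ≤ MM a r b := by
    unfold NN MM
    calc k * (4 * (r + 3) * b) ≤ 5 * a * (4 * (r + 3) * b) := Nat.mul_le_mul_right _ ha
      _ = 20 * a * (r + 3) * b := by ring
  rw [cv_eq_pv (MM a r b) (NN r b) hN (FF A a r b) (fun x : ℕ => FF A a r b x)
    (fun _ _ => rfl) (fun x h1 h2 => R2_zero hA hp.a4 hb h1 h2) k hkN (by omega) n hn]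
  exact ((pv_mono (fun x : ℕ => FF A a r b x) (fun x => ((numer A x).ncard : ℝ))
    (fun x => R2_nonneg A a r b x) n
    (fun x hx => R2_le hA hp.two hp.a4 hb (lt_of_le_of_lt hx hn)) k) n le_rfl).2.trans
    (pv_le_rp A k n)

end Pool.Agent.LibZT69
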