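import Pool.Agent.LibZT69.Q4
import Pool.Agent.LibZT69.M3
import Pool.Agent.LibZT69.R2

set_option autoImplicit false

namespace Pool.Agent.LibZT69

open Pool.Agent.LibNZ69 Pool.Agent.LibZD69

private theorem Y1_small (C c θ : ℝ) (hC : 1 ≤ C) (hc : 0 < c) (hθ : 0 < θ) (t₁ : ℕ) :
    ∃ t₀ : ℕ, t₁ ≤ t₀ ∧ C * (2 : ℝ) ^ (-(θ * (t₀ : ℝ))) ≤ c / 2 := by
  have hq0 : (0 : ℝ) < (2 : ℝ) ^ (-θ) := Real.rpow_pos_of_pos (by norm_num) _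
  have hq1 : (2 : ℝ) ^ (-θ) < 1 := Real.rpow_lt_one_of_one_lt_of_neg (by norm_num) (by linarith)
  have hpos : 0 < c / (2 * C) := by positivity
  obtain ⟨t, ht⟩ := exists_pow_lt_of_lt_one hpos hq1
  refine ⟨max t₁ t, le_max_left _ _, ?_⟩
  have h1 : (2 : ℝ) ^ (-(θ * ((max t₁ t : ℕ) : ℝ))) = ((2 : ℝ) ^ (-θ)) ^ (max t₁ t) := by
    rw [← Real.rpow_natCast, ← Real.rpow_mul (by norm_num)]
    congr 1
    ring
  have h2 : ((2 : ℝ) ^ (-θ)) ^ (max t₁ t) ≤ ((2 : ℝ) ^ (-θ)) ^ t :=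
    pow_le_pow_of_le_one hq0.le hq1.le (le_max_right _ _)
  rw [h1]
  calc C * ((2 : ℝ) ^ (-θ)) ^ (max t₁ t) ≤ C * (c / (2 * C)) :=
        mul_le_mul_of_nonneg_left (h2.trans ht.le) (by linarith)
    _ = c / 2 := by field_simp

/-- Row Y1 (MEDIUM). Choose `r ≥ r₀, 3` (`err_all`, `main_lower`), then `t₀ ≥ t₁` with `C 2^(-θ t₀) ≤ c / 2`, then
`b₀`. `n ≤ M` and `n^(k s - 1) ≤ M^(k s - 1)`; `n < M` because `7 k (5+r) b / 4 ≤ 7 · 5 a (5 + r) b/4 < 20 a (r+3) b`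
as `k ≤ 5 a`, `r ≥ 3`. `cv_FF_le`. -/
theorem win_all {A : Finset ℕ} {a : ℕ} {s : ℝ} (hp : PB A a s) (k : ℕ) (hk : 2 ≤ k)
    (ha : k ≤ 5 * a) (hks : 1 < (k : ℝ) * (s - 1)) :
    ∃ r : ℕ, ∃ c : ℝ, 0 < c ∧ ∃ b₀ : ℕ, ∀ b : ℕ, b₀ ≤ b → ∀ n : ℕ,
      5 * (k * ((5 + r) * b)) ≤ 4 * n → 4 * n ≤ 7 * (k * ((5 + r) * b)) →
        c * (n : ℝ) ^ ((k : ℝ) * s - 1) ≤ ((rp A k n).ncard : ℝ) := by
  obtain ⟨r₀, h1⟩ := err_all hp k hk hks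
  obtain ⟨C, hC, θ, hθ, b₁, h2⟩ := h1 (max r₀ 3) (le_max_left _ _)
  obtain ⟨c, hc, t₁, h3⟩ := main_lower hp k hk ha (max r₀ 3) (le_max_right _ _)
  obtain ⟨t₀, ht₀, htC⟩ := Y1_small C c θ hC hc hθ t₁
  obtain ⟨b₂, h4⟩ := h3 t₀ ht₀
  refine ⟨max r₀ 3, c / 2, by linarith, max (max b₁ b₂) 1, ?_⟩
  intro b hb n hn1 hn2
  set r : ℕ := max r₀ 3 with hr
  have hb1 : b₁ ≤ b := (le_max_left _ _).trans ((le_max_left _ _).trans hb)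
  have hb2 : b₂ ≤ b := (le_max_right _ _).trans ((le_max_left _ _).trans hb)
  have hb3 : 1 ≤ b := (le_max_right _ _).trans hb
  have ha4 : 4 ≤ a := hp.a4
  have hnM : n < MM a r b := by
    unfold MM
    have e1 : 4 * n ≤ 7 * (5 * a * ((5 + r) * b)) :=
      hn2.trans (Nat.mul_le_mul_left _ (Nat.mul_le_mul_right _ ha))
    have hab : 0 < a * b := Nat.mul_pos (by omega) (by omega)
    have e2 : 7 * (5 * a * ((5 + r) * b)) < 4 * (20 * a * (r + 3) * b) := by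
      have e3 : 7 * (5 * a * ((5 + r) * b)) = (175 + 35 * r) * (a * b) := by ring
      have e4 : 4 * (20 * a * (r + 3) * b) = (240 + 80 * r) * (a * b) := by ring
      rw [e3, e4]
      exact Nat.mul_lt_mul_of_pos_right (by omega) hab
    omega
  have hmain := h4 b (MM a r b) _ _ hb2 rfl rfl rfl n hn1 hn2 hnM
  have herr := h2 t₀ b (MM a r b) _ _ hb1 rfl rfl rfl (n : ℤ)
  have hcv := cv_FF_le hp k ha r b n hb3 hnM
  have hMp : 0 ≤ ((MM a r b : ℕ) : ℝ) ^ ((k : ℝ) * s - 1) := Real.rpow_nonneg (Nat.cast_nonneg _) _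
  have herr2 : C * (2 : ℝ) ^ (-(θ * (t₀ : ℝ))) * ((MM a r b : ℕ) : ℝ) ^ ((k : ℝ) * s - 1) ≤
      c / 2 * ((MM a r b : ℕ) : ℝ) ^ ((k : ℝ) * s - 1) := mul_le_mul_of_nonneg_right htC hMp
  have hexp : 0 ≤ (k : ℝ) * s - 1 := by
    have hk' : (0 : ℝ) ≤ k := Nat.cast_nonneg _
    have e1 : (k : ℝ) * s - 1 = ((k : ℝ) * (s - 1) - 1) + k := by ring
    rw [e1]
    linarith
  have hnp : (n : ℝ) ^ ((k : ℝ) * s - 1) ≤ ((MM a r b : ℕ) : ℝ) ^ ((k : ℝ) * s - 1) :=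
    Real.rpow_le_rpow (Nat.cast_nonneg _) (by exact_mod_cast hnM.le) hexp
  have habs := (abs_le.1 herr).1
  have hfin : c / 2 * (n : ℝ) ^ ((k : ℝ) * s - 1) ≤
      c / 2 * ((MM a r b : ℕ) : ℝ) ^ ((k : ℝ) * s - 1) :=
    mul_le_mul_of_nonneg_left hnp (by linarith)
  linarith

/-- Row Y1b (SHORT). `b = 4 b'`, `R = k (5+r)`: the windows are `[5 R b', 7 R b']`; every large `n` is in one
(`b' = n / (5 R)`). -/
theorem main_all {A : Finset ℕ} {a : ℕ} {s : ℝ} (hp : PB A a s) (k : ℕ) (hk : 2 ≤ k)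
    (ha : k ≤ 5 * a) (hks : 1 < (k : ℝ) * (s - 1)) :
    ∃ c : ℝ, 0 < c ∧ ∃ N₀ : ℕ, ∀ n : ℕ, N₀ ≤ n →
        c * (n : ℝ) ^ ((k : ℝ) * s - 1) ≤ ((rp A k n).ncard : ℝ) := by
  obtain ⟨r, c, hc, b₀, h⟩ := win_all hp k hk ha hks
  set R : ℕ := k * (5 + r) with hR
  have hRp : 0 < R := Nat.mul_pos (by omega) (by omega)
  refine ⟨c, hc, 5 * R * (b₀ + 3), ?_⟩
  intro n hn
  set b' : ℕ := n / (5 * R) with hb'
  have hb3 : b₀ + 3 ≤ b' := by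
    rw [hb', Nat.le_div_iff_mul_le (by omega), mul_comm]
    exact hn
  have e1 : 5 * R * b' ≤ n := Nat.mul_div_le n (5 * R)
  have e2 : n < 5 * R * (b' + 1) := by
    have h1 := Nat.lt_div_mul_add (a := n) (b := 5 * R) (by omega)
    have h2 : 5 * R * (b' + 1) = n / (5 * R) * (5 * R) + 5 * R := by
      rw [hb']; ring
    rw [h2]
    exact h1
  have e3 : 5 * (k * ((5 + r) * (4 * b'))) = 4 * (5 * R * b') := by
    rw [hR]; ring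
  have e4 : 7 * (k * ((5 + r) * (4 * b'))) = 4 * (7 * R * b') := by
    rw [hR]; ring
  have e5 : 5 * R * (b' + 1) ≤ 7 * R * b' := by
    have e6 : R * 3 ≤ R * b' := Nat.mul_le_mul_left _ (by omega)
    have e7 : 5 * R * (b' + 1) = 5 * (R * b') + 5 * R := by ring
    have e8 : 7 * R * b' = 7 * (R * b') := by ring
    omega
  refine h (4 * b') (by omega) n ?_ ?_
  · rw [e3]
    exact Nat.mul_le_mul_left _ e1
  · rw [e4]
    exact Nat.mul_le_mul_left _ (e2.le.trans e5)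

end Pool.Agent.LibZT69
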