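import Pool.Agent.LibZT69.Q4
import Pool.Agent.LibZT69.M3
import Pool.Agent.LibZT69.R2

set_option autoImplicit false

namespace Pool.Agent.LibZT69

open Pool.Agent.LibNZ69 Pool.Agent.LibZD69

private theorem Y2_cheb (F : ℕ → ℝ) (M : ℕ) (g B : ℝ) (hg : 0 < g)
    (h : ∑ x ∈ Finset.range M, F x ^ 2 ≤ B) (S : Finset ℕ) (hS : ∀ x ∈ S, x < M ∧ g ^ 2 ≤ F x ^ 2) :
    (S.card : ℝ) ≤ B / g ^ 2 := by
  rw [le_div_iff₀ (by positivity)]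
  have h1 : S ⊆ Finset.range M := fun x hx => Finset.mem_range.2 (hS x hx).1
  calc (S.card : ℝ) * g ^ 2 = ∑ _x ∈ S, g ^ 2 := by rw [Finset.sum_const, nsmul_eq_mul]
    _ ≤ ∑ x ∈ S, F x ^ 2 := Finset.sum_le_sum fun x hx => (hS x hx).2
    _ ≤ ∑ x ∈ Finset.range M, F x ^ 2 :=
        Finset.sum_le_sum_of_subset_of_nonneg h1 fun x _ _ => sq_nonneg _
    _ ≤ B := h

open scoped Classical in
/-- Row Y2 (MEDIUM; compare `window2` in `LibZD69/J1.lean`, finished, with its private `J1_cheb`). `b = 4 b'`. If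
`rp < c n^(ks-1)` with `2 c ≤ c₀` (`c₀` of `main_lower`) then `(cv FF - cv GG)² ≥ (c₀/2)² M^(2ks-2)`; `err_sq`: the
number of such `n` is `≤ C 2^(-θ t₀) M (4/c₀²)`, `M = 80 a (r+3) b'`; given `η` choose `t₀`, then `b₀`. -/
theorem win_aa {A : Finset ℕ} {a : ℕ} {s : ℝ} (hp : PB A a s) (k : ℕ) (hk : 2 ≤ k)
    (ha : k ≤ 5 * a) (hks : 1 < 2 * (k : ℝ) * (s - 1)) :
    ∃ r : ℕ, ∃ c : ℝ, 0 < c ∧ ∀ η : ℝ, 0 < η → ∃ b₀ : ℕ, ∀ b : ℕ, b₀ ≤ b →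
      (((Finset.Ico (5 * (k * (5 + r) * b)) (7 * (k * (5 + r) * b))).filter (fun n : ℕ =>
        ((rp A k n).ncard : ℝ) < c * (n : ℝ) ^ ((k : ℝ) * s - 1))).card : ℝ) ≤ η * b := by
  obtain ⟨r₀, hr₀⟩ := err_sq hp k hk hks
  obtain ⟨r, hr, hr3⟩ : ∃ r : ℕ, r₀ ≤ r ∧ 3 ≤ r := ⟨max r₀ 3, le_max_left _ _, le_max_right _ _⟩
  obtain ⟨C, hC, θ, hθ, b₁, hE⟩ := hr₀ r hr
  obtain ⟨c0, hc0, t₁, hG⟩ := main_lower hp k hk ha r hr3
  have hC0 : 0 < C := lt_of_lt_of_le one_pos hC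
  have hk2 : (2 : ℝ) ≤ k := by exact_mod_cast hk
  have hks1 : 0 < (k : ℝ) * s - 1 := by
    have h1 := hp.s1
    nlinarith
  refine ⟨r, c0 / 2, by positivity, fun η hη => ?_⟩
  have ha4 : (4 : ℝ) ≤ a := by exact_mod_cast hp.a4
  have hD : 0 < 4 * C / c0 ^ 2 * (20 * a * (r + 3) * 4) := by positivity
  have hlim : Filter.Tendsto (fun t : ℕ => (2 : ℝ) ^ (-(θ * (t : ℝ))))
      Filter.atTop (nhds 0) := by
    have h1 : ∀ t : ℕ, (2 : ℝ) ^ (-(θ * (t : ℝ))) = ((2 : ℝ) ^ (-θ)) ^ t := by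
      intro t
      rw [← Real.rpow_natCast, ← Real.rpow_mul (by norm_num)]
      congr 1
      ring
    simp_rw [h1]
    refine tendsto_pow_atTop_nhds_zero_of_lt_one (by positivity) ?_
    exact Real.rpow_lt_one_of_one_lt_of_neg (by norm_num) (by linarith)
  have hev := hlim.eventually (gt_mem_nhds (show (0 : ℝ) <
    η / (4 * C / c0 ^ 2 * (20 * a * (r + 3) * 4)) by positivity))
  obtain ⟨t₀, ht₀1, ht₀⟩ := (hev.and (Filter.eventually_ge_atTop t₁)).exists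
  obtain ⟨b₂, hG2⟩ := hG t₀ ht₀
  refine ⟨max (max b₁ b₂) 1, fun b hb => ?_⟩
  have hb1 : b₁ ≤ 4 * b := by
    have := le_trans (le_trans (le_max_left b₁ b₂) (le_max_left _ 1)) hb
    omega
  have hb2 : b₂ ≤ 4 * b := by
    have := le_trans (le_trans (le_max_right b₁ b₂) (le_max_left _ 1)) hb
    omega
  have hb0 : 1 ≤ b := le_trans (le_max_right _ _) hb
  have hbR : (1 : ℝ) ≤ b := by exact_mod_cast hb0
  obtain ⟨M, hM⟩ : ∃ M : ℕ, M = MM a r (4 * b) := ⟨_, rfl⟩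
  obtain ⟨q₀, hq₀⟩ : ∃ q₀ : ℕ, q₀ = (2 ^ t₀).factorial := ⟨_, rfl⟩
  obtain ⟨H₀, hH₀⟩ : ∃ H₀ : ℕ, H₀ = M / (2 ^ (5 * t₀) * q₀) := ⟨_, rfl⟩
  have hMR : (M : ℝ) = 20 * a * (r + 3) * 4 * b := by
    rw [hM, MM]
    push_cast
    ring
  have hMpos : (0 : ℝ) < M := by rw [hMR]; positivity
  have hL2 := hE t₀ (4 * b) M q₀ H₀ hb1 hM hq₀ hH₀
  have hG3 := hG2 (4 * b) M q₀ H₀ hb2 hM hq₀ hH₀
  have hMs : 0 < (M : ℝ) ^ ((k : ℝ) * s - 1) := Real.rpow_pos_of_pos hMpos _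
  have hWM : 7 * (k * (5 + r) * b) ≤ M := by
    rw [hM, MM]
    calc 7 * (k * (5 + r) * b) ≤ 7 * (5 * a * (5 + r) * b) := by gcongr
      _ = 35 * (a * b) * (5 + r) := by ring
      _ ≤ 80 * (a * b) * (r + 3) := by nlinarith [Nat.zero_le (a * b), Nat.zero_le (a * b * r)]
      _ = 20 * a * (r + 3) * (4 * b) := by ring
  obtain ⟨g, hg⟩ : ∃ g : ℝ, g = c0 / 2 * (M : ℝ) ^ ((k : ℝ) * s - 1) := ⟨_, rfl⟩
  have hgpos : 0 < g := by rw [hg]; positivity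
  have hcard := Y2_cheb
    (fun n : ℕ => cv M (FF A a r (4 * b)) k n - cv M (GG A a r (4 * b) q₀ H₀) k n) M g _ hgpos hL2
    ((Finset.Ico (5 * (k * (5 + r) * b)) (7 * (k * (5 + r) * b))).filter (fun n : ℕ =>
        ((rp A k n).ncard : ℝ) < c0 / 2 * (n : ℝ) ^ ((k : ℝ) * s - 1))) (fun n hn => by
      rw [Finset.mem_filter, Finset.mem_Ico] at hn
      obtain ⟨⟨hn1, hn2⟩, hn3⟩ := hn
      have hnM : n < M := lt_of_lt_of_le hn2 hWM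
      refine ⟨hnM, ?_⟩
      have h1 : c0 * (M : ℝ) ^ ((k : ℝ) * s - 1) ≤ cv M (GG A a r (4 * b) q₀ H₀) k n := by
        refine hG3 n ?_ ?_ hnM
        · calc 5 * (k * ((5 + r) * (4 * b))) = 4 * (5 * (k * (5 + r) * b)) := by ring
            _ ≤ 4 * n := by omega
        · calc 4 * n ≤ 4 * (7 * (k * (5 + r) * b)) := by omega
            _ = 7 * (k * ((5 + r) * (4 * b))) := by ring
      have h2 : cv M (FF A a r (4 * b)) k n ≤ ((rp A k n).ncard : ℝ) := by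
        rw [hM]
        rw [hM] at hnM
        exact cv_FF_le hp k ha r (4 * b) n (by omega) hnM
      have h3 : (n : ℝ) ^ ((k : ℝ) * s - 1) ≤ (M : ℝ) ^ ((k : ℝ) * s - 1) :=
        Real.rpow_le_rpow (by positivity) (by exact_mod_cast hnM.le) hks1.le
      have h4 : c0 / 2 * (n : ℝ) ^ ((k : ℝ) * s - 1) ≤ g := by
        rw [hg]
        exact mul_le_mul_of_nonneg_left h3 (by positivity)
      have h5 : 2 * g ≤ cv M (GG A a r (4 * b) q₀ H₀) k n := by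
        refine le_trans (le_of_eq ?_) h1
        rw [hg]
        ring
      have h7 : g ≤ cv M (GG A a r (4 * b) q₀ H₀) k n - cv M (FF A a r (4 * b)) k n := by
        linarith
      calc g ^ 2 ≤ (cv M (GG A a r (4 * b) q₀ H₀) k n - cv M (FF A a r (4 * b)) k n) ^ 2 :=
            pow_le_pow_left₀ hgpos.le h7 2
        _ = _ := by ring)
  refine hcard.trans ?_
  have h2 : (M : ℝ) ^ (2 * (k : ℝ) * s - 1) = ((M : ℝ) ^ ((k : ℝ) * s - 1)) ^ 2 * M := by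
    rw [show 2 * (k : ℝ) * s - 1 = ((k : ℝ) * s - 1) + ((k : ℝ) * s - 1) + 1 by ring,
      Real.rpow_add hMpos, Real.rpow_add hMpos, Real.rpow_one]
    ring
  have h3 : C * (2 : ℝ) ^ (-(θ * (t₀ : ℝ))) * (M : ℝ) ^ (2 * (k : ℝ) * s - 1) / g ^ 2 =
      (4 * C / c0 ^ 2 * (20 * a * (r + 3) * 4)) * (2 : ℝ) ^ (-(θ * (t₀ : ℝ))) * b := by
    rw [h2, hg]
    have hne : ((M : ℝ) ^ ((k : ℝ) * s - 1)) ≠ 0 := hMs.ne'
    rw [show C * (2 : ℝ) ^ (-(θ * (t₀ : ℝ))) * (((M : ℝ) ^ ((k : ℝ) * s - 1)) ^ 2 * M) /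
        (c0 / 2 * (M : ℝ) ^ ((k : ℝ) * s - 1)) ^ 2 =
        4 * C / c0 ^ 2 * (2 : ℝ) ^ (-(θ * (t₀ : ℝ))) * M by
      field_simp; ring]
    rw [hMR]
    ring
  rw [h3]
  refine mul_le_mul_of_nonneg_right ?_ (by positivity)
  rw [lt_div_iff₀ hD] at ht₀1
  linarith [mul_comm (4 * C / c0 ^ 2 * (20 * (a : ℝ) * (r + 3) * 4))
    ((2 : ℝ) ^ (-(θ * (t₀ : ℝ))))]

end Pool.Agent.LibZT69
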