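import Pool.Agent.LibZT69.Y2
import Pool.Agent.LibZT69.Y3

set_option autoImplicit false

namespace Pool.Agent.LibZT69

open Pool.Agent.LibNZ69 Pool.Agent.LibZD69

/-- Row Y4 (SHORT). `win_aa`, `density3` with `S = {n : rp < c n^(ks-1)}`, `R = k (5 + r)`. -/
theorem main_aa {A : Finset ℕ} {a : ℕ} {s : ℝ} (hp : PB A a s) (k : ℕ) (hk : 2 ≤ k)
    (ha : k ≤ 5 * a) (hks : 1 < 2 * (k : ℝ) * (s - 1)) :
    ∃ c : ℝ, 0 < c ∧ ∀ ε : ℝ, 0 < ε → ∃ N₀ : ℕ, ∀ N : ℕ, N₀ ≤ N →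
      (1 - ε) * N ≤ (({n : ℕ | n ≤ N ∧
        c * (n : ℝ) ^ ((k : ℝ) * s - 1) ≤ ((rp A k n).ncard : ℝ)}.ncard : ℕ) : ℝ) := by
  classical
  obtain ⟨r, c, hc, h⟩ := win_aa hp k hk ha hks
  refine ⟨c, hc, fun ε hε => ?_⟩
  have hR : 1 ≤ k * (5 + r) := Nat.one_le_iff_ne_zero.2 (by positivity)
  obtain ⟨N₀, hN⟩ := density3
    {n : ℕ | ((rp A k n).ncard : ℝ) < c * (n : ℝ) ^ ((k : ℝ) * s - 1)} (k * (5 + r)) hR
    (fun η hη => by
      obtain ⟨b₀, hb⟩ := h η hη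
      refine ⟨b₀, fun b hb' => ?_⟩
      have h1 := hb b hb'
      refine le_trans (le_of_eq ?_) h1
      congr 2) ε hε
  refine ⟨N₀, fun N hN' => ?_⟩
  have h1 := hN N hN'
  have h2 := Finset.card_filter_add_card_filter_not (s := Finset.range (N + 1))
    (fun n : ℕ => n ∈ {n : ℕ | ((rp A k n).ncard : ℝ) < c * (n : ℝ) ^ ((k : ℝ) * s - 1)})
  rw [Finset.card_range] at h2
  have e : {n : ℕ | n ≤ N ∧ c * (n : ℝ) ^ ((k : ℝ) * s - 1) ≤ ((rp A k n).ncard : ℝ)} =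
      ((Finset.range (N + 1)).filter (fun n : ℕ =>
        ¬ n ∈ {n : ℕ | ((rp A k n).ncard : ℝ) < c * (n : ℝ) ^ ((k : ℝ) * s - 1)}) : Set ℕ) := by
    ext n
    simp only [Set.mem_ofPred_eq, Finset.coe_filter, Finset.mem_range, not_lt, Nat.lt_succ_iff]
  rw [e, Set.ncard_coe_finset]
  have h3 : (((Finset.range (N + 1)).filter (fun n : ℕ =>
      n ∈ {n : ℕ | ((rp A k n).ncard : ℝ) < c * (n : ℝ) ^ ((k : ℝ) * s - 1)})).card : ℝ) +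
      (((Finset.range (N + 1)).filter (fun n : ℕ =>
        ¬ n ∈ {n : ℕ | ((rp A k n).ncard : ℝ) < c * (n : ℝ) ^ ((k : ℝ) * s - 1)})).card : ℝ) =
      N + 1 := by
    exact_mod_cast h2
  have h4 : (((Finset.range (N + 1)).filter (fun n : ℕ =>
      n ∈ {n : ℕ | ((rp A k n).ncard : ℝ) < c * (n : ℝ) ^ ((k : ℝ) * s - 1)})).card : ℝ) ≤
      ε * N := by
    convert h1 using 3
  linarith

end Pool.Agent.LibZT69
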