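import Pool.Agent.LibZT69.Y1
import Pool.Agent.LibZT69.Y4
import Pool.Agent.LibZT69.J0
import Pool.Agent.LibZD69.J4

set_option autoImplicit false

namespace Pool.Agent.LibZT69

open Pool.Agent.LibNZ69 Pool.Agent.LibZD69

open Filter Topology

/-- Row Y5a (SHORT/MEDIUM; compare `main_dim2` in `LibZD69/J4.lean`, finished). `cert_of_dimH` for some
`σ > 2 τ` with `σ/2 < dimH`, `exists_PB2` with the bound `a` of the letters chosen `≥ 4, ≥ k`; `2 dimH ≤ s` by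
the maximality of `s`. -/
theorem exists_PB_dim (A : Finset ℕ) (hA : ∀ x ∈ A, 1 ≤ x) (h1 : 1 ∈ A) (h2 : 2 ∈ A) (k : ℕ)
    (τ : ℝ) (hτ : 1 / 2 < τ) (hd : ENNReal.ofReal τ < dimH (Pool.Agent.LibNW69.E A)) :
    ∃ (a : ℕ) (s : ℝ), PB A a s ∧ k ≤ 5 * a ∧ 2 * τ < s ∧
      2 * (dimH (Pool.Agent.LibNW69.E A)).toReal ≤ s := by
  have htop : dimH (Pool.Agent.LibNW69.E A) ≠ ⊤ := by
    have h3 : dimH (Pool.Agent.LibNW69.E A) ≤ dimH (Set.univ : Set ℝ) :=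
      dimH_mono (Set.subset_univ _)
    rw [Real.dimH_univ] at h3
    exact ne_top_of_le_ne_top ENNReal.one_ne_top h3
  have hcert : ∀ t : ℝ, 0 < t → t < 2 * (dimH (Pool.Agent.LibNW69.E A)).toReal →
      ∃ c : ℝ, 0 < c ∧ ∀ l : ℕ, c ≤ ZZ A t l := by
    intro t ht htd
    obtain ⟨c, hc0, hc⟩ := Pool.Agent.LibNW69.cert_of_dimH A hA t ht (by
      rw [ENNReal.ofReal_lt_iff_lt_toReal (by linarith) htop]
      linarith)
    refine ⟨c, hc0, fun l => ?_⟩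
    refine le_trans (hc l) (le_of_eq ?_)
    unfold ZZ
    refine Finset.sum_congr rfl fun w _ => ?_
    rw [act01]
    push_cast
    rfl
  have hd' : τ < (dimH (Pool.Agent.LibNW69.E A)).toReal := by
    rwa [ENNReal.ofReal_lt_iff_lt_toReal (by linarith) htop] at hd
  obtain ⟨σ, hσ1, hσ2⟩ := exists_between (show 2 * τ <
    2 * (dimH (Pool.Agent.LibNW69.E A)).toReal by linarith)
  obtain ⟨c, hc0, hc⟩ := hcert σ (by linarith) hσ2
  obtain ⟨s, hs, hmax⟩ := exists_PB2 A (max (4 + k) (A.sup id + 1)) h1 h2 (fun x hx => by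
      refine ⟨hA x hx, ?_⟩
      have h3 : id x ≤ A.sup id := Finset.le_sup hx
      have h4 : x ≤ A.sup id := h3
      have h5 := le_max_right (4 + k) (A.sup id + 1)
      omega) (by
      have h5 := le_max_left (4 + k) (A.sup id + 1)
      omega) σ c (by linarith) hc0 hc
  have hle : 2 * (dimH (Pool.Agent.LibNW69.E A)).toReal ≤ s := by
    refine le_of_forall_lt fun t ht => ?_
    obtain ⟨t', ht1, ht2⟩ := exists_between ht
    by_cases hp : 0 < t'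
    · obtain ⟨c', hc1, hc2⟩ := hcert t' hp ht2
      exact lt_of_lt_of_le ht1 (hmax t' c' hc1 hc2)
    · have := hs.s1
      linarith
  refine ⟨_, s, hs, ?_, by linarith, hle⟩
  have h5 := le_max_left (4 + k) (A.sup id + 1)
  omega

private theorem Y5_kpos (k : ℕ) (hk : 2 ≤ k) : (0 : ℝ) < (k : ℝ) := by
  have : 0 < k := by omega
  exact_mod_cast this

/-- Row Y5b (SHORT). `exists_PB_dim` with `τ = 1/2 + 1/(2k)`, `main_all`, `n^(2 k δ - 1) ≤ n^(k s - 1)` for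
`n ≥ 1`. -/
theorem all_dim (A : Finset ℕ) (hA : ∀ x ∈ A, 1 ≤ x) (h1 : 1 ∈ A) (h2 : 2 ∈ A) (k : ℕ)
    (hk : 2 ≤ k)
    (hd : ENNReal.ofReal (1 / 2 + 1 / (2 * (k : ℝ))) < dimH (Pool.Agent.LibNW69.E A)) :
    ∃ c : ℝ, 0 < c ∧ ∃ N₀ : ℕ, ∀ n : ℕ, N₀ ≤ n →
      c * (n : ℝ) ^ (2 * (k : ℝ) * (dimH (Pool.Agent.LibNW69.E A)).toReal - 1) ≤
        ((rp A k n).ncard : ℝ) := by
  have hk0 := Y5_kpos k hk
  have hτ : (1 / 2 : ℝ) < 1 / 2 + 1 / (2 * (k : ℝ)) := by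
    have : (0 : ℝ) < 1 / (2 * (k : ℝ)) := by positivity
    linarith
  obtain ⟨a, s, hs, hka, hτs, hDs⟩ := exists_PB_dim A hA h1 h2 k _ hτ hd
  have hks : 1 < (k : ℝ) * (s - 1) := by
    have h3 : 1 / (k : ℝ) < s - 1 := by
      have h4 : 2 * (1 / 2 + 1 / (2 * (k : ℝ))) = 1 + 1 / (k : ℝ) := by
        field_simp
      linarith
    have h5 := mul_lt_mul_of_pos_left h3 hk0
    rwa [mul_one_div, div_self hk0.ne'] at h5
  obtain ⟨c, hc, N₀, hN⟩ := main_all hs k hk hka hks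
  refine ⟨c, hc, max N₀ 1, fun n hn => le_trans ?_ (hN n (le_trans (le_max_left _ _) hn))⟩
  have h6 : (1 : ℝ) ≤ (n : ℝ) := by
    have h7 : 1 ≤ n := le_trans (le_max_right _ _) hn
    exact_mod_cast h7
  refine mul_le_mul_of_nonneg_left (Real.rpow_le_rpow_of_exponent_le h6 ?_) hc.le
  nlinarith [mul_le_mul_of_nonneg_left hDs hk0.le]

/-- Row Y5c (SHORT/MEDIUM). `exists_PB_dim` with `τ = 1/2 + 1/(4k)`, `main_aa`, and `#{n ≤ N} ≤ N + 1`
(compare the proof of `main_PB` in `LibZD69/I5.lean`). -/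
theorem aa_dim (A : Finset ℕ) (hA : ∀ x ∈ A, 1 ≤ x) (h1 : 1 ∈ A) (h2 : 2 ∈ A) (k : ℕ)
    (hk : 2 ≤ k)
    (hd : ENNReal.ofReal (1 / 2 + 1 / (4 * (k : ℝ))) < dimH (Pool.Agent.LibNW69.E A)) :
    ∃ c : ℝ, 0 < c ∧ Tendsto (fun N : ℕ => (({n : ℕ | n ≤ N ∧
        c * (n : ℝ) ^ (2 * (k : ℝ) * (dimH (Pool.Agent.LibNW69.E A)).toReal - 1) ≤
          ((rp A k n).ncard : ℝ)}.ncard : ℕ) : ℝ) / N) atTop (𝓝 1) := by
  have hk0 := Y5_kpos k hk
  have hτ : (1 / 2 : ℝ) < 1 / 2 + 1 / (4 * (k : ℝ)) := by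
    have : (0 : ℝ) < 1 / (4 * (k : ℝ)) := by positivity
    linarith
  obtain ⟨a, s, hs, hka, hτs, hDs⟩ := exists_PB_dim A hA h1 h2 k _ hτ hd
  have htop : dimH (Pool.Agent.LibNW69.E A) ≠ ⊤ := by
    have h3 : dimH (Pool.Agent.LibNW69.E A) ≤ dimH (Set.univ : Set ℝ) :=
      dimH_mono (Set.subset_univ _)
    rw [Real.dimH_univ] at h3
    exact ne_top_of_le_ne_top ENNReal.one_ne_top h3
  have hD : 1 / 2 < (dimH (Pool.Agent.LibNW69.E A)).toReal := by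
    rw [ENNReal.ofReal_lt_iff_lt_toReal (by linarith) htop] at hd
    linarith
  have hks : 1 < 2 * (k : ℝ) * (s - 1) := by
    have h3 : 1 / (2 * (k : ℝ)) < s - 1 := by
      have h4 : 2 * (1 / 2 + 1 / (4 * (k : ℝ))) = 1 + 1 / (2 * (k : ℝ)) := by
        field_simp
        ring
      linarith
    have h2k : (0 : ℝ) < 2 * (k : ℝ) := by positivity
    have h5 := mul_lt_mul_of_pos_left h3 h2k
    rwa [mul_one_div, div_self h2k.ne'] at h5
  obtain ⟨c, hc, hN⟩ := main_aa hs k hk hka hks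
  refine ⟨c, hc, ?_⟩
  have hk2 : (2 : ℝ) ≤ (k : ℝ) := by exact_mod_cast hk
  have hexp : 2 * (k : ℝ) * (dimH (Pool.Agent.LibNW69.E A)).toReal - 1 ≤ (k : ℝ) * s - 1 := by
    nlinarith [mul_le_mul_of_nonneg_left hDs hk0.le]
  have hexp0 : 0 < 2 * (k : ℝ) * (dimH (Pool.Agent.LibNW69.E A)).toReal - 1 := by
    nlinarith
  have hmono : ∀ n : ℕ, (n : ℝ) ^ (2 * (k : ℝ) * (dimH (Pool.Agent.LibNW69.E A)).toReal - 1) ≤
      (n : ℝ) ^ ((k : ℝ) * s - 1) := by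
    intro n
    rcases Nat.eq_zero_or_pos n with h0 | h0
    · subst h0
      rw [Nat.cast_zero, Real.zero_rpow hexp0.ne', Real.zero_rpow (by linarith)]
    · exact Real.rpow_le_rpow_of_exponent_le (by exact_mod_cast h0) hexp
  rw [Metric.tendsto_atTop]
  intro ε hε
  obtain ⟨N₀, hN0⟩ := hN (ε / 2) (by positivity)
  obtain ⟨N₁, hN₁⟩ := exists_nat_gt (2 / ε)
  refine ⟨max N₀ (N₁ + 1), fun N hNN => ?_⟩
  have h3 : N₀ ≤ N := le_trans (le_max_left _ _) hNN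
  have h4 : N₁ + 1 ≤ N := le_trans (le_max_right _ _) hNN
  have hNpos : (0 : ℝ) < (N : ℝ) := by
    have : 0 < N := by omega
    exact_mod_cast this
  have hNε : 2 / ε < (N : ℝ) := by
    have h5 : (N₁ : ℝ) ≤ (N : ℝ) := by
      have : N₁ ≤ N := by omega
      exact_mod_cast this
    linarith
  set P : ℝ := (({n : ℕ | n ≤ N ∧
        c * (n : ℝ) ^ (2 * (k : ℝ) * (dimH (Pool.Agent.LibNW69.E A)).toReal - 1) ≤
          ((rp A k n).ncard : ℝ)}.ncard : ℕ) : ℝ) with hP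
  have hfin : {n : ℕ | n ≤ N ∧
        c * (n : ℝ) ^ (2 * (k : ℝ) * (dimH (Pool.Agent.LibNW69.E A)).toReal - 1) ≤
          ((rp A k n).ncard : ℝ)}.Finite :=
    (Set.finite_Iic N).subset fun d hd => hd.1
  have hup : P ≤ N + 1 := by
    have h6 : {n : ℕ | n ≤ N ∧
        c * (n : ℝ) ^ (2 * (k : ℝ) * (dimH (Pool.Agent.LibNW69.E A)).toReal - 1) ≤
          ((rp A k n).ncard : ℝ)}.ncard ≤ ((Finset.range (N + 1) : Finset ℕ) : Set ℕ).ncard := by
      refine Set.ncard_le_ncard ?_ (Finset.finite_toSet _)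
      intro d hd
      rw [Finset.mem_coe, Finset.mem_range]
      have := hd.1
      omega
    rw [Set.ncard_coe_finset, Finset.card_range] at h6
    rw [hP]
    exact_mod_cast h6
  have hlow : (1 - ε / 2) * N ≤ P := by
    refine le_trans (hN0 N h3) ?_
    rw [hP]
    have h7 : {n : ℕ | n ≤ N ∧ c * (n : ℝ) ^ ((k : ℝ) * s - 1) ≤ ((rp A k n).ncard : ℝ)} ⊆
        {n : ℕ | n ≤ N ∧
          c * (n : ℝ) ^ (2 * (k : ℝ) * (dimH (Pool.Agent.LibNW69.E A)).toReal - 1) ≤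
          ((rp A k n).ncard : ℝ)} := by
      intro n hn
      exact ⟨hn.1, le_trans (mul_le_mul_of_nonneg_left (hmono n) hc.le) hn.2⟩
    exact_mod_cast Set.ncard_le_ncard h7 hfin
  have h8 : 1 < ε / 2 * N := by
    rw [div_lt_iff₀ hε] at hNε
    linarith
  have h9 : P / N - 1 = (P - N) / N := by
    field_simp
  rw [Real.dist_eq, h9, abs_div, abs_of_pos hNpos, div_lt_iff₀ hNpos, abs_lt]
  constructor <;> nlinarith

end Pool.Agent.LibZT69
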