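import Pool.Agent.LibZT69.Y1
import Pool.Agent.LibZT69.Y4
import Pool.Agent.LibZT69.J0
import Pool.Agent.LibZT69.C12
import Pool.Agent.LibNW69.E4

set_option autoImplicit false

namespace Pool.Agent.LibZT69

open Pool.Agent.LibNZ69 Pool.Agent.LibZD69

open Filter Topology

private theorem Y6_pos (c : ℝ) (hc : 0 < c) (e : ℝ) (n m : ℕ) (hn : 1 ≤ n)
    (h : c * (n : ℝ) ^ e ≤ (m : ℝ)) : 1 ≤ m := by
  have hn' : (0 : ℝ) < n := by exact_mod_cast hn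
  have h1 : 0 < c * (n : ℝ) ^ e := mul_pos hc (Real.rpow_pos_of_pos hn' e)
  have h2 : (0 : ℝ) < m := lt_of_lt_of_le h1 h
  exact_mod_cast h2

private theorem Y6_PB3 : ∃ s : ℝ, PB {1, 2, 3} 4 s ∧ 141 / 100 ≤ s := by
  have hc : ∀ l, (1 / 4 : ℝ) ≤ ZZ {1, 2, 3} (141 / 100) l := by
    intro l
    have h := Pool.Agent.LibNW69.cert_sum3 l
    unfold ZZ
    refine h.trans (le_of_eq (Finset.sum_congr rfl fun w _ => ?_))
    rw [act01]
    push_cast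
    rfl
  obtain ⟨s, hp, hmx⟩ := exists_PB2 {1, 2, 3} 4 (by simp) (by simp)
    (by intro x hx; simp only [Finset.mem_insert, Finset.mem_singleton] at hx; omega) le_rfl
    (141 / 100) (1 / 4) (by norm_num) (by norm_num) hc
  exact ⟨s, hp, hmx (141 / 100) (1 / 4) (by norm_num) hc⟩

private theorem Y6_all {A : Finset ℕ} {a : ℕ} {s : ℝ} (hp : PB A a s) (k : ℕ) (hk : 2 ≤ k)
    (ha : k ≤ 5 * a) (hks : 1 < (k : ℝ) * (s - 1)) :
    ∃ N₀ : ℕ, ∀ n : ℕ, N₀ ≤ n → 1 ≤ (rp A k n).ncard := by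
  obtain ⟨c, hc, N₀, hN⟩ := main_all hp k hk ha hks
  refine ⟨max N₀ 1, fun n hn => ?_⟩
  exact Y6_pos c hc _ n _ ((le_max_right _ _).trans hn) (hN n ((le_max_left _ _).trans hn))

private theorem Y6_dens (S T : ℕ → Prop) (h : ∀ n, 1 ≤ n → S n → T n)
    (hS : ∀ ε : ℝ, 0 < ε → ∃ N₀ : ℕ, ∀ N : ℕ, N₀ ≤ N →
      (1 - ε) * N ≤ (({n : ℕ | n ≤ N ∧ S n}.ncard : ℕ) : ℝ)) :
    Tendsto (fun N : ℕ => (({n : ℕ | n ≤ N ∧ T n}.ncard : ℕ) : ℝ) / N) atTop (𝓝 1) := by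
  rw [Metric.tendsto_atTop]
  intro ε hε
  obtain ⟨N₀, hN₀⟩ := hS (ε / 2) (by positivity)
  obtain ⟨K, hK⟩ := exists_nat_gt (2 / ε)
  refine ⟨max N₀ (K + 1), fun N hN => ?_⟩
  have h1 : N₀ ≤ N := (le_max_left _ _).trans hN
  have h2 : K + 1 ≤ N := (le_max_right _ _).trans hN
  have hNpos : (0 : ℝ) < N := by
    have : 0 < N := by omega
    exact_mod_cast this
  have hNK : 2 / ε < N := by
    have : (K : ℝ) ≤ N := by
      have : K ≤ N := by omega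
      exact_mod_cast this
    linarith
  have hN2 : 2 < N * ε := by
    rw [div_lt_iff₀ hε] at hNK
    exact hNK
  have hfin : ∀ P : ℕ → Prop, {n : ℕ | n ≤ N ∧ P n}.Finite := fun P =>
    (Set.finite_Iic N).subset fun n hn => hn.1
  have h3 : {n : ℕ | n ≤ N ∧ S n}.ncard ≤ {n : ℕ | n ≤ N ∧ T n}.ncard + 1 := by
    have h4 : {n : ℕ | n ≤ N ∧ S n} ⊆ insert 0 {n : ℕ | n ≤ N ∧ T n} := by
      rintro n ⟨hn, hs⟩
      rcases Nat.eq_zero_or_pos n with h0 | h0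
      · exact Or.inl h0
      · exact Or.inr ⟨hn, h n h0 hs⟩
    exact (Set.ncard_le_ncard h4 ((hfin T).insert 0)).trans (Set.ncard_insert_le _ _)
  have h5 : {n : ℕ | n ≤ N ∧ T n}.ncard ≤ N + 1 := by
    have h6 : {n : ℕ | n ≤ N ∧ T n} ⊆ (Finset.range (N + 1) : Set ℕ) := by
      rintro n ⟨hn, -⟩
      rw [Finset.mem_coe, Finset.mem_range]
      omega
    calc {n : ℕ | n ≤ N ∧ T n}.ncard ≤ (Finset.range (N + 1) : Set ℕ).ncard :=
          Set.ncard_le_ncard h6 (Finset.finite_toSet _)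
      _ = N + 1 := by rw [Set.ncard_coe_finset, Finset.card_range]
  have h7 : (({n : ℕ | n ≤ N ∧ S n}.ncard : ℕ) : ℝ) ≤ ({n : ℕ | n ≤ N ∧ T n}.ncard : ℕ) + 1 := by
    exact_mod_cast h3
  have h8 : (({n : ℕ | n ≤ N ∧ T n}.ncard : ℕ) : ℝ) ≤ N + 1 := by exact_mod_cast h5
  have h9 := hN₀ N h1
  rw [Real.dist_eq, abs_lt]
  constructor
  · rw [lt_sub_iff_add_lt, lt_div_iff₀ hNpos]
    nlinarith
  · rw [sub_lt_iff_lt_add, div_lt_iff₀ hNpos]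
    nlinarith

/-- Row Y6a (SHORT). `LibNW69.cert_sum3` (`act01`: `(act w (0,1)).2 = kk w`; `LibNW69.letters {1,2,3}`),
`exists_PB2` with `a = 4`, `σ = 141/100`; `3 (s - 1) > 1`; `main_all` with `k = 3`; for `n ≥ 1`
`c n^(3s-1) > 0`, so `ncard ≥ 1`. -/
theorem three_all : ∃ N₀ : ℕ, ∀ n : ℕ, N₀ ≤ n → 1 ≤ (rp {1, 2, 3} 3 n).ncard := by
  obtain ⟨s, hp, hs⟩ := Y6_PB3
  exact Y6_all hp 3 (by norm_num) (by norm_num) (by push_cast; linarith)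

/-- Row Y6b (SHORT/MEDIUM). The same with `main_aa`, `k = 2`. -/
theorem three_aa : Tendsto (fun N : ℕ => (({n : ℕ | n ≤ N ∧
    1 ≤ (rp {1, 2, 3} 2 n).ncard}.ncard : ℕ) : ℝ) / N) atTop (𝓝 1) := by
  obtain ⟨s, hp, hs⟩ := Y6_PB3
  obtain ⟨c, hc, haa⟩ := main_aa hp 2 (by norm_num) (by norm_num) (by push_cast; linarith)
  exact Y6_dens _ _ (fun n hn h => Y6_pos c hc _ n _ hn h) haa

/-- Row Y6c (SHORT). `cert12`, `exists_PB2` with `a = 4`, `σ = 53/50`; `17 (s - 1) ≥ 51/50 > 1`. -/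
theorem two_all : ∃ N₀ : ℕ, ∀ n : ℕ, N₀ ≤ n → 1 ≤ (rp {1, 2} 17 n).ncard := by
  obtain ⟨c, hc, hZ⟩ := cert12
  obtain ⟨s, hp, hmx⟩ := exists_PB2 {1, 2} 4 (by simp) (by simp)
    (by intro x hx; simp only [Finset.mem_insert, Finset.mem_singleton] at hx; omega) le_rfl
    (53 / 50) c (by norm_num) hc hZ
  have hs : 53 / 50 ≤ s := hmx (53 / 50) c hc hZ
  exact Y6_all hp 17 (by norm_num) (by norm_num) (by push_cast; linarith)

end Pool.Agent.LibZT69
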